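import Mathlib

open Finset MeasureTheory
open scoped InnerProductSpace

namespace Pool.Agent.W11.Pre37

variable {E : Type*} [NormedAddCommGroup E] [InnerProductSpace ℝ E]

/-- The cone inequality. -/
lemma cone_ineq {e u w : E} (he : ‖e‖ = 1) {g : ℝ} (hg : 0 < g)
    (hu : g * ‖u‖ ≤ ⟪e, u⟫_ℝ) :
    -((1 + 1 / (2 * g)) * ‖u‖ * (‖w‖ - ⟪e, w⟫_ℝ)) ≤ ⟪u, w⟫_ℝ := by
  set a : ℝ := ⟪e, w⟫_ℝ with ha
  have hee : ⟪e, e⟫_ℝ = 1 := by rw [real_inner_self_eq_norm_sq, he]; norm_num
  have haw : a ≤ ‖w‖ := by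
    have := real_inner_le_norm e w
    rw [he, one_mul] at this
    exact this
  have hD : 0 ≤ ‖w‖ - a := by linarith
  have hu0 := norm_nonneg u
  have hg2 : 0 < 1 / (2 * g) := by positivity
  rcases lt_or_ge a 0 with h | h
  · have h1 : -(‖u‖ * ‖w‖) ≤ ⟪u, w⟫_ℝ := by
      have := abs_real_inner_le_norm u w
      have := neg_abs_le (⟪u, w⟫_ℝ)
      linarith
    have h2 : ‖u‖ * ‖w‖ ≤ (1 + 1 / (2 * g)) * ‖u‖ * (‖w‖ - a) := by
      have h3 : ‖u‖ * ‖w‖ ≤ ‖u‖ * (‖w‖ - a) := by
        apply mul_le_mul_of_nonneg_left _ hu0; linarith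
      have h4 : ‖u‖ * (‖w‖ - a) ≤ (1 + 1 / (2 * g)) * (‖u‖ * (‖w‖ - a)) := by
        have : 0 ≤ ‖u‖ * (‖w‖ - a) := mul_nonneg hu0 hD
        nlinarith
      nlinarith
    linarith
  · -- w' = w - a e
    set w' : E := w - a • e with hw'
    have hw : w = a • e + w' := by rw [hw']; abel
    have horth : ⟪e, w'⟫_ℝ = 0 := by
      rw [hw', inner_sub_right, inner_smul_right, hee]; ring
    have hn : ‖w'‖ ^ 2 = ‖w‖ ^ 2 - a ^ 2 := by
      have h5 : ⟪w', w'⟫_ℝ = ‖w‖ ^ 2 - a ^ 2 := by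
        have : ⟪w', w'⟫_ℝ = ⟪w', w⟫_ℝ - a * ⟪w', e⟫_ℝ := by
          conv_lhs => rw [hw']
          rw [← hw', inner_sub_right, inner_smul_right]
        rw [this, real_inner_comm e w', horth, hw', inner_sub_left, inner_smul_left,
          real_inner_self_eq_norm_sq]
        simp only [conj_trivial]
        rw [← ha]; ring
      rw [← real_inner_self_eq_norm_sq, h5]
    set D : ℝ := ‖w‖ - a with hDdef
    have hn2 : ‖w'‖ ^ 2 = D ^ 2 + 2 * a * D := by
      rw [hn, hDdef]; ring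
    have hbound : ‖w'‖ ≤ D + g * a + D / (2 * g) := by
      have hr : 0 ≤ D + g * a + D / (2 * g) := by positivity
      apply abs_le_of_sq_le_sq' _ hr |>.2
      rw [hn2]
      have hx : (D + g * a + D / (2 * g)) ^ 2 = D ^ 2 + 2 * D * (g * a + D / (2 * g))
        + (g * a + D / (2 * g)) ^ 2 := by ring
      rw [hx]
      have hy : 2 * a * D ≤ (g * a + D / (2 * g)) ^ 2 := by
        have h6 : (g * a + D / (2 * g)) ^ 2 - (g * a - D / (2 * g)) ^ 2 = 2 * a * D := by
          field_simp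
          ring
        nlinarith [sq_nonneg (g * a - D / (2 * g))]
      have hz : 0 ≤ 2 * D * (g * a + D / (2 * g)) := by positivity
      linarith
    have h7 : ⟪u, w⟫_ℝ = a * ⟪e, u⟫_ℝ + ⟪u, w'⟫_ℝ := by
      conv_lhs => rw [hw]
      rw [inner_add_right, inner_smul_right, real_inner_comm e u]
    have h8 : -(‖u‖ * ‖w'‖) ≤ ⟪u, w'⟫_ℝ := by
      have := abs_real_inner_le_norm u w'
      have := neg_abs_le (⟪u, w'⟫_ℝ)
      linarith
    have h9 : a * (g * ‖u‖) ≤ a * ⟪e, u⟫_ℝ := mul_le_mul_of_nonneg_left hu h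
    have h10 : ‖u‖ * ‖w'‖ ≤ ‖u‖ * (D + g * a + D / (2 * g)) :=
      mul_le_mul_of_nonneg_left hbound hu0
    rw [h7]
    have h11 : (1 + 1 / (2 * g)) * ‖u‖ * D = ‖u‖ * (D + g * a + D / (2 * g)) - a * (g * ‖u‖) := by
      ring
    linarith

/-- The direction `e` and `e'` are close if `w` is nearly parallel to both. -/
lemma norm_mul_sub_sq_le {e e' w : E} (he : ‖e‖ = 1) (he' : ‖e'‖ = 1) :
    ‖w‖ * ‖e - e'‖ ^ 2 ≤ 4 * ((‖w‖ - ⟪e, w⟫_ℝ) + (‖w‖ - ⟪e', w⟫_ℝ)) := by
  by_cases hw : ‖w‖ = 0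
  · have : w = 0 := norm_eq_zero.1 hw
    subst this
    simp
  have hwpos : 0 < ‖w‖ := lt_of_le_of_ne (norm_nonneg w) (Ne.symm hw)
  set o : E := (‖w‖)⁻¹ • w with ho
  have hwo : w = ‖w‖ • o := by rw [ho, smul_smul, mul_inv_cancel₀ hw, one_smul]
  have hon : ‖o‖ = 1 := by rw [ho, norm_smul, norm_inv, norm_norm, inv_mul_cancel₀ hw]
  have h1 : ∀ f : E, ‖f‖ = 1 → ‖f - o‖ ^ 2 = 2 - 2 * ⟪f, o⟫_ℝ := by
    intro f hf
    rw [@norm_sub_sq_real E _ _ f o, hf, hon]; ring
  have h2 : ‖e - e'‖ ≤ ‖e - o‖ + ‖e' - o‖ := by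
    have : e - e' = (e - o) - (e' - o) := by abel
    rw [this]; exact norm_sub_le _ _
  have h3 : ‖e - e'‖ ^ 2 ≤ 2 * (‖e - o‖ ^ 2 + ‖e' - o‖ ^ 2) := by
    have := norm_nonneg (e - e')
    nlinarith [sq_nonneg (‖e - o‖ - ‖e' - o‖), norm_nonneg (e - o), norm_nonneg (e' - o)]
  have h4 : ∀ f : E, ⟪f, w⟫_ℝ = ‖w‖ * ⟪f, o⟫_ℝ := by
    intro f
    conv_lhs => rw [hwo]
    rw [inner_smul_right]
  rw [h1 e he, h1 e' he'] at h3
  rw [h4 e, h4 e']
  have := mul_le_mul_of_nonneg_left h3 hwpos.le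
  nlinarith

/-- `∫_0^h s 1[s ≤ x] ds = c(x)^2/2` with `c(x) = max 0 (min x h)`. -/
lemma integral_mul_ite_le {h : ℝ} (hh : 0 ≤ h) (x : ℝ) :
    ∫ s in Set.Ioc (0 : ℝ) h, s * (if s ≤ x then (1 : ℝ) else 0) = (max 0 (min x h)) ^ 2 / 2 := by
  set c : ℝ := max 0 (min x h) with hc
  have hc0 : 0 ≤ c := le_max_left _ _
  have hch : c ≤ h := max_le hh (min_le_right _ _)
  have h1 : ∫ s in Set.Ioc (0 : ℝ) h, s * (if s ≤ x then (1 : ℝ) else 0)
      = ∫ s in Set.Ioc (0 : ℝ) c, s := by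
    have h2 : ∀ s ∈ Set.Ioc (0 : ℝ) h, s * (if s ≤ x then (1 : ℝ) else 0)
        = (Set.Ioc (0 : ℝ) c).indicator (fun s => s) s := by
      intro s hs
      by_cases hsx : s ≤ x
      · have hsc : s ∈ Set.Ioc (0 : ℝ) c := ⟨hs.1, le_max_of_le_right (le_min hsx hs.2)⟩
        rw [if_pos hsx, Set.indicator_of_mem hsc, mul_one]
      · have hsc : s ∉ Set.Ioc (0 : ℝ) c := by
          rintro ⟨h3, h4⟩
          rcases le_max_iff.1 h4 with h5 | h5
          · linarith
          · exact hsx (h5.trans (min_le_left _ _))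
        rw [if_neg hsx, Set.indicator_of_notMem hsc, mul_zero]
    rw [setIntegral_congr_fun measurableSet_Ioc h2, setIntegral_indicator measurableSet_Ioc]
    congr 1
    have : Set.Ioc (0 : ℝ) h ∩ Set.Ioc 0 c = Set.Ioc 0 c :=
      Set.inter_eq_right.2 (Set.Ioc_subset_Ioc le_rfl hch)
    rw [this]
  rw [h1, ← intervalIntegral.integral_of_le hc0, integral_id]
  ring

lemma clamp_ineq {h p q : ℝ} (hpq : p ≤ q) :
    (max 0 (min q h)) ^ 2 / 2 - 2 * ((max 0 (min p h)) ^ 2 / 2) ≤ (q - p) ^ 2 := by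
  have h1 : max 0 (min q h) - max 0 (min p h) ≤ q - p := by
    rcases le_total p h with h2 | h2 <;> rcases le_total q h with h3 | h3 <;>
    rcases le_total 0 (min p h) with h4 | h4 <;> rcases le_total 0 (min q h) with h5 | h5 <;>
    simp_all only [min_eq_left, min_eq_right, max_eq_left, max_eq_right] <;> linarith
  have h2 : max 0 (min p h) ≤ max 0 (min q h) := max_le_max le_rfl (min_le_min hpq le_rfl)
  have h3 : (max 0 (min q h) - max 0 (min p h)) ^ 2 ≤ (q - p) ^ 2 := by
    apply pow_le_pow_left₀ (by linarith) h1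
  nlinarith [sq_nonneg (max 0 (min q h) - 2 * max 0 (min p h))]

/-- **Threshold lemma.** -/
lemma exists_threshold {ι : Type*} [Countable ι] {a p q : ι → ℝ} (ha : ∀ k, 0 ≤ a k)
    (hs : Summable a) (hpq : ∀ k, p k ≤ q k) (hsq : Summable fun k => a k * (q k - p k) ^ 2)
    {δ : ℝ} (hδ : 0 < δ) :
    ∃ th ∈ Set.Icc (δ / 2) δ,
      ∑' k, a k * (if p k < th ∧ th ≤ q k then 1 else 0)
        ≤ ∑' k, a k * (if th ≤ p k then 1 else 0) + 8 / δ ^ 2 * ∑' k, a k * (q k - p k) ^ 2 := by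
  classical
  set h : ℝ := δ / 2 with hh
  have hh0 : 0 < h := by positivity
  set I : ℝ := ∑' k, a k * (q k - p k) ^ 2 with hI
  by_contra hcon
  push Not at hcon
  -- the two indicator sums
  have hs1 : ∀ th : ℝ, Summable fun k => a k * (if th ≤ q k then (1 : ℝ) else 0) := by
    intro th
    refine Summable.of_nonneg_of_le (fun k => ?_) (fun k => ?_) hs
    · have := ha k; split_ifs <;> simp [this]
    · have := ha k; split_ifs <;> simp [this]
  have hs2 : ∀ th : ℝ, Summable fun k => a k * (if th ≤ p k then (1 : ℝ) else 0) := by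
    intro th
    refine Summable.of_nonneg_of_le (fun k => ?_) (fun k => ?_) hs
    · have := ha k; split_ifs <;> simp [this]
    · have := ha k; split_ifs <;> simp [this]
  have hsplit : ∀ th : ℝ, ∀ k, a k * (if p k < th ∧ th ≤ q k then (1 : ℝ) else 0)
      = a k * (if th ≤ q k then 1 else 0) - a k * (if th ≤ p k then 1 else 0) := by
    intro th k
    rw [← mul_sub]
    congr 1
    by_cases h1 : th ≤ p k
    · have h2 : th ≤ q k := h1.trans (hpq k)
      rw [if_neg (fun h => absurd h.1 (not_lt.2 h1)), if_pos h2, if_pos h1]; ring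
    · by_cases h2 : th ≤ q k
      · rw [if_pos ⟨not_le.1 h1, h2⟩, if_pos h2, if_neg h1]; ring
      · rw [if_neg (fun h => absurd h.2 h2), if_neg h2, if_neg h1]; ring
  let F : ι → ℝ → ℝ := fun k s => a k * (s * (if s ≤ q k - h then 1 else 0))
      - 2 * (a k * (s * (if s ≤ p k - h then 1 else 0)))
  have hFint1 : ∀ x : ℝ, IntegrableOn (fun s : ℝ => s * (if s ≤ x then (1 : ℝ) else 0))
      (Set.Ioc 0 h) := by
    intro x
    have hm : Measurable (fun s : ℝ => s * (if s ≤ x then (1 : ℝ) else 0)) :=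
      measurable_id.mul (Measurable.ite measurableSet_Iic measurable_const measurable_const)
    refine Measure.integrableOn_of_bounded (M := h) (by simp) hm.aestronglyMeasurable ?_
    refine (ae_restrict_iff' measurableSet_Ioc).2 (Filter.Eventually.of_forall ?_)
    intro s hs'
    split_ifs
    · rw [mul_one, Real.norm_eq_abs, abs_of_pos hs'.1]; exact hs'.2
    · simp [hh0.le]
  have hFint : ∀ k, IntegrableOn (F k) (Set.Ioc 0 h) := by
    intro k
    exact ((hFint1 (q k - h)).const_mul (a k)).sub (((hFint1 (p k - h)).const_mul (a k)).const_mul 2)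
  have hFval : ∀ k, ∫ s in Set.Ioc 0 h, F k s
      = a k * ((max 0 (min (q k - h) h)) ^ 2 / 2 - 2 * ((max 0 (min (p k - h) h)) ^ 2 / 2)) := by
    intro k
    have h1 : ∫ s in Set.Ioc 0 h, F k s
        = ∫ s in Set.Ioc 0 h, (a k * (s * (if s ≤ q k - h then 1 else 0))
      - 2 * (a k * (s * (if s ≤ p k - h then 1 else 0)))) := rfl
    rw [h1, integral_sub, integral_const_mul, integral_const_mul, integral_const_mul,
      integral_mul_ite_le hh0.le, integral_mul_ite_le hh0.le]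
    · ring
    · exact (hFint1 (q k - h)).const_mul (a k)
    · exact ((hFint1 (p k - h)).const_mul (a k)).const_mul 2
  have hFle : ∀ k, ∫ s in Set.Ioc 0 h, F k s ≤ a k * (q k - p k) ^ 2 := by
    intro k
    rw [hFval k]
    apply mul_le_mul_of_nonneg_left _ (ha k)
    have := clamp_ineq (h := h) (p := p k - h) (q := q k - h) (by linarith [hpq k])
    have e : q k - h - (p k - h) = q k - p k := by ring
    rw [e] at this
    exact this
  have hFnorm : ∀ k, ∀ s ∈ Set.Ioc 0 h, ‖F k s‖ ≤ 3 * h * a k := by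
    intro k s hs'
    have h1 : ∀ x : ℝ, 0 ≤ s * (if s ≤ x then (1 : ℝ) else 0) ∧
        s * (if s ≤ x then (1 : ℝ) else 0) ≤ h := by
      intro x
      split_ifs
      · rw [mul_one]; exact ⟨hs'.1.le, hs'.2⟩
      · rw [mul_zero]; exact ⟨le_rfl, hh0.le⟩
    have h2 := h1 (q k - h)
    have h3 := h1 (p k - h)
    have h4 := mul_le_mul_of_nonneg_left h2.2 (ha k)
    have h5 := mul_le_mul_of_nonneg_left h3.2 (ha k)
    have h6 := mul_nonneg (ha k) h2.1
    have h7 := mul_nonneg (ha k) h3.1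
    rw [Real.norm_eq_abs, abs_le]
    constructor <;> simp only [F] <;> nlinarith
  have hsumnorm : Summable fun k => ∫ s in Set.Ioc 0 h, ‖F k s‖ := by
    refine Summable.of_nonneg_of_le (fun k => integral_nonneg fun _ => norm_nonneg _)
      (fun k => ?_) (hs.mul_left (3 * h * h))
    have h1 : ∫ s in Set.Ioc 0 h, ‖F k s‖ ≤ ∫ _s in Set.Ioc 0 h, 3 * h * a k :=
      setIntegral_mono_on (hFint k).norm (integrableOn_const (by simp)) measurableSet_Ioc
        (hFnorm k)
    refine h1.trans (le_of_eq ?_)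
    rw [setIntegral_const]
    simp [Measure.real, hh0.le]
    ring
  have hHS := hasSum_integral_of_summable_integral_norm hFint hsumnorm
  have hle : ∫ s in Set.Ioc 0 h, ∑' k, F k s ≤ I := hasSum_le hFle hHS hsq.hasSum
  -- the lower bound
  have hφ : ∀ s : ℝ, ∑' k, F k s = s * (∑' k, a k * (if p k < h + s ∧ h + s ≤ q k then 1 else 0)
      - ∑' k, a k * (if h + s ≤ p k then 1 else 0)) := by
    intro s
    have e1 : ∀ k, F k s = s * ((a k * (if p k < h + s ∧ h + s ≤ q k then 1 else 0))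
        - a k * (if h + s ≤ p k then 1 else 0)) := by
      intro k
      rw [hsplit (h + s) k]
      have e2 : (s ≤ q k - h) = (h + s ≤ q k) := by
        apply propext; constructor <;> intro _ <;> linarith
      have e3 : (s ≤ p k - h) = (h + s ≤ p k) := by
        apply propext; constructor <;> intro _ <;> linarith
      simp only [F, e2, e3]
      ring
    rw [tsum_congr e1, tsum_mul_left]
    congr 1
    refine Summable.tsum_sub ?_ (hs2 (h + s))
    exact ((hs1 (h + s)).sub (hs2 (h + s))).congr (fun k => (hsplit (h + s) k).symm)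
  have hpos : ∀ s ∈ Set.Ioc 0 h, s * (8 / δ ^ 2 * I) < ∑' k, F k s := by
    intro s hs'
    rw [hφ s]
    apply mul_lt_mul_of_pos_left _ hs'.1
    have := hcon (h + s) ⟨by linarith [hs'.1], by rw [hh] at hs' ⊢; linarith [hs'.2]⟩
    linarith
  have hmon1 : Antitone fun th : ℝ => ∑' k, a k * (if th ≤ q k then (1 : ℝ) else 0) := by
    intro x y hxy
    refine Summable.tsum_le_tsum (fun k => ?_) (hs1 y) (hs1 x)
    apply mul_le_mul_of_nonneg_left _ (ha k)
    by_cases h1 : y ≤ q k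
    · rw [if_pos h1, if_pos (hxy.trans h1)]
    · rw [if_neg h1]; split_ifs <;> norm_num
  have hmon2 : Antitone fun th : ℝ => ∑' k, a k * (if th ≤ p k then (1 : ℝ) else 0) := by
    intro x y hxy
    refine Summable.tsum_le_tsum (fun k => ?_) (hs2 y) (hs2 x)
    apply mul_le_mul_of_nonneg_left _ (ha k)
    by_cases h1 : y ≤ p k
    · rw [if_pos h1, if_pos (hxy.trans h1)]
    · rw [if_neg h1]; split_ifs <;> norm_num
  have hmeas : Measurable (fun s => ∑' k, F k s) := by
    have e1 : (fun s => ∑' k, F k s) = fun s : ℝ => s * (∑' k, a k * (if h + s ≤ q k then (1 : ℝ) else 0)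
        - 2 * ∑' k, a k * (if h + s ≤ p k then (1 : ℝ) else 0)) := by
      funext s
      rw [hφ s]
      congr 1
      rw [tsum_congr (hsplit (h + s)), (hs1 (h + s)).tsum_sub (hs2 (h + s))]
      ring
    rw [e1]
    exact measurable_id.mul ((hmon1.measurable.comp (measurable_const_add h)).sub
      ((hmon2.measurable.comp (measurable_const_add h)).const_mul 2))
  have hFs : ∀ s ∈ Set.Ioc 0 h, Summable fun k => F k s := by
    intro s hs'
    exact Summable.of_norm_bounded (hs.mul_left (3 * h)) (fun k => hFnorm k s hs')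
  have hint : IntegrableOn (fun s => ∑' k, F k s) (Set.Ioc 0 h) := by
    refine Measure.integrableOn_of_bounded (M := 3 * h * ∑' k, a k) (by simp)
      hmeas.aestronglyMeasurable ?_
    refine (ae_restrict_iff' measurableSet_Ioc).2 (Filter.Eventually.of_forall ?_)
    intro s hs'
    rw [← tsum_mul_left]
    exact tsum_of_norm_bounded (hs.mul_left (3 * h)).hasSum (fun k => hFnorm k s hs')
  have hint2 : IntegrableOn (fun s : ℝ => s * (8 / δ ^ 2 * I)) (Set.Ioc 0 h) :=
    (intervalIntegrable_iff_integrableOn_Ioc_of_le hh0.le).1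
      ((continuous_id.mul continuous_const).intervalIntegrable 0 h)
  have hlt : 0 < ∫ s in (0 : ℝ)..h, ((∑' k, F k s) - s * (8 / δ ^ 2 * I)) := by
    apply intervalIntegral.intervalIntegral_pos_of_pos_on
    · exact (intervalIntegrable_iff_integrableOn_Ioc_of_le hh0.le).2 (hint.sub hint2)
    · intro s hs'
      have := hpos s ⟨hs'.1, hs'.2.le⟩
      linarith
    · exact hh0
  rw [intervalIntegral.integral_of_le hh0.le, integral_sub hint hint2] at hlt
  have hval : ∫ s in Set.Ioc 0 h, s * (8 / δ ^ 2 * I) = I := by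
    rw [← intervalIntegral.integral_of_le hh0.le, intervalIntegral.integral_mul_const, integral_id]
    rw [hh]; field_simp; ring
  rw [hval] at hlt
  linarith

/-- **Count lemma.** Points `n` of a cube of side `L` in direction `w`, no two of which are
joined by a vector `t w`, `1 ≤ t < L`. -/
lemma card_of_gap {d : ℕ} (hd : 1 ≤ d) {L N : ℕ} (hL : 1 ≤ L) {w v : Fin d → ℤ}
    (hw : ∀ l, |w l| ≤ N) (S : Finset (Fin d → ℤ))
    (hS : ∀ n ∈ S, ∀ l, (L : ℤ) * v l ≤ n l ∧ n l < L * (v l + 1))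
    (hgap : ∀ n ∈ S, ∀ t : ℕ, 1 ≤ t → t < L → n + (t : ℤ) • w ∉ S) :
    S.card ≤ (2 * N + 1) ^ d * L ^ (d - 1) := by
  classical
  have hinj : Set.InjOn (fun p : (Fin d → ℤ) × ℕ => p.1 + (p.2 : ℤ) • w)
      ((S ×ˢ Finset.range L : Finset ((Fin d → ℤ) × ℕ)) : Set ((Fin d → ℤ) × ℕ)) := by
    have key : ∀ n ∈ S, ∀ n' ∈ S, ∀ t t' : ℕ, t < L → t' ≤ t →
        n + (t : ℤ) • w = n' + (t' : ℤ) • w → n = n' ∧ t = t' := by
      intro n hn n' hn' t t' ht htt h
      have h1 : n' = n + ((t - t' : ℕ) : ℤ) • w := by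
        have : ((t - t' : ℕ) : ℤ) = (t : ℤ) - t' := by push_cast [htt]; ring
        rw [this, sub_smul]
        have h2 : n' = n + (t : ℤ) • w - (t' : ℤ) • w := by rw [h]; abel
        rw [h2]; abel
      rcases Nat.eq_zero_or_pos (t - t') with h0 | h0
      · have : t = t' := by omega
        subst this
        exact ⟨by simpa using h, rfl⟩
      · exact absurd hn' (h1 ▸ hgap n hn (t - t') h0 (by omega))
    rintro ⟨n, t⟩ hp ⟨n', t'⟩ hp' h
    simp only [Finset.coe_product, Set.mem_prod, Finset.mem_coe, Finset.mem_range] at hp hp'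
    simp only at h
    rcases le_total t' t with htt | htt
    · obtain ⟨h1, h2⟩ := key n hp.1 n' hp'.1 t t' hp.2 htt h
      rw [h1, h2]
    · obtain ⟨h1, h2⟩ := key n' hp'.1 n hp.1 t' t hp'.2 htt h.symm
      rw [h1, h2]
  let box : Finset (Fin d → ℤ) := Fintype.piFinset fun l =>
    Finset.Ico ((L : ℤ) * v l - N * L) (L * (v l + 1) + N * L)
  have hsub : (S ×ˢ Finset.range L).image (fun p => p.1 + (p.2 : ℤ) • w) ⊆ box := by
    intro z hz
    obtain ⟨⟨n, t⟩, hp, rfl⟩ := Finset.mem_image.1 hz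
    rw [Finset.mem_product, Finset.mem_range] at hp
    rw [Fintype.mem_piFinset]
    intro l
    have h1 := hS n hp.1 l
    have h2 : |(t : ℤ) * w l| ≤ N * L := by
      rw [abs_mul, abs_of_nonneg (by positivity : (0 : ℤ) ≤ t), mul_comm]
      exact mul_le_mul (hw l) (by exact_mod_cast hp.2.le) (by positivity) (by positivity)
    have h3 := abs_le.1 h2
    have h4 : (n + (t : ℤ) • w) l = n l + t * w l := by simp
    rw [Finset.mem_Ico]
    change _ ≤ (n + (t : ℤ) • w) l ∧ (n + (t : ℤ) • w) l < _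
    rw [h4]
    constructor <;> linarith [h1.1, h1.2, h3.1, h3.2]
  have hcard : S.card * L ≤ ((2 * N + 1) * L) ^ d := by
    have h1 := Finset.card_le_card hsub
    rw [Finset.card_image_of_injOn hinj, Finset.card_product, Finset.card_range] at h1
    refine h1.trans (le_of_eq ?_)
    rw [Fintype.card_piFinset]
    have : ∀ l : Fin d, (Finset.Ico ((L : ℤ) * v l - N * L) (L * (v l + 1) + N * L)).card
        = (2 * N + 1) * L := by
      intro l
      rw [Int.card_Ico]
      have : (L : ℤ) * (v l + 1) + N * L - (L * v l - N * L) = (((2 * N + 1) * L : ℕ) : ℤ) := by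
        push_cast; ring
      rw [this, Int.toNat_natCast]
    rw [Finset.prod_congr rfl fun l _ => this l, Finset.prod_const, Finset.card_univ,
      Fintype.card_fin]
  have h2 : ((2 * N + 1) * L) ^ d = ((2 * N + 1) ^ d * L ^ (d - 1)) * L := by
    rw [mul_pow, mul_assoc, ← pow_succ, Nat.sub_add_cancel hd]
  rw [h2] at hcard
  exact Nat.le_of_mul_le_mul_right hcard hL

end Pool.Agent.W11.Pre37
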