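import Pool.Agent.W11.Defs
import Pool.Agent.W11.Pre37

/-!
W11, module M10: the count lemma (points of a cube with gaps in a fixed direction).
-/

set_option autoImplicit false

open Finset
open scoped ENNReal

namespace Pool.Agent.W11

/-- Count lemma in natural numbers. -/
lemma count_nat (d N : ℕ) (w : Pt d) (i : ℕ) (v : Pt d) (P : Set (Pt d))
    (F : Finset (Pt d)) (hw : ∀ l, |w l| ≤ N) (hF : F ⊆ W 0 i v) (hP : ∀ n ∈ F, n ∈ P)
    (hgap : ∀ n ∈ F, ∀ t : ℕ, 1 ≤ t → t < 4 ^ i → n + (t : ℤ) • w ∉ P) :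
    F.card * 4 ^ i ≤ (2 * N + 1) ^ d * (4 ^ i) ^ d := by
  have hL : 1 ≤ 4 ^ i := Nat.one_le_pow _ _ (by norm_num)
  rcases Nat.eq_zero_or_pos d with hd | hd
  · subst hd
    rcases Nat.eq_zero_or_pos i with hi | hi
    · subst hi
      have : F.card ≤ 1 := Finset.card_le_one.2 fun a _ b _ => Subsingleton.elim a b
      simpa using this
    · have hF0 : F = ∅ := by
        rw [Finset.eq_empty_iff_forall_notMem]
        intro n hn
        have h1 : 1 < 4 ^ i := Nat.one_lt_pow (by omega) (by norm_num)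
        have h2 := hgap n hn 1 le_rfl h1
        apply h2
        have : n + ((1 : ℕ) : ℤ) • w = n := Subsingleton.elim _ _
        rw [this]
        exact hP n hn
      subst hF0
      simp
  · have h1 : F.card ≤ (2 * N + 1) ^ d * (4 ^ i) ^ (d - 1) := by
      refine Pre37.card_of_gap (L := 4 ^ i) (N := N) (w := w) (v := v) hd hL hw F ?_ ?_
      · intro n hn l
        have h2 := hF hn
        rw [W, Fintype.mem_piFinset] at h2
        have h3 := Finset.mem_Ico.1 (h2 l)
        push_cast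
        constructor
        · have := h3.1
          simpa using this
        · have := h3.2
          simpa using this
      · intro n hn t ht ht2 h3
        exact hgap n hn t ht ht2 (hP _ h3)
    calc F.card * 4 ^ i ≤ ((2 * N + 1) ^ d * (4 ^ i) ^ (d - 1)) * 4 ^ i :=
          Nat.mul_le_mul_right _ h1
      _ = (2 * N + 1) ^ d * (4 ^ i) ^ d := by
          rw [mul_assoc, ← pow_succ, Nat.sub_add_cancel hd]

theorem count (d N : ℕ) : ∃ C : ℝ≥0∞, C ≠ ⊤ ∧ ∀ (w : Pt d) (i : ℕ) (v : Pt d) (P : Set (Pt d))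
    (F : Finset (Pt d)), (∀ l, |w l| ≤ N) → F ⊆ W 0 i v → (∀ n ∈ F, n ∈ P) →
    (∀ n ∈ F, ∀ t : ℕ, 1 ≤ t → t < 4 ^ i → n + (t : ℤ) • w ∉ P) →
    (F.card : ℝ≥0∞) * 4 ^ i ≤ C * (4 ^ i) ^ d := by
  refine ⟨(((2 * N + 1) ^ d : ℕ) : ℝ≥0∞), ENNReal.natCast_ne_top _, ?_⟩
  intro w i v P F hw hF hP hgap
  have h1 := count_nat d N w i v P F hw hF hP hgap
  exact_mod_cast h1

end Pool.Agent.W11
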