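import Pool.Agent.W11.Kernel

/-!
W11 M3: the direction of a cube.
-/

set_option autoImplicit false

open Finset
open scoped RealInnerProductSpace

namespace Pool.Agent.W11

variable {d : ℕ}

lemma dr_exists_dir (hd : 1 ≤ d) (g : EE d) : ∃ e : EE d, ‖e‖ = 1 ∧ ⟪e, g⟫ = ‖g‖ := by
  by_cases hg : g = 0
  · refine ⟨EuclideanSpace.single ⟨0, hd⟩ (1 : ℝ), ?_, ?_⟩
    · simp
    · rw [hg, inner_zero_right, norm_zero]
  · have hn : ‖g‖ ≠ 0 := norm_ne_zero_iff.2 hg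
    refine ⟨‖g‖⁻¹ • g, ?_, ?_⟩
    · rw [norm_smul, norm_inv, norm_norm, inv_mul_cancel₀ hn]
    · rw [real_inner_smul_left, real_inner_self_eq_norm_sq, sq, inv_mul_cancel_left₀ hn]

/-- the geometric sum -/
lemma dr_geom (i k : ℕ) : ∑ j ∈ range (min i k + 1), (1 / 4 : ℝ) ^ (i - j) ≤
    2 * (1 / 4 : ℝ) ^ (i - k) := by
  have h1 : ∑ j ∈ range (min i k + 1), (1 / 4 : ℝ) ^ (i - j) =
      (1 / 4 : ℝ) ^ (i - k) * ∑ j ∈ range (min i k + 1), (1 / 4 : ℝ) ^ (min i k - j) := by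
    rw [mul_sum]
    refine sum_congr rfl fun j hj => ?_
    rw [mem_range] at hj
    rw [← pow_add]
    congr 1
    omega
  rw [h1, mul_comm (2 : ℝ)]
  exact mul_le_mul_of_nonneg_left (kr_geom_le _) (by positivity)

/-- summation over the levels -/
lemma dr_sum (i n : ℕ) (A S : ℕ → ℝ) (hS : ∀ k, 0 ≤ S k)
    (h : ∀ j ≤ i, A j ≤ ∑ k ∈ Ico j n, S k) :
    ∑ j ∈ range (i + 1), (1 / 4 : ℝ) ^ (i - j) * A j ≤
      2 * ∑ k ∈ range n, (1 / 4 : ℝ) ^ (i - k) * S k := by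
  have h1 : ∑ j ∈ range (i + 1), (1 / 4 : ℝ) ^ (i - j) * A j ≤
      ∑ j ∈ range (i + 1), ∑ k ∈ Ico j n, (1 / 4 : ℝ) ^ (i - j) * S k := by
    refine sum_le_sum fun j hj => ?_
    rw [mem_range] at hj
    rw [← mul_sum]
    exact mul_le_mul_of_nonneg_left (h j (by omega)) (by positivity)
  have h2 : ∑ j ∈ range (i + 1), ∑ k ∈ Ico j n, (1 / 4 : ℝ) ^ (i - j) * S k =
      ∑ k ∈ range n, ∑ j ∈ range (min i k + 1), (1 / 4 : ℝ) ^ (i - j) * S k := by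
    refine sum_comm' ?_
    intro x y
    simp only [mem_range, mem_Ico]
    omega
  rw [h2] at h1
  refine h1.trans ?_
  rw [mul_sum]
  refine sum_le_sum fun k _ => ?_
  rw [← sum_mul, ← mul_assoc]
  exact mul_le_mul_of_nonneg_right (dr_geom i k) (hS k)

/-- one level -/
lemma dr_level (f : Pt d → ℝ) {i m : ℕ} {e : EE d} (he : ‖e‖ = 1) (z₀ : Pt d)
    {S T : Finset (Pt d)} (h0 : D f (i + m + 1) e z₀ = 0)
    (hS : ∀ z ∈ S, ∀ l, 4 ^ (i + m) ≤ 3 * (z l - z₀ l) ∧ z l - z₀ l < 4 ^ (i + m))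
    (hT : ∀ y : Pt d, (∀ l, 0 ≤ y l ∧ y l < 2 * 4 ^ (i + m)) → z₀ + y ∈ T)
    (hX : ((4 : ℝ) ^ i) ^ d * X f (i + m) z₀ ≤ ∑ z ∈ T, X f (i + m) z) {j : ℕ} (hj : j ≤ i) :
    ∑ z ∈ S, D f j e z ≤ ((4 : ℝ) ^ m) ^ d * ∑ k ∈ Ico j (i + m + 1), ∑ z ∈ T, X f k z := by
  have hx : ∀ l, 0 ≤ ∑ z ∈ T, X f l z := fun l => sum_nonneg fun z _ => X_nonneg f l z
  obtain ⟨n, hn⟩ : ∃ n, i + m = j + n := ⟨i + m - j, by omega⟩
  have h1 : ∑ z ∈ S, D f j e z ≤ ((4 : ℝ) ^ (j + n)) ^ d * itA j (n + 1) (D f j e) z₀ := by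
    refine itA_lower j n (D_nonneg f j he.le) z₀ ?_
    rw [← hn]
    exact hS
  have h2 := itA_D f j (n + 1) e z₀
  have h3 : j + (n + 1) = i + m + 1 := by omega
  rw [h3, h0, zero_add, sum_range_succ] at h2
  have h4 : itA (j + n + 1) (n + 1 - 1 - n) (X f (j + n)) z₀ = X f (i + m) z₀ := by
    rw [show n + 1 - 1 - n = 0 by omega, hn]
    rfl
  rw [h4] at h2
  have hp : (0 : ℝ) < ((4 : ℝ) ^ (j + n)) ^ d := by positivity
  have hp1 : (1 : ℝ) ≤ ((4 : ℝ) ^ m) ^ d := one_le_pow₀ (one_le_pow₀ (by norm_num))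
  have h5 : ∀ k ∈ range n, itA (j + k + 1) (n + 1 - 1 - k) (X f (j + k)) z₀ ≤
      (((4 : ℝ) ^ (j + n)) ^ d)⁻¹ * ∑ z ∈ T, X f (j + k) z := by
    intro k hk
    rw [mem_range] at hk
    have h6 : n + 1 - 1 - k = (n - k - 1) + 1 := by omega
    have h7 : j + k + 1 + (n - k - 1) = j + n := by omega
    rw [h6]
    have h8 := itA_upper (j + k + 1) (n - k - 1) (X_nonneg f (j + k)) z₀ (S := T) (by
      rw [h7, ← hn]
      exact hT)
    rw [h7] at h8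
    exact h8
  have h6 : ((4 : ℝ) ^ (j + n)) ^ d * itA j (n + 1) (D f j e) z₀ ≤
      ∑ k ∈ range n, ∑ z ∈ T, X f (j + k) z +
        ((4 : ℝ) ^ m) ^ d * ∑ z ∈ T, X f (i + m) z := by
    rw [h2, mul_add]
    refine add_le_add ?_ ?_
    · rw [mul_sum]
      refine sum_le_sum fun k hk => ?_
      have h7 := mul_le_mul_of_nonneg_left (h5 k hk) hp.le
      rwa [mul_inv_cancel_left₀ hp.ne'] at h7
    · rw [← hn, pow_add, mul_pow, mul_comm (((4 : ℝ) ^ i) ^ d), mul_assoc]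
      exact mul_le_mul_of_nonneg_left hX (by positivity)
  refine h1.trans (h6.trans ?_)
  have h7 : ∑ k ∈ Ico j (i + m + 1), ∑ z ∈ T, X f k z =
      ∑ k ∈ range n, ∑ z ∈ T, X f (j + k) z + ∑ z ∈ T, X f (i + m) z := by
    rw [sum_Ico_eq_sum_range, show i + m + 1 - j = n + 1 by omega, sum_range_succ, hn]
  rw [h7, mul_add]
  refine add_le_add ?_ (le_refl _)
  have h8 : 0 ≤ ∑ k ∈ range n, ∑ z ∈ T, X f (j + k) z := sum_nonneg fun k _ => hx _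
  nlinarith

theorem direction (hd : 1 ≤ d) (c : ℕ) : ∃ (c₂ m : ℕ) (B : ℝ), 0 < B ∧ c + 2 ≤ c₂ ∧
    ∀ (f : Pt d → ℝ) (i : ℕ) (v : Pt d), ∃ e : EE d, Ctl f c B e i v (Pay f c₂ m i v) := by
  classical
  have hq : c + 1 ≤ 4 ^ c := Nat.lt_pow_self (by norm_num)
  have hqz : (c : ℤ) + 1 ≤ 4 ^ c := by exact_mod_cast hq
  refine ⟨128 * 4 ^ c, c + 3, 2 * ((4 : ℝ) ^ (c + 3)) ^ d, by positivity, by omega, ?_⟩
  intro f i v
  have hL : (0 : ℤ) < 4 ^ i := by positivity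
  have hpow : (4 : ℤ) ^ (i + (c + 3)) = 64 * (4 ^ i * 4 ^ c) := by
    rw [pow_add, pow_add]
    ring
  have hqL : 4 ^ i * ((c : ℤ) + 1) ≤ 4 ^ i * 4 ^ c := mul_le_mul_of_nonneg_left hqz hL.le
  have hqL1 : (4 : ℤ) ^ i ≤ 4 ^ i * 4 ^ c := by
    have : (1 : ℤ) ≤ 4 ^ c := by omega
    nlinarith
  -- the base cube
  set zb : Pt d := fun l => 4 ^ i * v l - 32 * (4 ^ i * 4 ^ c) with hzb
  set Z : Finset (Pt d) := (bx d (4 ^ i)).map (addLeftEmbedding zb) with hZ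
  have hZmem : ∀ z ∈ Z, ∀ l, zb l ≤ z l ∧ z l < zb l + 4 ^ i := by
    intro z hz l
    rw [hZ, mem_map] at hz
    obtain ⟨x, hx, rfl⟩ := hz
    rw [mem_bx] at hx
    have h1 := hx l
    push_cast at h1
    rw [addLeftEmbedding_apply, Pi.add_apply]
    constructor <;> linarith
  have hZne : Z.Nonempty := by
    refine ⟨zb, ?_⟩
    rw [hZ, mem_map]
    refine ⟨0, ?_, ?_⟩
    · rw [mem_bx]
      intro l
      refine ⟨le_refl _, ?_⟩
      rw [Pi.zero_apply]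
      positivity
    · rw [addLeftEmbedding_apply, add_zero]
  have hZcard : Z.card = (4 ^ i) ^ d := by
    rw [hZ, card_map, kr_card_bx]
  obtain ⟨z₀, hz₀, hmin⟩ := exists_min_image Z (X f (i + (c + 3))) hZne
  obtain ⟨e, he, hde⟩ := dr_exists_dir hd (gr (sm f (i + (c + 3) + 1)) z₀)
  have h0 : D f (i + (c + 3) + 1) e z₀ = 0 := by
    change ‖gr (sm f (i + (c + 3) + 1)) z₀‖ - ⟪e, gr (sm f (i + (c + 3) + 1)) z₀⟫ = 0
    rw [hde, sub_self]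
  have hz₀' := hZmem z₀ hz₀
  have hS : ∀ z ∈ W c i v, ∀ l, 4 ^ (i + (c + 3)) ≤ 3 * (z l - z₀ l) ∧
      z l - z₀ l < 4 ^ (i + (c + 3)) := by
    intro z hz l
    rw [mem_W'] at hz
    have h1 := hz l
    have h2 := hz₀' l
    rw [hzb] at h2
    simp only at h2
    rw [hpow]
    have h3 : 4 ^ i * (v l - (c : ℤ)) = 4 ^ i * v l - 4 ^ i * ((c : ℤ) + 1) + 4 ^ i := by ring
    have h4 : 4 ^ i * (v l + (c : ℤ) + 1) = 4 ^ i * v l + 4 ^ i * ((c : ℤ) + 1) := by ring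
    rw [h3, h4] at h1
    constructor <;> linarith
  have hT : ∀ y : Pt d, (∀ l, 0 ≤ y l ∧ y l < 2 * 4 ^ (i + (c + 3))) →
      z₀ + y ∈ W (128 * 4 ^ c) i v := by
    intro y hy
    rw [mem_W']
    intro l
    have h1 := hy l
    have h2 := hz₀' l
    rw [hzb] at h2
    simp only at h2
    rw [hpow] at h1
    rw [Pi.add_apply]
    push_cast
    have h3 : 4 ^ i * (v l - 128 * 4 ^ c) = 4 ^ i * v l - 128 * (4 ^ i * 4 ^ c) := by ring
    have h4 : 4 ^ i * (v l + 128 * 4 ^ c + 1) = 4 ^ i * v l + 128 * (4 ^ i * 4 ^ c) + 4 ^ i := by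
      ring
    rw [h3, h4]
    constructor <;> linarith
  have hZW : Z ⊆ W (128 * 4 ^ c) i v := by
    intro z hz
    rw [mem_W']
    intro l
    have h2 := hZmem z hz l
    rw [hzb] at h2
    simp only at h2
    push_cast
    have h3 : 4 ^ i * (v l - 128 * 4 ^ c) = 4 ^ i * v l - 128 * (4 ^ i * 4 ^ c) := by ring
    have h4 : 4 ^ i * (v l + 128 * 4 ^ c + 1) = 4 ^ i * v l + 128 * (4 ^ i * 4 ^ c) + 4 ^ i := by
      ring
    rw [h3, h4]
    constructor <;> linarith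
  have hX : ((4 : ℝ) ^ i) ^ d * X f (i + (c + 3)) z₀ ≤
      ∑ z ∈ W (128 * 4 ^ c) i v, X f (i + (c + 3)) z := by
    have h1 := card_nsmul_le_sum Z (X f (i + (c + 3))) _ hmin
    rw [hZcard, nsmul_eq_mul] at h1
    push_cast at h1
    exact h1.trans (sum_le_sum_of_subset_of_nonneg hZW fun z _ _ => X_nonneg f _ z)
  have hxn : ∀ l, 0 ≤ ∑ z ∈ W (128 * 4 ^ c) i v, X f l z := fun l =>
    sum_nonneg fun z _ => X_nonneg f l z
  have hc2 : c ≤ 128 * 4 ^ c := by omega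
  refine ⟨e, he, ?_, ?_⟩
  · have h1 := dr_sum i (i + (c + 3) + 1) (fun j => ∑ z ∈ W c i v, D f j e z)
      (fun k => ((4 : ℝ) ^ (c + 3)) ^ d * ∑ z ∈ W (128 * 4 ^ c) i v, X f k z)
      (fun k => mul_nonneg (by positivity) (hxn k))
      (fun j hj => by
        rw [← mul_sum]
        exact dr_level f he z₀ h0 hS hT hX hj)
    refine h1.trans ?_
    have h2 : 2 * ∑ k ∈ range (i + (c + 3) + 1), (1 / 4 : ℝ) ^ (i - k) *
        (((4 : ℝ) ^ (c + 3)) ^ d * ∑ z ∈ W (128 * 4 ^ c) i v, X f k z) =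
        2 * ((4 : ℝ) ^ (c + 3)) ^ d * ∑ k ∈ range (i + (c + 3) + 1), (1 / 4 : ℝ) ^ (i - k) *
          ∑ z ∈ W (128 * 4 ^ c) i v, X f k z := by
      rw [mul_assoc, mul_sum (a := ((4 : ℝ) ^ (c + 3)) ^ d)]
      congr 1
      exact sum_congr rfl fun k _ => by ring
    rw [h2]
    refine mul_le_mul_of_nonneg_left ?_ (by positivity)
    unfold Pay
    have h7 : 0 ≤ (1 / 4 : ℝ) ^ i * ∑ j ∈ range (i + 1), ∑ z ∈ W (128 * 4 ^ c) i v, nG f j z :=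
      mul_nonneg (by positivity) (sum_nonneg fun j _ => sum_nonneg fun z _ => nG_nonneg f j z)
    linarith
  · unfold Pay
    have h1 : (1 / 4 : ℝ) ^ i * ∑ j ∈ range (i + 1), ∑ z ∈ W c i v, nG f j z ≤
        (1 / 4 : ℝ) ^ i * ∑ j ∈ range (i + 1), ∑ z ∈ W (128 * 4 ^ c) i v, nG f j z := by
      refine mul_le_mul_of_nonneg_left (sum_le_sum fun j _ => ?_) (by positivity)
      exact sum_le_sum_of_subset_of_nonneg (W_mono hc2 v) fun z _ _ => nG_nonneg f j z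
    have h2 : 0 ≤ ∑ k ∈ range (i + (c + 3) + 1), (1 / 4 : ℝ) ^ (i - k) *
        ∑ z ∈ W (128 * 4 ^ c) i v, X f k z :=
      sum_nonneg fun k _ => mul_nonneg (by positivity) (hxn k)
    linarith

end Pool.Agent.W11
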