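import Pool.Agent.W11.GeomA0

/-!
W11 M9: the good case of the geometric part.
-/

set_option autoImplicit false

open Finset
open scoped RealInnerProductSpace

namespace Pool.Agent.W11

variable {d : ℕ}

lemma toE_sub_apply (u w : Pt d) : toE u - toE w = toE (u - w) := by
  apply PiLp.ext
  intro l
  simp [toE]

lemma sqrt_le_nat (hd : 1 ≤ d) : √(d : ℝ) ≤ d := by
  have h1 : (1 : ℝ) ≤ d := by exact_mod_cast hd
  rw [Real.sqrt_le_left (by linarith)]
  nlinarith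

theorem geom_good (hd : 1 ≤ d) {N : ℕ} {ρ R : ℝ} (hρ : 0 < ρ) (hR : 0 < R)
    (hN : 256 * d * R ≤ N * ρ) {e : EE d} (he : ‖e‖ = 1) {w : Pt d} (hw : ∀ l, |w l| ≤ N)
    (h : N * ρ ≤ 32 * R * ⟪e, toE w⟫) :
    ∀ e' : EE d, ‖e'‖ = 1 → ‖e - e'‖ ≤ 2 * (ρ / (256 * d * R)) →
      Cone (ρ / (512 * d * R)) e' w := by
  intro e' he' hee u hu
  have hd1 : (1 : ℝ) ≤ d := by exact_mod_cast hd
  have hd0 : (0 : ℝ) < d := by linarith
  have hsq := sqrt_le_nat hd
  have hsq0 : 0 ≤ √(d : ℝ) := Real.sqrt_nonneg _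
  have hNpos : (0 : ℝ) < N := by
    have h1 : 0 < N * ρ := lt_of_lt_of_le (by positivity) hN
    exact pos_of_mul_pos_left h1 hρ.le
  have hN1 : (1 : ℝ) ≤ N := by
    have : 0 < N := by exact_mod_cast hNpos
    exact_mod_cast this
  -- size of u
  have hu1 : ‖toE u‖ ≤ √d * (N + 1) := by
    apply norm_toE_le (by positivity)
    intro l
    have h1 : |(u l : ℝ) - w l| ≤ 1 := by exact_mod_cast hu l
    have h2 : |(w l : ℝ)| ≤ N := by exact_mod_cast hw l
    rw [abs_le] at h1 h2 ⊢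
    constructor <;> linarith [h1.1, h1.2, h2.1, h2.2]
  have hu2 : ‖toE (u - w)‖ ≤ √d * 1 := by
    apply norm_toE_le (by norm_num)
    intro l
    exact_mod_cast hu l
  -- inner products
  have hi : ⟪e', toE u⟫ = ⟪e, toE w⟫ + ⟪e, toE (u - w)⟫ - ⟪e - e', toE u⟫ := by
    rw [← toE_sub_apply, inner_sub_right, inner_sub_left]
    ring
  have hi2 : |⟪e, toE (u - w)⟫| ≤ √d := by
    calc |⟪e, toE (u - w)⟫| ≤ ‖e‖ * ‖toE (u - w)‖ := abs_real_inner_le_norm _ _
      _ ≤ √d := by rw [he, one_mul]; linarith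
  have hi3 : |⟪e - e', toE u⟫| ≤ 2 * (ρ / (256 * d * R)) * (√d * (N + 1)) := by
    calc |⟪e - e', toE u⟫| ≤ ‖e - e'‖ * ‖toE u‖ := abs_real_inner_le_norm _ _
      _ ≤ 2 * (ρ / (256 * d * R)) * (√d * (N + 1)) := by gcongr
  have hi4 : 2 * (ρ / (256 * d * R)) * (√d * (N + 1)) ≤ ρ / R * ((N + 1) / 128) := by
    calc 2 * (ρ / (256 * d * R)) * (√d * (N + 1)) ≤ 2 * (ρ / (256 * d * R)) * (d * (N + 1)) := by
          gcongr
      _ = _ := by field_simp; ring
  have hi5 : ρ / (512 * d * R) * ‖toE u‖ ≤ ρ / R * ((N + 1) / 512) := by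
    calc ρ / (512 * d * R) * ‖toE u‖ ≤ ρ / (512 * d * R) * (d * (N + 1)) := by
          gcongr
          exact hu1.trans (by gcongr)
      _ = _ := by field_simp
  have hi6 : ρ / R * (N / 32) ≤ ⟪e, toE w⟫ := by
    rw [div_mul_div_comm, div_le_iff₀ (by positivity)]
    linarith
  have hi7 : (d : ℝ) ≤ ρ / R * (N / 256) := by
    rw [div_mul_div_comm, le_div_iff₀ (by positivity)]
    linarith
  have hkey : ρ / R * ((N + 1) / 512) ≤ ρ / R * (N / 32) - ρ / R * (N / 256)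
      - ρ / R * ((N + 1) / 128) := by
    have h1 : 0 < ρ / R := by positivity
    have h2 : (N + 1 : ℝ) / 512 ≤ N / 32 - N / 256 - (N + 1) / 128 := by linarith
    calc ρ / R * ((N + 1) / 512) ≤ ρ / R * (N / 32 - N / 256 - (N + 1) / 128) := by gcongr
      _ = _ := by ring
  have h1 := (abs_le.mp hi2).1
  have h2 := (abs_le.mp hi3).2
  rw [hi]
  linarith

end Pool.Agent.W11
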