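import Pool.Agent.W11.GeomDefs

/-!
W11 M9: the bad alternative of the geometric part (author helper80).
-/

set_option autoImplicit false

open Finset
open scoped RealInnerProductSpace ENNReal

namespace Pool.Agent.W11

variable {d : ℕ}

open Pool.Agent.Lib.H58FracMax

/-- a real vector as a Euclidean vector -/
noncomputable def toEr (y : Fin d → ℝ) : EE d := WithLp.toLp 2 y

lemma toE_eq (u : Pt d) : toE u = toEr (toR u) := rfl

lemma toEr_add (y z : Fin d → ℝ) : toEr (y + z) = toEr y + toEr z := rfl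

lemma toEr_sub (y z : Fin d → ℝ) : toEr (y - z) = toEr y - toEr z := rfl

lemma toEr_smul (c : ℝ) (y : Fin d → ℝ) : toEr (c • y) = c • toEr y := rfl

lemma norm_toEr_le {y : Fin d → ℝ} {t : ℝ} (ht : 0 ≤ t) (hy : ∀ l, |y l| ≤ t) :
    ‖toEr y‖ ≤ d * t := by
  rw [EuclideanSpace.norm_eq, Real.sqrt_le_left (by positivity)]
  calc ∑ l, ‖(toEr y) l‖ ^ 2 ≤ ∑ _l : Fin d, t ^ 2 := by
        refine Finset.sum_le_sum fun l _ => ?_
        have h1 : ‖(toEr y) l‖ ≤ t := hy l
        gcongr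
    _ = d * t ^ 2 := by simp
    _ ≤ (d * t) ^ 2 := by
        rw [mul_pow]
        have h2 : (d : ℝ) ≤ (d : ℝ) ^ 2 := by
          rcases Nat.eq_zero_or_pos d with h | h
          · rw [h]; norm_num
          · have h3 : (1 : ℝ) ≤ d := by exact_mod_cast h
            nlinarith
        gcongr

lemma abs_inner_toEr_le {e : EE d} (he : ‖e‖ ≤ 1) {y : Fin d → ℝ} {t : ℝ} (ht : 0 ≤ t)
    (hy : ∀ l, |y l| ≤ t) : |⟪e, toEr y⟫| ≤ d * t := by
  calc |⟪e, toEr y⟫| ≤ ‖e‖ * ‖toEr y‖ := abs_real_inner_le_norm _ _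
    _ ≤ 1 * (d * t) := by
        have := norm_toEr_le ht hy
        gcongr
    _ = d * t := one_mul _

lemma gc_abs_coord_le {e : EE d} (he : ‖e‖ ≤ 1) (l : Fin d) : |e l| ≤ 1 :=
  le_trans (PiLp.norm_apply_le e l) he

lemma gc_norm_toE_le {u : Pt d} {t : ℝ} (ht : 0 ≤ t) (hu : ∀ l, |(u l : ℝ)| ≤ t) :
    ‖toE u‖ ≤ d * t := norm_toEr_le ht hu

variable {K : Set (Fin d → ℝ)} {ρ R h0 : ℝ} {N H : ℕ}

lemma Body.rho_le_R (hd : 1 ≤ d) (hK : Body K ρ R) : ρ ≤ R := by
  have h1 : (fun _ => ρ : Fin d → ℝ) ∈ K := hK.inner _ fun l => by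
    rw [abs_of_pos hK.rho]
  have h2 := hK.outer _ h1 ⟨0, hd⟩
  simpa [abs_of_pos hK.rho] using h2

theorem geom_bad (hd : 1 ≤ d) (hK : Body K ρ R) (hC : GC d ρ R N H h0) {i : ℕ} {x : Fin d → ℝ}
    {r : ℝ} {m : Pt d} {S : Finset (Pt d)} (h1 : h0 * 4 ^ i ≤ r) (h2 : r < 4 * (h0 * 4 ^ i))
    (hS : (S : Set (Pt d)) = LS K x r) (hm : m ∈ S) {a : Pt d} (ha : ∀ l, |a l| ≤ 1)
    {e : EE d} (he : ‖e‖ = 1)
    (hbad : 32 * R * ⟪e, toE (tw N (x - toR m))⟫ < N * ρ) :
    ∃ (w' a' : Pt d) (M : ℕ), (∀ l, |w' l| ≤ N) ∧ Cone (ρ / (512 * d * R)) e w' ∧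
      M ≤ H * 4 ^ i ∧ (∀ l, |a' l| + 3 * 4 ^ i ≤ M) ∧ m + a - ((M : ℤ) • w' + a') ∈ S := by
  -- constants
  have hρ := hK.rho
  have hρR : ρ ≤ R := Body.rho_le_R hd hK
  have hR : 0 < R := lt_of_lt_of_le hρ hρR
  have hd' : (1 : ℝ) ≤ d := by exact_mod_cast hd
  have hN1 := hC.hN
  have hNR : (256 : ℝ) * d ≤ N := by
    by_contra hlt
    rw [not_le] at hlt
    have h3 : (N : ℝ) * ρ < 256 * d * ρ := by
      exact mul_lt_mul_of_pos_right hlt hρ
    have h4 : 256 * (d : ℝ) * ρ ≤ 256 * d * R := by gcongr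
    linarith
  have hN0 : (0 : ℝ) < N := by linarith
  have hN1' : (1 : ℝ) ≤ N := by linarith
  have hNn : 1 ≤ N := by exact_mod_cast hN1'
  set h : ℝ := ρ * h0 with hh_def
  have hh := hC.hh
  rw [← hh_def] at hh
  have hh1 : 8 * (d : ℝ) * 24 ≤ h := by
    refine le_trans ?_ hh
    have : (8 * (d : ℝ)) * 24 ≤ (8 * (d : ℝ)) * (N * (4 * N + 20)) := by
      gcongr
      nlinarith
    calc 8 * (d : ℝ) * 24 ≤ (8 * (d : ℝ)) * (N * (4 * N + 20)) := this
      _ = 8 * d * N * (4 * N + 20) := by ring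
  have hhpos : 0 < h := by nlinarith
  have hh0 : 0 < h0 := by
    rcases lt_or_ge 0 h0 with h3 | h3
    · exact h3
    · exfalso
      have : h ≤ 0 := mul_nonpos_of_nonneg_of_nonpos hρ.le h3
      linarith
  set L : ℝ := (4 : ℝ) ^ i with hL_def
  have hL : (1 : ℝ) ≤ L := one_le_pow₀ (by norm_num)
  have hL0 : (0 : ℝ) < L := by linarith
  have hr : 0 < r := lt_of_lt_of_le (by positivity) h1
  -- the vector q
  set q : Fin d → ℝ := x - toR m with hq_def
  have hmem : m ∈ (S : Set (Pt d)) := hm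
  rw [hS] at hmem
  obtain ⟨z, hz, hmz⟩ := hmem
  have hql : ∀ l, |q l| ≤ 4 * R * h0 * L := by
    intro l
    have h3 : q l = -(r * z l) := by
      have h4 := congrFun hmz l
      rw [Pi.add_apply, Pi.smul_apply, smul_eq_mul] at h4
      rw [hq_def, Pi.sub_apply, h4]; ring
    rw [h3, abs_neg, abs_mul, abs_of_pos hr]
    calc r * |z l| ≤ r * R := by
          have := hK.outer z hz l
          gcongr
      _ ≤ 4 * (h0 * L) * R := by
          gcongr
      _ = 4 * R * h0 * L := by ring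
  have hqn : ‖q‖ ≤ 4 * R * h0 * L := (pi_norm_le_iff_of_nonneg (by positivity)).mpr hql
  -- inner product of e and q
  have heq : ⟪e, toEr q⟫ ≤ h * L * (17 / 128) := by
    set s : Fin d → ℝ := fun l => (N : ℝ) * (q l / ‖q‖) - tw N q l with hs_def
    have hs : ∀ l, |s l| ≤ 1 / 2 := fun l => tw_sub N q l
    have h5 : (N : ℝ) • q = ‖q‖ • (toR (tw N q) + s) := by
      funext l
      simp only [Pi.smul_apply, smul_eq_mul, Pi.add_apply, toR, hs_def]
      rcases eq_or_ne ‖q‖ 0 with hq0 | hq0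
      · have : q = 0 := norm_eq_zero.mp hq0
        rw [this]; simp
      · field_simp
        ring
    have h6 : (N : ℝ) * ⟪e, toEr q⟫ = ‖q‖ * (⟪e, toE (tw N q)⟫ + ⟪e, toEr s⟫) := by
      have h7 := congrArg (fun y => ⟪e, toEr y⟫) h5
      simp only [toEr_smul, toEr_add, inner_smul_right, inner_add_right] at h7
      rw [h7]; rfl
    have h8 : |⟪e, toEr s⟫| ≤ d * (1 / 2) := abs_inner_toEr_le he.le (by norm_num) hs
    have h9 : ⟪e, toE (tw N q)⟫ < N * ρ / (32 * R) := by
      rw [lt_div_iff₀ (by positivity)]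
      calc ⟪e, toE (tw N q)⟫ * (32 * R) = 32 * R * ⟪e, toE (tw N q)⟫ := by ring
        _ < _ := hbad
    have h10 : ⟪e, toE (tw N q)⟫ + ⟪e, toEr s⟫ ≤ N * ρ / (32 * R) + d * (1 / 2) := by
      have := (abs_le.mp h8).2
      linarith
    have h11 : (N : ℝ) * ⟪e, toEr q⟫ ≤ (4 * R * h0 * L) * (N * ρ / (32 * R) + d * (1 / 2)) := by
      rw [h6]
      calc ‖q‖ * (⟪e, toE (tw N q)⟫ + ⟪e, toEr s⟫)
          ≤ ‖q‖ * (N * ρ / (32 * R) + d * (1 / 2)) := by gcongr
        _ ≤ _ := by gcongr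
    have h12 : (4 * R * h0 * L) * (N * ρ / (32 * R) + d * (1 / 2))
        = N * (h * L / 8) + 2 * (d * R) * (h0 * L) := by
      rw [hh_def]; field_simp; ring
    have h13 : 2 * (d * R) * (h0 * L) ≤ N * (h * L / 128) := by
      have h14 : (d : ℝ) * R ≤ N * ρ / 256 := by linarith
      calc 2 * (d * R) * (h0 * L) ≤ 2 * (N * ρ / 256) * (h0 * L) := by gcongr
        _ = N * (h * L / 128) := by rw [hh_def]; ring
    have h14 : (N : ℝ) * ⟪e, toEr q⟫ ≤ N * (h * L * (17 / 128)) := by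
      calc (N : ℝ) * ⟪e, toEr q⟫ ≤ N * (h * L / 8) + 2 * (d * R) * (h0 * L) := by
            rw [← h12]; exact h11
        _ ≤ N * (h * L / 8) + N * (h * L / 128) := by gcongr
        _ = _ := by ring
    exact le_of_mul_le_mul_left h14 hN0
  -- the vector y and its rounding A
  set y : Fin d → ℝ := fun l => -q l + h * L / 2 * e l with hy_def
  set A : Pt d := fun l => round (y l) with hA_def
  set s2 : Fin d → ℝ := toR A - y with hs2_def
  have hs2 : ∀ l, |s2 l| ≤ 1 / 2 := by
    intro l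
    rw [hs2_def, Pi.sub_apply, abs_sub_comm]
    exact abs_sub_round _
  have hAy : toR A = y + s2 := by rw [hs2_def]; abel
  have hye : ⟪e, toEr y⟫ = -⟪e, toEr q⟫ + h * L / 2 := by
    have h3 : toEr y = -toEr q + (h * L / 2) • e := by
      ext l
      simp [toEr, hy_def]
    rw [h3, inner_add_right, inner_neg_right, inner_smul_right, real_inner_self_eq_norm_sq, he]
    ring
  have hAe : h * L / 3 ≤ ⟪e, toE A⟫ := by
    rw [toE_eq, hAy, toEr_add, inner_add_right, hye]
    have h3 := (abs_le.mp (abs_inner_toEr_le he.le (by norm_num) hs2)).1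
    have h4 : (d : ℝ) * 192 ≤ h * L := by nlinarith
    linarith
  have hA_le : ∀ l, |(A l : ℝ)| ≤ 5 * R * h0 * L := by
    intro l
    have h3 : (A l : ℝ) = -q l + h * L / 2 * e l + s2 l := congrFun hAy l
    rw [h3]
    have h4 := hql l
    have h5 := gc_abs_coord_le he.le l
    have h6 := hs2 l
    have h7 : |h * L / 2 * e l| ≤ h * L / 2 := by
      rw [abs_mul, abs_of_pos (by positivity)]
      exact mul_le_of_le_one_right (by positivity) h5
    have h8 : h * L ≤ R * h0 * L := by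
      rw [hh_def]; gcongr
    have h9 : 1 ≤ h * L := by nlinarith
    calc |-q l + h * L / 2 * e l + s2 l| ≤ |-q l| + |h * L / 2 * e l| + |s2 l| :=
          abs_add_three _ _ _
      _ ≤ 4 * R * h0 * L + h * L / 2 + 1 / 2 := by rw [abs_neg]; gcongr
      _ ≤ 5 * R * h0 * L := by linarith
  have hAn : ‖toR A‖ ≤ 5 * R * h0 * L := (pi_norm_le_iff_of_nonneg (by positivity)).mpr hA_le
  have hAn2 : h * L / 3 ≤ d * ‖toR A‖ := by
    refine le_trans hAe ((le_abs_self _).trans ?_)
    exact abs_inner_toEr_le he.le (norm_nonneg _) fun l => norm_le_pi_norm (toR A) l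
  have hApos : 0 < ‖toR A‖ := by
    by_contra hn
    rw [not_lt] at hn
    have h3 : (d : ℝ) * ‖toR A‖ ≤ 0 := mul_nonpos_of_nonneg_of_nonpos (by linarith) hn
    have h4 : 0 < h * L / 3 := by positivity
    linarith
  have hAbig : (8 / 3) * N * (4 * N + 20) * L ≤ ‖toR A‖ := by
    have h3 : d * ((8 / 3) * N * (4 * N + 20) * L) ≤ d * ‖toR A‖ := by
      refine le_trans ?_ hAn2
      calc d * ((8 / 3) * N * (4 * N + 20) * L) = (8 * d * N * (4 * N + 20)) * L / 3 := by ring
        _ ≤ h * L / 3 := by gcongr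
    exact le_of_mul_le_mul_left h3 (by linarith)
  -- M, w', a'
  set nA : ℝ := ‖toR A‖ with hnA_def
  set M : ℕ := ⌊nA / N⌋₊ with hM_def
  have hM1 : (M : ℝ) ≤ nA / N := Nat.floor_le (by positivity)
  have hM2 : nA / N < M + 1 := Nat.lt_floor_add_one _
  set w' : Pt d := tw N (toR A) with hw'_def
  refine ⟨w', A - (M : ℤ) • w', M, fun l => tw_le N _ l, ?_, ?_, ?_, ?_⟩
  · -- the cone
    intro u hu
    set s3 : Fin d → ℝ := fun l => (u l : ℝ) - N * (toR A l / nA) with hs3_def
    have hs3 : ∀ l, |s3 l| ≤ 3 / 2 := by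
      intro l
      have h3 := tw_sub N (toR A) l
      have h4 : |(u l : ℝ) - w' l| ≤ 1 := by exact_mod_cast hu l
      have h5 : s3 l = ((u l : ℝ) - w' l) - ((N : ℝ) * (toR A l / nA) - w' l) := by
        rw [hs3_def]; ring
      rw [h5]
      calc _ ≤ |(u l : ℝ) - w' l| + |(N : ℝ) * (toR A l / nA) - w' l| := abs_sub _ _
        _ ≤ 1 + 1 / 2 := add_le_add h4 h3
        _ = 3 / 2 := by norm_num
    have h3 : toR u = (N / nA : ℝ) • toR A + s3 := by
      funext l
      simp only [Pi.add_apply, Pi.smul_apply, smul_eq_mul, hs3_def, toR]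
      ring
    have h4 : (N : ℝ) * ρ / (15 * R) - d * (3 / 2) ≤ ⟪e, toE u⟫ := by
      rw [toE_eq, h3, toEr_add, toEr_smul, inner_add_right, inner_smul_right]
      have h5 := (abs_le.mp (abs_inner_toEr_le he.le (by norm_num) hs3)).1
      have h6 : (N : ℝ) * ρ / (15 * R) ≤ N / nA * ⟪e, toEr (toR A)⟫ := by
        have h7 : h * L / 3 ≤ ⟪e, toEr (toR A)⟫ := hAe
        calc (N : ℝ) * ρ / (15 * R) = N / (5 * R * h0 * L) * (h * L / 3) := by
              rw [hh_def]; field_simp; ring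
          _ ≤ N / nA * ⟪e, toEr (toR A)⟫ := by
              gcongr
      linarith
    have h5 : ‖toE u‖ ≤ d * (2 * N) := by
      refine gc_norm_toE_le (by positivity) fun l => ?_
      have h6 : |u l| ≤ (N : ℤ) + 1 := by
        have h7 := tw_le N (toR A) l
        have h8 := hu l
        rw [← hw'_def] at h7
        rw [abs_le] at *
        constructor <;> omega
      have h7 : |(u l : ℝ)| ≤ (N : ℝ) + 1 := by exact_mod_cast h6
      linarith
    have h6 : ρ / (512 * d * R) * ‖toE u‖ ≤ N * ρ / (256 * R) := by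
      calc ρ / (512 * d * R) * ‖toE u‖ ≤ ρ / (512 * d * R) * (d * (2 * N)) := by gcongr
        _ = N * ρ / (256 * R) := by field_simp; ring
    refine h6.trans (le_trans ?_ h4)
    have h7 : (d : ℝ) ≤ N * ρ / (256 * R) := by
      rw [le_div_iff₀ (by positivity)]
      linarith
    have h8 : (N : ℝ) * ρ / (15 * R) = (256 / 15) * (N * ρ / (256 * R)) := by
      field_simp
    have h9 : (0 : ℝ) ≤ N * ρ / (256 * R) := by positivity
    rw [h8]
    linarith
  · -- M ≤ H 4^i
    have h3 : (M : ℝ) ≤ (H : ℝ) * 4 ^ i := by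
      calc (M : ℝ) ≤ nA / N := hM1
        _ ≤ nA := div_le_self hApos.le hN1'
        _ ≤ 5 * R * h0 * L := hAn
        _ ≤ 8 * R * h0 * L := by gcongr; norm_num
        _ ≤ (H : ℝ) * 4 ^ i := by
            have := hC.hH
            gcongr
    exact_mod_cast h3
  · -- size of a'
    intro l
    have h3 := tw_sub N (toR A) l
    rw [← hw'_def, ← hnA_def] at h3
    have h4 : |(w' l : ℝ)| ≤ N := by exact_mod_cast tw_le N (toR A) l
    have h5 : ((A - (M : ℤ) • w') l : ℝ)
        = nA / N * ((N : ℝ) * (toR A l / nA) - w' l) + (nA / N - M) * w' l := by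
      have h6 : ((A - (M : ℤ) • w') l : ℝ) = A l - M * w' l := by
        simp [Pi.sub_apply, Pi.smul_apply]
      rw [h6]
      have : nA ≠ 0 := hApos.ne'
      simp only [toR]
      field_simp
      ring
    have h6 : |((A - (M : ℤ) • w') l : ℝ)| ≤ nA / N * (1 / 2) + 1 * N := by
      rw [h5]
      refine (abs_add_le _ _).trans (add_le_add ?_ ?_)
      · rw [abs_mul, abs_of_nonneg (by positivity : (0 : ℝ) ≤ nA / N)]
        gcongr
      · rw [abs_mul]
        have h7 : |nA / N - M| ≤ 1 := by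
          rw [abs_le]; constructor <;> linarith
        gcongr
    have h7 : (8 / 3) * (4 * N + 20) * L ≤ nA / N := by
      rw [le_div_iff₀ hN0]
      calc (8 / 3) * (4 * N + 20) * L * N = (8 / 3) * N * (4 * N + 20) * L := by ring
        _ ≤ nA := hAbig
    have h8 : |((A - (M : ℤ) • w') l : ℝ)| + 3 * 4 ^ i ≤ M := by
      rw [← hL_def]
      have h9 : (N : ℝ) ≤ N * L := le_mul_of_one_le_right hN0.le hL
      nlinarith
    exact_mod_cast h8
  · -- membership
    have h3 : m + a - ((M : ℤ) • w' + (A - (M : ℤ) • w')) = m + a - A := by abel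
    rw [h3]
    have h4 : m + a - A ∈ (S : Set (Pt d)) := by
      rw [hS]
      refine ⟨r⁻¹ • (toR (m + a - A) - x), ?_, ?_⟩
      · refine hK.inner _ fun l => ?_
        rw [Pi.smul_apply, smul_eq_mul, abs_mul, abs_inv, abs_of_pos hr, inv_mul_le_iff₀ hr]
        have h5 : (toR (m + a - A) - x) l = a l - h * L / 2 * e l - s2 l := by
          have h6 : (A l : ℝ) = -q l + h * L / 2 * e l + s2 l := congrFun hAy l
          have h7 : q l = x l - m l := rfl
          have h8 : (toR (m + a - A) - x) l = (m l : ℝ) + a l - A l - x l := by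
            simp [toR]
          rw [h8, h6, h7]; ring
        rw [h5]
        have h5' := gc_abs_coord_le he.le l
        have h6 := hs2 l
        have h7 : |h * L / 2 * e l| ≤ h * L / 2 := by
          rw [abs_mul, abs_of_pos (by positivity)]
          exact mul_le_of_le_one_right (by positivity) h5'
        have h8 : |(a l : ℝ)| ≤ 1 := by exact_mod_cast ha l
        have h9 : 3 ≤ h * L := by nlinarith
        have h10 : h * L ≤ r * ρ := by
          calc h * L = (h0 * L) * ρ := by rw [hh_def]; ring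
            _ ≤ r * ρ := by gcongr
        calc |(a l : ℝ) - h * L / 2 * e l - s2 l|
            ≤ |(a l : ℝ)| + |h * L / 2 * e l| + |s2 l| := by
              refine (abs_sub _ _).trans ?_
              gcongr
              exact abs_sub _ _
          _ ≤ 1 + h * L / 2 + 1 / 2 := by gcongr
          _ ≤ r * ρ := by linarith
      · rw [smul_smul, mul_inv_cancel₀ hr.ne', one_smul]
        abel
    exact h4

end Pool.Agent.W11
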