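import Pool.Agent.W11.GeomA2
import Pool.Agent.W11.GeomB
import Pool.Agent.W11.GeomC

/-!
W11 M9: assembly of the geometric theorem.
-/

set_option autoImplicit false

open Finset
open scoped RealInnerProductSpace ENNReal
open Pool.Agent.Lib.H58FracMax

namespace Pool.Agent.W11

variable {d : ℕ}

/-- G1-G3. `h0` = the scale factor: a body of level `i` has radius `h0 * 4^i ≤ r < 4 * h0 * 4^i`. -/
theorem geom (hd : 1 ≤ d) {K : Set (Fin d → ℝ)} {ρ R : ℝ} (hK : Body K ρ R) :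
    ∃ (N H : ℕ) (γ δ h0 : ℝ), 0 < γ ∧ 0 < δ ∧ 1 ≤ h0 ∧ 1 ≤ H ∧
      (∀ (i : ℕ) (x : Fin d → ℝ) (r : ℝ) (m : Pt d) (S : Finset (Pt d)),
        h0 * 4 ^ i ≤ r → r < 4 * (h0 * 4 ^ i) → (S : Set (Pt d)) = LS K x r → m ∈ S →
        (∀ y ∈ S, ∀ l, |y l - m l| ≤ H * 4 ^ i) ∧ (4 ^ i) ^ d ≤ S.card) ∧
      (∀ (i : ℕ) (x : Fin d → ℝ) (r : ℝ) (m a : Pt d) (S : Finset (Pt d)),
        h0 * 4 ^ i ≤ r → r < 4 * (h0 * 4 ^ i) → (S : Set (Pt d)) = LS K x r → m ∈ S →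
        (∀ l, |a l| ≤ 1) → m + a ∉ S →
        ∃ w : Pt d, w ≠ 0 ∧ (∀ l, |w l| ≤ N) ∧
          (∀ t : ℕ, 1 ≤ t → t ≤ 3 * 4 ^ i → m + ((t : ℤ) • w + a) ∈ S) ∧
          ∀ e : EE d, ‖e‖ = 1 →
            (∀ e' : EE d, ‖e'‖ = 1 → ‖e - e'‖ ≤ 2 * δ → Cone γ e' w) ∨
            ∃ (w' a' : Pt d) (M : ℕ), (∀ l, |w' l| ≤ N) ∧ Cone γ e w' ∧ M ≤ H * 4 ^ i ∧
              (∀ l, |a' l| + 3 * 4 ^ i ≤ M) ∧ m + a - ((M : ℤ) • w' + a') ∈ S) := by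
  have hρ := hK.rho
  have hρR : ρ ≤ R := rho_le_R hK hd
  have hR : 0 < R := lt_of_lt_of_le hρ hρR
  have hd1 : (1 : ℝ) ≤ d := by exact_mod_cast hd
  obtain ⟨N, hN⟩ := exists_nat_ge (256 * d * R / ρ)
  set h0 : ℝ := 8 * d * N * (4 * N + 20) / ρ + 1 with hh0
  obtain ⟨H, hH⟩ := exists_nat_ge (8 * R * h0 + 1)
  have hh1 : 1 ≤ h0 := by
    rw [hh0]
    have : 0 ≤ 8 * (d : ℝ) * N * (4 * N + 20) / ρ := by positivity
    linarith
  have hC : GC d ρ R N H h0 := by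
    refine ⟨?_, ?_, by linarith⟩
    · rw [div_le_iff₀ hρ] at hN; exact hN
    · have h5 : ρ * h0 = 8 * d * N * (4 * N + 20) + ρ := by
        rw [hh0]; field_simp
      linarith
  refine ⟨N, H, ρ / (512 * d * R), ρ / (256 * d * R), h0, by positivity, by positivity, hh1, ?_,
    ?_, ?_⟩
  · have : (1 : ℝ) ≤ H := by
      have : 0 ≤ 8 * R * h0 := by positivity
      linarith
    exact_mod_cast this
  · intro i x r m S h1 h2 hS hm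
    exact geom_size hd hK hC h1 h2 hS hm
  · intro i x r m a S h1 h2 hS hm ha hma
    obtain ⟨g1, g2⟩ := geom_G1 hd hK hC h1 h2 hS hm a ha hma
    refine ⟨tw N (x - toR m), g1, tw_le N _, g2, fun e he => ?_⟩
    rcases lt_or_ge (32 * R * ⟪e, toE (tw N (x - toR m))⟫) (N * ρ) with h | h
    · exact Or.inr (geom_bad hd hK hC h1 h2 hS hm ha he h)
    · exact Or.inl (geom_good hd hρ hR hC.hN he (tw_le N _) h)

end Pool.Agent.W11
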