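import Pool.Agent.W11.Class

/-!
W11, section 6: integration over the level.
-/

set_option autoImplicit false

open Finset MeasureTheory
open scoped RealInnerProductSpace ENNReal

namespace Pool.Agent.W11

variable {d : ℕ}

lemma tsum_W0 (i : ℕ) (g : Pt d → ℝ≥0∞) : ∑' v, ∑ z ∈ W 0 i v, g z = ∑' z, g z := by
  have h1 : ∀ v : Pt d, ∑ z ∈ W 0 i v, g z = ∑' z, if ind i z = v then g z else 0 := by
    intro v
    rw [tsum_eq_sum (s := W 0 i v)]
    · refine Finset.sum_congr rfl fun z hz => ?_
      rw [if_pos (mem_W0.mp hz)]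
    · intro z hz
      rw [if_neg fun hc => hz (mem_W0.mpr hc)]
  simp_rw [h1]
  rw [ENNReal.tsum_comm]
  refine tsum_congr fun z => ?_
  rw [tsum_eq_single (ind i z)]
  · rw [if_pos rfl]
  · intro v hv
    rw [if_neg (Ne.symm hv)]

lemma lint4 (q κ : ℝ≥0∞) (a1 b1 a2 b2 a3 b3 a4 b4 : ℝ) :
    ∫⁻ lam : ℝ, q * ((Set.Icc a1 b1).indicator (1 : ℝ → ℝ≥0∞) lam +
      (Set.Icc a2 b2).indicator (1 : ℝ → ℝ≥0∞) lam +
      (Set.Icc a3 b3).indicator (1 : ℝ → ℝ≥0∞) lam +
      κ * (Set.Icc a4 b4).indicator (1 : ℝ → ℝ≥0∞) lam) =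
    q * (ENNReal.ofReal (b1 - a1) + ENNReal.ofReal (b2 - a2) + ENNReal.ofReal (b3 - a3) +
      κ * ENNReal.ofReal (b4 - a4)) := by
  have hI : ∀ a b : ℝ, Measurable (fun lam => (Set.Icc a b).indicator (1 : ℝ → ℝ≥0∞) lam) :=
    fun a b => measurable_one.indicator measurableSet_Icc
  have e1 : ∀ a b : ℝ, ∫⁻ lam : ℝ, (Set.Icc a b).indicator (1 : ℝ → ℝ≥0∞) lam =
      ENNReal.ofReal (b - a) := fun a b => by
    rw [lintegral_indicator_one measurableSet_Icc, Real.volume_Icc]
  have m2 := (hI a1 b1).add (hI a2 b2)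
  have m3 := m2.add (hI a3 b3)
  have m4 := m3.add ((hI a4 b4).const_mul κ)
  rw [lintegral_const_mul q (f := fun lam : ℝ => ((Set.Icc a1 b1).indicator (1 : ℝ → ℝ≥0∞) lam +
      (Set.Icc a2 b2).indicator (1 : ℝ → ℝ≥0∞) lam +
      (Set.Icc a3 b3).indicator (1 : ℝ → ℝ≥0∞) lam +
      κ * (Set.Icc a4 b4).indicator (1 : ℝ → ℝ≥0∞) lam)) m4]
  congr 1
  rw [lintegral_add_left (f := fun lam : ℝ => ((Set.Icc a1 b1).indicator (1 : ℝ → ℝ≥0∞) lam +
      (Set.Icc a2 b2).indicator (1 : ℝ → ℝ≥0∞) lam +
      (Set.Icc a3 b3).indicator (1 : ℝ → ℝ≥0∞) lam)) m3,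
    lintegral_add_left (f := fun lam : ℝ => ((Set.Icc a1 b1).indicator (1 : ℝ → ℝ≥0∞) lam +
      (Set.Icc a2 b2).indicator (1 : ℝ → ℝ≥0∞) lam)) m2,
    lintegral_add_left (hI a1 b1), lintegral_const_mul κ (hI a4 b4), e1, e1, e1, e1]

section

variable {f M : Pt d → ℝ} {S : Pt d → Finset (Pt d)} {lev : Pt d → ℕ} {large : Set (Pt d)}
  {typ : Pt d → Pt d} {e ref : ℕ → Pt d → EE d} {Rst : ℕ → Set (Pt d)}
  {eps osc : ℕ → Pt d → ℝ} {K₀ N H H₁ N₂ N₃ : ℕ} {γ δ : ℝ} {a w : Pt d}

theorem Hyp.integrate (h : Hyp f M S lev large typ e ref Rst eps osc K₀ N H H₁ N₂ N₃ γ δ a w)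
    {C : ℝ≥0∞}
    (hcount : ∀ (i : ℕ) (v : Pt d) (P : Set (Pt d)) (F : Finset (Pt d)), F ⊆ W 0 i v →
      (∀ n ∈ F, n ∈ P) → (∀ n ∈ F, ∀ t : ℕ, 1 ≤ t → t < 4 ^ i → n + (t : ℤ) • w ∉ P) →
      (F.card : ℝ≥0∞) * 4 ^ i ≤ C * (4 ^ i) ^ d) :
    ∑' n, ({n | n ∈ large ∧ typ n = w} : Set (Pt d)).indicator
        (fun n => ENNReal.ofReal (M n - M (n + a))) n ≤
      ∑ i ∈ range (K₀ + 1), ∑' v, C * ((4 ^ i) ^ d / 4 ^ i) *
        (4 * ENNReal.ofReal (eps i v) +
          (Rst i).indicator (fun v => ENNReal.ofReal (osc i v + eps i v)) v) := by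
  classical
  -- the functions of the level
  set J1 : ℕ → Pt d → Set ℝ := fun i v => Set.Icc (s1 M S lev large e N H γ a i v - eps i v)
          (s1 M S lev large e N H γ a i v) with hJ1
  set J2 : ℕ → Pt d → Set ℝ := fun i v => Set.Icc (s2 M lev large i v - eps i v)
          (s2 M lev large i v) with hJ2
  set J3 : ℕ → Pt d → Set ℝ := fun i v => Set.Icc (bref f N₂ i w v - eps i v)
          (bref f N₂ i w v + eps i v) with hJ3
  set J4 : ℕ → Pt d → Set ℝ := fun i v => Set.Icc (bref f N₂ i w v - osc i v)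
          (bref f N₂ i w v + eps i v) with hJ4
  set q : ℕ → ℝ≥0∞ := fun i => C * ((4 ^ i) ^ d / 4 ^ i) with hq
  set G : ℕ → Pt d → ℝ → ℝ≥0∞ := fun i v lam => q i * ((J1 i v).indicator 1 lam +
    (J2 i v).indicator 1 lam + (J3 i v).indicator 1 lam +
    (Rst i).indicator 1 v * (J4 i v).indicator 1 lam) with hG
  have hqcard : ∀ (i : ℕ) (c : ℕ), (c : ℝ≥0∞) * 4 ^ i ≤ C * (4 ^ i) ^ d → (c : ℝ≥0∞) ≤ q i := by
    intro i c hc
    have h4 : (4 : ℝ≥0∞) ^ i ≠ 0 := by positivity
    have h4' : (4 : ℝ≥0∞) ^ i ≠ ⊤ := ENNReal.pow_ne_top (by norm_num)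
    rw [hq]
    simp only
    rw [← mul_div_assoc, ENNReal.le_div_iff_mul_le (Or.inl h4) (Or.inl h4')]
    exact hc
  -- pointwise bound
  have hpt : ∀ lam : ℝ, ∑' n, (PS M large typ a w lam).indicator (1 : Pt d → ℝ≥0∞) n ≤
      ∑ i ∈ range (K₀ + 1), ∑' v, G i v lam := by
    intro lam
    set P := PS M large typ a w lam with hP
    let gap : ℕ → Pt d → Prop := fun i n => ∀ t : ℕ, 1 ≤ t → t < 4 ^ i → n + (t : ℤ) • w ∉ P
    let inJ : ℕ → Pt d → Prop := fun i v => lam ∈ J1 i v ∨ lam ∈ J2 i v ∨ lam ∈ J3 i v ∨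
      (v ∈ Rst i ∧ lam ∈ J4 i v)
    let hh : ℕ → Pt d → ℝ≥0∞ := fun i n => if n ∈ P ∧ gap i n ∧ inJ i (ind i n) then 1 else 0
    have h1 : ∀ n, P.indicator (1 : Pt d → ℝ≥0∞) n ≤ ∑ i ∈ range (K₀ + 1), hh i n := by
      intro n
      by_cases hn : n ∈ P
      · obtain ⟨i, hi2, hiK, hgap, hJ⟩ := h.classify hn
        have hmem : i ∈ range (K₀ + 1) := by rw [Finset.mem_range]; omega
        have h2 : hh i n ≤ ∑ i ∈ range (K₀ + 1), hh i n :=
          Finset.single_le_sum (f := fun i => hh i n) (fun _ _ => zero_le) hmem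
        refine le_trans ?_ h2
        rw [Set.indicator_of_mem hn]
        simp only [Pi.one_apply, hh]
        rw [if_pos ⟨hn, hgap, hJ⟩]
      · rw [Set.indicator_of_notMem hn]; exact zero_le
    calc ∑' n, P.indicator (1 : Pt d → ℝ≥0∞) n ≤ ∑' n, ∑ i ∈ range (K₀ + 1), hh i n :=
          ENNReal.tsum_le_tsum h1
      _ = ∑ i ∈ range (K₀ + 1), ∑' n, hh i n :=
          Summable.tsum_finsetSum fun i _ => ENNReal.summable
      _ ≤ ∑ i ∈ range (K₀ + 1), ∑' v, G i v lam := by
          refine Finset.sum_le_sum fun i _ => ?_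
          rw [← tsum_W0 i (hh i)]
          refine ENNReal.tsum_le_tsum fun v => ?_
          -- one cube
          by_cases hJ : inJ i v
          · set F := (W 0 i v).filter (fun n => n ∈ P ∧ gap i n) with hF
            have h3 : ∑ z ∈ W 0 i v, hh i z ≤ F.card := by
              rw [hF, Finset.card_filter]
              push_cast
              refine Finset.sum_le_sum fun z _ => ?_
              simp only [hh]
              by_cases hz : z ∈ P ∧ gap i z
              · rw [if_pos hz]
                split_ifs <;> simp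
              · rw [if_neg hz, if_neg fun hc => hz ⟨hc.1, hc.2.1⟩]
            have h4 : (F.card : ℝ≥0∞) ≤ q i := by
              apply hqcard
              refine hcount i v P F (Finset.filter_subset _ _) ?_ ?_
              · intro n hn
                exact (Finset.mem_filter.mp hn).2.1
              · intro n hn t h1 h2
                exact (Finset.mem_filter.mp hn).2.2 t h1 h2
            refine (h3.trans h4).trans ?_
            rw [hG]
            simp only
            have h5 : (1 : ℝ≥0∞) ≤ (J1 i v).indicator 1 lam +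
              (J2 i v).indicator 1 lam + (J3 i v).indicator 1 lam +
              (Rst i).indicator 1 v * (J4 i v).indicator 1 lam := by
              rcases hJ with hJ | hJ | hJ | ⟨hJ, hJ'⟩
              · rw [Set.indicator_of_mem hJ]
                simp only [Pi.one_apply]
                rw [add_assoc, add_assoc]; exact le_self_add
              · rw [Set.indicator_of_mem (s := J2 i v) hJ]
                simp only [Pi.one_apply]
                rw [add_assoc, add_assoc]
                exact le_add_left le_self_add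
              · rw [Set.indicator_of_mem (s := J3 i v) hJ]
                simp only [Pi.one_apply]
                exact le_add_right (le_add_left le_rfl)
              · rw [Set.indicator_of_mem (s := J4 i v) hJ', Set.indicator_of_mem hJ]
                simp
            calc q i = q i * 1 := (mul_one _).symm
              _ ≤ _ := by gcongr
          · have h3 : ∑ z ∈ W 0 i v, hh i z = 0 := by
              refine Finset.sum_eq_zero fun z hz => ?_
              simp only [hh]
              rw [if_neg]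
              rintro ⟨-, -, hc⟩
              rw [mem_W0.mp hz] at hc
              exact hJ hc
            rw [h3]; exact zero_le
  -- measurability
  have hmeas : ∀ i v, Measurable (G i v) := by
    intro i v
    have hI : ∀ a b : ℝ, Measurable ((Set.Icc a b).indicator (1 : ℝ → ℝ≥0∞)) := fun a b =>
      measurable_one.indicator measurableSet_Icc
    exact Measurable.const_mul ((((hI _ _).add (hI _ _)).add (hI _ _)).add
      ((hI _ _).const_mul _)) _
  -- left side as an integral
  have hleft : ∀ n, ({n | n ∈ large ∧ typ n = w} : Set (Pt d)).indicator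
      (fun n => ENNReal.ofReal (M n - M (n + a))) n =
      ∫⁻ lam, (PS M large typ a w lam).indicator (1 : Pt d → ℝ≥0∞) n := by
    intro n
    by_cases hn : n ∈ large ∧ typ n = w
    · rw [Set.indicator_of_mem (s := {n | n ∈ large ∧ typ n = w}) hn]
      have : (fun lam : ℝ => (PS M large typ a w lam).indicator (1 : Pt d → ℝ≥0∞) n) =
          (Set.Ico (M (n + a)) (M n)).indicator 1 := by
        funext lam
        by_cases hl : lam ∈ Set.Ico (M (n + a)) (M n)
        · rw [Set.indicator_of_mem hl, Set.indicator_of_mem]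
          · rfl
          · exact ⟨hn.1, hl.1, hl.2, hn.2⟩
        · rw [Set.indicator_of_notMem hl, Set.indicator_of_notMem]
          rintro ⟨-, h2, h3, -⟩
          exact hl ⟨h2, h3⟩
      rw [this, lintegral_indicator_one measurableSet_Ico, Real.volume_Ico]
    · rw [Set.indicator_of_notMem (s := {n | n ∈ large ∧ typ n = w}) hn]
      have : (fun lam : ℝ => (PS M large typ a w lam).indicator (1 : Pt d → ℝ≥0∞) n) =
          fun _ => 0 := by
        funext lam
        rw [Set.indicator_of_notMem]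
        rintro ⟨h1, -, -, h2⟩
        exact hn ⟨h1, h2⟩
      rw [this, lintegral_zero]
  have hmeasP : ∀ n, Measurable fun lam : ℝ =>
      (PS M large typ a w lam).indicator (1 : Pt d → ℝ≥0∞) n := by
    intro n
    by_cases hn : n ∈ large ∧ typ n = w
    · have : (fun lam : ℝ => (PS M large typ a w lam).indicator (1 : Pt d → ℝ≥0∞) n) =
          (Set.Ico (M (n + a)) (M n)).indicator 1 := by
        funext lam
        by_cases hl : lam ∈ Set.Ico (M (n + a)) (M n)
        · rw [Set.indicator_of_mem hl, Set.indicator_of_mem]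
          · rfl
          · exact ⟨hn.1, hl.1, hl.2, hn.2⟩
        · rw [Set.indicator_of_notMem hl, Set.indicator_of_notMem]
          rintro ⟨-, h2, h3, -⟩
          exact hl ⟨h2, h3⟩
      rw [this]
      exact measurable_one.indicator measurableSet_Ico
    · have : (fun lam : ℝ => (PS M large typ a w lam).indicator (1 : Pt d → ℝ≥0∞) n) =
          fun _ => 0 := by
        funext lam
        rw [Set.indicator_of_notMem]
        rintro ⟨h1, -, -, h2⟩
        exact hn ⟨h1, h2⟩
      rw [this]; exact measurable_const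
  simp_rw [hleft]
  rw [← lintegral_tsum fun n => (hmeasP n).aemeasurable]
  refine (lintegral_mono hpt).trans ?_
  rw [lintegral_finsetSum _ fun i _ => Measurable.tsum fun v => hmeas i v]
  refine Finset.sum_le_sum fun i _ => ?_
  rw [lintegral_tsum fun v => (hmeas i v).aemeasurable]
  refine ENNReal.tsum_le_tsum fun v => ?_
  -- one cube
  have hI : ∀ a b : ℝ, Measurable ((Set.Icc a b).indicator (1 : ℝ → ℝ≥0∞)) := fun a b =>
    measurable_one.indicator measurableSet_Icc
  have hint : ∫⁻ lam, G i v lam = q i * (ENNReal.ofReal (eps i v) + ENNReal.ofReal (eps i v) +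
      ENNReal.ofReal (2 * eps i v) +
      (Rst i).indicator 1 v * ENNReal.ofReal (osc i v + eps i v)) := by
    rw [hG]
    simp only
    refine (lint4 _ _ _ _ _ _ _ _ _ _).trans ?_
    have t1 : s1 M S lev large e N H γ a i v - (s1 M S lev large e N H γ a i v - eps i v) =
      eps i v := by ring
    have t2 : s2 M lev large i v - (s2 M lev large i v - eps i v) = eps i v := by ring
    have t3 : bref f N₂ i w v + eps i v - (bref f N₂ i w v - eps i v) = 2 * eps i v := by ring
    have t4 : bref f N₂ i w v + eps i v - (bref f N₂ i w v - osc i v) = osc i v + eps i v := by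
      ring
    rw [t1, t2, t3, t4]
  rw [hint]
  refine mul_le_mul_right ?_ _
  have h2 : ENNReal.ofReal (2 * eps i v) = 2 * ENNReal.ofReal (eps i v) := by
    rw [ENNReal.ofReal_mul (by norm_num)]; norm_num
  rw [h2]
  have h3 : (Rst i).indicator 1 v * ENNReal.ofReal (osc i v + eps i v) =
      (Rst i).indicator (fun v => ENNReal.ofReal (osc i v + eps i v)) v := by
    by_cases hv : v ∈ Rst i
    · rw [Set.indicator_of_mem hv, Set.indicator_of_mem hv]; simp
    · rw [Set.indicator_of_notMem hv, Set.indicator_of_notMem hv, zero_mul]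
  rw [h3]
  refine add_le_add_left ?_ _
  apply le_of_eq
  ring

end

end Pool.Agent.W11
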