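import Pool.Agent.W11.Basic

/-!
W11, module M5: second differences and pointwise bounds (helper55).
-/

set_option autoImplicit false

open Finset
open scoped RealInnerProductSpace ENNReal

namespace Pool.Agent.W11

variable {d : ℕ}

namespace Sec

/-- the face `y l = s` of the box -/
noncomputable def Fc (n : ℕ) (l : Fin d) (s : ℤ) : Finset (Pt d) :=
  Fintype.piFinset fun j => if j = l then {s} else Finset.Ico (0 : ℤ) n

lemma mem_Fc {n : ℕ} {l : Fin d} {s : ℤ} {y : Pt d} :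
    y ∈ Fc n l s ↔ y l = s ∧ ∀ j, j ≠ l → 0 ≤ y j ∧ y j < n := by
  unfold Fc
  rw [Fintype.mem_piFinset]
  constructor
  · intro h
    refine ⟨by simpa using h l, fun j hj => ?_⟩
    have := h j
    rw [if_neg hj] at this
    simpa using this
  · rintro ⟨h1, h2⟩ j
    by_cases hj : j = l
    · subst hj
      simp [h1]
    · rw [if_neg hj]
      simpa using h2 j hj

lemma card_Fc (n : ℕ) (l : Fin d) (s : ℤ) : n * (Fc n l s).card = n ^ d := by
  unfold Fc
  rw [Fintype.card_piFinset]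
  have h1 : ∀ j : Fin d, (if j = l then ({s} : Finset ℤ) else Finset.Ico (0 : ℤ) n).card
      = if j = l then 1 else n := by
    intro j
    split_ifs
    · simp
    · simp
  rw [Finset.prod_congr rfl fun j _ => h1 j]
  rw [← Finset.mul_prod_erase Finset.univ (fun j => if j = l then 1 else n) (Finset.mem_univ l)]
  have h2 : ∏ j ∈ Finset.univ.erase l, (if j = l then 1 else n) = n ^ (d - 1) := by
    rw [Finset.prod_congr rfl (g := fun _ => n)]
    · rw [Finset.prod_const, Finset.card_erase_of_mem (Finset.mem_univ l), Finset.card_univ,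
        Fintype.card_fin]
    · intro j hj
      rw [if_neg (Finset.ne_of_mem_erase hj)]
  rw [h2]
  have hd : 1 ≤ d := by
    have := l.2
    omega
  simp only [if_true, one_mul]
  rw [← pow_succ']
  congr 1
  omega

lemma face_sum (n : ℕ) (l : Fin d) (h : Pt d → ℝ) :
    (∑ y ∈ bx d n, h (y + eV l)) + ∑ y ∈ Fc n l 0, h y
      = (∑ y ∈ bx d n, h y) + ∑ y ∈ Fc n l n, h y := by
  have h1 : ∑ y ∈ bx d n, h (y + eV l)
      = ∑ y ∈ (bx d n).map (addRightEmbedding (eV l)), h y := by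
    rw [Finset.sum_map]
    rfl
  rw [h1]
  have hd1 : Disjoint ((bx d n).map (addRightEmbedding (eV l))) (Fc n l 0) := by
    rw [Finset.disjoint_left]
    intro y hy hy'
    rw [Finset.mem_map] at hy
    obtain ⟨x, hx, rfl⟩ := hy
    rw [mem_bx] at hx
    rw [mem_Fc] at hy'
    have h2 := hy'.1
    have h3 := (hx l).1
    simp [eV] at h2
    omega
  have hd2 : Disjoint (bx d n) (Fc n l (n : ℤ)) := by
    rw [Finset.disjoint_left]
    intro y hy hy'
    rw [mem_bx] at hy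
    rw [mem_Fc] at hy'
    have h2 := hy'.1
    have h3 := (hy l).2
    omega
  rw [← Finset.sum_union hd1, ← Finset.sum_union hd2]
  congr 1
  ext y
  rw [Finset.mem_union, Finset.mem_union, Finset.mem_map, mem_bx, mem_Fc, mem_Fc]
  constructor
  · rintro (⟨x, hx, rfl⟩ | ⟨g1, g2⟩)
    · rw [mem_bx] at hx
      by_cases hc : x l + 1 = n
      · right
        refine ⟨by simpa [eV] using hc, fun j hj => ?_⟩
        simpa [eV, Pi.single_eq_of_ne hj] using hx j
      · left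
        intro j
        by_cases hj : j = l
        · subst hj
          have := hx j
          simp only [addRightEmbedding_apply, Pi.add_apply, eV, Pi.single_eq_same]
          omega
        · simpa [eV, Pi.single_eq_of_ne hj] using hx j
    · by_cases hn : n = 0
      · subst hn
        right
        exact ⟨by rw [g1]; rfl, g2⟩
      · left
        intro j
        by_cases hj : j = l
        · subst hj
          omega
        · exact g2 j hj
  · rintro (hy | ⟨g1, g2⟩)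
    · by_cases hc : y l = 0
      · right
        exact ⟨hc, fun j _ => hy j⟩
      · left
        refine ⟨y - eV l, ?_, by simp⟩
        rw [mem_bx]
        intro j
        by_cases hj : j = l
        · subst hj
          have := hy j
          simp only [Pi.sub_apply, eV, Pi.single_eq_same]
          omega
        · simpa [eV, Pi.single_eq_of_ne hj] using hy j
    · by_cases hn : n = 0
      · subst hn
        right
        exact ⟨by rw [g1]; rfl, g2⟩
      · left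
        refine ⟨y - eV l, ?_, by simp⟩
        rw [mem_bx]
        intro j
        by_cases hj : j = l
        · subst hj
          simp only [Pi.sub_apply, eV, Pi.single_eq_same]
          omega
        · simpa [eV, Pi.single_eq_of_ne hj] using g2 j hj

/-- first difference -/
noncomputable def df (g : Pt d → ℝ) (k : Fin d) (z : Pt d) : ℝ := g (z + eV k) - g z

lemma df_av (n : ℕ) (g : Pt d → ℝ) (k : Fin d) (z : Pt d) :
    df (av n g) k z = ((n : ℝ) ^ d)⁻¹ * ∑ y ∈ bx d n, df g k (z + y) := by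
  unfold df av
  simp only [smul_eq_mul]
  rw [Finset.sum_sub_distrib, mul_sub]
  congr 2
  refine Finset.sum_congr rfl fun y _ => ?_
  rw [add_right_comm]

lemma abs_df_le (f : Pt d → ℝ) (j : ℕ) (k : Fin d) (z : Pt d) :
    |df (sm f j) k z| ≤ nG f j z := by
  unfold nG
  have := PiLp.norm_apply_le (gr (sm f j) z) k
  simpa [gr, df] using this

/-- the two faces -/
lemma ddf_av (n : ℕ) (g : Pt d → ℝ) (l k : Fin d) (z : Pt d) :
    |df (av n g) k (z + eV l) - df (av n g) k z| ≤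
      ((n : ℝ) ^ d)⁻¹ * (∑ y ∈ Fc n l n, |df g k (z + y)| + ∑ y ∈ Fc n l 0, |df g k (z + y)|) := by
  rw [df_av, df_av, ← mul_sub]
  have h1 := face_sum n l (fun y => df g k (z + y))
  have h2 : ∑ y ∈ bx d n, df g k (z + eV l + y) = ∑ y ∈ bx d n, df g k (z + (y + eV l)) := by
    refine Finset.sum_congr rfl fun y _ => ?_
    congr 1
    abel
  rw [h2]
  have h3 : (∑ y ∈ bx d n, df g k (z + (y + eV l))) - ∑ y ∈ bx d n, df g k (z + y)
      = ∑ y ∈ Fc n l n, df g k (z + y) - ∑ y ∈ Fc n l 0, df g k (z + y) := by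
    linarith
  rw [h3, abs_mul, abs_of_nonneg (by positivity : (0 : ℝ) ≤ ((n : ℝ) ^ d)⁻¹)]
  refine mul_le_mul_of_nonneg_left ?_ (by positivity)
  refine (abs_sub _ _).trans ?_
  exact add_le_add (Finset.abs_sum_le_sum_abs _ _) (Finset.abs_sum_le_sum_abs _ _)

lemma Hs_eq (g : Pt d → ℝ) (z : Pt d) :
    Hs g z = ∑ l, ∑ k, |df g k (z + eV l) - df g k z| := rfl

/-- sum of a nonnegative function over a translate -/
lemma sum_shift_le {g : Pt d → ℝ} (hg : ∀ z, 0 ≤ g z) {S S' : Finset (Pt d)} (y : Pt d)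
    (h : ∀ z ∈ S, z + y ∈ S') : ∑ z ∈ S, g (z + y) ≤ ∑ z ∈ S', g z := by
  have h1 : ∑ z ∈ S, g (z + y) = ∑ z ∈ S.map (addRightEmbedding y), g z := by
    rw [Finset.sum_map]
    rfl
  rw [h1]
  refine Finset.sum_le_sum_of_subset_of_nonneg ?_ fun z _ _ => hg z
  intro z hz
  rw [Finset.mem_map] at hz
  obtain ⟨x, hx, rfl⟩ := hz
  exact h x hx

lemma sum_shift_le' {g : Pt d → ℝ} (hg : ∀ z, 0 ≤ g z) {S S' : Finset (Pt d)} (z : Pt d)
    (h : ∀ y ∈ S, z + y ∈ S') : ∑ y ∈ S, g (z + y) ≤ ∑ z ∈ S', g z := by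
  have h1 : ∑ y ∈ S, g (z + y) = ∑ y ∈ S, g (y + z) :=
    Finset.sum_congr rfl fun y _ => by rw [add_comm]
  rw [h1]
  exact sum_shift_le hg z fun y hy => by rw [add_comm]; exact h y hy

end Sec

open Sec

theorem Hs_sum_succ (d : ℕ) : ∃ C : ℝ, 0 ≤ C ∧ ∀ (f : Pt d → ℝ) (i : ℕ) (S S' : Finset (Pt d)),
    (∀ z ∈ S, ∀ y : Pt d, (∀ l, 0 ≤ y l ∧ y l ≤ 4 ^ i + 1) → z + y ∈ S') →
    ∑ z ∈ S, Hs (sm f (i + 1)) z ≤ C / 4 ^ i * ∑ z ∈ S', nG f i z := by
  refine ⟨2 * d ^ 2, by positivity, fun f i S S' h => ?_⟩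
  set n : ℕ := 4 ^ i with hn
  have hnpos : (0 : ℝ) < n := by rw [hn]; positivity
  set T := ∑ z ∈ S', nG f i z with hT
  have hface : ∀ (l k : Fin d) (s : ℤ), 0 ≤ s → s ≤ n →
      ∑ z ∈ S, ∑ y ∈ Fc n l s, |df (sm f i) k (z + y)| ≤ ((Fc n l s).card : ℝ) * T := by
    intro l k s hs0 hs1
    rw [Finset.sum_comm, ← nsmul_eq_mul]
    refine Finset.sum_le_card_nsmul _ _ _ fun y hy => ?_
    rw [mem_Fc] at hy
    refine (Finset.sum_le_sum fun z _ => abs_df_le f i k (z + y)).trans ?_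
    refine sum_shift_le (nG_nonneg f i) y fun z hz => h z hz y fun j => ?_
    by_cases hj : j = l
    · subst hj
      rw [hy.1]
      have : ((n : ℕ) : ℤ) = 4 ^ i := by rw [hn]; push_cast; rfl
      omega
    · have h1 := hy.2 j hj
      have : ((n : ℕ) : ℤ) = 4 ^ i := by rw [hn]; push_cast; rfl
      omega
  have hcard : ∀ (l : Fin d) (s : ℤ), ((n : ℝ) ^ d)⁻¹ * ((Fc n l s).card : ℝ) = (n : ℝ)⁻¹ := by
    intro l s
    have h1 : (n : ℝ) * ((Fc n l s).card : ℝ) = (n : ℝ) ^ d := by exact_mod_cast card_Fc n l s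
    have h2 : (0 : ℝ) < (n : ℝ) ^ d := by positivity
    field_simp
    linarith
  have hT0 : 0 ≤ T := Finset.sum_nonneg fun z _ => nG_nonneg f i z
  have hlk : ∀ l k : Fin d, ∑ z ∈ S, |df (sm f (i + 1)) k (z + eV l) - df (sm f (i + 1)) k z| ≤
      2 / n * T := by
    intro l k
    have h1 : ∀ z ∈ S, |df (sm f (i + 1)) k (z + eV l) - df (sm f (i + 1)) k z| ≤
        ((n : ℝ) ^ d)⁻¹ * (∑ y ∈ Fc n l n, |df (sm f i) k (z + y)| +
          ∑ y ∈ Fc n l 0, |df (sm f i) k (z + y)|) := fun z _ => ddf_av n (sm f i) l k z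
    refine (Finset.sum_le_sum h1).trans ?_
    rw [← Finset.mul_sum, Finset.sum_add_distrib]
    have h2 := hface l k n (by positivity) le_rfl
    have h3 := hface l k 0 le_rfl (by positivity)
    calc ((n : ℝ) ^ d)⁻¹ * (∑ z ∈ S, ∑ y ∈ Fc n l n, |df (sm f i) k (z + y)| +
          ∑ z ∈ S, ∑ y ∈ Fc n l 0, |df (sm f i) k (z + y)|)
        ≤ ((n : ℝ) ^ d)⁻¹ * (((Fc n l n).card : ℝ) * T + ((Fc n l 0).card : ℝ) * T) :=
          mul_le_mul_of_nonneg_left (add_le_add h2 h3) (by positivity)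
      _ = (((n : ℝ) ^ d)⁻¹ * ((Fc n l n).card : ℝ)) * T +
          (((n : ℝ) ^ d)⁻¹ * ((Fc n l 0).card : ℝ)) * T := by ring
      _ = 2 / n * T := by rw [hcard, hcard]; field_simp; ring
  have hsum : ∑ z ∈ S, Hs (sm f (i + 1)) z =
      ∑ l, ∑ k, ∑ z ∈ S, |df (sm f (i + 1)) k (z + eV l) - df (sm f (i + 1)) k z| := by
    simp only [Hs_eq]
    rw [Finset.sum_comm]
    exact Finset.sum_congr rfl fun l _ => Finset.sum_comm
  rw [hsum]
  calc ∑ l, ∑ k, ∑ z ∈ S, |df (sm f (i + 1)) k (z + eV l) - df (sm f (i + 1)) k z|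
      ≤ ∑ _l : Fin d, ∑ _k : Fin d, 2 / (n : ℝ) * T :=
        Finset.sum_le_sum fun l _ => Finset.sum_le_sum fun k _ => hlk l k
    _ = 2 * d ^ 2 / 4 ^ i * T := by
        simp only [Finset.sum_const, Finset.card_univ, Fintype.card_fin, nsmul_eq_mul]
        rw [hn]
        push_cast
        ring

theorem Hs_sum_zero (d : ℕ) : ∃ C : ℝ, 0 ≤ C ∧ ∀ (f : Pt d → ℝ) (S S' : Finset (Pt d)),
    (∀ z ∈ S, ∀ y : Pt d, (∀ l, 0 ≤ y l ∧ y l ≤ 1) → z + y ∈ S') →
    ∑ z ∈ S, Hs f z ≤ C * ∑ z ∈ S', nG f 0 z := by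
  refine ⟨2 * d ^ 2, by positivity, fun f S S' h => ?_⟩
  set T := ∑ z ∈ S', nG f 0 z with hT
  have hlk : ∀ l k : Fin d, ∑ z ∈ S, |df f k (z + eV l) - df f k z| ≤ 2 * T := by
    intro l k
    have h1 : ∀ z ∈ S, |df f k (z + eV l) - df f k z| ≤ nG f 0 (z + eV l) + nG f 0 (z + 0) := by
      intro z _
      rw [add_zero]
      refine (abs_sub _ _).trans ?_
      exact add_le_add (abs_df_le f 0 k _) (abs_df_le f 0 k _)
    refine (Finset.sum_le_sum h1).trans ?_
    rw [Finset.sum_add_distrib]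
    have h2 : ∑ z ∈ S, nG f 0 (z + eV l) ≤ T := by
      refine sum_shift_le (nG_nonneg f 0) (eV l) fun z hz => h z hz _ fun j => ?_
      by_cases hj : j = l
      · subst hj; simp [eV]
      · simp [eV, Pi.single_eq_of_ne hj]
    have h3 : ∑ z ∈ S, nG f 0 (z + 0) ≤ T :=
      sum_shift_le (nG_nonneg f 0) 0 fun z hz => h z hz _ fun j => by simp
    linarith
  have hsum : ∑ z ∈ S, Hs f z =
      ∑ l, ∑ k, ∑ z ∈ S, |df f k (z + eV l) - df f k z| := by
    simp only [Hs_eq]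
    rw [Finset.sum_comm]
    exact Finset.sum_congr rfl fun l _ => Finset.sum_comm
  rw [hsum]
  calc ∑ l, ∑ k, ∑ z ∈ S, |df f k (z + eV l) - df f k z|
      ≤ ∑ _l : Fin d, ∑ _k : Fin d, 2 * T :=
        Finset.sum_le_sum fun l _ => Finset.sum_le_sum fun k _ => hlk l k
    _ = 2 * d ^ 2 * T := by
        simp only [Finset.sum_const, Finset.card_univ, Fintype.card_fin, nsmul_eq_mul]
        ring

theorem Hs_pt (d : ℕ) : ∃ C : ℝ, 0 ≤ C ∧ ∀ (f : Pt d → ℝ) (i : ℕ) (z : Pt d) (S' : Finset (Pt d)),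
    (∀ y : Pt d, (∀ l, 0 ≤ y l ∧ y l ≤ 2 * 4 ^ (i + 1)) → z + y ∈ S') →
    Hs (sm f (i + 2)) z ≤ C / ((4 : ℝ) ^ i * ((4 : ℝ) ^ i) ^ d) * ∑ z' ∈ S', nG f i z' := by
  refine ⟨2 * d ^ 2, by positivity, fun f i z S' h => ?_⟩
  set n : ℕ := 4 ^ i with hn
  set m : ℕ := 4 ^ (i + 1) with hm
  have hnpos : (0 : ℝ) < n := by rw [hn]; positivity
  have hmpos : (0 : ℝ) < m := by rw [hm]; positivity
  set T := ∑ z ∈ S', nG f i z with hT
  have hT0 : 0 ≤ T := Finset.sum_nonneg fun z _ => nG_nonneg f i z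
  have hnz : ((n : ℕ) : ℤ) = 4 ^ i := by rw [hn]; push_cast; rfl
  have hmz : ((m : ℕ) : ℤ) = 4 ^ (i + 1) := by rw [hm]; push_cast; rfl
  have hnm : ((n : ℕ) : ℤ) ≤ m := by
    rw [hnz, hmz]
    exact pow_le_pow_right₀ (by norm_num) (by omega)
  have hface : ∀ (l k : Fin d) (s : ℤ), 0 ≤ s → s ≤ m →
      ∑ y ∈ Fc m l s, |df (sm f (i + 1)) k (z + y)| ≤
        ((Fc m l s).card : ℝ) * (((n : ℝ) ^ d)⁻¹ * T) := by
    intro l k s hs0 hs1
    rw [← nsmul_eq_mul]
    refine Finset.sum_le_card_nsmul _ _ _ fun y hy => ?_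
    rw [mem_Fc] at hy
    have h1 : df (sm f (i + 1)) k (z + y) =
        ((n : ℝ) ^ d)⁻¹ * ∑ y' ∈ bx d n, df (sm f i) k (z + y + y') :=
      df_av n (sm f i) k (z + y)
    rw [h1, abs_mul, abs_of_nonneg (by positivity : (0 : ℝ) ≤ ((n : ℝ) ^ d)⁻¹)]
    refine mul_le_mul_of_nonneg_left ?_ (by positivity)
    refine (Finset.abs_sum_le_sum_abs _ _).trans ?_
    refine (Finset.sum_le_sum fun y' _ => abs_df_le f i k (z + y + y')).trans ?_
    refine sum_shift_le' (nG_nonneg f i) (z + y) fun y' hy' => ?_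
    rw [add_assoc]
    refine h _ fun j => ?_
    rw [mem_bx] at hy'
    have h2 := hy' j
    rw [← hmz]
    by_cases hj : j = l
    · subst hj
      simp only [Pi.add_apply, hy.1]
      omega
    · have h3 := hy.2 j hj
      simp only [Pi.add_apply]
      omega
  have hcard : ∀ (l : Fin d) (s : ℤ), ((m : ℝ) ^ d)⁻¹ * ((Fc m l s).card : ℝ) = (m : ℝ)⁻¹ := by
    intro l s
    have h1 : (m : ℝ) * ((Fc m l s).card : ℝ) = (m : ℝ) ^ d := by exact_mod_cast card_Fc m l s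
    have h2 : (0 : ℝ) < (m : ℝ) ^ d := by positivity
    field_simp
    linarith
  have hlk : ∀ l k : Fin d, |df (sm f (i + 2)) k (z + eV l) - df (sm f (i + 2)) k z| ≤
      2 / (m : ℝ) * (((n : ℝ) ^ d)⁻¹ * T) := by
    intro l k
    refine (ddf_av m (sm f (i + 1)) l k z).trans ?_
    have h2 := hface l k m (by positivity) le_rfl
    have h3 := hface l k 0 le_rfl (by positivity)
    calc ((m : ℝ) ^ d)⁻¹ * (∑ y ∈ Fc m l m, |df (sm f (i + 1)) k (z + y)| +
          ∑ y ∈ Fc m l 0, |df (sm f (i + 1)) k (z + y)|)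
        ≤ ((m : ℝ) ^ d)⁻¹ * (((Fc m l m).card : ℝ) * (((n : ℝ) ^ d)⁻¹ * T) +
            ((Fc m l 0).card : ℝ) * (((n : ℝ) ^ d)⁻¹ * T)) :=
          mul_le_mul_of_nonneg_left (add_le_add h2 h3) (by positivity)
      _ = (((m : ℝ) ^ d)⁻¹ * ((Fc m l m).card : ℝ)) * (((n : ℝ) ^ d)⁻¹ * T) +
          (((m : ℝ) ^ d)⁻¹ * ((Fc m l 0).card : ℝ)) * (((n : ℝ) ^ d)⁻¹ * T) := by ring
      _ = 2 / (m : ℝ) * (((n : ℝ) ^ d)⁻¹ * T) := by rw [hcard, hcard]; field_simp; ring
  rw [Hs_eq]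
  have hle : 2 / (m : ℝ) * (((n : ℝ) ^ d)⁻¹ * T) ≤ 2 / (n : ℝ) * (((n : ℝ) ^ d)⁻¹ * T) := by
    refine mul_le_mul_of_nonneg_right ?_ (by positivity)
    have : (n : ℝ) ≤ m := by exact_mod_cast hnm
    exact div_le_div_of_nonneg_left (by norm_num) hnpos this
  calc ∑ l, ∑ k, |df (sm f (i + 2)) k (z + eV l) - df (sm f (i + 2)) k z|
      ≤ ∑ _l : Fin d, ∑ _k : Fin d, 2 / (n : ℝ) * (((n : ℝ) ^ d)⁻¹ * T) :=
        Finset.sum_le_sum fun l _ => Finset.sum_le_sum fun k _ => (hlk l k).trans hle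
    _ = 2 * d ^ 2 / ((4 : ℝ) ^ i * ((4 : ℝ) ^ i) ^ d) * T := by
        simp only [Finset.sum_const, Finset.card_univ, Fintype.card_fin, nsmul_eq_mul]
        rw [hn]
        push_cast
        field_simp

lemma D_pt (f : Pt d → ℝ) (i : ℕ) {e : EE d} (he : ‖e‖ ≤ 1) (z : Pt d) (S' : Finset (Pt d))
    (h : ∀ y ∈ bx d (4 ^ i), z + y ∈ S') :
    D f (i + 1) e z ≤ (((4 : ℝ) ^ i) ^ d)⁻¹ * ∑ z' ∈ S', D f i e z' := by
  refine (D_succ_le f i e z).trans ?_
  unfold av
  rw [smul_eq_mul]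
  push_cast
  exact mul_le_mul_of_nonneg_left (sum_shift_le' (D_nonneg f i he) z h) (by positivity)

lemma nG_pt (f : Pt d → ℝ) (i : ℕ) (z : Pt d) (S' : Finset (Pt d))
    (h : ∀ y ∈ bx d (4 ^ i), z + y ∈ S') :
    nG f (i + 1) z ≤ (((4 : ℝ) ^ i) ^ d)⁻¹ * ∑ z' ∈ S', nG f i z' := by
  refine (nG_succ_le f i z).trans ?_
  unfold av
  rw [smul_eq_mul]
  push_cast
  exact mul_le_mul_of_nonneg_left (sum_shift_le' (nG_nonneg f i) z h) (by positivity)

end Pool.Agent.W11
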