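import Pool.Agent.W11.Path
import Pool.Agent.W11.Second

/-!
W11 M6a: the estimates UP, DOWN and A1 (helper60).
-/

set_option autoImplicit false

open Finset
open scoped RealInnerProductSpace

namespace Pool.Agent.W11

variable {d : ℕ}

/-- `s(i) = ∑_{j<i} 4^j` -/
def sI : ℕ → ℕ
  | 0 => 0
  | i + 1 => sI i + 4 ^ i

lemma sI_eq (i : ℕ) : 3 * sI i + 1 = 4 ^ i := by
  induction i with
  | zero => simp [sI]
  | succ i ih => simp only [sI, pow_succ]; omega

lemma W_shift {c c' i : ℕ} {v y z : Pt d} {K : ℕ} (hy : y ∈ W c i v)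
    (hz : ∀ l, |z l - y l| ≤ K * 4 ^ i) (hc : c + K ≤ c') : z ∈ W c' i v := by
  rw [mem_W'] at hy ⊢
  intro l
  obtain ⟨h1, h2⟩ := hy l
  have h3 := abs_le.1 (hz l)
  have h4 : (0 : ℤ) < 4 ^ i := by positivity
  have h5 : (c : ℤ) + K ≤ c' := by exact_mod_cast hc
  have h6 : (4 : ℤ) ^ i * (c + K) ≤ 4 ^ i * c' := mul_le_mul_of_nonneg_left h5 h4.le
  constructor <;> nlinarith [h3.1, h3.2]

/-- bounds on the second differences over windows -/
lemma HsW (d : ℕ) : ∃ C : ℝ, 0 ≤ C ∧ ∀ (f : Pt d → ℝ) (j i c : ℕ) (v : Pt d), j ≤ i →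
    (4 : ℝ) ^ j * ∑ z ∈ W c i v, Hs (sm f j) z ≤ C * ∑ z ∈ W (c + 2) i v, nG f (j - 1) z := by
  obtain ⟨C₁, hC₁, h1⟩ := Hs_sum_succ d
  obtain ⟨C₂, hC₂, h2⟩ := Hs_sum_zero d
  refine ⟨4 * C₁ + C₂, by positivity, fun f j i c v hj => ?_⟩
  have hn : 0 ≤ ∑ z ∈ W (c + 2) i v, nG f (j - 1) z :=
    Finset.sum_nonneg fun _ _ => nG_nonneg _ _ _
  rcases j with _ | j
  · have h3 := h2 f (W c i v) (W (c + 2) i v) (by
      intro z hz y hy
      refine W_shift (K := 2) hz (fun l => ?_) le_rfl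
      have h4 : (1 : ℤ) ≤ 4 ^ i := one_le_pow₀ (by norm_num)
      have h5 := hy l
      rw [show (z + y) l - z l = y l by simp]
      rw [abs_of_nonneg h5.1]
      push_cast
      nlinarith [h5.2])
    simp only [Nat.zero_sub, pow_zero, one_mul] at hn ⊢
    have h4 : sm f 0 = f := rfl
    rw [h4]
    nlinarith
  · have h3 := h1 f j (W c i v) (W (c + 2) i v) (by
      intro z hz y hy
      refine W_shift (K := 2) hz (fun l => ?_) le_rfl
      have h4 : (1 : ℤ) ≤ 4 ^ i := one_le_pow₀ (by norm_num)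
      have h6 : (4 : ℤ) ^ j ≤ 4 ^ i := pow_le_pow_right₀ (by norm_num) (by omega)
      have h5 := hy l
      rw [show (z + y) l - z l = y l by simp]
      rw [abs_of_nonneg h5.1]
      push_cast
      nlinarith [h5.2])
    simp only [Nat.add_sub_cancel] at hn ⊢
    have h4 : (0 : ℝ) < 4 ^ j := by positivity
    calc (4 : ℝ) ^ (j + 1) * ∑ z ∈ W c i v, Hs (sm f (j + 1)) z
        ≤ (4 : ℝ) ^ (j + 1) * (C₁ / 4 ^ j * ∑ z ∈ W (c + 2) i v, nG f j z) :=
          mul_le_mul_of_nonneg_left h3 (by positivity)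
      _ = 4 * C₁ * ∑ z ∈ W (c + 2) i v, nG f j z := by
          rw [pow_succ]; field_simp
      _ ≤ (4 * C₁ + C₂) * ∑ z ∈ W (c + 2) i v, nG f j z := by
          apply mul_le_mul_of_nonneg_right _ hn; linarith

/-- the error unit of level `j` on the window -/
noncomputable def Er (f : Pt d → ℝ) (c i : ℕ) (v : Pt d) (e : EE d) (j : ℕ) : ℝ :=
  (4 : ℝ) ^ j * (∑ z ∈ W c i v, D f j e z) + ∑ z ∈ W (c + 2) i v, nG f (j - 1) z

lemma Er_nonneg (f : Pt d → ℝ) (c i : ℕ) (v : Pt d) {e : EE d} (he : ‖e‖ ≤ 1) (j : ℕ) :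
    0 ≤ Er f c i v e j :=
  add_nonneg (mul_nonneg (by positivity) (Finset.sum_nonneg fun _ _ => D_nonneg _ _ he _))
    (Finset.sum_nonneg fun _ _ => nG_nonneg _ _ _)

/-- a path at level `j`, inside the window -/
lemma pathW (d N : ℕ) {γ : ℝ} (hγ : 0 < γ) : ∃ C : ℝ, 0 ≤ C ∧
    ∀ (f : Pt d → ℝ) (e : EE d) (i j c K : ℕ) (v w a p : Pt d) (M : ℕ) (S : Finset (Pt d)),
      ‖e‖ = 1 → Cone γ e w → (∀ l, |w l| ≤ N) → (∀ l, |a l| ≤ M) → j ≤ i → M ≤ K * 4 ^ j →
      (∀ y ∈ S, ∀ z : Pt d, (∀ l, |z l - (y + p) l| ≤ (N + 1) * (M + 1)) → z ∈ W c i v) →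
      ∑ y ∈ S, (sm f j (y + p) - sm f j (y + p + ((M : ℤ) • w + a))) ≤
        C * K * Er f c i v e j := by
  obtain ⟨C₀, hC₀, h0⟩ := path_sum d N hγ
  obtain ⟨C₁, hC₁, h1⟩ := HsW d
  refine ⟨C₀ * (1 + C₁), by positivity, fun f e i j c K v w a p M S he hcone hw ha hj hM hS => ?_⟩
  have h2 := h0 (sm f j) e w a M he hcone hw ha (S.map (addRightEmbedding p)) (W c i v) (by
    intro y hy z hz
    rw [Finset.mem_map] at hy
    obtain ⟨y', hy', rfl⟩ := hy
    exact hS y' hy' z hz)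
  rw [Finset.sum_map] at h2
  simp only [addRightEmbedding_apply] at h2
  refine h2.trans ?_
  have h3 := h1 f j i c v hj
  have hD : 0 ≤ ∑ z ∈ W c i v, D f j e z := Finset.sum_nonneg fun _ _ => D_nonneg _ _ he.le _
  have hH : 0 ≤ ∑ z ∈ W c i v, Hs (sm f j) z :=
    Finset.sum_nonneg fun _ _ => Finset.sum_nonneg fun _ _ => Finset.sum_nonneg fun _ _ =>
      abs_nonneg _
  have hn : 0 ≤ ∑ z ∈ W (c + 2) i v, nG f (j - 1) z :=
    Finset.sum_nonneg fun _ _ => nG_nonneg _ _ _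
  have hM' : (M : ℝ) ≤ K * 4 ^ j := by exact_mod_cast hM
  have hDD : ∑ z ∈ W c i v, Dg (sm f j) e z = ∑ z ∈ W c i v, D f j e z := rfl
  rw [hDD]
  calc C₀ * M * (∑ z ∈ W c i v, D f j e z + ∑ z ∈ W c i v, Hs (sm f j) z)
      ≤ C₀ * (K * 4 ^ j) * (∑ z ∈ W c i v, D f j e z + ∑ z ∈ W c i v, Hs (sm f j) z) := by
        apply mul_le_mul_of_nonneg_right _ (by positivity)
        exact mul_le_mul_of_nonneg_left hM' hC₀
    _ = C₀ * K * (4 ^ j * (∑ z ∈ W c i v, D f j e z) +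
          4 ^ j * ∑ z ∈ W c i v, Hs (sm f j) z) := by ring
    _ ≤ C₀ * K * (4 ^ j * (∑ z ∈ W c i v, D f j e z) +
          C₁ * ∑ z ∈ W (c + 2) i v, nG f (j - 1) z) := by
        apply mul_le_mul_of_nonneg_left _ (by positivity)
        linarith
    _ ≤ C₀ * K * ((1 + C₁) * Er f c i v e j) := by
        apply mul_le_mul_of_nonneg_left _ (by positivity)
        unfold Er
        have h5 : 0 ≤ (4 : ℝ) ^ j * ∑ z ∈ W c i v, D f j e z := by positivity
        nlinarith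
    _ = C₀ * (1 + C₁) * K * Er f c i v e j := by ring

lemma P_nonneg {f : Pt d → ℝ} {c i : ℕ} {B P : ℝ} {e : EE d} {v : Pt d}
    (h : Ctl f c B e i v P) : 0 ≤ P := by
  refine le_trans ?_ h.2.2
  exact mul_nonneg (by positivity) (Finset.sum_nonneg fun _ _ => Finset.sum_nonneg fun _ _ =>
    nG_nonneg _ _ _)

lemma D_ctl {f : Pt d → ℝ} {c i : ℕ} {B P : ℝ} {e : EE d} {v : Pt d}
    (h : Ctl f c B e i v P) :
    ∑ j ∈ range (i + 1), (4 : ℝ) ^ j * ∑ z ∈ W c i v, D f j e z ≤ 4 ^ i * (B * P) := by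
  have h1 := mul_le_mul_of_nonneg_left h.2.1 (show (0 : ℝ) ≤ 4 ^ i by positivity)
  refine le_trans (le_of_eq ?_) h1
  rw [Finset.mul_sum]
  refine Finset.sum_congr rfl fun j hj => ?_
  have hj' : j ≤ i := by have := Finset.mem_range.1 hj; omega
  rw [← mul_assoc]
  congr 1
  have h2 : (4 : ℝ) ^ i = 4 ^ (i - j) * 4 ^ j := by rw [← pow_add]; congr 1; omega
  rw [h2, one_div, inv_pow]
  field_simp

lemma nG_ctl {f : Pt d → ℝ} {c i : ℕ} {B P : ℝ} {e : EE d} {v : Pt d}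
    (h : Ctl f c B e i v P) :
    ∑ j ∈ range (i + 1), ∑ z ∈ W c i v, nG f j z ≤ 4 ^ i * P := by
  have h1 := mul_le_mul_of_nonneg_left h.2.2 (show (0 : ℝ) ≤ 4 ^ i by positivity)
  refine le_trans (le_of_eq ?_) h1
  rw [← mul_assoc, one_div, inv_pow, mul_inv_cancel₀ (by positivity), one_mul]

lemma Er_le {f : Pt d → ℝ} {c i : ℕ} {B P : ℝ} {e : EE d} {v : Pt d}
    (h : Ctl f (c + 2) B e i v P) {j : ℕ} (hj : j ≤ i) :
    Er f c i v e j ≤ (|B| + 1) * 4 ^ i * P := by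
  have hP := P_nonneg h
  have h1 := D_ctl (Ctl_mono (show c ≤ c + 2 by omega) h)
  have h2 := nG_ctl h
  have he : ‖e‖ ≤ 1 := h.1.le
  have h3 : (4 : ℝ) ^ j * (∑ z ∈ W c i v, D f j e z) ≤
      ∑ j ∈ range (i + 1), (4 : ℝ) ^ j * ∑ z ∈ W c i v, D f j e z :=
    Finset.single_le_sum (f := fun j => (4 : ℝ) ^ j * ∑ z ∈ W c i v, D f j e z)
      (fun j _ => mul_nonneg (by positivity) (Finset.sum_nonneg fun _ _ => D_nonneg _ _ he _))
      (Finset.mem_range.2 (by omega))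
  have h4 : ∑ z ∈ W (c + 2) i v, nG f (j - 1) z ≤
      ∑ j ∈ range (i + 1), ∑ z ∈ W (c + 2) i v, nG f j z :=
    Finset.single_le_sum (f := fun j => ∑ z ∈ W (c + 2) i v, nG f j z)
      (fun j _ => Finset.sum_nonneg fun _ _ => nG_nonneg _ _ _)
      (Finset.mem_range.2 (by omega))
  have h5 : (4 : ℝ) ^ i * (B * P) ≤ 4 ^ i * (|B| * P) :=
    mul_le_mul_of_nonneg_left (mul_le_mul_of_nonneg_right (le_abs_self B) hP) (by positivity)
  unfold Er
  nlinarith

lemma sum_Er_le {f : Pt d → ℝ} {c i : ℕ} {B P : ℝ} {e : EE d} {v : Pt d}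
    (h : Ctl f (c + 2) B e i v P) :
    ∑ j ∈ range i, Er f c i v e j ≤ (|B| + 2) * 4 ^ i * P := by
  have hP := P_nonneg h
  have h1 := D_ctl (Ctl_mono (show c ≤ c + 2 by omega) h)
  have h2 := nG_ctl h
  have he : ‖e‖ ≤ 1 := h.1.le
  have hn : ∀ j, 0 ≤ ∑ z ∈ W (c + 2) i v, nG f j z := fun j =>
    Finset.sum_nonneg fun _ _ => nG_nonneg _ _ _
  have h3 : ∑ j ∈ range i, (4 : ℝ) ^ j * (∑ z ∈ W c i v, D f j e z) ≤
      ∑ j ∈ range (i + 1), (4 : ℝ) ^ j * ∑ z ∈ W c i v, D f j e z :=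
    Finset.sum_le_sum_of_subset_of_nonneg (Finset.range_mono (by omega))
      (fun j _ _ => mul_nonneg (by positivity) (Finset.sum_nonneg fun _ _ => D_nonneg _ _ he _))
  have h4 : ∑ j ∈ range i, ∑ z ∈ W (c + 2) i v, nG f (j - 1) z ≤
      2 * ∑ j ∈ range (i + 1), ∑ z ∈ W (c + 2) i v, nG f j z := by
    rcases i with _ | i
    · simp only [Finset.range_zero, Finset.sum_empty]
      have := Finset.sum_nonneg (s := range (0 + 1)) fun j _ => hn j
      linarith
    · rw [Finset.sum_range_succ' (fun j => ∑ z ∈ W (c + 2) (i + 1) v, nG f (j - 1) z)]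
      simp only [Nat.add_sub_cancel, Nat.zero_sub]
      have h5 : ∑ j ∈ range i, ∑ z ∈ W (c + 2) (i + 1) v, nG f j z ≤
          ∑ j ∈ range (i + 1 + 1), ∑ z ∈ W (c + 2) (i + 1) v, nG f j z :=
        Finset.sum_le_sum_of_subset_of_nonneg (Finset.range_mono (by omega)) fun j _ _ => hn j
      have h6 : ∑ z ∈ W (c + 2) (i + 1) v, nG f 0 z ≤
          ∑ j ∈ range (i + 1 + 1), ∑ z ∈ W (c + 2) (i + 1) v, nG f j z :=
        Finset.single_le_sum (f := fun j => ∑ z ∈ W (c + 2) (i + 1) v, nG f j z)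
          (fun j _ => hn j) (Finset.mem_range.2 (by omega))
      linarith
  have h5 : (4 : ℝ) ^ i * (B * P) ≤ 4 ^ i * (|B| * P) :=
    mul_le_mul_of_nonneg_left (mul_le_mul_of_nonneg_right (le_abs_self B) hP) (by positivity)
  unfold Er
  rw [Finset.sum_add_distrib]
  nlinarith

lemma sum_av_eq (n : ℕ) (g : Pt d → ℝ) (S : Finset (Pt d)) (p : Pt d) :
    ∑ y ∈ S, av n g (y + p) = ((n : ℝ) ^ d)⁻¹ * ∑ a ∈ bx d n, ∑ y ∈ S, g (y + (p + a)) := by
  unfold av
  simp only [smul_eq_mul]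
  rw [← Finset.mul_sum, Finset.sum_comm]
  simp only [add_assoc]

lemma card_bx (n : ℕ) : ((bx d n).card : ℝ) = (n : ℝ) ^ d := by
  unfold bx
  rw [Fintype.card_piFinset]
  simp

/-- averaging a family of comparisons, upwards -/
lemma avg_up {n : ℕ} (hn : 0 < n) {g : Pt d → ℝ} {S : Finset (Pt d)} {p q : Pt d} {E : ℝ}
    (h : ∀ a ∈ bx d n, ∑ y ∈ S, (g (y + p) - g (y + (q + a))) ≤ E) :
    ∑ y ∈ S, g (y + p) ≤ ∑ y ∈ S, av n g (y + q) + E := by
  rw [sum_av_eq n]
  have hc := card_bx (d := d) n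
  have hnd : (0 : ℝ) < (n : ℝ) ^ d := by positivity
  have h1 : ∑ a ∈ bx d n, ∑ y ∈ S, (g (y + p) - g (y + (q + a))) ≤ ∑ _a ∈ bx d n, E :=
    Finset.sum_le_sum h
  simp only [Finset.sum_sub_distrib, Finset.sum_const, nsmul_eq_mul, hc] at h1
  rw [← sub_le_iff_le_add', ← mul_le_mul_iff_right₀ hnd]
  have h2 : (n : ℝ) ^ d * (((n : ℝ) ^ d)⁻¹ * ∑ a ∈ bx d n, ∑ y ∈ S, g (y + (q + a))) =
      ∑ a ∈ bx d n, ∑ y ∈ S, g (y + (q + a)) := by
    rw [← mul_assoc, mul_inv_cancel₀ hnd.ne', one_mul]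
  rw [mul_sub, h2]
  linarith

/-- averaging a family of comparisons, downwards -/
lemma avg_down {n : ℕ} (hn : 0 < n) {g : Pt d → ℝ} {S : Finset (Pt d)} {p q : Pt d} {E : ℝ}
    (h : ∀ a ∈ bx d n, ∑ y ∈ S, (g (y + (q + a)) - g (y + p)) ≤ E) :
    ∑ y ∈ S, av n g (y + q) ≤ ∑ y ∈ S, g (y + p) + E := by
  rw [sum_av_eq n]
  have hc := card_bx (d := d) n
  have hnd : (0 : ℝ) < (n : ℝ) ^ d := by positivity
  have h1 : ∑ a ∈ bx d n, ∑ y ∈ S, (g (y + (q + a)) - g (y + p)) ≤ ∑ _a ∈ bx d n, E :=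
    Finset.sum_le_sum h
  simp only [Finset.sum_sub_distrib, Finset.sum_const, nsmul_eq_mul, hc] at h1
  rw [inv_mul_le_iff₀ hnd]
  linarith

lemma sI_le (i : ℕ) : sI i ≤ 4 ^ i := by have := sI_eq i; omega

lemma sI_mono {i j : ℕ} (h : i ≤ j) : sI i ≤ sI j := by
  have h1 := sI_eq i
  have h2 := sI_eq j
  have h3 : 4 ^ i ≤ 4 ^ j := Nat.pow_le_pow_right (by norm_num) h
  omega

/-- UP: the sum of `f` over a set is at most the sum of `v_i` over the set moved by `s(i) w` -/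
theorem UP (d N H : ℕ) {γ : ℝ} (hγ : 0 < γ) (B : ℝ) : ∃ (c : ℕ) (C : ℝ), 0 ≤ C ∧
    ∀ (f : Pt d → ℝ) (e : EE d) (i : ℕ) (v : Pt d) (P : ℝ), Ctl f c B e i v P →
    ∀ S : Finset (Pt d), S ⊆ W H i v → ∀ w : Pt d, (∀ l, |w l| ≤ N) → Cone γ e w →
      ∑ y ∈ S, f y ≤ ∑ y ∈ S, sm f i (y + (sI i : ℤ) • w) + C * 4 ^ i * P := by
  obtain ⟨C₀, hC₀, h0⟩ := pathW d N hγ
  refine ⟨H + (4 * N + 4) + 2, C₀ * (|B| + 2), by positivity,
    fun f e i v P hctl S hS w hw hcone => ?_⟩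
  have he : ‖e‖ = 1 := hctl.1
  have key : ∀ j ≤ i, ∑ y ∈ S, f y ≤ ∑ y ∈ S, sm f j (y + (sI j : ℤ) • w) +
      C₀ * ∑ k ∈ range j, Er f (H + (4 * N + 4)) i v e k := by
    intro j
    induction j with
    | zero =>
      intro _
      simp only [Finset.range_zero, Finset.sum_empty, mul_zero, add_zero]
      refine le_of_eq (Finset.sum_congr rfl fun y _ => ?_)
      simp [sI, sm]
    | succ j ih =>
      intro hj
      refine (ih (by omega)).trans ?_
      have h4 : (4 : ℕ) ^ j ≤ 4 ^ i := Nat.pow_le_pow_right (by norm_num) (by omega)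
      have h4' : (4 : ℤ) ^ j ≤ 4 ^ i := by exact_mod_cast h4
      have h1 : (1 : ℤ) ≤ 4 ^ i := one_le_pow₀ (by norm_num)
      have hs : (sI j : ℤ) ≤ 4 ^ i := by exact_mod_cast (sI_le j).trans h4
      have hstep := avg_up (d := d) (n := 4 ^ j) (by positivity) (g := sm f j) (S := S)
        (p := (sI j : ℤ) • w) (q := (sI j : ℤ) • w + ((4 ^ j : ℕ) : ℤ) • w)
        (E := C₀ * Er f (H + (4 * N + 4)) i v e j) (by
          intro a ha
          have h2 := h0 f e i j (H + (4 * N + 4)) 1 v w a ((sI j : ℤ) • w) (4 ^ j) S he hcone hw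
            (fun l => by
              have h3 := mem_bx.1 ha l
              rw [abs_of_nonneg h3.1]
              exact h3.2.le) (by omega) (by omega)
            (fun y hy z hz => by
              refine W_shift (K := 4 * N + 4) (hS hy) (fun l => ?_) le_rfl
              have h5 := abs_le.1 (hz l)
              have h6 := abs_le.1 (hw l)
              simp only [Pi.add_apply, Pi.smul_apply, smul_eq_mul] at h5
              have hN : (0 : ℤ) ≤ N := by positivity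
              have h7 : |(sI j : ℤ) * w l| ≤ 4 ^ i * N := by
                rw [abs_mul, abs_of_nonneg (by positivity : (0 : ℤ) ≤ (sI j : ℤ))]
                exact mul_le_mul hs (hw l) (abs_nonneg _) (by positivity)
              have h8 := abs_le.1 h7
              have h9 : ((N : ℤ) + 1) * (((4 ^ j : ℕ) : ℤ) + 1) ≤ (N + 1) * (2 * 4 ^ i) := by
                apply mul_le_mul_of_nonneg_left _ (by positivity)
                push_cast
                linarith
              rw [abs_le]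
              push_cast at h5 h9 ⊢
              have h10 : (0 : ℤ) ≤ 4 ^ i * N := by positivity
              have h11 : (0 : ℤ) ≤ 4 ^ i := by positivity
              constructor <;> nlinarith [h5.1, h5.2, h8.1, h8.2])
          simp only [Nat.cast_one, mul_one] at h2
          refine le_trans (le_of_eq ?_) h2
          refine Finset.sum_congr rfl fun y _ => ?_
          congr 2
          abel)
      have hsm : ∀ y, sm f (j + 1) (y + (sI (j + 1) : ℤ) • w) =
          av (4 ^ j) (sm f j) (y + ((sI j : ℤ) • w + ((4 ^ j : ℕ) : ℤ) • w)) := by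
        intro y
        change av (4 ^ j) (sm f j) _ = _
        congr 1
        simp only [sI, Nat.cast_add, add_smul]
      simp only [hsm]
      rw [Finset.sum_range_succ, mul_add]
      linarith
  refine (key i le_rfl).trans ?_
  have h1 := sum_Er_le hctl
  have h2 := mul_le_mul_of_nonneg_left h1 hC₀
  linarith

/-- DOWN: the sum of `f` over a set is at least the sum of `v_i` over the set moved by `-s(i) w` -/
theorem DOWN (d N H : ℕ) {γ : ℝ} (hγ : 0 < γ) (B : ℝ) : ∃ (c : ℕ) (C : ℝ), 0 ≤ C ∧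
    ∀ (f : Pt d → ℝ) (e : EE d) (i : ℕ) (v : Pt d) (P : ℝ), Ctl f c B e i v P →
    ∀ S : Finset (Pt d), S ⊆ W H i v → ∀ w : Pt d, (∀ l, |w l| ≤ N) → Cone γ e w →
      ∑ y ∈ S, sm f i (y - (sI i : ℤ) • w) ≤ ∑ y ∈ S, f y + C * 4 ^ i * P := by
  obtain ⟨C₀, hC₀, h0⟩ := pathW d N hγ
  refine ⟨H + (5 * N + 5) + 2, C₀ * (|B| + 2), by positivity,
    fun f e i v P hctl S hS w hw hcone => ?_⟩
  have he : ‖e‖ = 1 := hctl.1
  have key : ∀ j ≤ i, ∑ y ∈ S, sm f j (y - (sI j : ℤ) • w) ≤ ∑ y ∈ S, f y +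
      C₀ * ∑ k ∈ range j, Er f (H + (5 * N + 5)) i v e k := by
    intro j
    induction j with
    | zero =>
      intro _
      simp only [Finset.range_zero, Finset.sum_empty, mul_zero, add_zero]
      refine le_of_eq (Finset.sum_congr rfl fun y _ => ?_)
      simp [sI, sm]
    | succ j ih =>
      intro hj
      have h4 : (4 : ℕ) ^ j ≤ 4 ^ i := Nat.pow_le_pow_right (by norm_num) (by omega)
      have h4' : (4 : ℤ) ^ j ≤ 4 ^ i := by exact_mod_cast h4
      have h1 : (1 : ℤ) ≤ 4 ^ i := one_le_pow₀ (by norm_num)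
      have hs : (sI j : ℤ) + 4 ^ j ≤ 2 * 4 ^ i := by
        have := (sI_le j).trans h4
        have : (sI j : ℤ) ≤ 4 ^ i := by exact_mod_cast this
        linarith
      have hstep := avg_down (d := d) (n := 4 ^ j) (by positivity) (g := sm f j) (S := S)
        (p := -((sI j : ℤ) • w)) (q := -((sI j : ℤ) • w + ((4 ^ j : ℕ) : ℤ) • w))
        (E := C₀ * Er f (H + (5 * N + 5)) i v e j) (by
          intro a ha
          have hamem := mem_bx.1 ha
          have h2 := h0 f e i j (H + (5 * N + 5)) 1 v w (-a)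
            (-((sI j : ℤ) • w + ((4 ^ j : ℕ) : ℤ) • w) + a) (4 ^ j) S he hcone hw
            (fun l => by
              rw [Pi.neg_apply, abs_neg, abs_of_nonneg (hamem l).1]
              exact (hamem l).2.le) (by omega) (by omega)
            (fun y hy z hz => by
              refine W_shift (K := 5 * N + 5) (hS hy) (fun l => ?_) le_rfl
              have h5 := abs_le.1 (hz l)
              have h6 := hamem l
              simp only [Pi.add_apply, Pi.neg_apply, Pi.smul_apply, smul_eq_mul] at h5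
              push_cast at h5 h6
              have h7 : |((sI j : ℤ) + 4 ^ j) * w l| ≤ (2 * 4 ^ i) * N := by
                rw [abs_mul, abs_of_nonneg (by positivity : (0 : ℤ) ≤ (sI j : ℤ) + 4 ^ j)]
                exact mul_le_mul hs (hw l) (abs_nonneg _) (by positivity)
              have h8 := abs_le.1 h7
              have h9 : ((N : ℤ) + 1) * ((4 ^ j : ℤ) + 1) ≤ (N + 1) * (2 * 4 ^ i) := by
                apply mul_le_mul_of_nonneg_left _ (by positivity)
                linarith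
              rw [abs_le]
              push_cast
              have h10 : (0 : ℤ) ≤ 4 ^ i * N := by positivity
              have h11 : (0 : ℤ) ≤ 4 ^ i := by positivity
              constructor <;> nlinarith [h5.1, h5.2, h8.1, h8.2, h6.1, h6.2])
          simp only [Nat.cast_one, mul_one] at h2
          refine le_trans (le_of_eq ?_) h2
          refine Finset.sum_congr rfl fun y _ => ?_
          congr 2
          abel)
      have hsm : ∀ y, sm f (j + 1) (y - (sI (j + 1) : ℤ) • w) =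
          av (4 ^ j) (sm f j) (y + -((sI j : ℤ) • w + ((4 ^ j : ℕ) : ℤ) • w)) := by
        intro y
        change av (4 ^ j) (sm f j) _ = _
        congr 1
        simp only [sI, Nat.cast_add, add_smul, sub_eq_add_neg]
      simp only [hsm]
      refine hstep.trans ?_
      have h3 := ih (by omega)
      simp only [sub_eq_add_neg] at h3
      rw [Finset.sum_range_succ, mul_add]
      linarith
  refine (key i le_rfl).trans ?_
  have h1 := sum_Er_le hctl
  have h2 := mul_le_mul_of_nonneg_left h1 hC₀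
  linarith

/-- from sums to averages -/
lemma avg_le_of_sum {f g : Pt d → ℝ} {S : Finset (Pt d)} {i : ℕ} {C P : ℝ} (hC : 0 ≤ C)
    (hP : 0 ≤ P) (hcard : (4 ^ i) ^ d ≤ S.card)
    (h : ∑ y ∈ S, f y ≤ ∑ y ∈ S, g y + C * 4 ^ i * P) :
    avg f S ≤ avg g S + C * ep d i P := by
  have h1 : ((4 : ℝ) ^ i) ^ d ≤ S.card := by exact_mod_cast hcard
  have h0 : (0 : ℝ) < ((4 : ℝ) ^ i) ^ d := by positivity
  have h2 : (0 : ℝ) < S.card := h0.trans_le h1
  have h3 : (0 : ℝ) ≤ C * 4 ^ i * P := by positivity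
  unfold avg ep
  calc (S.card : ℝ)⁻¹ * ∑ y ∈ S, f y
      ≤ (S.card : ℝ)⁻¹ * (∑ y ∈ S, g y + C * 4 ^ i * P) :=
        mul_le_mul_of_nonneg_left h (by positivity)
    _ = (S.card : ℝ)⁻¹ * ∑ y ∈ S, g y + (S.card : ℝ)⁻¹ * (C * 4 ^ i * P) := by ring
    _ ≤ (S.card : ℝ)⁻¹ * ∑ y ∈ S, g y + (((4 : ℝ) ^ i) ^ d)⁻¹ * (C * 4 ^ i * P) := by
        have h4 : (S.card : ℝ)⁻¹ ≤ (((4 : ℝ) ^ i) ^ d)⁻¹ := inv_anti₀ h0 h1
        have h5 := mul_le_mul_of_nonneg_right h4 h3
        linarith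
    _ = (S.card : ℝ)⁻¹ * ∑ y ∈ S, g y + C * (P * 4 ^ i / ((4 : ℝ) ^ i) ^ d) := by
        rw [div_eq_mul_inv]; ring

/-- A1, shift of a body -/
theorem A1 (d N H : ℕ) {γ : ℝ} (hγ : 0 < γ) (B : ℝ) : ∃ (c : ℕ) (C : ℝ), 0 ≤ C ∧
    ∀ (f : Pt d → ℝ) (e : EE d) (i : ℕ) (v : Pt d) (P : ℝ), 2 ≤ i → Ctl f c B e i v P →
    ∀ S : Finset (Pt d), S ⊆ W H i v → (4 ^ i) ^ d ≤ S.card →
    ∀ (w a : Pt d) (M : ℕ), (∀ l, |w l| ≤ N) → Cone γ e w → 3 * 4 ^ i ≤ M → M ≤ H * 4 ^ i →
      (∀ l, |a l| + 4 ^ i ≤ M) →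
      avg f S ≤ avg f (S.map (addRightEmbedding ((M : ℤ) • w + a))) + C * ep d i P := by
  obtain ⟨c₁, C₁, hC₁, hUP⟩ := UP d N H hγ B
  obtain ⟨c₃, C₃, hC₃, hDN⟩ := DOWN d N (H + (N * H + H)) hγ B
  obtain ⟨C₂, hC₂, hpath⟩ := pathW d N hγ
  refine ⟨max (max c₁ c₃) (H + ((N + 1) * (H + 1) + N) + 2),
    C₁ + C₂ * H * (|B| + 1) + C₃, by positivity,
    fun f e i v P _ hctl S hS hcard w a M hw hcone hM3 hMH ha => ?_⟩
  have he : ‖e‖ = 1 := hctl.1
  have hP := P_nonneg hctl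
  have k1 := hUP f e i v P (Ctl_mono ((le_max_left _ _).trans (le_max_left _ _)) hctl) S hS w hw
    hcone
  set q : Pt d := (M : ℤ) • w + a with hq
  have h41 : (1 : ℤ) ≤ 4 ^ i := one_le_pow₀ (by norm_num)
  have hMH' : (M : ℤ) ≤ H * 4 ^ i := by exact_mod_cast hMH
  have hS' : S.map (addRightEmbedding q) ⊆ W (H + (N * H + H)) i v := by
    intro y hy
    rw [Finset.mem_map] at hy
    obtain ⟨y', hy', rfl⟩ := hy
    refine W_shift (K := N * H + H) (hS hy') (fun l => ?_) le_rfl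
    have h1 : (addRightEmbedding q y') l - y' l = M * w l + a l := by
      simp [hq, addRightEmbedding_apply]
    rw [h1]
    have h2 : |(M : ℤ) * w l| ≤ H * 4 ^ i * N := by
      rw [abs_mul, abs_of_nonneg (by positivity : (0 : ℤ) ≤ (M : ℤ))]
      exact mul_le_mul hMH' (hw l) (abs_nonneg _) (by positivity)
    have h3 := ha l
    have h4 := abs_add_le ((M : ℤ) * w l) (a l)
    push_cast
    nlinarith
  have k3 := hDN f e i v P (Ctl_mono ((le_max_right _ _).trans (le_max_left _ _)) hctl)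
    (S.map (addRightEmbedding q)) hS' w hw hcone
  rw [Finset.sum_map, Finset.sum_map] at k3
  simp only [addRightEmbedding_apply] at k3
  have hs := sI_eq i
  have hs2 : 2 * sI i ≤ M := by omega
  have k2 := hpath f e i i (H + ((N + 1) * (H + 1) + N)) H v w a ((sI i : ℤ) • w) (M - 2 * sI i) S
    he hcone hw (fun l => by
      have h1 := ha l
      have h2 : ((M - 2 * sI i : ℕ) : ℤ) = M - 2 * sI i := by
        rw [Nat.cast_sub hs2]; push_cast; ring
      rw [h2]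
      have h3 : (3 * (sI i : ℤ) + 1) = 4 ^ i := by exact_mod_cast hs
      have h4 : (0 : ℤ) ≤ sI i := by positivity
      linarith) le_rfl (by omega) (fun y hy z hz => by
      refine W_shift (K := (N + 1) * (H + 1) + N) (hS hy) (fun l => ?_) le_rfl
      have h5 := abs_le.1 (hz l)
      simp only [Pi.add_apply, Pi.smul_apply, smul_eq_mul] at h5
      have hs' : (sI i : ℤ) ≤ 4 ^ i := by exact_mod_cast sI_le i
      have h7 : |(sI i : ℤ) * w l| ≤ 4 ^ i * N := by
        rw [abs_mul, abs_of_nonneg (by positivity : (0 : ℤ) ≤ (sI i : ℤ))]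
        exact mul_le_mul hs' (hw l) (abs_nonneg _) (by positivity)
      have h8 := abs_le.1 h7
      have h9 : ((N : ℤ) + 1) * (((M - 2 * sI i : ℕ) : ℤ) + 1) ≤ (N + 1) * ((H + 1) * 4 ^ i) := by
        apply mul_le_mul_of_nonneg_left _ (by positivity)
        have h10 : ((M - 2 * sI i : ℕ) : ℤ) ≤ M := by exact_mod_cast Nat.sub_le _ _
        linarith
      rw [abs_le]
      push_cast
      constructor <;> nlinarith [h5.1, h5.2, h8.1, h8.2])
  have k4 := Er_le (Ctl_mono (le_max_right _ _) hctl) (le_refl i)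
  have k5 : C₂ * H * Er f (H + ((N + 1) * (H + 1) + N)) i v e i ≤
      C₂ * H * ((|B| + 1) * 4 ^ i * P) := mul_le_mul_of_nonneg_left k4 (by positivity)
  rw [Finset.sum_sub_distrib] at k2
  have k6 : ∀ y : Pt d, y + (sI i : ℤ) • w + (((M - 2 * sI i : ℕ) : ℤ) • w + a) =
      y + q - (sI i : ℤ) • w := by
    intro y
    have h2 : ((M - 2 * sI i : ℕ) : ℤ) = M - 2 * sI i := by
      rw [Nat.cast_sub hs2]; push_cast; ring
    rw [h2, hq]
    funext l
    simp only [Pi.add_apply, Pi.sub_apply, Pi.smul_apply, smul_eq_mul]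
    ring
  simp only [k6] at k2
  have k7 : ∑ y ∈ S, f y ≤ ∑ y ∈ S, f (y + q) +
      (C₁ + C₂ * H * (|B| + 1) + C₃) * 4 ^ i * P := by
    have : (C₁ + C₂ * H * (|B| + 1) + C₃) * 4 ^ i * P =
      C₁ * 4 ^ i * P + C₂ * H * ((|B| + 1) * 4 ^ i * P) + C₃ * 4 ^ i * P := by ring
    rw [this]
    linarith
  have k8 := avg_le_of_sum (f := f) (g := fun y => f (y + q)) (by positivity) hP hcard k7
  have k9 : avg f (S.map (addRightEmbedding q)) = avg (fun y => f (y + q)) S := by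
    unfold avg
    rw [Finset.card_map, Finset.sum_map]
    simp only [addRightEmbedding_apply]
  rw [k9]
  exact k8

end Pool.Agent.W11
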