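import Pool.Agent.W11.KeyPath
import Pool.Agent.W11.KeyA

/-!
W11 M6: the key estimates A2, A3 (helper82).
-/

set_option autoImplicit false

open Finset
open scoped RealInnerProductSpace

namespace Pool.Agent.W11

variable {d : ℕ}

lemma KeyB.ep_nonneg {d i : ℕ} {P : ℝ} (hP : 0 ≤ P) : 0 ≤ ep d i P := by
  unfold ep
  positivity

/-- comparison of an average with a pointwise upper bound -/
lemma KeyB.avg_le_of {f : Pt d → ℝ} {S : Finset (Pt d)} {i : ℕ} {P C b E : ℝ}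
    (hP : 0 ≤ P) (hC : 0 ≤ C) (hcard : (4 ^ i) ^ d ≤ S.card) (g : Pt d → ℝ)
    (h1 : ∑ y ∈ S, f y ≤ ∑ y ∈ S, g y + C * (4 ^ i * P)) (h2 : ∀ y ∈ S, g y ≤ b + E) :
    avg f S ≤ b + E + C * ep d i P := by
  have h4 : (0 : ℝ) < ((4 : ℝ) ^ i) ^ d := by positivity
  have hc : ((4 : ℝ) ^ i) ^ d ≤ (S.card : ℝ) := by exact_mod_cast hcard
  have hc0 : (0 : ℝ) < S.card := lt_of_lt_of_le h4 hc
  have h3 : ∑ y ∈ S, g y ≤ S.card * (b + E) := by
    have := Finset.sum_le_card_nsmul S g (b + E) h2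
    rwa [nsmul_eq_mul] at this
  unfold avg
  rw [inv_mul_le_iff₀ hc0]
  have h5 : C * (4 ^ i * P) ≤ S.card * (C * ep d i P) := by
    have h6 : C * (4 ^ i * P) = ((4 : ℝ) ^ i) ^ d * (C * ep d i P) := by
      unfold ep
      field_simp
    rw [h6]
    exact mul_le_mul_of_nonneg_right hc (mul_nonneg hC (KeyB.ep_nonneg hP))
  calc ∑ y ∈ S, f y ≤ _ := h1
    _ ≤ S.card * (b + E) + S.card * (C * ep d i P) := add_le_add h3 h5
    _ = _ := by ring

/-- A2 -/
theorem A2 (d N H N₂ : ℕ) (hN₂ : H + 2 ≤ N₂) {γ : ℝ} (hγ : 0 < γ) (B : ℝ) :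
    ∃ (c : ℕ) (C : ℝ), 0 ≤ C ∧
    ∀ (f : Pt d → ℝ) (e : EE d) (i : ℕ) (v : Pt d) (P : ℝ), 2 ≤ i → Ctl f c B e i v P →
    ∀ S : Finset (Pt d), S ⊆ W H i v → (4 ^ i) ^ d ≤ S.card →
    ∀ w : Pt d, (∀ l, |w l| ≤ N) → Cone γ e w →
      avg f S ≤ bref f N₂ i w v + C * ep d i P := by
  obtain ⟨c₁, C₁, hC₁, h1⟩ := UP d N H hγ B
  obtain ⟨c₂, C₂, hC₂, h2⟩ := pt_path d N (N₂ + N + H) hγ B
  refine ⟨max c₁ c₂, C₂ + C₁, by positivity, ?_⟩
  intro f e i v P hi hC S hS hcard w hw hcone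
  have hP := Ctl_P_nonneg hC
  have hs := sI_eq i
  have hu := h1 f e i v P (Ctl_mono (le_max_left _ _) hC) S hS w hw hcone
  rw [mul_assoc] at hu
  have key : ∀ y ∈ S, sm f i (y + (sI i : ℤ) • w) ≤ bref f N₂ i w v + C₂ * ep d i P := by
    intro y hy
    have hle : sI i ≤ N₂ * 4 ^ i := by
      have : 1 ≤ N₂ := by omega
      nlinarith [Nat.mul_le_mul this (le_refl (4 ^ i))]
    have h3 := h2 f e i v P hi (Ctl_mono (le_max_right _ _) hC) w
      (fun l => 4 ^ i * v l - y l) (N₂ * 4 ^ i - sI i) hw hcone (by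
        intro l
        have h5 := (mem_W'.1 (hS hy)) l
        have h6 : ((N₂ * 4 ^ i - sI i : ℕ) : ℤ) = N₂ * 4 ^ i - sI i := by
          push_cast [Nat.cast_sub hle]
          ring
        rw [h6]
        have h7 : (3 : ℤ) * sI i + 1 = 4 ^ i := by exact_mod_cast hs
        have h8 : ((H : ℤ) + 2) * 4 ^ i ≤ N₂ * 4 ^ i :=
          mul_le_mul_of_nonneg_right (by exact_mod_cast hN₂) (by positivity)
        have h9 : (0 : ℤ) ≤ sI i := by positivity
        rw [abs_le]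
        constructor
        · nlinarith [h5.2]
        · nlinarith [h5.1]) (by
        have : N₂ * 4 ^ i ≤ (N₂ + N + H) * 4 ^ i := Nat.mul_le_mul (by omega) (le_refl _)
        omega) (y + (sI i : ℤ) • w) (by
        have h5 : y + (sI i : ℤ) • w ∈ W (H + N) i v := by
          refine Wadd_mem (hS hy) fun l => ?_
          rw [Pi.smul_apply, smul_eq_mul, abs_mul]
          have h7 : (3 : ℤ) * sI i + 1 = 4 ^ i := by exact_mod_cast hs
          have h9 : (0 : ℤ) ≤ sI i := by positivity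
          rw [abs_of_nonneg h9]
          have h10 : (sI i : ℤ) ≤ 4 ^ i := by linarith
          calc (sI i : ℤ) * |w l| ≤ 4 ^ i * N :=
                mul_le_mul h10 (hw l) (abs_nonneg _) (by positivity)
            _ = _ := by ring
        exact W_mono (by omega) v h5)
    have h4 : y + (sI i : ℤ) • w + (((N₂ * 4 ^ i - sI i : ℕ) : ℤ) • w +
        fun l => 4 ^ i * v l - y l) = fun l => 4 ^ i * v l + N₂ * 4 ^ i * w l := by
      funext l
      simp only [Pi.add_apply, Pi.smul_apply, smul_eq_mul]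
      push_cast [Nat.cast_sub hle]
      ring
    rw [h4] at h3
    unfold bref
    linarith
  have h5 := KeyB.avg_le_of (f := f) hP hC₁ hcard (fun y => sm f i (y + (sI i : ℤ) • w)) hu key
  calc avg f S ≤ _ := h5
    _ = _ := by ring

/-- A3 -/
theorem A3 (d N N₂ : ℕ) (hN₂ : 2 ≤ N₂) {γ : ℝ} (hγ : 0 < γ) (B : ℝ) : ∃ (c : ℕ) (C : ℝ), 0 ≤ C ∧
    ∀ (f : Pt d → ℝ) (e : EE d) (i : ℕ) (v : Pt d) (P : ℝ), 2 ≤ i → Ctl f c B e i v P →
    ∀ w : Pt d, (∀ l, |w l| ≤ N) → Cone γ e w →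
      bref f N₂ i w v ≤ bref f N₂ (i + 1) w (par v) + C * ep d i P := by
  obtain ⟨c, C, hC₀, h1⟩ := pt_path d N (3 * N₂ + N₂ * N) hγ B
  refine ⟨c, C, hC₀, ?_⟩
  intro f e i v P hi hC w hw hcone
  have key : ∀ y ∈ bx d (4 ^ i), bref f N₂ i w v ≤
      sm f i ((fun l => 4 ^ (i + 1) * par v l + N₂ * 4 ^ (i + 1) * w l) + y) +
        C * ep d i P := by
    intro y hy
    rw [mem_bx] at hy
    have h2 := h1 f e i v P hi hC w (fun l => 4 ^ (i + 1) * par v l - 4 ^ i * v l + y l)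
      (3 * N₂ * 4 ^ i) hw hcone (by
        intro l
        have h3 := hy l
        have h4 : (0 : ℤ) < 4 ^ i := by positivity
        have h5 : (4 : ℤ) * (v l / 4) ≤ v l := by omega
        have h6 : v l ≤ 4 * (v l / 4) + 3 := by omega
        have h7 : (2 : ℤ) ≤ N₂ := by exact_mod_cast hN₂
        have h8 : (2 : ℤ) * 4 ^ i ≤ N₂ * 4 ^ i := mul_le_mul_of_nonneg_right h7 h4.le
        have h9 : (4 : ℤ) ^ i * (4 * (v l / 4)) ≤ 4 ^ i * v l :=
          mul_le_mul_of_nonneg_left h5 h4.le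
        have h10 : (4 : ℤ) ^ i * v l ≤ 4 ^ i * (4 * (v l / 4) + 3) :=
          mul_le_mul_of_nonneg_left h6 h4.le
        push_cast at h3 ⊢
        simp only [par]
        have h11 : (4 : ℤ) ^ (i + 1) * (v l / 4) = 4 ^ i * (4 * (v l / 4)) := by ring
        have h12 : (4 : ℤ) ^ i * (4 * (v l / 4) + 3) = 4 ^ i * (4 * (v l / 4)) + 3 * 4 ^ i := by
          ring
        have h13 : (3 : ℤ) * N₂ * 4 ^ i = 3 * (N₂ * 4 ^ i) := by ring
        rw [abs_le, h11, h13]
        rw [h12] at h10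
        constructor
        · linarith [h3.1, h3.2]
        · linarith [h3.1, h3.2])
      (Nat.mul_le_mul (by omega) (le_refl _)) (fun l => 4 ^ i * v l + N₂ * 4 ^ i * w l) (by
        have h5 : (fun l => 4 ^ i * v l + N₂ * 4 ^ i * w l : Pt d) ∈ W (0 + N₂ * N) i v := by
          have h6 : (fun l => 4 ^ i * v l : Pt d) ∈ W 0 i v := by
            rw [mem_W']
            intro l
            have h4 : (0 : ℤ) < 4 ^ i := by positivity
            push_cast
            constructor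
            · linarith
            · linarith
          refine Wadd_mem h6 (u := fun l => N₂ * 4 ^ i * w l) fun l => ?_
          rw [abs_mul, abs_of_nonneg (by positivity : (0 : ℤ) ≤ N₂ * 4 ^ i)]
          push_cast
          calc (N₂ : ℤ) * 4 ^ i * |w l| ≤ N₂ * 4 ^ i * N :=
                mul_le_mul_of_nonneg_left (hw l) (by positivity)
            _ = _ := by ring
        exact W_mono (by omega) v h5)
    have h4 : (fun l => 4 ^ i * v l + N₂ * 4 ^ i * w l : Pt d) +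
        (((3 * N₂ * 4 ^ i : ℕ) : ℤ) • w + fun l => 4 ^ (i + 1) * par v l - 4 ^ i * v l + y l) =
        (fun l => 4 ^ (i + 1) * par v l + N₂ * 4 ^ (i + 1) * w l) + y := by
      funext l
      simp only [Pi.add_apply, Pi.smul_apply, smul_eq_mul]
      push_cast
      ring
    rw [h4] at h2
    unfold bref
    linarith
  have h4 : (0 : ℝ) < ((4 : ℝ) ^ i) ^ d := by positivity
  have hcard : ((bx d (4 ^ i)).card : ℝ) = ((4 : ℝ) ^ i) ^ d := by
    unfold bx
    rw [Fintype.card_piFinset]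
    simp only [Int.card_Ico, sub_zero, Int.toNat_natCast, Finset.prod_const, Finset.card_univ,
      Fintype.card_fin]
    push_cast
    rfl
  have h5 : ∑ _y ∈ bx d (4 ^ i), bref f N₂ i w v ≤ ∑ y ∈ bx d (4 ^ i),
      (sm f i ((fun l => 4 ^ (i + 1) * par v l + N₂ * 4 ^ (i + 1) * w l) + y) +
        C * ep d i P) := Finset.sum_le_sum key
  rw [Finset.sum_add_distrib, Finset.sum_const, Finset.sum_const, nsmul_eq_mul, nsmul_eq_mul,
    hcard] at h5
  have h6 : bref f N₂ (i + 1) w (par v) = (((4 : ℝ) ^ i) ^ d)⁻¹ * ∑ y ∈ bx d (4 ^ i),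
      sm f i ((fun l => 4 ^ (i + 1) * par v l + N₂ * 4 ^ (i + 1) * w l) + y) := by
    unfold bref
    change av (4 ^ i) (sm f i) _ = _
    unfold av
    rw [smul_eq_mul]
    push_cast
    rfl
  rw [h6]
  have h7 : bref f N₂ i w v - C * ep d i P ≤ (((4 : ℝ) ^ i) ^ d)⁻¹ * ∑ y ∈ bx d (4 ^ i),
      sm f i ((fun l => 4 ^ (i + 1) * par v l + N₂ * 4 ^ (i + 1) * w l) + y) := by
    rw [le_inv_mul_iff₀ h4]
    linarith
  linarith

end Pool.Agent.W11
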