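import Pool.Agent.W11.KeyPath
import Pool.Agent.W11.KeyA

/-!
W11 M6: the key estimate A4 (helper60).
-/

set_option autoImplicit false

open Finset
open scoped RealInnerProductSpace

namespace Pool.Agent.W11

variable {d : ℕ}

/-- A4 -/
theorem A4 (d N H N₂ N₃ : ℕ) (hN₃ : N₂ + H + 4 ≤ N₃) {γ : ℝ} (hγ : 0 < γ) (B : ℝ) :
    ∃ (c : ℕ) (C : ℝ), 0 ≤ C ∧
    ∀ (f : Pt d → ℝ) (e : EE d) (i : ℕ) (v : Pt d) (P : ℝ), 2 ≤ i → Ctl f c B e i v P →
    ∀ (w n a : Pt d) (t : ℕ) (S : Finset (Pt d)), (∀ l, |w l| ≤ N) → Cone γ e w → n ∈ W 0 i v →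
      (∀ l, |a l| ≤ 1) → N₃ * 4 ^ i ≤ t → t ≤ 4 * (N₃ * 4 ^ i) →
      (∀ y ∈ S, ∀ l, |y l - (n + ((t : ℤ) • w + a)) l| ≤ H * 4 ^ i) → (4 ^ i) ^ d ≤ S.card →
      bref f N₂ i w v ≤ avg f S + C * ep d i P := by
  obtain ⟨c₁, C₁, hC₁, h1⟩ := DOWN d N (4 * N₃ * N + (H + 2)) hγ B
  obtain ⟨c₂, C₂, hC₂, h2⟩ := pt_path d N (4 * N₃ + N₂ * N) hγ B
  refine ⟨max c₁ c₂, C₁ + C₂, by positivity, ?_⟩
  intro f e i v P hi hctl w n a t S hw hcone hn ha ht1 ht2 hS hcard
  have hP := Ctl_P_nonneg hctl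
  have hs := sI_eq i
  have h41 : (1 : ℤ) ≤ 4 ^ i := one_le_pow₀ (by norm_num)
  have ht2' : (t : ℤ) ≤ 4 * (N₃ * 4 ^ i) := by exact_mod_cast ht2
  have hn' := mem_W'.1 hn
  -- the set is in the window
  have hSW : S ⊆ W (4 * N₃ * N + (H + 2)) i v := by
    intro y hy
    refine W_mono (c := 0 + (4 * N₃ * N + (H + 2))) (by omega) v ?_
    have h3 : y = n + (y - n) := by abel
    rw [h3]
    refine Wadd_mem hn fun l => ?_
    have h4 := abs_le.1 (hS y hy l)
    simp only [Pi.add_apply, Pi.smul_apply, smul_eq_mul] at h4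
    have h5 : |(t : ℤ) * w l| ≤ 4 * (N₃ * 4 ^ i) * N := by
      rw [abs_mul, abs_of_nonneg (by positivity : (0 : ℤ) ≤ (t : ℤ))]
      exact mul_le_mul ht2' (hw l) (abs_nonneg _) (by positivity)
    have h6 := abs_le.1 h5
    have h7 := abs_le.1 (ha l)
    rw [Pi.sub_apply, abs_le]
    push_cast
    constructor <;> nlinarith [h4.1, h4.2, h6.1, h6.2, h7.1, h7.2]
  have hdn := h1 f e i v P (Ctl_mono (le_max_left _ _) hctl) S hSW w hw hcone
  -- pointwise comparison
  have hst : N₂ * 4 ^ i + sI i ≤ t := by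
    have h5 : (N₂ + H + 4) * 4 ^ i ≤ N₃ * 4 ^ i := Nat.mul_le_mul_right _ hN₃
    have h6 : (N₂ + H + 4) * 4 ^ i = N₂ * 4 ^ i + H * 4 ^ i + 4 * 4 ^ i := by ring
    omega
  set M : ℕ := t - (N₂ * 4 ^ i + sI i) with hM
  have hMc : (M : ℤ) = t - (N₂ * 4 ^ i + sI i) := by
    rw [hM, Nat.cast_sub hst]; push_cast; ring
  have key : ∀ y ∈ S, bref f N₂ i w v ≤ sm f i (y - (sI i : ℤ) • w) + C₂ * ep d i P := by
    intro y hy
    have h3 := h2 f e i v P hi (Ctl_mono (le_max_right _ _) hctl) w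
      (fun l => y l - 4 ^ i * v l - t * w l) M hw hcone (fun l => by
        have h4 := abs_le.1 (hS y hy l)
        simp only [Pi.add_apply, Pi.smul_apply, smul_eq_mul] at h4
        have h7 := abs_le.1 (ha l)
        have h8 := hn' l
        have h9 : ((N₂ : ℤ) + H + 4) * 4 ^ i ≤ t := by
          have h5 : (N₂ + H + 4) * 4 ^ i ≤ N₃ * 4 ^ i := Nat.mul_le_mul_right _ hN₃
          exact_mod_cast h5.trans ht1
        have h10 : (3 : ℤ) * sI i + 1 = 4 ^ i := by exact_mod_cast hs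
        have h11 : (0 : ℤ) ≤ sI i := by positivity
        have h12 : (0 : ℤ) ≤ H * 4 ^ i := by positivity
        rw [hMc, abs_le]
        push_cast at h8
        constructor <;> nlinarith [h4.1, h4.2, h7.1, h7.2, h8.1, h8.2]) (by
        have h5 : 4 * (N₃ * 4 ^ i) ≤ (4 * N₃ + N₂ * N) * 4 ^ i := by
          nlinarith [Nat.zero_le (N₂ * N * 4 ^ i)]
        omega) (fun l => 4 ^ i * v l + N₂ * 4 ^ i * w l) (by
        have h5 : (fun l => 4 ^ i * v l + N₂ * 4 ^ i * w l : Pt d) ∈ W (0 + N₂ * N) i v := by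
          have h6 : (fun l => 4 ^ i * v l : Pt d) ∈ W 0 i v := by
            rw [mem_W']
            intro l
            have h4 : (0 : ℤ) < 4 ^ i := by positivity
            push_cast
            constructor
            · linarith
            · linarith
          refine Wadd_mem h6 (u := fun l => N₂ * 4 ^ i * w l) fun l => ?_
          rw [abs_mul, abs_of_nonneg (by positivity : (0 : ℤ) ≤ N₂ * 4 ^ i)]
          push_cast
          calc (N₂ : ℤ) * 4 ^ i * |w l| ≤ N₂ * 4 ^ i * N :=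
                mul_le_mul_of_nonneg_left (hw l) (by positivity)
            _ = _ := by ring
        exact W_mono (by omega) v h5)
    have h4 : (fun l => 4 ^ i * v l + N₂ * 4 ^ i * w l : Pt d) +
        ((M : ℤ) • w + fun l => y l - 4 ^ i * v l - t * w l) = y - (sI i : ℤ) • w := by
      funext l
      simp only [Pi.add_apply, Pi.sub_apply, Pi.smul_apply, smul_eq_mul]
      rw [hMc]
      ring
    rw [h4] at h3
    unfold bref
    linarith
  have h5 : ∑ _y ∈ S, (bref f N₂ i w v - C₂ * ep d i P) ≤ ∑ y ∈ S, f y + C₁ * 4 ^ i * P := by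
    refine le_trans (Finset.sum_le_sum fun y hy => ?_) hdn
    have := key y hy
    linarith
  have h6 := avg_le_of_sum (f := fun _ => bref f N₂ i w v - C₂ * ep d i P) (g := f) hC₁ hP hcard h5
  have h7 : avg (fun _ => bref f N₂ i w v - C₂ * ep d i P) S =
      bref f N₂ i w v - C₂ * ep d i P := by
    unfold avg
    rw [Finset.sum_const, nsmul_eq_mul, ← mul_assoc, inv_mul_cancel₀, one_mul]
    have h8 : 0 < S.card := lt_of_lt_of_le (by positivity) hcard
    positivity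
  rw [h7] at h6
  linarith

end Pool.Agent.W11
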