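import Pool.Agent.W11.Second

/-!
W11, module M7: the reference value of a cube against the average over a body, without any direction (helper55).
-/

set_option autoImplicit false

open Finset
open scoped RealInnerProductSpace ENNReal

namespace Pool.Agent.W11

variable {d : ℕ}

namespace Osc

lemma abs_comp_le (g : Pt d → ℝ) (l : Fin d) (z : Pt d) : |g (z + eV l) - g z| ≤ ‖gr g z‖ := by
  have := PiLp.norm_apply_le (gr g z) l
  simpa [gr] using this

/-- oscillation along unit steps -/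
lemma osc (g : Pt d → ℝ) (S : Finset (Pt d)) {α : ℝ} {M : ℤ}
    (hα : ∀ s : Pt d, (∀ l, |s l| ≤ M) → ∑ y ∈ S, ‖gr g (y + s)‖ ≤ α) (n : ℕ) :
    ∀ a : Pt d, (∀ l, |a l| ≤ M) → ∑ l, (a l).natAbs = n →
      ∑ y ∈ S, |g (y + a) - g y| ≤ n * α := by
  induction n with
  | zero =>
    intro a _ hn
    have h0 : a = 0 := by
      funext l
      have := (Finset.sum_eq_zero_iff.1 hn) l (Finset.mem_univ l)
      simpa using this
    subst h0
    simp
  | succ n ih =>
    intro a ha hn
    obtain ⟨l, hl⟩ : ∃ l, a l ≠ 0 := by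
      by_contra h
      push Not at h
      simp [h] at hn
    have hsum : ∀ b : Pt d, (∀ j, j ≠ l → b j = a j) →
        (b l).natAbs + 1 = (a l).natAbs → ∑ j, (b j).natAbs = n := by
      intro b hb hbl
      rw [← Finset.add_sum_erase _ _ (Finset.mem_univ l)] at hn ⊢
      have : ∑ j ∈ Finset.univ.erase l, (b j).natAbs = ∑ j ∈ Finset.univ.erase l, (a j).natAbs :=
        Finset.sum_congr rfl fun j hj => by rw [hb j (Finset.ne_of_mem_erase hj)]
      omega
    rcases lt_or_gt_of_ne hl with hneg | hpos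
    · -- `a = b - e`
      set b : Pt d := a + eV l with hb
      have hbl : b l = a l + 1 := by simp [hb, eV]
      have hbj : ∀ j, j ≠ l → b j = a j := fun j hj => by simp [hb, eV, Pi.single_eq_of_ne hj]
      have h1 := ih b (fun j => by
        by_cases hj : j = l
        · subst hj
          have := ha j
          rw [hbl]
          rw [abs_le] at this ⊢
          omega
        · rw [hbj j hj]; exact ha j) (hsum b hbj (by omega))
      have h2 : ∀ y ∈ S, |g (y + a) - g y| ≤ ‖gr g (y + a)‖ + |g (y + b) - g y| := by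
        intro y _
        have h3 := abs_comp_le g l (y + a)
        have h4 : y + a + eV l = y + b := by rw [hb]; abel
        rw [h4] at h3
        have h5 : g (y + a) - g y = (g (y + b) - g y) - (g (y + b) - g (y + a)) := by ring
        rw [h5]
        refine (abs_sub _ _).trans ?_
        linarith
      refine (Finset.sum_le_sum h2).trans ?_
      rw [Finset.sum_add_distrib]
      have h6 := hα a ha
      push_cast
      linarith
    · set b : Pt d := a - eV l with hb
      have hbl : b l = a l - 1 := by simp [hb, eV]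
      have hbj : ∀ j, j ≠ l → b j = a j := fun j hj => by simp [hb, eV, Pi.single_eq_of_ne hj]
      have hbM : ∀ j, |b j| ≤ M := fun j => by
        by_cases hj : j = l
        · subst hj
          have := ha j
          rw [hbl]
          rw [abs_le] at this ⊢
          omega
        · rw [hbj j hj]; exact ha j
      have h1 := ih b hbM (hsum b hbj (by omega))
      have h2 : ∀ y ∈ S, |g (y + a) - g y| ≤ ‖gr g (y + b)‖ + |g (y + b) - g y| := by
        intro y _
        have h3 := abs_comp_le g l (y + b)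
        have h4 : y + b + eV l = y + a := by rw [hb]; abel
        rw [h4] at h3
        have h5 : g (y + a) - g y = (g (y + a) - g (y + b)) + (g (y + b) - g y) := by ring
        rw [h5]
        refine (abs_add_le _ _).trans ?_
        linarith
      refine (Finset.sum_le_sum h2).trans ?_
      rw [Finset.sum_add_distrib]
      have h6 := hα b hbM
      push_cast
      linarith

lemma osc' (g : Pt d → ℝ) (S : Finset (Pt d)) {α : ℝ} {M : ℕ}
    (hα : ∀ s : Pt d, (∀ l, |s l| ≤ (M : ℤ)) → ∑ y ∈ S, ‖gr g (y + s)‖ ≤ α) (a : Pt d)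
    (ha : ∀ l, |a l| ≤ (M : ℤ)) : ∑ y ∈ S, |g (y + a) - g y| ≤ d * M * α := by
  have h1 := osc g S hα _ a ha rfl
  have h0 : 0 ≤ α := (Finset.sum_nonneg fun y _ => norm_nonneg (gr g (y + 0))).trans
    (hα 0 fun l => by simp)
  refine h1.trans (mul_le_mul_of_nonneg_right ?_ h0)
  have h2 : ∑ l, (a l).natAbs ≤ ∑ _l : Fin d, M :=
    Finset.sum_le_sum fun l _ => by
      have := ha l
      rw [Int.abs_eq_natAbs] at this
      exact_mod_cast this
  rw [Finset.sum_const, Finset.card_univ, Fintype.card_fin, smul_eq_mul] at h2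
  exact_mod_cast h2

lemma card_bx (n : ℕ) : (bx d n).card = n ^ d := by
  unfold bx
  rw [Fintype.card_piFinset]
  simp

/-- one smoothing step -/
lemma smooth_step (f : Pt d → ℝ) (j : ℕ) (S : Finset (Pt d)) {α : ℝ}
    (hα : ∀ s : Pt d, (∀ l, |s l| ≤ ((4 ^ j : ℕ) : ℤ)) → ∑ y ∈ S, nG f j (y + s) ≤ α) :
    ∑ y ∈ S, sm f (j + 1) y ≤ ∑ y ∈ S, sm f j y + d * 4 ^ j * α := by
  have h1 : ∑ y ∈ S, sm f (j + 1) y =
      (((4 ^ j : ℕ) : ℝ) ^ d)⁻¹ * ∑ a ∈ bx d (4 ^ j), ∑ y ∈ S, sm f j (y + a) := by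
    have : ∀ y ∈ S, sm f (j + 1) y =
        (((4 ^ j : ℕ) : ℝ) ^ d)⁻¹ * ∑ a ∈ bx d (4 ^ j), sm f j (y + a) := fun y _ => rfl
    rw [Finset.sum_congr rfl this, ← Finset.mul_sum, Finset.sum_comm]
  have h2 : ∀ a ∈ bx d (4 ^ j), ∑ y ∈ S, sm f j (y + a) ≤
      ∑ y ∈ S, sm f j y + d * 4 ^ j * α := by
    intro a ha
    rw [mem_bx] at ha
    have h3 := osc' (sm f j) S hα a (fun l => by
      have := ha l
      rw [abs_of_nonneg this.1]
      exact this.2.le)
    have h4 : ∑ y ∈ S, sm f j (y + a) - ∑ y ∈ S, sm f j y ≤ ∑ y ∈ S, |sm f j (y + a) - sm f j y| := by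
      rw [← Finset.sum_sub_distrib]
      exact Finset.sum_le_sum fun y _ => le_abs_self _
    push_cast at h3
    linarith
  have h5 : ∑ a ∈ bx d (4 ^ j), ∑ y ∈ S, sm f j (y + a) ≤
      (((4 ^ j : ℕ) : ℝ) ^ d) * (∑ y ∈ S, sm f j y + d * 4 ^ j * α) := by
    refine (Finset.sum_le_card_nsmul _ _ _ h2).trans (le_of_eq ?_)
    rw [card_bx, nsmul_eq_mul]
    push_cast
    ring
  rw [h1]
  have hpos : (0 : ℝ) < (((4 ^ j : ℕ) : ℝ) ^ d) := by positivity
  calc (((4 ^ j : ℕ) : ℝ) ^ d)⁻¹ * ∑ a ∈ bx d (4 ^ j), ∑ y ∈ S, sm f j (y + a)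
      ≤ (((4 ^ j : ℕ) : ℝ) ^ d)⁻¹ * ((((4 ^ j : ℕ) : ℝ) ^ d) * (∑ y ∈ S, sm f j y + d * 4 ^ j * α)) :=
        mul_le_mul_of_nonneg_left h5 (by positivity)
    _ = _ := by rw [← mul_assoc, inv_mul_cancel₀ hpos.ne', one_mul]

end Osc

open Osc Sec

theorem A5 (d N H N₂ : ℕ) : ∃ (c : ℕ) (C : ℝ), 0 ≤ C ∧
    ∀ (f : Pt d → ℝ) (i : ℕ) (v : Pt d), 1 ≤ i →
    ∀ S : Finset (Pt d), S ⊆ W H i v → (4 ^ i) ^ d ≤ S.card → ∀ w : Pt d, (∀ l, |w l| ≤ N) →
      bref f N₂ i w v ≤ avg f S + C * ep d i (V f c i v) := by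
  refine ⟨N₂ * N + 2 * H + 4, d + d * (N₂ * N + H + 1 : ℕ) * 4 ^ (d + 1), by positivity, ?_⟩
  intro f i v hi S hS hSc w hw
  set c := N₂ * N + 2 * H + 4 with hc
  set M₀ := N₂ * N + H + 1 with hM₀
  set α : ℕ → ℝ := fun j => ∑ z ∈ W c i v, nG f j z with hα
  have hα0 : ∀ j, 0 ≤ α j := fun j => Finset.sum_nonneg fun z _ => nG_nonneg f j z
  have hcard : (0 : ℝ) < S.card := by
    have : 0 < (4 ^ i) ^ d := by positivity
    exact_mod_cast this.trans_le hSc
  have h4i : (1 : ℤ) ≤ 4 ^ i := one_le_pow₀ (by norm_num)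
  -- smoothing
  have hsmooth : ∀ j ≤ i, ∑ y ∈ S, sm f j y ≤ ∑ y ∈ S, f y + d * ∑ j' ∈ range j, 4 ^ j' * α j' := by
    intro j
    induction j with
    | zero =>
      intro _
      simp [sm]
    | succ j ih =>
      intro hj
      have h1 := ih (by omega)
      have h2 := smooth_step f j S (α := α j) (fun s hs => by
        refine sum_shift_le (nG_nonneg f j) s fun y hy => ?_
        have hy' := mem_W'.1 (hS hy)
        rw [mem_W']
        intro l
        have h3 := hy' l
        have h4 := abs_le.1 (hs l)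
        have h5 : ((4 ^ j : ℕ) : ℤ) ≤ 4 ^ i := by
          push_cast
          exact pow_le_pow_right₀ (by norm_num) (by omega)
        have h6 : (c : ℤ) = H + 1 + ((N₂ * N : ℕ) + H + 3 : ℤ) := by rw [hc]; push_cast; ring
        have h7 : (0 : ℤ) ≤ ((N₂ * N : ℕ) : ℤ) := by positivity
        have h8 : (0 : ℤ) ≤ (H : ℤ) := by positivity
        rw [h6]
        simp only [Pi.add_apply]
        constructor <;> nlinarith)
      rw [Finset.sum_range_succ, mul_add]
      linarith
  -- pointwise bound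
  obtain ⟨k, rfl⟩ : ∃ k, i = k + 1 := ⟨i - 1, by omega⟩
  set β := (((4 : ℝ) ^ k) ^ d)⁻¹ * α k with hβ
  set p : Pt d := fun l => 4 ^ (k + 1) * v l + N₂ * 4 ^ (k + 1) * w l with hp
  have hpt : ∀ y ∈ S, sm f (k + 1) p ≤ sm f (k + 1) y + d * (4 ^ (k + 1) * M₀ : ℕ) * β := by
    intro y hy
    have hy' := mem_W'.1 (hS hy)
    have h7 : (0 : ℤ) ≤ ((N₂ * N : ℕ) : ℤ) := by positivity
    have h8 : (0 : ℤ) ≤ (H : ℤ) := by positivity
    have hNw : ∀ l, |(N₂ : ℤ) * w l| ≤ ((N₂ * N : ℕ) : ℤ) := by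
      intro l
      rw [abs_mul, Nat.abs_cast]
      push_cast
      exact mul_le_mul_of_nonneg_left (hw l) (by positivity)
    have h1 := osc' (sm f (k + 1)) {y} (α := β) (M := 4 ^ (k + 1) * M₀) (fun s hs => by
      rw [Finset.sum_singleton]
      refine nG_pt f k (y + s) _ fun b hb => ?_
      rw [mem_bx] at hb
      rw [mem_W']
      intro l
      have h3 := hy' l
      have h4 := abs_le.1 (hs l)
      have h5 := hb l
      have h9 : ((4 ^ k : ℕ) : ℤ) ≤ 4 ^ (k + 1) := by
        push_cast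
        exact pow_le_pow_right₀ (by norm_num) (by omega)
      have h10 : (c : ℤ) = H + M₀ + 3 := by rw [hc, hM₀]; push_cast; ring
      rw [h10]
      push_cast at h4
      simp only [Pi.add_apply]
      constructor <;> nlinarith) (p - y) (fun l => by
        have h3 := hy' l
        have h4 := abs_le.1 (hNw l)
        have h5 : (p - y) l = 4 ^ (k + 1) * v l + 4 ^ (k + 1) * (N₂ * w l) - y l := by
          rw [hp]
          simp only [Pi.sub_apply]
          ring
        rw [h5, hM₀, abs_le]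
        push_cast
        push_cast at h4
        constructor <;> nlinarith)
    rw [Finset.sum_singleton] at h1
    have h2 : y + (p - y) = p := by abel
    rw [h2] at h1
    have := le_abs_self (sm f (k + 1) p - sm f (k + 1) y)
    linarith
  have hsum : (S.card : ℝ) * sm f (k + 1) p ≤
      ∑ y ∈ S, f y + d * ∑ j' ∈ range (k + 1), 4 ^ j' * α j' +
        S.card * (d * (4 ^ (k + 1) * M₀ : ℕ) * β) := by
    have h1 : ∑ _y ∈ S, sm f (k + 1) p ≤ ∑ y ∈ S, (sm f (k + 1) y + d * (4 ^ (k + 1) * M₀ : ℕ) * β) :=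
      Finset.sum_le_sum hpt
    rw [Finset.sum_const, Finset.sum_add_distrib, Finset.sum_const, nsmul_eq_mul, nsmul_eq_mul] at h1
    have h2 := hsmooth (k + 1) le_rfl
    linarith
  -- the local variation
  set L : ℝ := 4 ^ (k + 1) with hL
  have hLpos : 0 < L := by rw [hL]; positivity
  have hLd : (0 : ℝ) < L ^ d := by positivity
  have hV1 : ∑ j' ∈ range (k + 1), 4 ^ j' * α j' ≤ L * V f c (k + 1) v := by
    unfold V
    rw [Finset.sum_range_succ (n := k + 1), mul_add, Finset.mul_sum]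
    have h1 : ∀ j' ∈ range (k + 1), (4 : ℝ) ^ j' * α j' =
        L * ((1 / 4 : ℝ) ^ (k + 1 - j') * ∑ z ∈ W c (k + 1) v, nG f j' z) := by
      intro j' hj'
      rw [mem_range] at hj'
      have h2 : (4 : ℝ) ^ (k + 1) = 4 ^ j' * 4 ^ (k + 1 - j') := by
        rw [← pow_add]
        congr 1
        omega
      rw [hL, h2, hα, one_div, inv_pow]
      field_simp
    rw [Finset.sum_congr rfl h1]
    have h3 : 0 ≤ L * ((1 / 4 : ℝ) ^ (k + 1 - (k + 1)) * ∑ z ∈ W c (k + 1) v, nG f (k + 1) z) := by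
      have := hα0 (k + 1)
      positivity
    linarith
  have hV2 : α k ≤ 4 * V f c (k + 1) v := by
    unfold V
    rw [Finset.sum_range_succ, Finset.sum_range_succ]
    have h1 : 0 ≤ ∑ j ∈ range k, (1 / 4 : ℝ) ^ (k + 1 - j) * ∑ z ∈ W c (k + 1) v, nG f j z :=
      Finset.sum_nonneg fun j _ => mul_nonneg (by positivity) (hα0 j)
    have h2 : 0 ≤ (1 / 4 : ℝ) ^ (k + 1 - (k + 1)) * ∑ z ∈ W c (k + 1) v, nG f (k + 1) z :=
      mul_nonneg (by positivity) (hα0 (k + 1))
    have h3 : (1 / 4 : ℝ) ^ (k + 1 - k) * ∑ z ∈ W c (k + 1) v, nG f k z = 1 / 4 * α k := by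
      rw [Nat.add_sub_cancel_left, pow_one]
    linarith
  have hV0 : 0 ≤ V f c (k + 1) v := V_nonneg f c (k + 1) v
  have hb : bref f N₂ (k + 1) w v = sm f (k + 1) p := rfl
  rw [hb]
  have hScR : L ^ d ≤ (S.card : ℝ) := by
    rw [hL]
    exact_mod_cast hSc
  -- divide
  have h1 : sm f (k + 1) p ≤ avg f S + (d * ∑ j' ∈ range (k + 1), 4 ^ j' * α j') / S.card +
      d * (4 ^ (k + 1) * M₀ : ℕ) * β := by
    have h2 : avg f S + (d * ∑ j' ∈ range (k + 1), 4 ^ j' * α j') / S.card +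
        d * (4 ^ (k + 1) * M₀ : ℕ) * β = (∑ y ∈ S, f y + d * ∑ j' ∈ range (k + 1), 4 ^ j' * α j' +
        S.card * (d * (4 ^ (k + 1) * M₀ : ℕ) * β)) / S.card := by
      unfold avg
      field_simp
    rw [h2, le_div_iff₀ hcard]
    linarith
  have h2 : (d * ∑ j' ∈ range (k + 1), 4 ^ j' * α j') / S.card ≤
      d * ep d (k + 1) (V f c (k + 1) v) := by
    have h3 : (d * ∑ j' ∈ range (k + 1), 4 ^ j' * α j') / S.card ≤
        (d * (L * V f c (k + 1) v)) / L ^ d := by
      refine div_le_div₀ (by positivity) (mul_le_mul_of_nonneg_left hV1 (by positivity)) hLd hScR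
    refine h3.trans (le_of_eq ?_)
    unfold ep
    rw [← hL]
    ring
  have h3 : d * ((4 ^ (k + 1) * M₀ : ℕ) : ℝ) * β ≤
      d * M₀ * 4 ^ (d + 1) * ep d (k + 1) (V f c (k + 1) v) := by
    have h4 : d * ((4 ^ (k + 1) * M₀ : ℕ) : ℝ) * β = d * M₀ * 4 ^ d * (L / L ^ d * α k) := by
      rw [hβ, hL]
      push_cast
      rw [pow_succ (4 : ℝ) k, mul_pow]
      field_simp
    have h5 : L / L ^ d * α k ≤ L / L ^ d * (4 * V f c (k + 1) v) :=
      mul_le_mul_of_nonneg_left hV2 (by positivity)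
    rw [h4]
    calc d * M₀ * 4 ^ d * (L / L ^ d * α k) ≤ d * M₀ * 4 ^ d * (L / L ^ d * (4 * V f c (k + 1) v)) :=
          mul_le_mul_of_nonneg_left h5 (by positivity)
      _ = d * M₀ * 4 ^ (d + 1) * ep d (k + 1) (V f c (k + 1) v) := by
          unfold ep
          rw [← hL]
          ring
  linarith

end Pool.Agent.W11
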