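import Pool.Agent.W11.Sums
import Pool.Agent.W11.Osc

/-!
W11, module M11b: the small radii.
-/

set_option autoImplicit false

open Finset
open scoped RealInnerProductSpace ENNReal

namespace Pool.Agent.W11

variable {d : ℕ}

/-- oscillation of a function around a point -/
lemma small_osc (f : Pt d → ℝ) (R : ℕ) (n s : Pt d) (hs : ∀ l, |s l| ≤ (R : ℤ)) :
    |f (n + s) - f n| ≤ d * R * ∑ z ∈ W R 0 n, nG f 0 z := by
  have h := Osc.osc' f {n} (M := R) (α := ∑ z ∈ W R 0 n, nG f 0 z) (fun s hs => by
    rw [Finset.sum_singleton]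
    refine Finset.single_le_sum (f := fun z => nG f 0 z) (fun z _ => nG_nonneg f 0 z) ?_
    rw [mem_W']
    intro l
    have := abs_le.1 (hs l)
    simp only [Pi.add_apply, pow_zero, one_mul]
    constructor <;> omega) s hs
  simpa using h

theorem small_cost (d R₁ : ℕ) : ∃ C : ℝ≥0∞, C ≠ ⊤ ∧
    ∀ (f M : Pt d → ℝ) (S : Pt d → Finset (Pt d)) (T : Set (Pt d)) (a : Pt d),
      (∀ n, f n ≤ M n) →
      (∀ n ∈ T, n ∈ S n ∧ (∀ y ∈ S n, ∀ l, |y l - n l| ≤ R₁) ∧ M n = avg f (S n)) →
      (∀ l, |a l| ≤ 1) →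
      ∑' n, T.indicator (fun n => ENNReal.ofReal (M n - M (n + a))) n ≤
        C * ∑' z, ENNReal.ofReal (nG f 0 z) := by
  refine ⟨ENNReal.ofReal (2 * (d * (R₁ + 1 : ℕ))) * (2 * (R₁ + 1 : ℕ) + 1) ^ d,
    ENNReal.mul_ne_top ENNReal.ofReal_ne_top (ENNReal.pow_ne_top (by finiteness)), ?_⟩
  intro f M S T a hM hT ha
  set R : ℕ := R₁ + 1 with hR
  have hstep : ∀ n, T.indicator (fun n => ENNReal.ofReal (M n - M (n + a))) n ≤
      ENNReal.ofReal (2 * (d * (R : ℕ))) * ENNReal.ofReal (∑ z ∈ W R 0 n, nG f 0 z) := by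
    intro n
    by_cases hn : n ∈ T
    · rw [Set.indicator_of_mem hn]
      obtain ⟨hnS, hball, havg⟩ := hT n hn
      rw [← ENNReal.ofReal_mul (by positivity)]
      refine ENNReal.ofReal_le_ofReal ?_
      set α := ∑ z ∈ W R 0 n, nG f 0 z with hα
      have hcard : (0 : ℝ) < (S n).card := by exact_mod_cast Finset.card_pos.2 ⟨n, hnS⟩
      have h1 : ∀ y ∈ S n, f y ≤ f n + d * R * α := by
        intro y hy
        have h := small_osc f R n (y - n) (fun l => by
          have := hball y hy l
          simp only [Pi.sub_apply]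
          rw [hR]; push_cast; linarith)
        rw [add_sub_cancel] at h
        have := (abs_le.1 h).2
        linarith
      have h2 : f n ≤ f (n + a) + d * R * α := by
        have h := small_osc f R n a (fun l => by
          have := ha l
          rw [hR]; push_cast; have : (0 : ℤ) ≤ R₁ := by positivity
          linarith [ha l])
        have := (abs_le.1 h).1
        linarith
      have h3 : avg f (S n) ≤ f n + d * R * α := by
        unfold avg
        have h4 := Finset.sum_le_card_nsmul _ _ _ h1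
        rw [nsmul_eq_mul] at h4
        calc ((S n).card : ℝ)⁻¹ * ∑ y ∈ S n, f y
            ≤ ((S n).card : ℝ)⁻¹ * ((S n).card * (f n + d * R * α)) :=
              mul_le_mul_of_nonneg_left h4 (by positivity)
          _ = _ := by rw [← mul_assoc, inv_mul_cancel₀ hcard.ne', one_mul]
      have h5 := hM (n + a)
      rw [havg]
      linarith
    · rw [Set.indicator_of_notMem hn]
      exact bot_le
  refine (ENNReal.tsum_le_tsum hstep).trans ?_
  rw [ENNReal.tsum_mul_left]
  have h6 := tsum_W_real (d := d) R 0 (fun z => nG f 0 z) (fun z => nG_nonneg f 0 z)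
  rw [h6, mul_assoc]

end Pool.Agent.W11
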