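import Pool.Agent.W11.Defs

/-!
W11 M1a: boxes, windows, averages (helper37).
-/

set_option autoImplicit false

open Finset
open scoped RealInnerProductSpace

namespace Pool.Agent.W11

variable {d : ℕ}

lemma mem_bx {n : ℕ} {y : Pt d} : y ∈ bx d n ↔ ∀ l, 0 ≤ y l ∧ y l < n := by
  unfold bx
  simp only [Fintype.mem_piFinset, Finset.mem_Ico]

lemma mem_ball {y z : Pt d} {r : ℤ} : z ∈ ball y r ↔ ∀ l, |z l - y l| ≤ r := by
  unfold ball
  rw [Fintype.mem_piFinset]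
  refine forall_congr' fun l => ?_
  rw [Finset.mem_Icc, abs_le]
  constructor <;> rintro ⟨h1, h2⟩ <;> constructor <;> linarith

lemma mem_W' {c i : ℕ} {v z : Pt d} :
    z ∈ W c i v ↔ ∀ l, 4 ^ i * (v l - c) ≤ z l ∧ z l < 4 ^ i * (v l + c + 1) := by
  unfold W
  simp only [Fintype.mem_piFinset, Finset.mem_Ico]

lemma mem_W {c i : ℕ} {v z : Pt d} : z ∈ W c i v ↔ ∀ l, |ind i z l - v l| ≤ c := by
  rw [mem_W']
  refine forall_congr' fun l => ?_
  have h4 : (0 : ℤ) < 4 ^ i := by positivity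
  unfold ind
  rw [abs_le]
  constructor
  · rintro ⟨h1, h2⟩
    have h3 : v l - c ≤ z l / 4 ^ i := by
      rw [Int.le_ediv_iff_mul_le h4]; linarith
    have h5 : z l / 4 ^ i < v l + c + 1 := by
      rw [Int.ediv_lt_iff_lt_mul h4]; linarith
    constructor <;> omega
  · rintro ⟨h1, h2⟩
    have h3 : v l - c ≤ z l / 4 ^ i := by linarith
    have h5 : z l / 4 ^ i < v l + c + 1 := by linarith
    rw [Int.le_ediv_iff_mul_le h4] at h3
    rw [Int.ediv_lt_iff_lt_mul h4] at h5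
    constructor <;> linarith

lemma ind_succ (i : ℕ) (z : Pt d) : ind (i + 1) z = par (ind i z) := by
  funext l
  simp only [ind, par]
  rw [pow_succ, Int.ediv_ediv_of_nonneg (by positivity)]

lemma W_mono {c c' i : ℕ} (h : c ≤ c') (v : Pt d) : W c i v ⊆ W c' i v := by
  intro z hz
  rw [mem_W] at hz ⊢
  intro l
  exact (hz l).trans (by exact_mod_cast h)

lemma gr_apply (g : Pt d → ℝ) (z : Pt d) (l : Fin d) : gr g z l = g (z + eV l) - g z := rfl

lemma gr_av (n : ℕ) (g : Pt d → ℝ) (z : Pt d) : gr (av n g) z = av n (gr g) z := by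
  ext l
  rw [gr_apply]
  simp only [av, PiLp.smul_apply, smul_eq_mul]
  rw [← mul_sub, ← Finset.sum_sub_distrib]
  congr 1
  have h1 : (∑ y ∈ bx d n, gr g (z + y)).ofLp l = ∑ y ∈ bx d n, (gr g (z + y)).ofLp l := by
    rw [WithLp.ofLp_sum, Finset.sum_apply]
  rw [h1]
  refine Finset.sum_congr rfl fun y _ => ?_
  rw [gr_apply, add_right_comm]

lemma gr_sm_succ (f : Pt d → ℝ) (j : ℕ) (z : Pt d) :
    gr (sm f (j + 1)) z = av (4 ^ j) (gr (sm f j)) z := by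
  change gr (av (4 ^ j) (sm f j)) z = _
  exact gr_av _ _ _

lemma nG_nonneg (f : Pt d → ℝ) (j : ℕ) (z : Pt d) : 0 ≤ nG f j z := norm_nonneg _

lemma av_nonneg {n : ℕ} {g : Pt d → ℝ} (hg : ∀ z, 0 ≤ g z) (z : Pt d) : 0 ≤ av n g z := by
  unfold av
  rw [smul_eq_mul]
  exact mul_nonneg (by positivity) (Finset.sum_nonneg fun _ _ => hg _)

lemma av_mono {n : ℕ} {g g' : Pt d → ℝ} (h : ∀ z, g z ≤ g' z) (z : Pt d) :
    av n g z ≤ av n g' z := by
  unfold av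
  rw [smul_eq_mul, smul_eq_mul]
  exact mul_le_mul_of_nonneg_left (Finset.sum_le_sum fun _ _ => h _) (by positivity)

lemma norm_av_le {n : ℕ} (g : Pt d → EE d) (z : Pt d) :
    ‖av n g z‖ ≤ av n (fun z => ‖g z‖) z := by
  unfold av
  rw [norm_smul, smul_eq_mul, Real.norm_of_nonneg (by positivity)]
  exact mul_le_mul_of_nonneg_left (norm_sum_le _ _) (by positivity)

lemma inner_av {n : ℕ} (e : EE d) (g : Pt d → EE d) (z : Pt d) :
    ⟪e, av n g z⟫ = av n (fun z => ⟪e, g z⟫) z := by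
  unfold av
  rw [inner_smul_right, inner_sum, smul_eq_mul]

lemma nG_succ_le (f : Pt d → ℝ) (j : ℕ) (z : Pt d) :
    nG f (j + 1) z ≤ av (4 ^ j) (nG f j) z := by
  unfold nG
  rw [gr_sm_succ]
  exact norm_av_le _ _

lemma X_nonneg (f : Pt d → ℝ) (j : ℕ) (z : Pt d) : 0 ≤ X f j z :=
  sub_nonneg.2 (nG_succ_le f j z)

lemma Dg_nonneg (g : Pt d → ℝ) {e : EE d} (he : ‖e‖ ≤ 1) (z : Pt d) : 0 ≤ Dg g e z := by
  unfold Dg
  have h1 := real_inner_le_norm e (gr g z)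
  have h2 : ‖e‖ * ‖gr g z‖ ≤ 1 * ‖gr g z‖ := mul_le_mul_of_nonneg_right he (norm_nonneg _)
  linarith

lemma D_nonneg (f : Pt d → ℝ) (j : ℕ) {e : EE d} (he : ‖e‖ ≤ 1) (z : Pt d) : 0 ≤ D f j e z :=
  Dg_nonneg _ he z

lemma Dg_le (g : Pt d → ℝ) {e : EE d} (he : ‖e‖ ≤ 1) (z : Pt d) : Dg g e z ≤ 2 * ‖gr g z‖ := by
  unfold Dg
  have h1 := abs_real_inner_le_norm e (gr g z)
  have h2 : ‖e‖ * ‖gr g z‖ ≤ 1 * ‖gr g z‖ := mul_le_mul_of_nonneg_right he (norm_nonneg _)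
  have h3 := neg_abs_le (⟪e, gr g z⟫)
  linarith

lemma D_le (f : Pt d → ℝ) (j : ℕ) {e : EE d} (he : ‖e‖ ≤ 1) (z : Pt d) :
    D f j e z ≤ 2 * nG f j z := Dg_le _ he z

lemma av_sub {n : ℕ} (g g' : Pt d → ℝ) (z : Pt d) :
    av n (fun z => g z - g' z) z = av n g z - av n g' z := by
  unfold av
  rw [Finset.sum_sub_distrib, smul_sub]

lemma av_D (f : Pt d → ℝ) (j : ℕ) (e : EE d) (z : Pt d) :
    av (4 ^ j) (D f j e) z = D f (j + 1) e z + X f j z := by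
  have h1 : D f j e = fun z => nG f j z - ⟪e, gr (sm f j) z⟫ := rfl
  have h2 : D f (j + 1) e z = nG f (j + 1) z - ⟪e, gr (sm f (j + 1)) z⟫ := rfl
  rw [h1, av_sub, h2, gr_sm_succ, inner_av]
  unfold X
  ring

lemma D_succ_le (f : Pt d → ℝ) (j : ℕ) (e : EE d) (z : Pt d) :
    D f (j + 1) e z ≤ av (4 ^ j) (D f j e) z := by
  rw [av_D]
  linarith [X_nonneg f j z]

lemma V_nonneg (f : Pt d → ℝ) (c i : ℕ) (v : Pt d) : 0 ≤ V f c i v :=
  Finset.sum_nonneg fun _ _ => mul_nonneg (by positivity)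
    (Finset.sum_nonneg fun _ _ => nG_nonneg _ _ _)

lemma Pay_nonneg (f : Pt d → ℝ) (c m i : ℕ) (v : Pt d) : 0 ≤ Pay f c m i v :=
  add_nonneg (Finset.sum_nonneg fun _ _ => mul_nonneg (by positivity)
      (Finset.sum_nonneg fun _ _ => X_nonneg _ _ _))
    (mul_nonneg (by positivity) (Finset.sum_nonneg fun _ _ =>
      Finset.sum_nonneg fun _ _ => nG_nonneg _ _ _))

lemma Ctl_mono {f : Pt d → ℝ} {c c' i : ℕ} {B P : ℝ} {e : EE d} {v : Pt d} (h : c' ≤ c)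
    (h1 : Ctl f c B e i v P) : Ctl f c' B e i v P := by
  obtain ⟨he, h2, h3⟩ := h1
  refine ⟨he, le_trans ?_ h2, le_trans ?_ h3⟩
  · refine Finset.sum_le_sum fun j _ => mul_le_mul_of_nonneg_left ?_ (by positivity)
    exact Finset.sum_le_sum_of_subset_of_nonneg (W_mono h v) fun _ _ _ => D_nonneg _ _ he.le _
  · refine mul_le_mul_of_nonneg_left (Finset.sum_le_sum fun j _ => ?_) (by positivity)
    exact Finset.sum_le_sum_of_subset_of_nonneg (W_mono h v) fun _ _ _ => nG_nonneg _ _ _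

end Pool.Agent.W11
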