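import Mathlib
import Pool.Agent.W11.Basic

/-!
W11, module M1b: global sums.
-/

set_option autoImplicit false

open Finset
open scoped RealInnerProductSpace ENNReal

namespace Pool.Agent.W11

variable {d : ℕ}

lemma s83_card_bx (n : ℕ) : (bx d n).card = n ^ d := by
  unfold bx
  rw [Fintype.card_piFinset]
  simp

lemma s83_card_ball (y : Pt d) (c : ℕ) : (ball y (c : ℤ)).card = (2 * c + 1) ^ d := by
  unfold ball
  rw [Fintype.card_piFinset]
  have h : ∀ l : Fin d, (Finset.Icc (y l - (c : ℤ)) (y l + c)).card = 2 * c + 1 := by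
    intro l
    rw [Int.card_Icc]
    have : y l + (c : ℤ) + 1 - (y l - c) = ((2 * c + 1 : ℕ) : ℤ) := by
      push_cast
      ring
    rw [this, Int.toNat_natCast]
  simp [h]

lemma tsum_av {n : ℕ} (hn : 1 ≤ n) (g : Pt d → ℝ) (hg : ∀ z, 0 ≤ g z) :
    ∑' z, ENNReal.ofReal (av n g z) = ∑' z, ENNReal.ofReal (g z) := by
  have hpos : (0 : ℝ) < (n : ℝ) ^ d := pow_pos (by exact_mod_cast hn) d
  have h1 : ∀ z, ENNReal.ofReal (av n g z) =
      ENNReal.ofReal (((n : ℝ) ^ d)⁻¹) * ∑ y ∈ bx d n, ENNReal.ofReal (g (z + y)) := by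
    intro z
    unfold av
    rw [smul_eq_mul, ENNReal.ofReal_mul (inv_nonneg.2 hpos.le),
      ENNReal.ofReal_sum_of_nonneg fun y _ => hg _]
  simp_rw [h1]
  rw [ENNReal.tsum_mul_left, Summable.tsum_finsetSum fun _ _ => ENNReal.summable]
  have h2 : ∀ y ∈ bx d n, ∑' z, ENNReal.ofReal (g (z + y)) = ∑' z, ENNReal.ofReal (g z) := by
    intro y _
    exact (Equiv.addRight y).tsum_eq fun z => ENNReal.ofReal (g z)
  rw [Finset.sum_congr rfl h2, Finset.sum_const, s83_card_bx, nsmul_eq_mul, ← mul_assoc]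
  have h3 : ENNReal.ofReal (((n : ℝ) ^ d)⁻¹) * ((n ^ d : ℕ) : ℝ≥0∞) = 1 := by
    rw [← ENNReal.ofReal_natCast, ← ENNReal.ofReal_mul (inv_nonneg.2 hpos.le)]
    push_cast
    rw [inv_mul_cancel₀ hpos.ne', ENNReal.ofReal_one]
  rw [h3, one_mul]

lemma tsum_X (f : Pt d → ℝ) (j : ℕ) :
    (∑' z, ENNReal.ofReal (X f j z)) + ∑' z, ENNReal.ofReal (nG f (j + 1) z)
      = ∑' z, ENNReal.ofReal (nG f j z) := by
  rw [← ENNReal.tsum_add, ← tsum_av (n := 4 ^ j) (Nat.one_le_pow _ _ (by norm_num)) (nG f j)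
    (nG_nonneg f j)]
  refine tsum_congr fun z => ?_
  rw [← ENNReal.ofReal_add (X_nonneg f j z) (nG_nonneg f (j + 1) z)]
  congr 1
  unfold X
  ring

lemma tsum_nG_succ_le (f : Pt d → ℝ) (j : ℕ) :
    ∑' z, ENNReal.ofReal (nG f (j + 1) z) ≤ ∑' z, ENNReal.ofReal (nG f j z) := by
  rw [← tsum_X f j]
  exact le_add_self

lemma tsum_nG_le (f : Pt d → ℝ) (j : ℕ) :
    ∑' z, ENNReal.ofReal (nG f j z) ≤ ∑' z, ENNReal.ofReal (nG f 0 z) := by
  induction j with
  | zero => exact le_rfl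
  | succ j ih => exact (tsum_nG_succ_le f j).trans ih

lemma sum_tsum_X_eq (f : Pt d → ℝ) (n : ℕ) :
    (∑ j ∈ range n, ∑' z, ENNReal.ofReal (X f j z)) + ∑' z, ENNReal.ofReal (nG f n z)
      = ∑' z, ENNReal.ofReal (nG f 0 z) := by
  induction n with
  | zero => simp
  | succ n ih => rw [Finset.sum_range_succ, add_assoc, tsum_X, ih]

lemma sum_tsum_X (f : Pt d → ℝ) (n : ℕ) :
    ∑ j ∈ range n, ∑' z, ENNReal.ofReal (X f j z) ≤ ∑' z, ENNReal.ofReal (nG f 0 z) := by
  rw [← sum_tsum_X_eq f n]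
  exact le_self_add

lemma tsum_tsum_X (f : Pt d → ℝ) :
    ∑' j, ∑' z, ENNReal.ofReal (X f j z) ≤ ∑' z, ENNReal.ofReal (nG f 0 z) := by
  rw [ENNReal.tsum_eq_iSup_nat]
  exact iSup_le fun n => sum_tsum_X f n

lemma tsum_W (c i : ℕ) (g : Pt d → ℝ≥0∞) :
    ∑' v, ∑ z ∈ W c i v, g z = (2 * c + 1) ^ d * ∑' z, g z := by
  classical
  have h1 : ∀ v, ∑ z ∈ W c i v, g z = ∑' z, if z ∈ W c i v then g z else 0 := by
    intro v
    rw [tsum_eq_sum (s := W c i v)]
    · exact Finset.sum_congr rfl fun z hz => by simp [hz]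
    · intro z hz
      simp [hz]
  simp_rw [h1]
  rw [ENNReal.tsum_comm, ← ENNReal.tsum_mul_left]
  refine tsum_congr fun z => ?_
  have h2 : ∀ v, z ∈ W c i v ↔ v ∈ ball (ind i z) (c : ℤ) := by
    intro v
    rw [mem_W, mem_ball]
    exact forall_congr' fun l => by rw [abs_sub_comm]
  simp_rw [h2]
  rw [tsum_eq_sum (s := ball (ind i z) (c : ℤ))]
  · rw [Finset.sum_congr rfl (g := fun _ => g z) fun v hv => by simp [hv], Finset.sum_const,
      s83_card_ball, nsmul_eq_mul]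
    push_cast
    rfl
  · intro v hv
    simp [hv]

/-- the sum over all windows of a nonnegative function -/
lemma tsum_W_real (c i : ℕ) (g : Pt d → ℝ) (hg : ∀ z, 0 ≤ g z) :
    ∑' v, ENNReal.ofReal (∑ z ∈ W c i v, g z) = (2 * c + 1) ^ d * ∑' z, ENNReal.ofReal (g z) := by
  rw [← tsum_W c i]
  exact tsum_congr fun v => ENNReal.ofReal_sum_of_nonneg fun z _ => hg z

lemma s83_tsum_quarter : ∑' k : ℕ, ENNReal.ofReal ((1 / 4 : ℝ) ^ k) ≤ 2 := by
  rw [← ENNReal.ofReal_tsum_of_nonneg (fun k => by positivity)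
    (summable_geometric_of_lt_one (by norm_num) (by norm_num)),
    tsum_geometric_of_lt_one (by norm_num) (by norm_num)]
  rw [show (2 : ℝ≥0∞) = ENNReal.ofReal 2 by simp]
  exact ENNReal.ofReal_le_ofReal (by norm_num)

lemma s83_tsum_half : ∑' k : ℕ, ENNReal.ofReal ((1 / 4 : ℝ) ^ k) * ((k + 1 : ℕ) : ℝ≥0∞) ≤ 2 := by
  have h : ∀ k : ℕ, ENNReal.ofReal ((1 / 4 : ℝ) ^ k) * ((k + 1 : ℕ) : ℝ≥0∞) ≤
      ENNReal.ofReal ((1 / 2 : ℝ) ^ k) := by
    intro k
    rw [← ENNReal.ofReal_natCast, ← ENNReal.ofReal_mul (by positivity)]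
    refine ENNReal.ofReal_le_ofReal ?_
    have h1 : ((k + 1 : ℕ) : ℝ) ≤ 2 ^ k := by
      exact_mod_cast Nat.succ_le_of_lt k.lt_two_pow_self
    have h2 : (1 / 4 : ℝ) ^ k * 2 ^ k = (1 / 2) ^ k := by
      rw [← mul_pow]
      norm_num
    rw [← h2]
    exact mul_le_mul_of_nonneg_left h1 (by positivity)
  refine (ENNReal.tsum_le_tsum h).trans ?_
  rw [← ENNReal.ofReal_tsum_of_nonneg (fun k => by positivity)
    (summable_geometric_of_lt_one (by norm_num) (by norm_num)),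
    tsum_geometric_of_lt_one (by norm_num) (by norm_num)]
  rw [show (2 : ℝ≥0∞) = ENNReal.ofReal 2 by simp]
  exact ENNReal.ofReal_le_ofReal (by norm_num)

theorem tsum_V (d c : ℕ) : ∃ C : ℝ≥0∞, C ≠ ⊤ ∧ ∀ (f : Pt d → ℝ) (i : ℕ),
    ∑' v, ENNReal.ofReal (V f c i v) ≤ C * ∑' z, ENNReal.ofReal (nG f 0 z) := by
  refine ⟨2 * (2 * c + 1) ^ d, ?_, ?_⟩
  · exact ENNReal.mul_ne_top (by simp) (ENNReal.pow_ne_top (by
      exact ENNReal.add_ne_top.2 ⟨ENNReal.mul_ne_top (by simp) (ENNReal.natCast_ne_top c), by simp⟩))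
  · intro f i
    have h1 : ∀ v, ENNReal.ofReal (V f c i v) = ∑ j ∈ range (i + 1),
        ENNReal.ofReal ((1 / 4 : ℝ) ^ (i - j)) * ENNReal.ofReal (∑ z ∈ W c i v, nG f j z) := by
      intro v
      unfold V
      rw [ENNReal.ofReal_sum_of_nonneg fun j _ => mul_nonneg (by positivity)
        (Finset.sum_nonneg fun z _ => nG_nonneg f j z)]
      exact Finset.sum_congr rfl fun j _ => ENNReal.ofReal_mul (by positivity)
    simp_rw [h1]
    rw [Summable.tsum_finsetSum fun _ _ => ENNReal.summable]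
    simp_rw [ENNReal.tsum_mul_left]
    have h2 : ∀ j ∈ range (i + 1), ENNReal.ofReal ((1 / 4 : ℝ) ^ (i - j)) *
        ∑' v, ENNReal.ofReal (∑ z ∈ W c i v, nG f j z) ≤ ENNReal.ofReal ((1 / 4 : ℝ) ^ (i - j)) *
        ((2 * c + 1) ^ d * ∑' z, ENNReal.ofReal (nG f 0 z)) := by
      intro j _
      rw [tsum_W_real c i (nG f j) (nG_nonneg f j)]
      exact mul_le_mul_right (mul_le_mul_right (tsum_nG_le f j) _) _
    refine (Finset.sum_le_sum h2).trans ?_
    rw [← Finset.sum_mul, mul_assoc]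
    refine mul_le_mul_left ?_ _
    have h3 : ∑ j ∈ range (i + 1), ENNReal.ofReal ((1 / 4 : ℝ) ^ (i - j)) =
        ∑ k ∈ range (i + 1), ENNReal.ofReal ((1 / 4 : ℝ) ^ k) := by
      rw [← Finset.sum_range_reflect]
      refine Finset.sum_congr rfl fun j hj => ?_
      have : j < i + 1 := Finset.mem_range.1 hj
      congr 2
      omega
    rw [h3]
    exact (ENNReal.sum_le_tsum _).trans s83_tsum_quarter

lemma s83_weight (m j : ℕ) :
    ∑' i : ℕ, (if j < i + m + 1 then ENNReal.ofReal ((1 / 4 : ℝ) ^ (i - j)) else 0) ≤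
      (m + 2 : ℕ) := by
  rw [← Summable.sum_add_tsum_nat_add' (k := j) ENNReal.summable]
  push_cast
  refine add_le_add ?_ ?_
  · have h1 : ∀ i ∈ range j, (if j < i + m + 1 then ENNReal.ofReal ((1 / 4 : ℝ) ^ (i - j)) else 0) ≤
        if i ∈ Finset.Ico (j - m) j then (1 : ℝ≥0∞) else 0 := by
      intro i hi
      have hij : i < j := Finset.mem_range.1 hi
      split_ifs with h h' h'
      · have : i - j = 0 := by omega
        rw [this]
        simp
      · exfalso
        apply h'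
        rw [Finset.mem_Ico]
        omega
      · exact zero_le_one
      · exact le_rfl
    refine (Finset.sum_le_sum h1).trans ?_
    rw [Finset.sum_ite_mem, Finset.sum_const, nsmul_eq_mul, mul_one]
    have h2 : (range j ∩ Finset.Ico (j - m) j).card ≤ m := by
      refine (Finset.card_le_card Finset.inter_subset_right).trans ?_
      rw [Nat.card_Ico]
      omega
    exact_mod_cast h2
  · refine le_trans (le_of_eq ?_) s83_tsum_quarter
    refine tsum_congr fun k => ?_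
    rw [if_pos (by omega)]
    congr 2
    omega

theorem tsum_Pay (d c m : ℕ) : ∃ C : ℝ≥0∞, C ≠ ⊤ ∧ ∀ f : Pt d → ℝ,
    ∑' i, ∑' v, ENNReal.ofReal (Pay f c m i v) ≤ C * ∑' z, ENNReal.ofReal (nG f 0 z) := by
  obtain ⟨K, hK⟩ : ∃ K : ℝ≥0∞, K = (2 * c + 1) ^ d := ⟨_, rfl⟩
  have hKt : K ≠ ⊤ := by
    rw [hK]
    exact ENNReal.pow_ne_top (ENNReal.add_ne_top.2
      ⟨ENNReal.mul_ne_top (by simp) (ENNReal.natCast_ne_top c), by simp⟩)
  refine ⟨(m + 2 : ℕ) * K + 2 * K, ?_, ?_⟩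
  · exact ENNReal.add_ne_top.2 ⟨ENNReal.mul_ne_top (ENNReal.natCast_ne_top _) hKt,
      ENNReal.mul_ne_top (by simp) hKt⟩
  · intro f
    obtain ⟨T, hT⟩ : ∃ T : ℝ≥0∞, T = ∑' z, ENNReal.ofReal (nG f 0 z) := ⟨_, rfl⟩
    have h1 : ∀ i, ∑' v, ENNReal.ofReal (Pay f c m i v) ≤
        (∑' j, (if j < i + m + 1 then ENNReal.ofReal ((1 / 4 : ℝ) ^ (i - j)) else 0) *
          (K * ∑' z, ENNReal.ofReal (X f j z))) +
        ENNReal.ofReal ((1 / 4 : ℝ) ^ i) * ((i + 1 : ℕ) : ℝ≥0∞) * (K * T) := by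
      intro i
      have h2 : ∀ v, ENNReal.ofReal (Pay f c m i v) =
          (∑ j ∈ range (i + m + 1), ENNReal.ofReal ((1 / 4 : ℝ) ^ (i - j)) *
            ENNReal.ofReal (∑ z ∈ W c i v, X f j z)) +
          ENNReal.ofReal ((1 / 4 : ℝ) ^ i) *
            ∑ j ∈ range (i + 1), ENNReal.ofReal (∑ z ∈ W c i v, nG f j z) := by
        intro v
        unfold Pay
        have hX : ∀ j, 0 ≤ ∑ z ∈ W c i v, X f j z := fun j =>
          Finset.sum_nonneg fun z _ => X_nonneg f j z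
        have hG : ∀ j, 0 ≤ ∑ z ∈ W c i v, nG f j z := fun j =>
          Finset.sum_nonneg fun z _ => nG_nonneg f j z
        rw [ENNReal.ofReal_add (Finset.sum_nonneg fun j _ => mul_nonneg (by positivity) (hX j))
          (mul_nonneg (by positivity) (Finset.sum_nonneg fun j _ => hG j)),
          ENNReal.ofReal_sum_of_nonneg fun j _ => mul_nonneg (by positivity) (hX j),
          ENNReal.ofReal_mul (by positivity), ENNReal.ofReal_sum_of_nonneg fun j _ => hG j]
        congr 1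
        exact Finset.sum_congr rfl fun j _ => ENNReal.ofReal_mul (by positivity)
      simp_rw [h2]
      rw [ENNReal.tsum_add]
      refine add_le_add ?_ ?_
      · rw [Summable.tsum_finsetSum fun _ _ => ENNReal.summable]
        simp_rw [ENNReal.tsum_mul_left]
        rw [tsum_eq_sum (s := range (i + m + 1))]
        · refine Finset.sum_le_sum fun j hj => ?_
          rw [if_pos (Finset.mem_range.1 hj), tsum_W_real c i (X f j) (X_nonneg f j), hK]
        · intro j hj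
          rw [if_neg (by simpa using hj), zero_mul]
      · rw [ENNReal.tsum_mul_left, Summable.tsum_finsetSum fun _ _ => ENNReal.summable, mul_assoc]
        refine mul_le_mul_right ?_ _
        have h3 : ∀ j ∈ range (i + 1), ∑' v, ENNReal.ofReal (∑ z ∈ W c i v, nG f j z) ≤ K * T := by
          intro j _
          rw [tsum_W_real c i (nG f j) (nG_nonneg f j), hK, hT]
          exact mul_le_mul_right (tsum_nG_le f j) _
        refine (Finset.sum_le_sum h3).trans ?_
        rw [Finset.sum_const, Finset.card_range, nsmul_eq_mul]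
    refine (ENNReal.tsum_le_tsum h1).trans ?_
    rw [ENNReal.tsum_add, add_mul]
    refine add_le_add ?_ ?_
    · rw [ENNReal.tsum_comm]
      simp_rw [ENNReal.tsum_mul_right]
      have h4 : ∀ j, (∑' i : ℕ, (if j < i + m + 1 then ENNReal.ofReal ((1 / 4 : ℝ) ^ (i - j)) else 0)) *
          (K * ∑' z, ENNReal.ofReal (X f j z)) ≤
          (m + 2 : ℕ) * K * ∑' z, ENNReal.ofReal (X f j z) := by
        intro j
        rw [mul_assoc]
        exact mul_le_mul_left (s83_weight m j) _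
      refine (ENNReal.tsum_le_tsum h4).trans ?_
      rw [ENNReal.tsum_mul_left, ← hT]
      refine mul_le_mul_right ?_ _
      rw [hT]
      exact tsum_tsum_X f
    · rw [ENNReal.tsum_mul_right, ← hT, mul_assoc]
      exact mul_le_mul_left s83_tsum_half _

end Pool.Agent.W11
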