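import Mathlib

set_option autoImplicit false

/-!
# The choice of a threshold (averaging over the threshold)
-/

open MeasureTheory Set
open scoped ENNReal

namespace Pool.Agent.W11

/-- `∫_{(a, b]} (θ - a) dθ = (b - a)^2 / 2`. -/
lemma lintegral_Ioc_sub (a b : ℝ) (hab : a ≤ b) :
    ∫⁻ t in Ioc a b, ENNReal.ofReal (t - a) = ENNReal.ofReal ((b - a) ^ 2 / 2) := by
  rw [← ofReal_integral_eq_lintegral_ofReal]
  · congr 1
    rw [← intervalIntegral.integral_of_le hab]
    rw [intervalIntegral.integral_sub (Continuous.intervalIntegrable (by fun_prop) _ _)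
      (Continuous.intervalIntegrable (by fun_prop) _ _)]
    simp
    ring
  · exact (Continuous.integrableOn_Icc (by fun_prop)).mono_set Ioc_subset_Icc_self
  · filter_upwards [ae_restrict_mem measurableSet_Ioc] with t ht
    exact sub_nonneg.2 ht.1.le

/-- the weight function of the averaging -/
noncomputable def wK (δ x : ℝ) : ℝ≥0∞ :=
  ∫⁻ t in Ioc (δ / 2) δ, (if t ≤ x then ENNReal.ofReal (t - δ / 2) else 0)

lemma wK_eq {δ : ℝ} (hδ : 0 < δ) (x : ℝ) :
    wK δ x = ENNReal.ofReal ((max 0 (min (δ / 2) (x - δ / 2))) ^ 2 / 2) := by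
  have h1 : wK δ x = ∫⁻ t in Ioc (δ / 2) (min δ x), ENNReal.ofReal (t - δ / 2) := by
    unfold wK
    have h2 : ∀ t, (if t ≤ x then ENNReal.ofReal (t - δ / 2) else 0)
        = (Iic x).indicator (fun t => ENNReal.ofReal (t - δ / 2)) t := by
      intro t; simp only [indicator, mem_Iic]
    simp_rw [h2]
    rw [lintegral_indicator measurableSet_Iic, Measure.restrict_restrict measurableSet_Iic]
    congr 2
    ext t
    simp only [mem_inter_iff, mem_Iic, mem_Ioc, le_min_iff]
    tauto
  rw [h1]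
  rcases le_total (δ / 2) (min δ x) with h | h
  · rw [lintegral_Ioc_sub _ _ h]
    have h3 : max 0 (min (δ / 2) (x - δ / 2)) = min δ x - δ / 2 := by
      rw [max_eq_right]
      · rw [← min_sub_sub_right]; congr 1; ring
      · have := (le_min_iff.1 h).2
        exact le_min (by linarith) (by linarith)
    rw [h3]
  · rw [Ioc_eq_empty (not_lt.2 h)]
    have h4 : x ≤ δ / 2 := by
      rcases min_le_iff.1 h with h | h
      · linarith
      · exact h
    rw [max_eq_left ((min_le_right _ _).trans (by linarith))]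
    simp

lemma wK_le {δ : ℝ} (hδ : 0 < δ) {x y : ℝ} (hxy : x ≤ y) :
    wK δ y ≤ 2 * wK δ x + ENNReal.ofReal ((y - x) ^ 2) := by
  rw [wK_eq hδ, wK_eq hδ]
  have h2 : (2 : ℝ≥0∞) = ENNReal.ofReal 2 := by simp
  rw [h2, ← ENNReal.ofReal_mul (by norm_num), ← ENNReal.ofReal_add (by positivity) (by positivity)]
  apply ENNReal.ofReal_le_ofReal
  set s := max 0 (min (δ / 2) (x - δ / 2)) with hs
  set t := max 0 (min (δ / 2) (y - δ / 2)) with ht
  have hs0 : 0 ≤ s := le_max_left _ _
  have h3 : s ≤ t := max_le_max le_rfl (min_le_min le_rfl (by linarith))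
  have h4 : t - s ≤ y - x := by
    rcases le_total (y - δ / 2) 0 with h | h
    · have : t = 0 := by
        rw [ht]; exact max_eq_left ((min_le_right _ _).trans h)
      linarith
    · have h5 : t = min (δ / 2) (y - δ / 2) := by
        rw [ht]; exact max_eq_right (le_min (by linarith) h)
      have h6 : min (δ / 2) (x - δ / 2) ≤ s := le_max_right _ _
      rcases le_total (δ / 2) (x - δ / 2) with h7 | h7
      · rw [min_eq_left h7] at h6
        have : t ≤ δ / 2 := by rw [h5]; exact min_le_left _ _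
        linarith
      · rw [min_eq_right h7] at h6
        have : t ≤ y - δ / 2 := by rw [h5]; exact min_le_right _ _
        linarith
  have h5 : (t - s) ^ 2 ≤ (y - x) ^ 2 := by
    apply pow_le_pow_left₀ (by linarith) h4
  nlinarith [sq_nonneg (2 * s - t)]

lemma wK_lt_top {δ : ℝ} (hδ : 0 < δ) (x : ℝ) : wK δ x ≠ ⊤ := by
  rw [wK_eq hδ]; exact ENNReal.ofReal_ne_top

lemma meas_le (x c : ℝ) :
    Measurable (fun t : ℝ => if t ≤ x then ENNReal.ofReal (t - c) else 0) :=
  Measurable.ite measurableSet_Iic (by fun_prop) measurable_const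

/-- `∫`-averaging lemma: choice of a threshold -/
theorem exists_threshold {ι : Type*} [Countable ι] (a lo hi : ι → ℝ) (ha : ∀ n, 0 ≤ a n)
    (hlh : ∀ n, lo n ≤ hi n) (hfin : ∑' n, ENNReal.ofReal (a n) ≠ ⊤) {δ : ℝ} (hδ : 0 < δ) :
    ∃ θ : ℝ, δ / 2 ≤ θ ∧ θ ≤ δ ∧
      ∑' n, (if lo n < θ ∧ θ ≤ hi n then ENNReal.ofReal (a n) else 0) ≤
        ∑' n, (if θ ≤ lo n then ENNReal.ofReal (a n) else 0) +
          ENNReal.ofReal (8 / δ ^ 2) * ∑' n, ENNReal.ofReal (a n * (hi n - lo n) ^ 2) := by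
  set I : ℝ≥0∞ := ∑' n, ENNReal.ofReal (a n * (hi n - lo n) ^ 2) with hI
  set F : ℝ → ℝ≥0∞ := fun θ => ∑' n, (if lo n < θ ∧ θ ≤ hi n then ENNReal.ofReal (a n) else 0)
    with hF
  set G : ℝ → ℝ≥0∞ := fun θ => ∑' n, (if θ ≤ lo n then ENNReal.ofReal (a n) else 0) with hG
  set c : ℝ≥0∞ := ENNReal.ofReal (8 / δ ^ 2) with hc
  have hc0 : c ≠ 0 := by
    rw [hc]; simp only [ne_eq, ENNReal.ofReal_eq_zero, not_le]; positivity
  rcases eq_or_ne I ⊤ with hIt | hIt
  · refine ⟨δ, by linarith, le_rfl, ?_⟩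
    rw [hIt, ENNReal.mul_top hc0]
    simp
  by_contra hcon
  push Not at hcon
  set w : ℝ → ℝ≥0∞ := fun t => ENNReal.ofReal (t - δ / 2) with hw
  have hwm : Measurable w := by rw [hw]; fun_prop
  have hFm : ∀ n, Measurable (fun θ : ℝ => if lo n < θ ∧ θ ≤ hi n then ENNReal.ofReal (a n) else 0) :=
    fun n => Measurable.ite (measurableSet_Ioi.inter measurableSet_Iic) measurable_const
      measurable_const
  have hGm : ∀ n, Measurable (fun θ : ℝ => if θ ≤ lo n then ENNReal.ofReal (a n) else 0) :=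
    fun n => Measurable.ite measurableSet_Iic measurable_const measurable_const
  have hFM : Measurable F := Measurable.ennreal_tsum hFm
  have hGM : Measurable G := Measurable.ennreal_tsum hGm
  set μ : Measure ℝ := volume.restrict (Ioc (δ / 2) δ) with hμ
  have hwint : ∫⁻ t, w t ∂μ = ENNReal.ofReal (δ ^ 2 / 8) := by
    rw [hμ, hw, lintegral_Ioc_sub _ _ (by linarith)]
    congr 1; ring
  -- total of `F w`
  have hA : ∀ n, ∫⁻ t, (if t ≤ lo n then ENNReal.ofReal (a n) else 0) * w t ∂μ
      = ENNReal.ofReal (a n) * wK δ (lo n) := by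
    intro n
    unfold wK
    rw [← lintegral_const_mul _ (meas_le _ _)]
    apply lintegral_congr
    intro t
    split_ifs <;> simp [hw]
  have hB : ∀ n, ∫⁻ t, (if lo n < t ∧ t ≤ hi n then ENNReal.ofReal (a n) else 0) * w t ∂μ
      ≤ ENNReal.ofReal (a n) * wK δ (lo n) + ENNReal.ofReal (a n * (hi n - lo n) ^ 2) := by
    intro n
    set J : ℝ≥0∞ := ∫⁻ t, (if lo n < t ∧ t ≤ hi n then w t else 0) ∂μ with hJ
    have hJm : Measurable (fun t => if lo n < t ∧ t ≤ hi n then w t else 0) :=
      Measurable.ite (measurableSet_Ioi.inter measurableSet_Iic) hwm measurable_const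
    have h1 : ∫⁻ t, (if lo n < t ∧ t ≤ hi n then ENNReal.ofReal (a n) else 0) * w t ∂μ
        = ENNReal.ofReal (a n) * J := by
      rw [hJ, ← lintegral_const_mul _ hJm]
      apply lintegral_congr
      intro t
      split_ifs <;> simp
    have h2 : J + wK δ (lo n) = wK δ (hi n) := by
      unfold wK
      rw [hJ, ← lintegral_add_left hJm]
      apply lintegral_congr
      intro t
      by_cases h3 : t ≤ lo n
      · have h4 : t ≤ hi n := h3.trans (hlh n)
        simp [h3, h4, not_lt.2 h3]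
      · by_cases h4 : t ≤ hi n
        · simp [h3, h4, hw, not_le.1 h3]
        · simp [h3, h4]
    have h3 : J ≤ wK δ (lo n) + ENNReal.ofReal ((hi n - lo n) ^ 2) := by
      have h4 := wK_le hδ (hlh n)
      rw [← h2, two_mul, add_assoc, add_comm J] at h4
      exact (ENNReal.add_le_add_iff_left (wK_lt_top hδ _)).1 h4
    rw [h1]
    calc ENNReal.ofReal (a n) * J
        ≤ ENNReal.ofReal (a n) * (wK δ (lo n) + ENNReal.ofReal ((hi n - lo n) ^ 2)) := by gcongr
      _ = _ := by rw [mul_add, ← ENNReal.ofReal_mul (ha n)]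
  have hT1 : ∫⁻ t, F t * w t ∂μ ≤ (∫⁻ t, G t * w t ∂μ) + I := by
    have e1 : ∫⁻ t, F t * w t ∂μ
        = ∑' n, ∫⁻ t, (if lo n < t ∧ t ≤ hi n then ENNReal.ofReal (a n) else 0) * w t ∂μ := by
      have hm : ∀ n, AEMeasurable (fun t =>
          (if lo n < t ∧ t ≤ hi n then ENNReal.ofReal (a n) else 0) * w t) μ :=
        fun n => ((hFm n).mul hwm).aemeasurable
      rw [← lintegral_tsum hm]
      apply lintegral_congr
      intro t
      rw [hF, ENNReal.tsum_mul_right]
    have e2 : ∫⁻ t, G t * w t ∂μ = ∑' n, ENNReal.ofReal (a n) * wK δ (lo n) := by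
      simp_rw [← hA]
      have hm : ∀ n, AEMeasurable (fun t =>
          (if t ≤ lo n then ENNReal.ofReal (a n) else 0) * w t) μ :=
        fun n => ((hGm n).mul hwm).aemeasurable
      rw [← lintegral_tsum hm]
      apply lintegral_congr
      intro t
      rw [hG, ENNReal.tsum_mul_right]
    rw [e1, e2, hI, ← ENNReal.tsum_add]
    exact ENNReal.tsum_le_tsum hB
  have hT2 : ∫⁻ t, (G t + c * I) * w t ∂μ = (∫⁻ t, G t * w t ∂μ) + I := by
    have e1 : ∀ t, (G t + c * I) * w t = G t * w t + (c * I) * w t := fun t => add_mul _ _ _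
    simp_rw [e1]
    have hm : Measurable (fun t => G t * w t) := hGM.mul hwm
    rw [lintegral_add_left hm, lintegral_const_mul _ hwm, hwint, hc]
    congr 1
    rw [mul_comm (ENNReal.ofReal _) I, mul_assoc, ← ENNReal.ofReal_mul (by positivity)]
    have : 8 / δ ^ 2 * (δ ^ 2 / 8) = 1 := by field_simp
    rw [this]; simp
  have hGfin : ∫⁻ t, G t * w t ∂μ ≠ ⊤ := by
    have h1 : ∫⁻ t, G t * w t ∂μ ≤ ∫⁻ t, (∑' n, ENNReal.ofReal (a n)) * w t ∂μ := by
      apply lintegral_mono
      intro t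
      have : G t ≤ ∑' n, ENNReal.ofReal (a n) := by
        apply ENNReal.tsum_le_tsum
        intro n
        split_ifs
        · exact le_rfl
        · exact zero_le
      exact mul_le_mul_left this _
    refine ne_top_of_le_ne_top ?_ h1
    rw [lintegral_const_mul _ hwm, hwint]
    exact ENNReal.mul_ne_top hfin ENNReal.ofReal_ne_top
  have hμ0 : μ ≠ 0 := by
    rw [hμ, Ne, Measure.restrict_eq_zero, Real.volume_Ioc]
    simp only [ENNReal.ofReal_eq_zero, not_le]
    linarith
  have hstrict : ∫⁻ t, (G t + c * I) * w t ∂μ < ∫⁻ t, F t * w t ∂μ := by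
    have hm : AEMeasurable (fun t => F t * w t) μ := (hFM.mul hwm).aemeasurable
    refine lintegral_strict_mono hμ0 hm ?_ ?_
    · rw [hT2]; exact ENNReal.add_ne_top.2 ⟨hGfin, hIt⟩
    · rw [hμ]
      filter_upwards [ae_restrict_mem measurableSet_Ioc] with t ht
      have h1 := hcon t ht.1.le ht.2
      have hw0 : w t ≠ 0 := by
        rw [hw]; simp only [ne_eq, ENNReal.ofReal_eq_zero, not_le]; linarith [ht.1]
      exact (ENNReal.mul_lt_mul_iff_left hw0 ENNReal.ofReal_ne_top).2 h1
  rw [hT2] at hstrict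
  exact absurd hT1 (not_le.2 hstrict)

end Pool.Agent.W11
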