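import Mathlib

/-!
W11: endpoint bound for the uncentered discrete maximal operator (helper files for MP_2332c1_an).
Definitions.
-/

set_option autoImplicit false

open Finset
open scoped RealInnerProductSpace

namespace Pool.Agent.W11

variable {d : ℕ}

/-- Points of the lattice. -/
abbrev Pt (d : ℕ) := Fin d → ℤ

/-- Euclidean space. -/
abbrev EE (d : ℕ) := EuclideanSpace ℝ (Fin d)

/-- unit vectors -/
def eV (l : Fin d) : Pt d := Pi.single l 1

/-- a lattice point as a Euclidean vector -/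
noncomputable def toE (u : Pt d) : EE d := WithLp.toLp 2 (fun l => (u l : ℝ))

/-- the box `[0,n)^d` -/
noncomputable def bx (d n : ℕ) : Finset (Pt d) := Fintype.piFinset fun _ => Finset.Ico (0 : ℤ) n

/-- `[y-r, y+r]^d` -/
noncomputable def ball (y : Pt d) (r : ℤ) : Finset (Pt d) :=
  Fintype.piFinset fun l => Finset.Icc (y l - r) (y l + r)

/-- average over the cube `z + [0,n)^d` -/
noncomputable def av {F : Type*} [AddCommGroup F] [Module ℝ F] (n : ℕ) (g : Pt d → F)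
    (z : Pt d) : F :=
  ((n : ℝ) ^ d)⁻¹ • ∑ y ∈ bx d n, g (z + y)

/-- iterated averages: `itA a n = av (4^(a+n-1)) ∘ ⋯ ∘ av (4^a)` -/
noncomputable def itA {F : Type*} [AddCommGroup F] [Module ℝ F] (a : ℕ) :
    ℕ → (Pt d → F) → Pt d → F
  | 0, g => g
  | n + 1, g => av (4 ^ (a + n)) (itA a n g)

/-- the smoothings `v_j` -/
noncomputable def sm (f : Pt d → ℝ) : ℕ → Pt d → ℝ
  | 0 => f
  | j + 1 => av (4 ^ j) (sm f j)

/-- discrete gradient -/
noncomputable def gr (g : Pt d → ℝ) (z : Pt d) : EE d :=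
  WithLp.toLp 2 (fun l => g (z + eV l) - g z)

/-- `‖∇v_j(z)‖` -/
noncomputable def nG (f : Pt d → ℝ) (j : ℕ) (z : Pt d) : ℝ := ‖gr (sm f j) z‖

/-- the excess `X_j = A_j ‖∇ v_j‖ - ‖∇ v_{j+1}‖` -/
noncomputable def X (f : Pt d → ℝ) (j : ℕ) (z : Pt d) : ℝ :=
  av (4 ^ j) (nG f j) z - nG f (j + 1) z

/-- the defect of a function in direction `e` -/
noncomputable def Dg (g : Pt d → ℝ) (e : EE d) (z : Pt d) : ℝ := ‖gr g z‖ - ⟪e, gr g z⟫

/-- the defect of `v_j` -/
noncomputable def D (f : Pt d → ℝ) (j : ℕ) (e : EE d) (z : Pt d) : ℝ := Dg (sm f j) e z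

/-- sum of absolute second differences -/
noncomputable def Hs (g : Pt d → ℝ) (z : Pt d) : ℝ :=
  ∑ l, ∑ k, |(g (z + eV l + eV k) - g (z + eV l)) - (g (z + eV k) - g z)|

/-- the level `i` cube index of a point -/
def ind (i : ℕ) (z : Pt d) : Pt d := fun l => z l / 4 ^ i

/-- parent index -/
def par (v : Pt d) : Pt d := fun l => v l / 4

/-- the window: all points whose level `i` index is within `c` of `v` -/
noncomputable def W (c i : ℕ) (v : Pt d) : Finset (Pt d) :=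
  Fintype.piFinset fun l => Finset.Ico (4 ^ i * (v l - c)) (4 ^ i * (v l + c + 1))

/-- local variation -/
noncomputable def V (f : Pt d → ℝ) (c i : ℕ) (v : Pt d) : ℝ :=
  ∑ j ∈ range (i + 1), (1 / 4 : ℝ) ^ (i - j) * ∑ z ∈ W c i v, nG f j z

/-- the payment of a cube -/
noncomputable def Pay (f : Pt d → ℝ) (c m i : ℕ) (v : Pt d) : ℝ :=
  (∑ j ∈ range (i + m + 1), (1 / 4 : ℝ) ^ (i - j) * ∑ z ∈ W c i v, X f j z) +
    (1 / 4 : ℝ) ^ i * ∑ j ∈ range (i + 1), ∑ z ∈ W c i v, nG f j z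

/-- control of the cube `(i,v)` by the unit vector `e` with payment `P` -/
def Ctl (f : Pt d → ℝ) (c : ℕ) (B : ℝ) (e : EE d) (i : ℕ) (v : Pt d) (P : ℝ) : Prop :=
  ‖e‖ = 1 ∧
  (∑ j ∈ range (i + 1), (1 / 4 : ℝ) ^ (i - j) * ∑ z ∈ W c i v, D f j e z) ≤ B * P ∧
  ((1 / 4 : ℝ) ^ i * ∑ j ∈ range (i + 1), ∑ z ∈ W c i v, nG f j z) ≤ P

/-- `w` is in the cone of `e`, with all its neighbours -/
def Cone (γ : ℝ) (e : EE d) (w : Pt d) : Prop :=
  ∀ u : Pt d, (∀ l, |u l - w l| ≤ 1) → γ * ‖toE u‖ ≤ ⟪e, toE u⟫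

/-- plain average of `f` over a finite set -/
noncomputable def avg (f : Pt d → ℝ) (B : Finset (Pt d)) : ℝ := (B.card : ℝ)⁻¹ * ∑ y ∈ B, f y

/-- the error unit `P L / L^d` -/
noncomputable def ep (d i : ℕ) (P : ℝ) : ℝ := P * 4 ^ i / ((4 : ℝ) ^ i) ^ d

/-- the reference value of a cube in direction `w` -/
noncomputable def bref (f : Pt d → ℝ) (N₂ i : ℕ) (w v : Pt d) : ℝ :=
  sm f i (fun l => 4 ^ i * v l + N₂ * 4 ^ i * w l)

/-- truncation of the vector `a` at `t` -/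
noncomputable def clip (a : Pt d) (t : ℕ) : Pt d := fun l => max (-(t : ℤ)) (min t (a l))

end Pool.Agent.W11
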