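import Mathlib
import Pool.Agent.W11.Defs

/-!
W11: the potential.
-/

set_option autoImplicit false

open Finset
open scoped RealInnerProductSpace ENNReal

namespace Pool.Agent.W11

variable {d : ℕ}

/-- the potential -/
noncomputable def Phi (f : Pt d → ℝ) (c i : ℕ) (ref : Pt d → EE d) : ℝ≥0∞ :=
  open Classical in
  ∑' z, ∑ e ∈ (ball (ind i z) (c : ℤ)).image ref, ENNReal.ofReal (D f i e z)

end Pool.Agent.W11
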