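import Mathlib
import Pool.Agent.W11.PhiDef
import Pool.Agent.W11.Sums

/-!
W11, module M8b, first part: lemmas for the single step of the trees.
-/

set_option autoImplicit false

open Finset
open scoped RealInnerProductSpace ENNReal

namespace Pool.Agent.W11

variable {d : ℕ}

/-- two directions at the same gradient -/
lemma s3_norm_dir {e e' w : EE d} (he : ‖e‖ = 1) (he' : ‖e'‖ = 1) :
    ‖w‖ * ‖e - e'‖ ^ 2 ≤ 4 * ((‖w‖ - ⟪e, w⟫) + (‖w‖ - ⟪e', w⟫)) := by
  rcases eq_or_lt_of_le (norm_nonneg w) with h0 | h0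
  · have hw : w = 0 := norm_eq_zero.1 h0.symm
    subst hw
    simp
  · have key : ∀ u : EE d, ‖u‖ = 1 → ‖‖w‖ • u - w‖ ^ 2 = 2 * ‖w‖ * (‖w‖ - ⟪u, w⟫) := by
      intro u hu
      rw [norm_sub_sq_real, norm_smul, hu, inner_smul_left]
      simp only [norm_norm, mul_one, conj_trivial]
      ring
    have h1 : ‖w‖ ^ 2 * ‖e - e'‖ ^ 2 ≤
        2 * ‖‖w‖ • e - w‖ ^ 2 + 2 * ‖‖w‖ • e' - w‖ ^ 2 := by
      have h2 : ‖w‖ • (e - e') = (‖w‖ • e - w) - (‖w‖ • e' - w) := by
        rw [smul_sub]; abel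
      have h3 : ‖w‖ ^ 2 * ‖e - e'‖ ^ 2 = ‖(‖w‖ • e - w) - (‖w‖ • e' - w)‖ ^ 2 := by
        rw [← h2, norm_smul, norm_norm, mul_pow]
      rw [h3]
      have h4 := norm_sub_le (‖w‖ • e - w) (‖w‖ • e' - w)
      have h5 : ‖(‖w‖ • e - w) - (‖w‖ • e' - w)‖ ^ 2 ≤
          (‖‖w‖ • e - w‖ + ‖‖w‖ • e' - w‖) ^ 2 := by
        apply pow_le_pow_left₀ (norm_nonneg _) h4
      nlinarith [sq_nonneg (‖‖w‖ • e - w‖ - ‖‖w‖ • e' - w‖)]
    rw [key e he, key e' he'] at h1
    have h6 : ‖w‖ * (‖w‖ * ‖e - e'‖ ^ 2) ≤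
        ‖w‖ * (4 * ((‖w‖ - ⟪e, w⟫) + (‖w‖ - ⟪e', w⟫))) := by nlinarith
    exact le_of_mul_le_mul_left h6 h0

lemma s3_nG_dir (f : Pt d → ℝ) (i : ℕ) {e e' : EE d} (he : ‖e‖ = 1) (he' : ‖e'‖ = 1) (z : Pt d) :
    nG f i z * ‖e - e'‖ ^ 2 ≤ 4 * (D f i e z + D f i e' z) := s3_norm_dir he he'

lemma s3_mem_swap {c i : ℕ} {v z : Pt d} : v ∈ ball (ind i z) (c : ℤ) ↔ z ∈ W c i v := by
  rw [mem_ball, mem_W]
  refine forall_congr' fun l => ?_
  rw [abs_sub_comm]

/-- exchange of the sums over points and cubes -/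
lemma s3_swap (c i : ℕ) (h : Pt d → Pt d → ℝ≥0∞) :
    ∑' z, ∑ v ∈ ball (ind i z) (c : ℤ), h z v = ∑' v, ∑ z ∈ W c i v, h z v := by
  classical
  have h1 : ∀ z, ∑ v ∈ ball (ind i z) (c : ℤ), h z v =
      ∑' v, if v ∈ ball (ind i z) (c : ℤ) then h z v else 0 := by
    intro z
    rw [tsum_eq_sum (s := ball (ind i z) (c : ℤ))]
    · exact Finset.sum_congr rfl fun v hv => by rw [if_pos hv]
    · intro v hv
      rw [if_neg hv]
  have h2 : ∀ v, ∑ z ∈ W c i v, h z v = ∑' z, if z ∈ W c i v then h z v else 0 := by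
    intro v
    rw [tsum_eq_sum (s := W c i v)]
    · exact Finset.sum_congr rfl fun z hz => by rw [if_pos hz]
    · intro z hz
      rw [if_neg hz]
  simp_rw [h1, h2]
  rw [ENNReal.tsum_comm]
  refine tsum_congr fun v => tsum_congr fun z => ?_
  simp only [s3_mem_swap]

/-- `ofReal` of an average of a nonnegative function -/
lemma s3_ofReal_av {n : ℕ} (hn : 1 ≤ n) {g : Pt d → ℝ} (hg : ∀ z, 0 ≤ g z) (z : Pt d) :
    ((n : ℝ≥0∞) ^ d) * ENNReal.ofReal (av n g z) = ∑ y ∈ bx d n, ENNReal.ofReal (g (z + y)) := by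
  have hpos : (0 : ℝ) < (n : ℝ) ^ d := by
    have : (0 : ℝ) < n := by exact_mod_cast hn
    positivity
  have h1 : ((n : ℝ≥0∞) ^ d) = ENNReal.ofReal ((n : ℝ) ^ d) := by
    rw [ENNReal.ofReal_pow (Nat.cast_nonneg _), ENNReal.ofReal_natCast]
  rw [h1, ← ENNReal.ofReal_mul hpos.le]
  unfold av
  rw [smul_eq_mul, ← mul_assoc, mul_inv_cancel₀ hpos.ne', one_mul]
  rw [ENNReal.ofReal_sum_of_nonneg fun y _ => hg _]

/-- the parents of the near cubes are near -/
lemma s3_par_near {c i : ℕ} (hc : 2 ≤ c) {z y v : Pt d} (hy : y ∈ bx d (4 ^ i))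
    (hv : v ∈ ball (ind i z) (c : ℤ)) : par v ∈ ball (ind (i + 1) (z - y)) (c : ℤ) := by
  rw [mem_ball] at hv ⊢
  rw [mem_bx] at hy
  intro l
  have h1 := hv l
  obtain ⟨h2, h3⟩ := hy l
  rw [ind_succ]
  simp only [par, ind, Pi.sub_apply] at h1 ⊢
  push_cast at h3
  have h4 : (0 : ℤ) < 4 ^ i := by positivity
  have hc' : (2 : ℤ) ≤ c := by exact_mod_cast hc
  obtain ⟨q, hq⟩ : ∃ q : ℤ, q = z l / 4 ^ i := ⟨_, rfl⟩
  obtain ⟨p, hp⟩ : ∃ p : ℤ, p = (z l - y l) / 4 ^ i := ⟨_, rfl⟩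
  rw [← hq] at h1
  rw [← hp]
  have h5 : p ≤ q := by
    rw [hp, hq]
    exact Int.ediv_le_ediv h4 (by linarith)
  have h6 : q - 1 ≤ p := by
    rw [hp, hq, Int.le_ediv_iff_mul_le h4]
    have h7 : z l / 4 ^ i * 4 ^ i ≤ z l := Int.ediv_mul_le _ h4.ne'
    nlinarith
  rw [abs_le] at h1 ⊢
  omega

/-- step (1) of section 5 -/
lemma s3_step_one (f : Pt d → ℝ) {c i : ℕ} (hc : 2 ≤ c) {ref' : Pt d → EE d}
    (href : ∀ v, ‖ref' v‖ = 1) [DecidableEq (EE d)] :
    ∑' z, ∑ e ∈ (ball (ind i z) (c : ℤ)).image (fun v => ref' (par v)),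
        ENNReal.ofReal (D f i e z) ≤
      Phi f c (i + 1) ref' + ((2 * c + 1) ^ d : ℕ) * ∑' z, ENNReal.ofReal (X f i z) := by
  classical
  set n : ℕ := 4 ^ i with hn
  have hn1 : 1 ≤ n := Nat.one_le_iff_ne_zero.2 (by positivity)
  set N : ℝ≥0∞ := (n : ℝ≥0∞) ^ d with hN
  have hN0 : N ≠ 0 := by
    rw [hN]; exact pow_ne_zero _ (by exact_mod_cast (by omega : n ≠ 0))
  have hNt : N ≠ ⊤ := ENNReal.pow_ne_top (ENNReal.natCast_ne_top n)
  set R' : Pt d → Finset (EE d) := fun z => (ball (ind (i + 1) z) (c : ℤ)).image ref' with hR'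
  set Rp : Pt d → Finset (EE d) := fun z =>
    (ball (ind i z) (c : ℤ)).image (fun v => ref' (par v)) with hRp
  have hsub : ∀ z, ∀ y ∈ bx d n, Rp z ⊆ R' (z - y) := by
    intro z y hy e he
    rw [hRp] at he
    obtain ⟨v, hv, rfl⟩ := Finset.mem_image.1 he
    exact Finset.mem_image.2 ⟨par v, s3_par_near hc hy hv, rfl⟩
  have hcardR : ∀ z, ((R' z).card : ℝ≥0∞) ≤ ((2 * c + 1) ^ d : ℕ) := by
    intro z
    exact_mod_cast (Finset.card_image_le).trans_eq (s83_card_ball (ind (i + 1) z) c)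
  -- the chain, multiplied by `N`
  have hchain : N * ∑' z, ∑ e ∈ Rp z, ENNReal.ofReal (D f i e z) ≤
      N * (Phi f c (i + 1) ref' + ((2 * c + 1) ^ d : ℕ) * ∑' z, ENNReal.ofReal (X f i z)) := by
    have hNcard : N = ((bx d n).card : ℝ≥0∞) := by
      rw [s83_card_bx, hN]; push_cast; rfl
    calc N * ∑' z, ∑ e ∈ Rp z, ENNReal.ofReal (D f i e z)
        = ∑' z, ∑ y ∈ bx d n, ∑ e ∈ Rp z, ENNReal.ofReal (D f i e z) := by
          rw [← ENNReal.tsum_mul_left]
          refine tsum_congr fun z => ?_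
          rw [Finset.sum_const, nsmul_eq_mul, hNcard]
      _ ≤ ∑' z, ∑ y ∈ bx d n, ∑ e ∈ R' (z - y), ENNReal.ofReal (D f i e z) := by
          refine ENNReal.tsum_le_tsum fun z => Finset.sum_le_sum fun y hy => ?_
          exact Finset.sum_le_sum_of_subset (hsub z y hy)
      _ = ∑ y ∈ bx d n, ∑' z, ∑ e ∈ R' (z - y), ENNReal.ofReal (D f i e z) := by
          rw [Summable.tsum_finsetSum fun _ _ => ENNReal.summable]
      _ = ∑ y ∈ bx d n, ∑' z, ∑ e ∈ R' z, ENNReal.ofReal (D f i e (z + y)) := by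
          refine Finset.sum_congr rfl fun y _ => ?_
          rw [← (Equiv.addRight y).tsum_eq (fun z => ∑ e ∈ R' (z - y), ENNReal.ofReal (D f i e z))]
          refine tsum_congr fun z => ?_
          simp only [Equiv.coe_addRight, add_sub_cancel_right]
      _ = ∑' z, ∑ y ∈ bx d n, ∑ e ∈ R' z, ENNReal.ofReal (D f i e (z + y)) := by
          rw [Summable.tsum_finsetSum fun _ _ => ENNReal.summable]
      _ = ∑' z, ∑ e ∈ R' z, N * ENNReal.ofReal (av n (D f i e) z) := by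
          refine tsum_congr fun z => ?_
          rw [Finset.sum_comm]
          refine Finset.sum_congr rfl fun e he => ?_
          obtain ⟨v, _, rfl⟩ := Finset.mem_image.1 he
          rw [hN, s3_ofReal_av hn1 (D_nonneg f i (href v).le)]
      _ ≤ ∑' z, ∑ e ∈ R' z, N * (ENNReal.ofReal (D f (i + 1) e z) + ENNReal.ofReal (X f i z)) := by
          refine ENNReal.tsum_le_tsum fun z => Finset.sum_le_sum fun e _ => ?_
          refine mul_le_mul_right ?_ _
          rw [hn, av_D]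
          exact ENNReal.ofReal_add_le
      _ = N * ∑' z, ∑ e ∈ R' z, (ENNReal.ofReal (D f (i + 1) e z) + ENNReal.ofReal (X f i z)) := by
          rw [← ENNReal.tsum_mul_left]
          refine tsum_congr fun z => ?_
          rw [Finset.mul_sum]
      _ ≤ _ := by
          refine mul_le_mul_right ?_ _
          have h1 : ∀ z, ∑ e ∈ R' z, (ENNReal.ofReal (D f (i + 1) e z) + ENNReal.ofReal (X f i z)) ≤
              ∑ e ∈ R' z, ENNReal.ofReal (D f (i + 1) e z) +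
                ((2 * c + 1) ^ d : ℕ) * ENNReal.ofReal (X f i z) := by
            intro z
            rw [Finset.sum_add_distrib, Finset.sum_const, nsmul_eq_mul]
            exact add_le_add_right (mul_le_mul_left (hcardR z) _) _
          refine (ENNReal.tsum_le_tsum h1).trans ?_
          rw [ENNReal.tsum_add, ENNReal.tsum_mul_left]
          refine add_le_add_left (le_of_eq ?_) _
          unfold Phi
          refine tsum_congr fun z => ?_
          rw [hR']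
          refine Finset.sum_congr ?_ fun _ _ => rfl
          ext x
          simp only [Finset.mem_image]
  exact (ENNReal.mul_le_mul_iff_right hN0 hNt).1 hchain

end Pool.Agent.W11
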