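import Mathlib
import Pool.Agent.W11.PhiDef
import Pool.Agent.W11.Sums

/-!
W11, module M8b, second part: the reference directions of all levels from the single step.
-/

set_option autoImplicit false

open Finset
open scoped RealInnerProductSpace ENNReal

namespace Pool.Agent.W11

variable {d : ℕ}

/-- the statement of `trees_step` for fixed constants -/
def TreesStep (d c : ℕ) (B δ : ℝ) : Prop :=
  ∃ C₁ C₂ : ℝ≥0∞, C₁ ≠ ⊤ ∧ C₂ ≠ ⊤ ∧ ∀ (f : Pt d → ℝ) (i : ℕ) (e : Pt d → EE d) (P : Pt d → ℝ)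
      (ref' : Pt d → EE d), (∑' z, ENNReal.ofReal (nG f 0 z) ≠ ⊤) → (∀ v, ‖e v‖ = 1) →
      (∀ v, ‖ref' v‖ = 1) → (∀ v, 0 ≤ P v) → (∀ v, ∑ z ∈ W c i v, D f i (e v) z ≤ B * P v) →
      ∃ (ref : Pt d → EE d) (Rst : Set (Pt d)), (∀ v, ‖ref v‖ = 1) ∧ (∀ v ∈ Rst, ref v = e v) ∧
        (∀ v ∉ Rst, ref v = ref' (par v) ∧ ‖e v - ref v‖ < δ) ∧
        C₁ * Phi f c i ref + ∑' v, Rst.indicator
            (fun v => ENNReal.ofReal (∑ z ∈ W c i v, nG f i z)) v ≤
          C₁ * Phi f c (i + 1) ref' + C₂ * (∑' z, ENNReal.ofReal (X f i z)) +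
            C₂ * ∑' v, ENNReal.ofReal (P v)

lemma Phi_le (f : Pt d → ℝ) (c i : ℕ) {ref : Pt d → EE d} (href : ∀ v, ‖ref v‖ = 1) :
    Phi f c i ref ≤ 2 * (2 * c + 1) ^ d * ∑' z, ENNReal.ofReal (nG f i z) := by
  classical
  unfold Phi
  rw [← ENNReal.tsum_mul_left]
  refine ENNReal.tsum_le_tsum fun z => ?_
  have h1 : ∀ e ∈ (ball (ind i z) (c : ℤ)).image ref,
      ENNReal.ofReal (D f i e z) ≤ 2 * ENNReal.ofReal (nG f i z) := by
    intro e he
    obtain ⟨v, _, rfl⟩ := Finset.mem_image.1 he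
    have h2 := D_le f i (href v).le z
    calc ENNReal.ofReal (D f i (ref v) z) ≤ ENNReal.ofReal (2 * nG f i z) :=
          ENNReal.ofReal_le_ofReal h2
      _ = 2 * ENNReal.ofReal (nG f i z) := by
          rw [ENNReal.ofReal_mul (by norm_num)]
          simp
  have h3 : (((ball (ind i z) (c : ℤ)).image ref).card : ℝ≥0∞) ≤ (2 * c + 1) ^ d := by
    have := (Finset.card_image_le (s := ball (ind i z) (c : ℤ)) (f := ref)).trans_eq
      (s83_card_ball (ind i z) c)
    exact_mod_cast this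
  refine le_trans (b := ∑ e ∈ (ball (ind i z) (c : ℤ)).image ref, 2 * ENNReal.ofReal (nG f i z))
    ?_ ?_
  · convert Finset.sum_le_sum h1
  · rw [Finset.sum_const, nsmul_eq_mul]
    calc (((ball (ind i z) (c : ℤ)).image ref).card : ℝ≥0∞) * (2 * ENNReal.ofReal (nG f i z))
        ≤ (2 * c + 1) ^ d * (2 * ENNReal.ofReal (nG f i z)) := mul_le_mul_left h3 _
      _ = 2 * (2 * c + 1) ^ d * ENNReal.ofReal (nG f i z) := by ring

/-- telescoping in `ℝ≥0∞` -/
lemma s83_telescope {F S G : ℕ → ℝ≥0∞} (K : ℕ) (h : ∀ i < K, F i + S i ≤ F (i + 1) + G i) :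
    F 0 + ∑ i ∈ range K, S i ≤ F K + ∑ i ∈ range K, G i := by
  induction K with
  | zero => simp
  | succ K ih =>
    have h1 := ih fun i hi => h i (hi.trans (Nat.lt_succ_self K))
    have h2 := h K (Nat.lt_succ_self K)
    rw [Finset.sum_range_succ, Finset.sum_range_succ, ← add_assoc]
    calc F 0 + ∑ i ∈ range K, S i + S K ≤ F K + ∑ i ∈ range K, G i + S K := add_le_add_left h1 _
      _ = (F K + S K) + ∑ i ∈ range K, G i := by ring
      _ ≤ (F (K + 1) + G K) + ∑ i ∈ range K, G i := add_le_add_left h2 _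
      _ = F (K + 1) + (∑ i ∈ range K, G i + G K) := by ring

theorem trees_of_step (d c : ℕ) {B δ : ℝ} (hstep : TreesStep d c B δ) :
    ∃ C : ℝ≥0∞, C ≠ ⊤ ∧ ∀ (f : Pt d → ℝ) (K : ℕ) (e : ℕ → Pt d → EE d) (P : ℕ → Pt d → ℝ),
      (∑' z, ENNReal.ofReal (nG f 0 z) ≠ ⊤) → (∀ i v, ‖e i v‖ = 1) → (∀ i v, 0 ≤ P i v) →
      (∀ i v, ∑ z ∈ W c i v, D f i (e i v) z ≤ B * P i v) →
      ∃ (ref : ℕ → Pt d → EE d) (Rst : ℕ → Set (Pt d)),
        (∀ v, v ∈ Rst K) ∧ (∀ i ≤ K, ∀ v ∈ Rst i, ref i v = e i v) ∧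
        (∀ i < K, ∀ v ∉ Rst i, ref i v = ref (i + 1) (par v) ∧ ‖e i v - ref i v‖ < δ) ∧
        ∑ i ∈ range (K + 1), ∑' v, (Rst i).indicator
            (fun v => ENNReal.ofReal (∑ z ∈ W c i v, nG f i z)) v ≤
          C * (∑' z, ENNReal.ofReal (nG f 0 z)) +
            C * ∑ i ∈ range (K + 1), ∑' v, ENNReal.ofReal (P i v) := by
  classical
  obtain ⟨C₁, C₂, hC₁, hC₂, hst⟩ := hstep
  obtain ⟨M, hM⟩ : ∃ M : ℝ≥0∞, M = (2 * c + 1) ^ d := ⟨_, rfl⟩
  have hMt : M ≠ ⊤ := by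
    rw [hM]
    exact ENNReal.pow_ne_top (ENNReal.add_ne_top.2
      ⟨ENNReal.mul_ne_top (by simp) (ENNReal.natCast_ne_top c), by simp⟩)
  refine ⟨M + C₁ * (2 * M) + C₂, ?_, ?_⟩
  · exact ENNReal.add_ne_top.2 ⟨ENNReal.add_ne_top.2 ⟨hMt, ENNReal.mul_ne_top hC₁
      (ENNReal.mul_ne_top (by simp) hMt)⟩, hC₂⟩
  · intro f K e P hfin he hP hctl
    have hch : ∀ (i : ℕ) (r : {r : Pt d → EE d // ∀ v, ‖r v‖ = 1}),
        ∃ (r' : {r : Pt d → EE d // ∀ v, ‖r v‖ = 1}) (Rst : Set (Pt d)),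
          (∀ v ∈ Rst, r'.1 v = e i v) ∧
          (∀ v ∉ Rst, r'.1 v = r.1 (par v) ∧ ‖e i v - r'.1 v‖ < δ) ∧
          C₁ * Phi f c i r'.1 + ∑' v, Rst.indicator
            (fun v => ENNReal.ofReal (∑ z ∈ W c i v, nG f i z)) v ≤
          C₁ * Phi f c (i + 1) r.1 + C₂ * (∑' z, ENNReal.ofReal (X f i z)) +
            C₂ * ∑' v, ENNReal.ofReal (P i v) := by
      intro i r
      obtain ⟨ref, Rst, h1, h2, h3, h4⟩ := hst f i (e i) (P i) r.1 hfin (he i) r.2 (hP i) (hctl i)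
      exact ⟨⟨ref, h1⟩, Rst, h2, h3, h4⟩
    choose R S hS1 hS2 hS3 using hch
    obtain ⟨seq, hseq0, hseq1⟩ : ∃ seq : ℕ → {r : Pt d → EE d // ∀ v, ‖r v‖ = 1},
        seq 0 = ⟨e K, he K⟩ ∧ ∀ n, seq (n + 1) = R (K - (n + 1)) (seq n) :=
      ⟨fun n => Nat.rec ⟨e K, he K⟩ (fun n r => R (K - (n + 1)) r) n, rfl, fun n => rfl⟩
    have hdown : ∀ i < K, seq (K - i) = R i (seq (K - (i + 1))) := by
      intro i hi
      have h1 : K - i = (K - (i + 1)) + 1 := by omega
      have h2 : K - (K - (i + 1) + 1) = i := by omega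
      rw [h1, hseq1, h2]
    refine ⟨fun i => (seq (K - i)).1, fun i => if i < K then S i (seq (K - (i + 1))) else Set.univ,
      ?_, ?_, ?_, ?_⟩
    · intro v
      simp
    · intro i hi v hv
      rcases Nat.lt_or_ge i K with h | h
      · simp only [h, if_true] at hv
        show (seq (K - i)).1 v = e i v
        rw [hdown i h]
        exact hS1 i _ v hv
      · have : i = K := le_antisymm hi h
        subst this
        show (seq (i - i)).1 v = e i v
        rw [Nat.sub_self, hseq0]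
    · intro i hi v hv
      simp only [hi, if_true] at hv
      have := hS2 i (seq (K - (i + 1))) v hv
      show (seq (K - i)).1 v = (seq (K - (i + 1))).1 (par v) ∧ ‖e i v - (seq (K - i)).1 v‖ < δ
      rw [hdown i hi]
      exact this
    · obtain ⟨T, hT⟩ : ∃ T : ℝ≥0∞, T = ∑' z, ENNReal.ofReal (nG f 0 z) := ⟨_, rfl⟩
      have htel := s83_telescope (F := fun i => C₁ * Phi f c i (seq (K - i)).1)
        (S := fun i => ∑' v, (if i < K then S i (seq (K - (i + 1))) else Set.univ).indicator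
            (fun v => ENNReal.ofReal (∑ z ∈ W c i v, nG f i z)) v)
        (G := fun i => C₂ * (∑' z, ENNReal.ofReal (X f i z)) + C₂ * ∑' v, ENNReal.ofReal (P i v))
        K (by
          intro i hi
          have := hS3 i (seq (K - (i + 1)))
          rw [← hdown i hi] at this
          simp only [hi, if_true]
          rw [← add_assoc]
          exact this)
      have hPhi : C₁ * Phi f c K (seq (K - K)).1 ≤ C₁ * (2 * M) * T := by
        rw [mul_assoc]
        refine mul_le_mul_right ((Phi_le f c K (seq (K - K)).2).trans ?_) _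
        rw [hM, hT]
        exact mul_le_mul_right (tsum_nG_le f K) _
      have hlast : ∑' v, (if K < K then S K (seq (K - (K + 1))) else Set.univ).indicator
            (fun v => ENNReal.ofReal (∑ z ∈ W c K v, nG f K z)) v ≤ M * T := by
        rw [if_neg (lt_irrefl K)]
        simp only [Set.indicator_univ]
        rw [tsum_W_real c K (nG f K) (nG_nonneg f K), hM, hT]
        exact mul_le_mul_right (tsum_nG_le f K) _
      have hX : ∑ i ∈ range K, C₂ * (∑' z, ENNReal.ofReal (X f i z)) ≤ C₂ * T := by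
        rw [← Finset.mul_sum, hT]
        exact mul_le_mul_right (sum_tsum_X f K) _
      have hPP : ∑ i ∈ range K, C₂ * ∑' v, ENNReal.ofReal (P i v) ≤
          C₂ * ∑ i ∈ range (K + 1), ∑' v, ENNReal.ofReal (P i v) := by
        rw [← Finset.mul_sum]
        refine mul_le_mul_right ?_ _
        exact Finset.sum_le_sum_of_subset (Finset.range_subset_range.2 (Nat.le_succ K))
      rw [Finset.sum_range_succ, ← hT]
      have h5 : ∑ i ∈ range K, ∑' v, (if i < K then S i (seq (K - (i + 1))) else Set.univ).indicator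
            (fun v => ENNReal.ofReal (∑ z ∈ W c i v, nG f i z)) v ≤
          C₁ * (2 * M) * T + (C₂ * T + C₂ * ∑ i ∈ range (K + 1), ∑' v, ENNReal.ofReal (P i v)) := by
        refine (le_add_self.trans htel).trans ?_
        rw [Finset.sum_add_distrib]
        exact add_le_add hPhi (add_le_add hX hPP)
      refine (add_le_add h5 hlast).trans ?_
      have h6 : C₂ * ∑ i ∈ range (K + 1), ∑' v, ENNReal.ofReal (P i v) ≤
          (M + C₁ * (2 * M) + C₂) * ∑ i ∈ range (K + 1), ∑' v, ENNReal.ofReal (P i v) :=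
        mul_le_mul_left le_add_self _
      calc C₁ * (2 * M) * T + (C₂ * T + C₂ * ∑ i ∈ range (K + 1), ∑' v, ENNReal.ofReal (P i v)) + M * T
          = (M + C₁ * (2 * M) + C₂) * T + C₂ * ∑ i ∈ range (K + 1), ∑' v, ENNReal.ofReal (P i v) := by
            ring
        _ ≤ _ := add_le_add_right h6 _

end Pool.Agent.W11
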