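import Mathlib
import Pool.Agent.W11.Trees1
import Pool.Agent.W11.Trees2
import Pool.Agent.W11.Threshold

/-!
W11, module M8b: the single step of the trees.
-/

set_option autoImplicit false

open Finset
open scoped RealInnerProductSpace ENNReal

namespace Pool.Agent.W11

variable {d : ℕ}

section Step

variable (f : Pt d → ℝ) (c i : ℕ) (e g : Pt d → EE d)

/-- the cubes near `z` with reference direction `e'` -/
noncomputable def s3_fib (z : Pt d) (e' : EE d) : Finset (Pt d) :=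
  open Classical in (ball (ind i z) (c : ℤ)).filter (fun v => g v = e')

/-- the pairs (point, reference direction of a near cube) -/
abbrev s3_Idx : Type :=
  open Classical in
  Σ z : Pt d, {e' : EE d // e' ∈ (ball (ind i z) (c : ℤ)).image g}

lemma s3_fib_nonempty (n : s3_Idx c i g) : (s3_fib c i g n.1 n.2.1).Nonempty := by
  classical
  obtain ⟨z, e', he'⟩ := n
  obtain ⟨v, hv, hve⟩ := Finset.mem_image.1 he'
  exact ⟨v, Finset.mem_filter.2 ⟨hv, hve⟩⟩

noncomputable def s3_lo (n : s3_Idx c i g) : ℝ :=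
  (s3_fib c i g n.1 n.2.1).inf' (s3_fib_nonempty c i g n) (fun v => ‖e v - g v‖)

noncomputable def s3_hi (n : s3_Idx c i g) : ℝ :=
  (s3_fib c i g n.1 n.2.1).sup' (s3_fib_nonempty c i g n) (fun v => ‖e v - g v‖)

lemma s3_lo_le_hi (n : s3_Idx c i g) : s3_lo c i e g n ≤ s3_hi c i e g n := by
  obtain ⟨v, hv⟩ := s3_fib_nonempty c i g n
  exact (Finset.inf'_le _ hv).trans (Finset.le_sup' (fun v => ‖e v - g v‖) hv)

omit f c i e g in
lemma s3_sum_attach_of_eq {α : Type*} {s t : Finset α} (hst : s = t) (F : α → ℝ≥0∞) :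
    ∑ b ∈ s.attach, F b.1 = ∑ x ∈ t, F x := by
  subst hst
  exact Finset.sum_attach s F

/-- sums over the index type -/
lemma s3_tsum_idx (h : Pt d → EE d → ℝ≥0∞) [DecidableEq (EE d)] :
    ∑' n : s3_Idx c i g, h n.1 n.2.1 =
      ∑' z, ∑ e' ∈ (ball (ind i z) (c : ℤ)).image g, h z e' := by
  classical
  rw [ENNReal.tsum_sigma' (f := fun n : s3_Idx c i g => h n.1 n.2.1)]
  refine tsum_congr fun z => ?_
  rw [tsum_fintype]
  rw [Finset.univ_eq_attach]
  refine s3_sum_attach_of_eq ?_ (h z)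
  ext x
  simp only [Finset.mem_image]

/-- the width of the interval of a pair -/
lemma s3_width (he : ∀ v, ‖e v‖ = 1) (n : s3_Idx c i g) (hD : ‖n.2.1‖ ≤ 1) :
    D f i n.2.1 n.1 * (s3_hi c i e g n - s3_lo c i e g n) ^ 2 ≤
      16 * ∑ v ∈ ball (ind i n.1) (c : ℤ), D f i (e v) n.1 := by
  classical
  obtain ⟨v, hv, hv1⟩ := Finset.exists_mem_eq_sup' (s3_fib_nonempty c i g n)
    (fun v => ‖e v - g v‖)
  obtain ⟨u, hu, hu1⟩ := Finset.exists_mem_eq_inf' (s3_fib_nonempty c i g n)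
    (fun v => ‖e v - g v‖)
  have hhi : s3_hi c i e g n = ‖e v - g v‖ := hv1
  have hlo : s3_lo c i e g n = ‖e u - g u‖ := hu1
  have hv2 := Finset.mem_filter.1 hv
  have hu2 := Finset.mem_filter.1 hu
  have hw : s3_hi c i e g n - s3_lo c i e g n ≤ ‖e v - e u‖ := by
    rw [hhi, hlo, hv2.2, hu2.2]
    have h1 : e v - n.2.1 = (e v - e u) + (e u - n.2.1) := by abel
    have h2 := norm_add_le (e v - e u) (e u - n.2.1)
    rw [← h1] at h2
    linarith
  have hw0 : 0 ≤ s3_hi c i e g n - s3_lo c i e g n := sub_nonneg.2 (s3_lo_le_hi c i e g n)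
  have h3 : (s3_hi c i e g n - s3_lo c i e g n) ^ 2 ≤ ‖e v - e u‖ ^ 2 :=
    pow_le_pow_left₀ hw0 hw 2
  have h4 := s3_nG_dir f i (he v) (he u) n.1
  have h5 : D f i n.2.1 n.1 ≤ 2 * nG f i n.1 := D_le f i hD n.1
  have h6 : D f i n.2.1 n.1 * (s3_hi c i e g n - s3_lo c i e g n) ^ 2 ≤
      2 * nG f i n.1 * ‖e v - e u‖ ^ 2 :=
    mul_le_mul h5 h3 (sq_nonneg _) (by have := nG_nonneg f i n.1; positivity)
  have h7 : ∀ x ∈ ball (ind i n.1) (c : ℤ), D f i (e x) n.1 ≤
      ∑ v ∈ ball (ind i n.1) (c : ℤ), D f i (e v) n.1 := fun x hx =>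
    Finset.single_le_sum (f := fun v => D f i (e v) n.1)
      (fun y _ => D_nonneg f i (he y).le n.1) hx
  have h8 := h7 v hv2.1
  have h9 := h7 u hu2.1
  nlinarith

end Step

/-- the sum over the near cubes is at most `card` times the sum over the image -/
lemma s3_sum_image {α β : Type*} [DecidableEq β] (s : Finset α) (g : α → β) (h : β → ℝ≥0∞) :
    ∑ v ∈ s, h (g v) ≤ (s.card : ℝ≥0∞) * ∑ b ∈ s.image g, h b := by
  rw [Finset.sum_comp h g, Finset.mul_sum]
  refine Finset.sum_le_sum fun b _ => ?_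
  rw [nsmul_eq_mul]
  exact mul_le_mul_left (by exact_mod_cast Finset.card_filter_le _ _) _

lemma s3_sum_union_le {β : Type*} [DecidableEq β] (s t : Finset β) (h : β → ℝ≥0∞) :
    ∑ x ∈ s ∪ t, h x ≤ ∑ x ∈ s, h x + ∑ x ∈ t, h x := by
  rw [← Finset.sum_union_inter]
  exact le_self_add

lemma s3_sum_image_le {α β : Type*} [DecidableEq β] (s : Finset α) (g : α → β) (h : β → ℝ≥0∞) :
    ∑ b ∈ s.image g, h b ≤ ∑ v ∈ s, h (g v) := by
  rw [Finset.sum_comp h g]
  refine Finset.sum_le_sum fun b hb => ?_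
  obtain ⟨v, hv, hvb⟩ := Finset.mem_image.1 hb
  have h1 : 1 ≤ (s.filter (fun a => g a = b)).card :=
    Finset.card_pos.2 ⟨v, Finset.mem_filter.2 ⟨hv, hvb⟩⟩
  rw [nsmul_eq_mul]
  calc h b = 1 * h b := (one_mul _).symm
    _ ≤ _ := mul_le_mul_left (by exact_mod_cast h1) _

theorem trees_step (d c : ℕ) (hc : 2 ≤ c) {B δ : ℝ} (hB : 0 < B) (hδ : 0 < δ) :
    ∃ C₁ C₂ : ℝ≥0∞, C₁ ≠ ⊤ ∧ C₂ ≠ ⊤ ∧ ∀ (f : Pt d → ℝ) (i : ℕ) (e : Pt d → EE d) (P : Pt d → ℝ)
      (ref' : Pt d → EE d), (∑' z, ENNReal.ofReal (nG f 0 z) ≠ ⊤) → (∀ v, ‖e v‖ = 1) →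
      (∀ v, ‖ref' v‖ = 1) → (∀ v, 0 ≤ P v) → (∀ v, ∑ z ∈ W c i v, D f i (e v) z ≤ B * P v) →
      ∃ (ref : Pt d → EE d) (Rst : Set (Pt d)), (∀ v, ‖ref v‖ = 1) ∧ (∀ v ∈ Rst, ref v = e v) ∧
        (∀ v ∉ Rst, ref v = ref' (par v) ∧ ‖e v - ref v‖ < δ) ∧
        C₁ * Phi f c i ref + ∑' v, Rst.indicator
            (fun v => ENNReal.ofReal (∑ z ∈ W c i v, nG f i z)) v ≤
          C₁ * Phi f c (i + 1) ref' + C₂ * (∑' z, ENNReal.ofReal (X f i z)) +
            C₂ * ∑' v, ENNReal.ofReal (P v) := by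
  classical
  obtain ⟨M, hM⟩ : ∃ M : ℝ≥0∞, M = ((2 * c + 1) ^ d : ℕ) := ⟨_, rfl⟩
  obtain ⟨Kd, hKd⟩ : ∃ K : ℝ≥0∞, K = ENNReal.ofReal (16 / δ ^ 2) := ⟨_, rfl⟩
  obtain ⟨b, hb⟩ : ∃ b : ℝ≥0∞, b = ENNReal.ofReal B := ⟨_, rfl⟩
  obtain ⟨κ, hκ⟩ : ∃ κ : ℝ≥0∞, κ = ENNReal.ofReal (8 / δ ^ 2) * (M * (16 * b)) := ⟨_, rfl⟩
  have hMt : M ≠ ⊤ := by rw [hM]; exact ENNReal.natCast_ne_top _
  have hKt : Kd ≠ ⊤ := by rw [hKd]; exact ENNReal.ofReal_ne_top
  have hbt : b ≠ ⊤ := by rw [hb]; exact ENNReal.ofReal_ne_top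
  have hκt : κ ≠ ⊤ := by
    rw [hκ]
    exact ENNReal.mul_ne_top ENNReal.ofReal_ne_top
      (ENNReal.mul_ne_top hMt (ENNReal.mul_ne_top (by simp) hbt))
  obtain ⟨C₁, hC₁⟩ : ∃ C₁ : ℝ≥0∞, C₁ = 2 * (Kd * M) := ⟨_, rfl⟩
  have hC₁t : C₁ ≠ ⊤ := by
    rw [hC₁]; exact ENNReal.mul_ne_top (by simp) (ENNReal.mul_ne_top hKt hMt)
  refine ⟨C₁, C₁ * M + (C₁ * b + Kd * b + Kd * M * κ), hC₁t, ?_, ?_⟩
  · exact ENNReal.add_ne_top.2 ⟨ENNReal.mul_ne_top hC₁t hMt, ENNReal.add_ne_top.2
      ⟨ENNReal.add_ne_top.2 ⟨ENNReal.mul_ne_top hC₁t hbt, ENNReal.mul_ne_top hKt hbt⟩,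
        ENNReal.mul_ne_top (ENNReal.mul_ne_top hKt hMt) hκt⟩⟩
  intro f i e P ref' hfin he href' hP hctl
  set g : Pt d → EE d := fun v => ref' (par v) with hg
  have hg1 : ∀ v, ‖g v‖ = 1 := fun v => href' _
  obtain ⟨SP, hSP⟩ : ∃ SP : ℝ≥0∞, SP = ∑' v, ENNReal.ofReal (P v) := ⟨_, rfl⟩
  obtain ⟨SX, hSX⟩ : ∃ SX : ℝ≥0∞, SX = ∑' z, ENNReal.ofReal (X f i z) := ⟨_, rfl⟩
  set nr : Pt d → Finset (Pt d) := fun z => ball (ind i z) (c : ℤ) with hnr
  have hcard : ∀ z, ((nr z).card : ℝ≥0∞) = M := by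
    intro z
    rw [hM, hnr]
    exact_mod_cast s83_card_ball (ind i z) c
  -- the cost of the own directions
  have hown : ∑' z, ∑ v ∈ nr z, ENNReal.ofReal (D f i (e v) z) ≤ b * SP := by
    rw [hnr, s3_swap c i (fun z v => ENNReal.ofReal (D f i (e v) z)), hSP,
      ← ENNReal.tsum_mul_left]
    refine ENNReal.tsum_le_tsum fun v => ?_
    rw [← ENNReal.ofReal_sum_of_nonneg fun z _ => D_nonneg f i (he v).le z, hb,
      ← ENNReal.ofReal_mul hB.le]
    exact ENNReal.ofReal_le_ofReal (hctl v)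
  -- the threshold
  set Idx := s3_Idx c i g with hIdx
  set a : Idx → ℝ := fun n => D f i n.2.1 n.1 with ha
  have hnorm : ∀ n : Idx, ‖n.2.1‖ = 1 := by
    intro n
    obtain ⟨v, _, hv⟩ := Finset.mem_image.1 n.2.2
    rw [← hv]; exact hg1 v
  have ha0 : ∀ n, 0 ≤ a n := fun n => D_nonneg f i (hnorm n).le n.1
  have hcount : Countable Idx := by
    rw [hIdx]
    infer_instance
  have hafin : ∑' n, ENNReal.ofReal (a n) ≠ ⊤ := by
    have h1 : ∑' n : Idx, ENNReal.ofReal (a n) =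
        ∑' z, ∑ e' ∈ (nr z).image g, ENNReal.ofReal (D f i e' z) :=
      s3_tsum_idx c i g (fun z e' => ENNReal.ofReal (D f i e' z))
    rw [h1]
    have h2 : ∀ z, ∑ e' ∈ (nr z).image g, ENNReal.ofReal (D f i e' z) ≤
        M * 2 * ENNReal.ofReal (nG f i z) := by
      intro z
      have h3 : ∀ e' ∈ (nr z).image g, ENNReal.ofReal (D f i e' z) ≤
          2 * ENNReal.ofReal (nG f i z) := by
        intro e' he'
        obtain ⟨v, _, rfl⟩ := Finset.mem_image.1 he'
        calc ENNReal.ofReal (D f i (g v) z) ≤ ENNReal.ofReal (2 * nG f i z) :=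
              ENNReal.ofReal_le_ofReal (D_le f i (hg1 v).le z)
          _ = 2 * ENNReal.ofReal (nG f i z) := by
              rw [ENNReal.ofReal_mul (by norm_num)]; simp
      refine (Finset.sum_le_sum h3).trans ?_
      rw [Finset.sum_const, nsmul_eq_mul, mul_assoc]
      refine mul_le_mul_left ?_ _
      rw [← hcard z]
      exact_mod_cast Finset.card_image_le
    refine ne_top_of_le_ne_top ?_ (ENNReal.tsum_le_tsum h2)
    rw [ENNReal.tsum_mul_left]
    refine ENNReal.mul_ne_top (ENNReal.mul_ne_top hMt (by simp)) ?_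
    exact ne_top_of_le_ne_top hfin (tsum_nG_le f i)
  obtain ⟨θ, hθ1, hθ2, hθ⟩ := exists_threshold a (s3_lo c i e g) (s3_hi c i e g) ha0
    (s3_lo_le_hi c i e g) hafin hδ
  set Rst : Set (Pt d) := {v | θ ≤ ‖e v - g v‖} with hRst
  set ref : Pt d → EE d := fun v => if v ∈ Rst then e v else g v with href
  set Rc : Pt d → Finset (EE d) := fun z => ((nr z).filter (fun v => v ∉ Rst)).image g with hRc
  set Rs : Pt d → Finset (EE d) := fun z => ((nr z).filter (fun v => v ∈ Rst)).image g with hRs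
  set Rp : Pt d → Finset (EE d) := fun z => (nr z).image g with hRp
  have hRcp : ∀ z, Rc z ⊆ Rp z := fun z => Finset.image_subset_image (Finset.filter_subset _ _)
  have hRsp : ∀ z, Rs z ⊆ Rp z := fun z => Finset.image_subset_image (Finset.filter_subset _ _)
  obtain ⟨gain, hgain⟩ : ∃ x : ℝ≥0∞, x =
    ∑' z, ∑ e' ∈ Rp z \ Rc z, ENNReal.ofReal (D f i e' z) := ⟨_, rfl⟩
  obtain ⟨conf, hconf⟩ : ∃ x : ℝ≥0∞, x =
    ∑' z, ∑ e' ∈ Rs z ∩ Rc z, ENNReal.ofReal (D f i e' z) := ⟨_, rfl⟩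
  -- (4) the threshold inequality
  have h4 : conf ≤ gain + κ * SP := by
    have hc1 : conf ≤ ∑' n : Idx, (if s3_lo c i e g n < θ ∧ θ ≤ s3_hi c i e g n then
        ENNReal.ofReal (a n) else 0) := by
      have h5 : conf = ∑' n : Idx, (if n.2.1 ∈ Rs n.1 ∩ Rc n.1 then
          ENNReal.ofReal (D f i n.2.1 n.1) else 0) := by
        rw [hconf, s3_tsum_idx c i g (fun z e' => if e' ∈ Rs z ∩ Rc z then
          ENNReal.ofReal (D f i e' z) else 0)]
        refine tsum_congr fun z => ?_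
        rw [← Finset.sum_filter]
        refine Finset.sum_congr ?_ fun _ _ => rfl
        ext e'
        rw [Finset.mem_filter]
        constructor
        · intro h; exact ⟨hRsp z (Finset.mem_inter.1 h).1, h⟩
        · intro h; exact h.2
      rw [h5]
      refine ENNReal.tsum_le_tsum fun n => ?_
      by_cases h6 : n.2.1 ∈ Rs n.1 ∩ Rc n.1
      · rw [if_pos h6, if_pos]
        obtain ⟨h7, h8⟩ := Finset.mem_inter.1 h6
        obtain ⟨v, hv, hv1⟩ := Finset.mem_image.1 h7
        obtain ⟨u, hu, hu1⟩ := Finset.mem_image.1 h8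
        rw [Finset.mem_filter] at hv hu
        constructor
        · refine lt_of_le_of_lt (Finset.inf'_le _ (b := u) ?_) (not_le.1 hu.2)
          exact Finset.mem_filter.2 ⟨hu.1, hu1⟩
        · refine le_trans hv.2 (Finset.le_sup' (fun v => ‖e v - g v‖) (b := v) ?_)
          exact Finset.mem_filter.2 ⟨hv.1, hv1⟩
      · rw [if_neg h6]
        exact zero_le
    have hc2 : ∑' n : Idx, (if θ ≤ s3_lo c i e g n then ENNReal.ofReal (a n) else 0) ≤ gain := by
      have h5 : gain = ∑' n : Idx, (if n.2.1 ∈ Rp n.1 \ Rc n.1 then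
          ENNReal.ofReal (D f i n.2.1 n.1) else 0) := by
        rw [hgain, s3_tsum_idx c i g (fun z e' => if e' ∈ Rp z \ Rc z then
          ENNReal.ofReal (D f i e' z) else 0)]
        refine tsum_congr fun z => ?_
        rw [← Finset.sum_filter]
        refine Finset.sum_congr ?_ fun _ _ => rfl
        ext e'
        rw [Finset.mem_filter]
        constructor
        · intro h; exact ⟨(Finset.mem_sdiff.1 h).1, h⟩
        · intro h; exact h.2
      rw [h5]
      refine ENNReal.tsum_le_tsum fun n => ?_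
      by_cases h6 : θ ≤ s3_lo c i e g n
      · rw [if_pos h6, if_pos]
        refine Finset.mem_sdiff.2 ⟨?_, fun h8 => ?_⟩
        · have := n.2.2
          convert this
        · obtain ⟨u, hu, hu1⟩ := Finset.mem_image.1 h8
          rw [Finset.mem_filter] at hu
          refine hu.2 (le_trans h6 (Finset.inf'_le _ (b := u) ?_))
          exact Finset.mem_filter.2 ⟨hu.1, hu1⟩
      · rw [if_neg h6]
        exact zero_le
    have hc3 : ∑' n : Idx, ENNReal.ofReal (a n * (s3_hi c i e g n - s3_lo c i e g n) ^ 2) ≤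
        M * (16 * b) * SP := by
      have h5 : ∀ n : Idx, ENNReal.ofReal (a n * (s3_hi c i e g n - s3_lo c i e g n) ^ 2) ≤
          16 * ∑ v ∈ nr n.1, ENNReal.ofReal (D f i (e v) n.1) := by
        intro n
        have h6 := s3_width f c i e g he n (hnorm n).le
        refine (ENNReal.ofReal_le_ofReal h6).trans (le_of_eq ?_)
        rw [ENNReal.ofReal_mul (by norm_num),
          ENNReal.ofReal_sum_of_nonneg fun v _ => D_nonneg f i (he v).le n.1]
        simp [hnr]
      refine (ENNReal.tsum_le_tsum h5).trans ?_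
      rw [s3_tsum_idx c i g (fun z _ => 16 * ∑ v ∈ nr z, ENNReal.ofReal (D f i (e v) z))]
      have h6 : ∀ z, ∑ e' ∈ (ball (ind i z) (c : ℤ)).image g,
          16 * ∑ v ∈ nr z, ENNReal.ofReal (D f i (e v) z) ≤
            M * 16 * ∑ v ∈ nr z, ENNReal.ofReal (D f i (e v) z) := by
        intro z
        rw [Finset.sum_const, nsmul_eq_mul, mul_assoc]
        refine mul_le_mul_left ?_ _
        rw [← hcard z]
        exact_mod_cast Finset.card_image_le
      refine (ENNReal.tsum_le_tsum h6).trans ?_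
      rw [ENNReal.tsum_mul_left]
      calc M * 16 * ∑' z, ∑ v ∈ nr z, ENNReal.ofReal (D f i (e v) z) ≤ M * 16 * (b * SP) :=
            mul_le_mul_right hown _
        _ = M * (16 * b) * SP := by ring
    calc conf ≤ _ := hc1
      _ ≤ _ := hθ
      _ ≤ gain + ENNReal.ofReal (8 / δ ^ 2) * (M * (16 * b) * SP) :=
          add_le_add hc2 (mul_le_mul_right hc3 _)
      _ = gain + κ * SP := by rw [hκ]; ring
  -- (2) the potential
  have h2 : Phi f c i ref + gain ≤ Phi f c (i + 1) ref' + M * SX + b * SP := by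
    have h5 : Phi f c i ref ≤
        ∑' z, ∑ e' ∈ Rc z, ENNReal.ofReal (D f i e' z) + b * SP := by
      refine le_trans ?_ (add_le_add_right hown _)
      rw [← ENNReal.tsum_add]
      unfold Phi
      refine ENNReal.tsum_le_tsum fun z => ?_
      have h6 : (ball (ind i z) (c : ℤ)).image ref ⊆ Rc z ∪ (nr z).image e := by
        intro x hx
        obtain ⟨v, hv, rfl⟩ := Finset.mem_image.1 hx
        by_cases h7 : v ∈ Rst
        · have h8 : ref v = e v := by simp only [href, if_pos h7]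
          rw [h8]
          exact Finset.mem_union_right _ (Finset.mem_image_of_mem _ hv)
        · have h8 : ref v = g v := by simp only [href, if_neg h7]
          rw [h8]
          exact Finset.mem_union_left _ (Finset.mem_image_of_mem _
            (Finset.mem_filter.2 ⟨hv, h7⟩))
      have h9 : ∑ x ∈ (ball (ind i z) (c : ℤ)).image ref, ENNReal.ofReal (D f i x z) ≤
          ∑ x ∈ Rc z, ENNReal.ofReal (D f i x z) +
            ∑ v ∈ nr z, ENNReal.ofReal (D f i (e v) z) := by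
        refine (Finset.sum_le_sum_of_subset h6).trans ?_
        refine (s3_sum_union_le _ _ _).trans ?_
        exact add_le_add_right (s3_sum_image_le _ _ (fun x => ENNReal.ofReal (D f i x z))) _
      convert h9
    have h7 : ∑' z, ∑ e' ∈ Rc z, ENNReal.ofReal (D f i e' z) + gain =
        ∑' z, ∑ e' ∈ Rp z, ENNReal.ofReal (D f i e' z) := by
      rw [hgain, ← ENNReal.tsum_add]
      refine tsum_congr fun z => ?_
      rw [add_comm]
      exact Finset.sum_sdiff (hRcp z)
    have h8 := s3_step_one f (c := c) (i := i) hc href'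
    rw [← hM, ← hSX] at h8
    calc Phi f c i ref + gain
        ≤ (∑' z, ∑ e' ∈ Rc z, ENNReal.ofReal (D f i e' z) + b * SP) + gain :=
          add_le_add_left h5 _
      _ = (∑' z, ∑ e' ∈ Rc z, ENNReal.ofReal (D f i e' z) + gain) + b * SP := by ring
      _ = ∑' z, ∑ e' ∈ Rp z, ENNReal.ofReal (D f i e' z) + b * SP := by rw [h7]
      _ ≤ _ := add_le_add_left h8 _
  -- (3) the restarting cubes
  have h3 : ∑' v, Rst.indicator (fun v => ENNReal.ofReal (∑ z ∈ W c i v, nG f i z)) v ≤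
      Kd * b * SP + Kd * M * (gain + conf) := by
    have h5 : ∀ v, Rst.indicator (fun v => ENNReal.ofReal (∑ z ∈ W c i v, nG f i z)) v ≤
        Kd * (b * ENNReal.ofReal (P v)) + Kd * ∑ z ∈ W c i v,
          (if v ∈ Rst then ENNReal.ofReal (D f i (g v) z) else 0) := by
      intro v
      by_cases hv : v ∈ Rst
      · rw [Set.indicator_of_mem hv]
        simp only [if_pos hv]
        rw [← ENNReal.ofReal_sum_of_nonneg fun z _ => D_nonneg f i (hg1 v).le z, hKd, hb,
          ← ENNReal.ofReal_mul hB.le, ← ENNReal.ofReal_mul (by positivity),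
          ← ENNReal.ofReal_mul (by positivity), ← ENNReal.ofReal_add
            (mul_nonneg (by positivity) (mul_nonneg hB.le (hP v)))
            (mul_nonneg (by positivity) (Finset.sum_nonneg fun z _ => D_nonneg f i (hg1 v).le z))]
        refine ENNReal.ofReal_le_ofReal ?_
        have h6 : ∀ z, nG f i z ≤ 16 / δ ^ 2 * (D f i (e v) z + D f i (g v) z) := by
          intro z
          have h7 := s3_nG_dir f i (he v) (hg1 v) z
          have h8 : δ / 2 ≤ ‖e v - g v‖ := hθ1.trans hv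
          have h9 : (δ / 2) ^ 2 ≤ ‖e v - g v‖ ^ 2 := pow_le_pow_left₀ (by positivity) h8 2
          have h10 : nG f i z * (δ / 2) ^ 2 ≤ 4 * (D f i (e v) z + D f i (g v) z) :=
            (mul_le_mul_of_nonneg_left h9 (nG_nonneg f i z)).trans h7
          have hδ2 : 0 < δ ^ 2 := by positivity
          rw [div_mul_eq_mul_div, le_div_iff₀ hδ2]
          nlinarith
        calc ∑ z ∈ W c i v, nG f i z
            ≤ ∑ z ∈ W c i v, 16 / δ ^ 2 * (D f i (e v) z + D f i (g v) z) :=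
              Finset.sum_le_sum fun z _ => h6 z
          _ = 16 / δ ^ 2 * (∑ z ∈ W c i v, D f i (e v) z) +
                16 / δ ^ 2 * ∑ z ∈ W c i v, D f i (g v) z := by
              rw [← Finset.mul_sum, Finset.sum_add_distrib, mul_add]
          _ ≤ _ := by
              refine add_le_add_left ?_ _
              exact mul_le_mul_of_nonneg_left (hctl v) (by positivity)
      · rw [Set.indicator_of_notMem hv]
        exact zero_le
    refine (ENNReal.tsum_le_tsum h5).trans ?_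
    rw [ENNReal.tsum_add, ENNReal.tsum_mul_left, ENNReal.tsum_mul_left, ENNReal.tsum_mul_left,
      ← hSP]
    have h6 : ∑' v, ∑ z ∈ W c i v, (if v ∈ Rst then ENNReal.ofReal (D f i (g v) z) else 0) ≤
        M * (gain + conf) := by
      rw [← s3_swap c i (fun z v => if v ∈ Rst then ENNReal.ofReal (D f i (g v) z) else 0)]
      have h7 : ∀ z, ∑ v ∈ ball (ind i z) (c : ℤ),
          (if v ∈ Rst then ENNReal.ofReal (D f i (g v) z) else 0) ≤
            M * (∑ e' ∈ Rp z \ Rc z, ENNReal.ofReal (D f i e' z) +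
              ∑ e' ∈ Rs z ∩ Rc z, ENNReal.ofReal (D f i e' z)) := by
        intro z
        rw [← Finset.sum_filter]
        refine (s3_sum_image _ g (fun e' => ENNReal.ofReal (D f i e' z))).trans ?_
        refine mul_le_mul ?_ ?_ zero_le zero_le
        · rw [← hcard z]
          exact_mod_cast Finset.card_filter_le _ _
        · have h8 : Rs z ⊆ (Rp z \ Rc z) ∪ (Rs z ∩ Rc z) := by
            intro x hx
            by_cases h9 : x ∈ Rc z
            · exact Finset.mem_union_right _ (Finset.mem_inter.2 ⟨hx, h9⟩)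
            · exact Finset.mem_union_left _ (Finset.mem_sdiff.2 ⟨hRsp z hx, h9⟩)
          refine le_trans ?_ (s3_sum_union_le _ _ _)
          exact Finset.sum_le_sum_of_subset h8
      refine (ENNReal.tsum_le_tsum h7).trans (le_of_eq ?_)
      rw [ENNReal.tsum_mul_left, ENNReal.tsum_add, ← hgain, ← hconf]
    calc Kd * (b * SP) + Kd * ∑' v, ∑ z ∈ W c i v,
          (if v ∈ Rst then ENNReal.ofReal (D f i (g v) z) else 0)
        ≤ Kd * (b * SP) + Kd * (M * (gain + conf)) :=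
          add_le_add_right (mul_le_mul_right h6 _) _
      _ = _ := by ring
  refine ⟨ref, Rst, ?_, ?_, ?_, ?_⟩
  · intro v
    by_cases hv : v ∈ Rst
    · simp only [href, if_pos hv]; exact he v
    · simp only [href, if_neg hv]; exact hg1 v
  · intro v hv
    simp only [href, if_pos hv]
  · intro v hv
    have h5 : ref v = g v := by simp only [href, if_neg hv]
    rw [h5]
    exact ⟨rfl, (not_le.1 hv).trans_le hθ2⟩
  · rw [← hSX, ← hSP]
    calc C₁ * Phi f c i ref +
          ∑' v, Rst.indicator (fun v => ENNReal.ofReal (∑ z ∈ W c i v, nG f i z)) v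
        ≤ C₁ * Phi f c i ref + (Kd * b * SP + Kd * M * (gain + conf)) :=
          add_le_add_right h3 _
      _ ≤ C₁ * Phi f c i ref + (Kd * b * SP + Kd * M * (gain + (gain + κ * SP))) := by
          refine add_le_add_right (add_le_add_right (mul_le_mul_right ?_ _) _) _
          exact add_le_add_right h4 _
      _ = C₁ * (Phi f c i ref + gain) + (Kd * b + Kd * M * κ) * SP := by
          rw [hC₁]; ring
      _ ≤ C₁ * (Phi f c (i + 1) ref' + M * SX + b * SP) + (Kd * b + Kd * M * κ) * SP :=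
          add_le_add_left (mul_le_mul_right h2 _) _
      _ = C₁ * Phi f c (i + 1) ref' + C₁ * M * SX + (C₁ * b + Kd * b + Kd * M * κ) * SP := by
          ring
      _ ≤ _ := by
          refine add_le_add (add_le_add_right (mul_le_mul_left ?_ _) _) (mul_le_mul_left ?_ _)
          · exact le_self_add
          · exact le_add_self

theorem trees (d c : ℕ) (hc : 2 ≤ c) {B δ : ℝ} (hB : 0 < B) (hδ : 0 < δ) :
    ∃ C : ℝ≥0∞, C ≠ ⊤ ∧ ∀ (f : Pt d → ℝ) (K : ℕ) (e : ℕ → Pt d → EE d) (P : ℕ → Pt d → ℝ),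
      (∑' z, ENNReal.ofReal (nG f 0 z) ≠ ⊤) → (∀ i v, ‖e i v‖ = 1) → (∀ i v, 0 ≤ P i v) →
      (∀ i v, ∑ z ∈ W c i v, D f i (e i v) z ≤ B * P i v) →
      ∃ (ref : ℕ → Pt d → EE d) (Rst : ℕ → Set (Pt d)),
        (∀ v, v ∈ Rst K) ∧ (∀ i ≤ K, ∀ v ∈ Rst i, ref i v = e i v) ∧
        (∀ i < K, ∀ v ∉ Rst i, ref i v = ref (i + 1) (par v) ∧ ‖e i v - ref i v‖ < δ) ∧
        ∑ i ∈ range (K + 1), ∑' v, (Rst i).indicator
            (fun v => ENNReal.ofReal (∑ z ∈ W c i v, nG f i z)) v ≤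
          C * (∑' z, ENNReal.ofReal (nG f 0 z)) +
            C * ∑ i ∈ range (K + 1), ∑' v, ENNReal.ofReal (P i v) :=
  trees_of_step d c (trees_step d c hc hB hδ)

end Pool.Agent.W11
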