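import Pool.Agent.W11.Defs
import Pool.Agent.Lib.H58FracMaxGeo

/-!
W11: the truncated maximal function (definition).
-/

set_option autoImplicit false

open Finset
open Pool.Agent.Lib.H58FracMax

namespace Pool.Agent.W11

variable {d : ℕ}

/-- `M` is the maximal function over the bodies of radius less than `R₀`, with attained suprema -/
def IsTrunc (K : Set (Fin d → ℝ)) (R₀ : ℝ) (f M : Pt d → ℝ) : Prop :=
  (∀ (n : Pt d) (x : Fin d → ℝ) (r : ℝ) (S : Finset (Pt d)), 0 ≤ r → r < R₀ →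
    (S : Set (Pt d)) = LS K x r → n ∈ S → avg f S ≤ M n) ∧
  ∀ n : Pt d, ∃ (x : Fin d → ℝ) (r : ℝ) (S : Finset (Pt d)), 0 ≤ r ∧ r < R₀ ∧
    (S : Set (Pt d)) = LS K x r ∧ n ∈ S ∧ M n = avg f S

end Pool.Agent.W11
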