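import Pool.Agent.W11.KeyA
import Pool.Agent.W11.KeyB
import Pool.Agent.W11.KeyC
import Pool.Agent.W11.Osc
import Pool.Agent.W11.Trees
import Pool.Agent.W11.Direction
import Pool.Agent.W11.Count
import Pool.Agent.W11.Small
import Pool.Agent.W11.Sums
import Pool.Agent.W11.Geom
import Pool.Agent.W11.Integ
import Pool.Agent.W11.TruncDef

/-!
W11, section 6: the bound for the truncated maximal function.
-/

set_option autoImplicit false

open Finset MeasureTheory
open scoped RealInnerProductSpace ENNReal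
open Pool.Agent.Lib.H58FracMax

namespace Pool.Agent.W11

variable {d : ℕ}

lemma ep_nonneg (d i : ℕ) {P : ℝ} (hP : 0 ≤ P) : 0 ≤ ep d i P := by
  unfold ep; positivity

lemma q_mul_ep (d i : ℕ) (A P : ℝ) :
    ((4 ^ i) ^ d / 4 ^ i : ℝ≥0∞) * ENNReal.ofReal (A * ep d i P) = ENNReal.ofReal (A * P) := by
  have h1 : ((4 ^ i) ^ d / 4 ^ i : ℝ≥0∞) = ENNReal.ofReal (((4 : ℝ) ^ i) ^ d / 4 ^ i) := by
    rw [ENNReal.ofReal_div_of_pos (by positivity), ENNReal.ofReal_pow (by positivity),
      ENNReal.ofReal_pow (by norm_num)]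
    norm_num
  rw [h1, ← ENNReal.ofReal_mul (by positivity)]
  congr 1
  unfold ep
  field_simp

lemma ctl_scale {f : Pt d → ℝ} {c c' i : ℕ} {B P : ℝ} {e : EE d} {v : Pt d} (h : c' ≤ c)
    (hP : 0 ≤ P) (h1 : Ctl f c B e i v P) : Ctl f c' 1 e i v (max B 1 * P) := by
  obtain ⟨h2, h3, h4⟩ := Ctl_mono h h1
  refine ⟨h2, ?_, ?_⟩
  · rw [one_mul]
    exact h3.trans (mul_le_mul_of_nonneg_right (le_max_left _ _) hP)
  · refine h4.trans ?_
    nlinarith [le_max_right B 1]

lemma ctl_D {f : Pt d → ℝ} {c c' i : ℕ} {B P : ℝ} {e : EE d} {v : Pt d} (h : c' ≤ c)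
    (h1 : Ctl f c B e i v P) : ∑ z ∈ W c' i v, D f i e z ≤ B * P := by
  obtain ⟨h2, h3, -⟩ := Ctl_mono h h1
  refine le_trans ?_ h3
  have h5 : (1 / 4 : ℝ) ^ (i - i) * ∑ z ∈ W c' i v, D f i e z ≤
      ∑ j ∈ range (i + 1), (1 / 4 : ℝ) ^ (i - j) * ∑ z ∈ W c' i v, D f j e z := by
    refine Finset.single_le_sum (f := fun j => (1 / 4 : ℝ) ^ (i - j) *
      ∑ z ∈ W c' i v, D f j e z) (fun j _ => ?_) (Finset.mem_range.mpr (Nat.lt_succ_self i))
    exact mul_nonneg (by positivity) (Finset.sum_nonneg fun z _ => D_nonneg f j h2.le z)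
  simpa using h5

lemma mem_W_of_near {H i : ℕ} {v n y : Pt d} (hn : n ∈ W 0 i v)
    (hy : ∀ l, |y l - n l| ≤ H * 4 ^ i) : y ∈ W H i v := by
  rw [mem_W'] at hn ⊢
  intro l
  obtain ⟨h1, h2⟩ := hn l
  have h3 := abs_le.mp (hy l)
  push_cast at h1 h2 ⊢
  constructor
  · nlinarith [h3.1]
  · nlinarith [h3.2]

/-- the large points -/
theorem large_cost (hd : 1 ≤ d) {K : Set (Fin d → ℝ)} {ρ R : ℝ} (hK : Body K ρ R) :
    ∃ (C : ℝ≥0∞) (h0 : ℝ), C ≠ ⊤ ∧ 1 ≤ h0 ∧ ∀ (f M : Pt d → ℝ) (K₀ : ℕ),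
      IsTrunc K (4 * (h0 * 4 ^ K₀)) f M →
      ∀ (x : Pt d → Fin d → ℝ) (r : Pt d → ℝ) (S : Pt d → Finset (Pt d)),
      (∀ n, 0 ≤ r n ∧ r n < 4 * (h0 * 4 ^ K₀) ∧ (S n : Set (Pt d)) = LS K (x n) (r n) ∧
        n ∈ S n ∧ M n = avg f (S n)) →
      (∑' z, ENNReal.ofReal (nG f 0 z) ≠ ⊤) →
      ∀ a : Pt d, (∀ l, |a l| ≤ 1) →
      ∑' n, ({n | h0 * 4 ^ 2 ≤ r n} : Set (Pt d)).indicator
        (fun n => ENNReal.ofReal (M n - M (n + a))) n ≤ C * ∑' z, ENNReal.ofReal (nG f 0 z) := by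
  classical
  obtain ⟨N, H, γ, δ, h0, hγ, hδ, hh0, hH, hg1, hg2⟩ := geom hd hK
  set N₂ := H + 2 with hN₂
  set N₃ := N₂ + H + 4 with hN₃
  set H₁ := max H N₃ with hH₁
  obtain ⟨c1, C1, hC1, hA1⟩ := A1 d N H₁ hγ 1
  obtain ⟨c2, C2, hC2, hA2⟩ := A2 d N H N₂ le_rfl hγ 1
  obtain ⟨c3, C3, hC3, hA3⟩ := A3 d N N₂ (by omega) hγ 1
  obtain ⟨c4, C4, hC4, hA4⟩ := A4 d N H N₂ N₃ le_rfl hγ 1
  obtain ⟨c0, C5, hC5, hA5⟩ := A5 d N (H + 1) N₂
  set cT := max (c0 + 1) 2 with hcT
  set c := max c1 (max c2 (max c3 (max c4 cT))) with hc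
  have hcc1 : c1 ≤ c := le_max_left _ _
  have hcc2 : c2 ≤ c := (le_max_left _ _).trans (le_max_right _ _)
  have hcc3 : c3 ≤ c := ((le_max_left _ _).trans (le_max_right _ _)).trans (le_max_right _ _)
  have hcc4 : c4 ≤ c :=
    (((le_max_left _ _).trans (le_max_right _ _)).trans (le_max_right _ _)).trans
      (le_max_right _ _)
  have hccT : cT ≤ c :=
    (((le_max_right _ _).trans (le_max_right _ _)).trans (le_max_right _ _)).trans
      (le_max_right _ _)
  obtain ⟨cc, m, B, hB, hcc, hdir⟩ := direction hd c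
  obtain ⟨CT, hCT, htrees⟩ := trees d cT (le_max_right _ _) hB hδ
  obtain ⟨CP, hCP, hPay⟩ := tsum_Pay d cc m
  obtain ⟨CN, hCN, hcount⟩ := count d N
  set Bm := max B 1 with hBm
  set A := C1 + C2 + C3 + C4 with hA
  have hBm0 : 0 ≤ Bm := le_max_of_le_right zero_le_one
  have hA0 : 0 ≤ A := by positivity
  refine ⟨((ball (0 : Pt d) N).card : ℝ≥0∞) * (CN * (5 * (ENNReal.ofReal (A * Bm) * CP) +
    ENNReal.ofReal C5 * (2 * (CT + CT * CP) + 2 * CP))), h0, ?_, hh0, ?_⟩
  · have h1 : ENNReal.ofReal (A * Bm) * CP ≠ ⊤ := ENNReal.mul_ne_top ENNReal.ofReal_ne_top hCP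
    have h2 : CT + CT * CP ≠ ⊤ := ENNReal.add_ne_top.mpr ⟨hCT, ENNReal.mul_ne_top hCT hCP⟩
    have h3 : 2 * (CT + CT * CP) + 2 * CP ≠ ⊤ := ENNReal.add_ne_top.mpr
      ⟨ENNReal.mul_ne_top (by norm_num) h2, ENNReal.mul_ne_top (by norm_num) hCP⟩
    refine ENNReal.mul_ne_top (ENNReal.natCast_ne_top _) (ENNReal.mul_ne_top hCN ?_)
    exact ENNReal.add_ne_top.mpr ⟨ENNReal.mul_ne_top (by norm_num) h1,
      ENNReal.mul_ne_top ENNReal.ofReal_ne_top h3⟩
  intro f M K₀ htr x r S hS hfin a ha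
  have hK₀pos : 0 < h0 * 4 ^ K₀ := by positivity
  set P : ℕ → Pt d → ℝ := fun i v => Pay f cc m i v with hP
  have hP0 : ∀ i v, 0 ≤ P i v := fun i v => Pay_nonneg f cc m i v
  choose e he using hdir f
  obtain ⟨ref, Rst, hR1, hR2, hR3, hRsum⟩ := htrees f K₀ e P hfin (fun i v => (he i v).1) hP0
    (fun i v => ctl_D hccT (he i v))
  set large : Set (Pt d) := {n | h0 * 4 ^ 2 ≤ r n} with hlarge
  -- levels
  have hlevel : ∀ n, ∃ i, n ∈ large → 2 ≤ i ∧ i ≤ K₀ ∧ h0 * 4 ^ i ≤ r n ∧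
      r n < 4 * (h0 * 4 ^ i) := by
    intro n
    by_cases hn : n ∈ large
    · have hex : ∃ i, r n < 4 * (h0 * 4 ^ i) := ⟨K₀, (hS n).2.1⟩
      refine ⟨Nat.find hex, fun _ => ?_⟩
      have h2 : 2 ≤ Nat.find hex := by
        by_contra hcon
        push Not at hcon
        have h3 := Nat.find_spec hex
        have h4 : (4 : ℝ) ^ Nat.find hex ≤ 4 ^ 1 :=
          pow_le_pow_right₀ (by norm_num) (by omega)
        have h5 : h0 * 4 ^ 2 ≤ r n := hn
        nlinarith
      refine ⟨h2, Nat.find_min' hex (hS n).2.1, ?_, Nat.find_spec hex⟩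
      have h3 := Nat.find_min hex (m := Nat.find hex - 1) (by omega)
      push Not at h3
      have h4 : (4 : ℝ) ^ Nat.find hex = 4 * 4 ^ (Nat.find hex - 1) := by
        conv_lhs => rw [show Nat.find hex = (Nat.find hex - 1) + 1 by omega]
        rw [pow_succ]; ring
      rw [h4]; linarith
    · exact ⟨0, fun h => absurd h hn⟩
  choose lev hlev using hlevel
  -- types
  have htype : ∀ n, ∃ w : Pt d, n ∈ large → n + a ∉ S n → w ≠ 0 ∧ (∀ l, |w l| ≤ N) ∧
      (∀ t : ℕ, 1 ≤ t → t ≤ 3 * 4 ^ lev n → n + ((t : ℤ) • w + a) ∈ S n) ∧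
      ∀ u : EE d, ‖u‖ = 1 → Good γ δ u w ∨ Bad γ N H (S n) (lev n) u n a := by
    intro n
    by_cases hn : n ∈ large ∧ n + a ∉ S n
    · obtain ⟨h1, h2, h3, h4⟩ := hlev n hn.1
      obtain ⟨w, hw1, hw2, hw3, hw4⟩ := hg2 (lev n) (x n) (r n) n a (S n) h3 h4 (hS n).2.2.1
        (hS n).2.2.2.1 ha hn.2
      exact ⟨w, fun _ _ => ⟨hw1, hw2, hw3, hw4⟩⟩
    · exact ⟨0, fun h1 h2 => absurd ⟨h1, h2⟩ hn⟩
  choose typ htyp using htype
  -- bodies
  have hbody : ∀ n ∈ large, (∀ y ∈ S n, ∀ l, |y l - n l| ≤ H * 4 ^ lev n) ∧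
      (4 ^ lev n) ^ d ≤ (S n).card := fun n hn =>
    hg1 (lev n) (x n) (r n) n (S n) (hlev n hn).2.2.1 (hlev n hn).2.2.2 (hS n).2.2.1
      (hS n).2.2.2.1
  have hSW : ∀ n ∈ large, S n ⊆ W H (lev n) (ind (lev n) n) := fun n hn y hy =>
    mem_W_of_near (mem_W0.mpr rfl) ((hbody n hn).1 y hy)
  have hctl : ∀ (c' : ℕ), c' ≤ c → ∀ i v, Ctl f c' 1 (e i v) i v (Bm * P i v) :=
    fun c' hc' i v => ctl_scale hc' (hP0 i v) (he i v)
  have hepP : ∀ i v, 0 ≤ ep d i (Bm * P i v) := fun i v =>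
    ep_nonneg d i (mul_nonneg hBm0 (hP0 i v))
  have hHyp : ∀ w ∈ ball (0 : Pt d) N, Hyp f M S lev large typ e ref Rst
      (fun i v => A * ep d i (Bm * P i v)) (fun i v => C5 * ep d i (V f c0 i v))
      K₀ N H H₁ N₂ N₃ γ δ a w := by
    intro w hw
    have hwN : ∀ l, |w l| ≤ N := by
      rw [mem_ball] at hw
      intro l
      simpa using hw l
    refine ⟨fun n => (hS n).2.2.2.2, ?_, fun n hn => ⟨(hlev n hn).1, (hlev n hn).2.1⟩,
      fun n _ => (hS n).2.2.2.1, ha, hwN, by omega, le_max_left _ _, le_max_right _ _, hδ,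
      fun i v => mul_nonneg hA0 (hepP i v), fun i v => (he i v).1, ?_, ?_, ?_, ?_, ?_, ?_, ?_, ?_,
      hR1, hR2, hR3⟩
    · -- translated bodies
      intro n y b hy
      refine htr.1 y (x n + toR b) (r n) _ (hS n).1 (hS n).2.1 ?_ hy
      rw [Finset.coe_map, (hS n).2.2.1]
      ext z
      simp only [addRightEmbedding_apply, Set.mem_image, LS, Set.mem_ofPred_eq]
      constructor
      · rintro ⟨z', ⟨k, hk, hz'⟩, rfl⟩
        refine ⟨k, hk, ?_⟩
        rw [toR_add, hz']; abel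
      · rintro ⟨k, hk, hz⟩
        refine ⟨z - b, ⟨k, hk, ?_⟩, by abel⟩
        rw [toR_sub, hz]; abel
    · -- existence of bodies
      intro y i hi1 hi2
      have hpos : 0 ≤ h0 * 4 ^ i := by positivity
      have hfinS := hK.finite (toR y) hpos
      have hy : y ∈ hfinS.toFinset := by
        rw [Set.Finite.mem_toFinset]
        exact ⟨0, hK.zero_mem, by simp⟩
      have hlt : h0 * 4 ^ i < 4 * (h0 * 4 ^ i) := by
        have : 0 < h0 * 4 ^ i := by positivity
        linarith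
      have hlt2 : h0 * 4 ^ i < 4 * (h0 * 4 ^ K₀) := by
        have : (4 : ℝ) ^ i ≤ 4 ^ K₀ := pow_le_pow_right₀ (by norm_num) hi2
        have : h0 * 4 ^ i ≤ h0 * 4 ^ K₀ := by gcongr
        linarith
      obtain ⟨b1, b2⟩ := hg1 i (toR y) (h0 * 4 ^ i) y hfinS.toFinset le_rfl hlt
        (Set.Finite.coe_toFinset _) hy
      exact ⟨hfinS.toFinset, b1, b2, htr.1 y (toR y) (h0 * 4 ^ i) _ hpos hlt2
        (Set.Finite.coe_toFinset _) hy⟩
    · intro n hn hna t h1 h2
      exact (htyp n hn hna).2.2.1 t h1 h2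
    · intro n hn hna u hu
      exact (htyp n hn hna).2.2.2 u hu
    · -- A1
      intro n hn w' a' m' hw' hcone hm1 hm2 ha'
      refine (hA1 f _ (lev n) (ind (lev n) n) _ (hlev n hn).1 (hctl c1 hcc1 _ _) (S n)
        ((hSW n hn).trans (W_mono (le_max_left _ _) _)) (hbody n hn).2 w' a' m' hw' hcone hm1 hm2
        ha').trans ?_
      have := mul_le_mul_of_nonneg_right (show C1 ≤ A by linarith) (hepP (lev n) (ind (lev n) n))
      linarith
    · -- A2
      intro n hn hcone
      refine (hA2 f _ (lev n) (ind (lev n) n) _ (hlev n hn).1 (hctl c2 hcc2 _ _) (S n)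
        (hSW n hn) (hbody n hn).2 w hwN hcone).trans ?_
      have := mul_le_mul_of_nonneg_right (show C2 ≤ A by linarith) (hepP (lev n) (ind (lev n) n))
      linarith
    · -- A3
      intro i v hi hcone
      refine (hA3 f _ i v _ hi (hctl c3 hcc3 _ _) w hwN hcone).trans ?_
      have := mul_le_mul_of_nonneg_right (show C3 ≤ A by linarith) (hepP i v)
      linarith
    · -- A4
      intro i v n t B' hi hcone hn ht1 ht2 hB1 hB2
      refine (hA4 f _ i v _ hi (hctl c4 hcc4 _ _) w n a t B' hwN hcone hn ha ht1 ht2 hB1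
        hB2).trans ?_
      have := mul_le_mul_of_nonneg_right (show C4 ≤ A by linarith) (hepP i v)
      linarith
    · -- A5
      intro i v n B' hi hn hB1 hB2
      refine hA5 f i v (by omega) B' ?_ hB2 w hwN
      intro y hy
      refine mem_W_of_near hn fun l => ?_
      have h1 := hB1 y hy l
      have h2 := ha l
      have h3 : y l - n l = (y l - (n + a) l) + a l := by simp only [Pi.add_apply]; ring
      rw [h3]
      refine (abs_add_le _ _).trans ?_
      have h4 : (1 : ℤ) ≤ 4 ^ i := one_le_pow₀ (by norm_num)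
      push_cast
      linarith
  -- one cube
  set Var := ∑' z, ENNReal.ofReal (nG f 0 z) with hVar
  have hcube : ∀ i v, CN * ((4 ^ i) ^ d / 4 ^ i) *
      (4 * ENNReal.ofReal (A * ep d i (Bm * P i v)) + (Rst i).indicator (fun v =>
        ENNReal.ofReal (C5 * ep d i (V f c0 i v) + A * ep d i (Bm * P i v))) v) ≤
      CN * (5 * (ENNReal.ofReal (A * Bm) * ENNReal.ofReal (P i v)) + ENNReal.ofReal C5 *
        (2 * (Rst i).indicator (fun v => ENNReal.ofReal (∑ z ∈ W cT i v, nG f i z)) v +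
          2 * ENNReal.ofReal (P i v))) := by
    intro i v
    rw [mul_assoc]
    gcongr
    rw [mul_add, ← mul_assoc, mul_comm _ (4 : ℝ≥0∞), mul_assoc, q_mul_ep]
    have e1 : ENNReal.ofReal (A * (Bm * P i v)) = ENNReal.ofReal (A * Bm) *
        ENNReal.ofReal (P i v) := by
      rw [← mul_assoc, ENNReal.ofReal_mul (by positivity)]
    rw [e1]
    by_cases hv : v ∈ Rst i
    · rw [Set.indicator_of_mem hv, Set.indicator_of_mem hv]
      have hV0 := V_nonneg f c0 i v
      rw [ENNReal.ofReal_add (mul_nonneg hC5 (ep_nonneg d i hV0))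
        (mul_nonneg hA0 (hepP i v)), mul_add, q_mul_ep, q_mul_ep, e1]
      have h5 : ENNReal.ofReal (C5 * V f c0 i v) ≤ ENNReal.ofReal C5 *
        (2 * ENNReal.ofReal (∑ z ∈ W cT i v, nG f i z) + 2 * ENNReal.ofReal (P i v)) := by
        rw [ENNReal.ofReal_mul hC5]
        gcongr
        have h6 : V f c0 i v ≤ 2 * (∑ z ∈ W cT i v, nG f i z) + 2 * P i v := by
          refine (V_le f (c := c0) (c' := cc) (m := m) ?_ i v).trans ?_
          · have : c0 + 1 ≤ cT := le_max_left _ _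
            omega
          · have h7 : ∑ z ∈ W (c0 + 1) i v, nG f i z ≤ ∑ z ∈ W cT i v, nG f i z :=
              Finset.sum_le_sum_of_subset_of_nonneg (W_mono (le_max_left _ _) v)
                fun z _ _ => nG_nonneg f i z
            linarith
        refine (ENNReal.ofReal_le_ofReal h6).trans ?_
        rw [ENNReal.ofReal_add (mul_nonneg (by norm_num)
          (Finset.sum_nonneg fun z _ => nG_nonneg f i z)) (mul_nonneg (by norm_num) (hP0 i v)),
          ENNReal.ofReal_mul (by norm_num), ENNReal.ofReal_mul (by norm_num)]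
        norm_num
      calc _ ≤ 4 * (ENNReal.ofReal (A * Bm) * ENNReal.ofReal (P i v)) + (ENNReal.ofReal C5 *
            (2 * ENNReal.ofReal (∑ z ∈ W cT i v, nG f i z) + 2 * ENNReal.ofReal (P i v)) +
            ENNReal.ofReal (A * Bm) * ENNReal.ofReal (P i v)) := by gcongr
        _ = _ := by ring
    · rw [Set.indicator_of_notMem hv, Set.indicator_of_notMem hv, mul_zero, add_zero, mul_zero,
        zero_add]
      refine le_add_right ?_
      gcongr
      norm_num
  have hPsum : ∑ i ∈ range (K₀ + 1), ∑' v, ENNReal.ofReal (P i v) ≤ CP * Var :=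
    (ENNReal.sum_le_tsum _).trans (hPay f)
  have hRsum' : ∑ i ∈ range (K₀ + 1), ∑' v, (Rst i).indicator
      (fun v => ENNReal.ofReal (∑ z ∈ W cT i v, nG f i z)) v ≤ (CT + CT * CP) * Var := by
    refine hRsum.trans ?_
    calc CT * Var + CT * ∑ i ∈ range (K₀ + 1), ∑' v, ENNReal.ofReal (P i v) ≤
          CT * Var + CT * (CP * Var) := by gcongr
      _ = _ := by ring
  have htotal : ∑ i ∈ range (K₀ + 1), ∑' v, CN * ((4 ^ i) ^ d / 4 ^ i) *
      (4 * ENNReal.ofReal (A * ep d i (Bm * P i v)) + (Rst i).indicator (fun v =>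
        ENNReal.ofReal (C5 * ep d i (V f c0 i v) + A * ep d i (Bm * P i v))) v) ≤
      CN * (5 * (ENNReal.ofReal (A * Bm) * CP) +
        ENNReal.ofReal C5 * (2 * (CT + CT * CP) + 2 * CP)) * Var := by
    calc _ ≤ ∑ i ∈ range (K₀ + 1), ∑' v, CN * (5 * (ENNReal.ofReal (A * Bm) *
          ENNReal.ofReal (P i v)) + ENNReal.ofReal C5 *
          (2 * (Rst i).indicator (fun v => ENNReal.ofReal (∑ z ∈ W cT i v, nG f i z)) v +
          2 * ENNReal.ofReal (P i v))) :=
          Finset.sum_le_sum fun i _ => ENNReal.tsum_le_tsum fun v => hcube i v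
      _ = CN * (5 * (ENNReal.ofReal (A * Bm) * ∑ i ∈ range (K₀ + 1), ∑' v,
          ENNReal.ofReal (P i v)) + ENNReal.ofReal C5 *
          (2 * (∑ i ∈ range (K₀ + 1), ∑' v, (Rst i).indicator
            (fun v => ENNReal.ofReal (∑ z ∈ W cT i v, nG f i z)) v) +
          2 * ∑ i ∈ range (K₀ + 1), ∑' v, ENNReal.ofReal (P i v))) := by
          simp only [ENNReal.tsum_mul_left, ENNReal.tsum_add, Finset.sum_add_distrib,
            ← Finset.mul_sum]
      _ ≤ CN * (5 * (ENNReal.ofReal (A * Bm) * (CP * Var)) + ENNReal.ofReal C5 *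
          (2 * ((CT + CT * CP) * Var) + 2 * (CP * Var))) := by gcongr
      _ = _ := by ring
  -- all types
  have hpt : ∀ n, large.indicator (fun n => ENNReal.ofReal (M n - M (n + a))) n ≤
      ∑ w ∈ ball (0 : Pt d) N, ({n | n ∈ large ∧ typ n = w} : Set (Pt d)).indicator
        (fun n => ENNReal.ofReal (M n - M (n + a))) n := by
    intro n
    by_cases hn : n ∈ large
    · by_cases hna : n + a ∈ S n
      · rw [Set.indicator_of_mem hn]
        have h1 := htr.1 (n + a) (x n) (r n) (S n) (hS n).1 (hS n).2.1 (hS n).2.2.1 hna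
        rw [← (hS n).2.2.2.2] at h1
        rw [ENNReal.ofReal_of_nonpos (by linarith)]
        exact bot_le
      · have hmem : typ n ∈ ball (0 : Pt d) N := by
          rw [mem_ball]
          intro l
          simpa using (htyp n hn hna).2.1 l
        have h2 := Finset.single_le_sum (f := fun w => ({n | n ∈ large ∧ typ n = w} :
          Set (Pt d)).indicator (fun n => ENNReal.ofReal (M n - M (n + a))) n)
          (fun _ _ => bot_le) hmem
        refine le_trans (le_of_eq ?_) h2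
        rw [Set.indicator_of_mem hn, Set.indicator_of_mem]
        exact ⟨hn, rfl⟩
    · rw [Set.indicator_of_notMem hn]; exact bot_le
  calc ∑' n, large.indicator (fun n => ENNReal.ofReal (M n - M (n + a))) n ≤
        ∑' n, ∑ w ∈ ball (0 : Pt d) N, ({n | n ∈ large ∧ typ n = w} : Set (Pt d)).indicator
        (fun n => ENNReal.ofReal (M n - M (n + a))) n := ENNReal.tsum_le_tsum hpt
    _ = ∑ w ∈ ball (0 : Pt d) N, ∑' n, ({n | n ∈ large ∧ typ n = w} : Set (Pt d)).indicator
        (fun n => ENNReal.ofReal (M n - M (n + a))) n :=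
        Summable.tsum_finsetSum fun w _ => ENNReal.summable
    _ ≤ ∑ w ∈ ball (0 : Pt d) N, CN * (5 * (ENNReal.ofReal (A * Bm) * CP) +
        ENNReal.ofReal C5 * (2 * (CT + CT * CP) + 2 * CP)) * Var := by
        refine Finset.sum_le_sum fun w hw => ?_
        refine ((hHyp w hw).integrate (C := CN) ?_).trans htotal
        intro i v P' F hF h1 h2
        exact hcount w i v P' F (hHyp w hw).hw hF h1 h2
    _ = _ := by
        rw [Finset.sum_const, nsmul_eq_mul]
        ring

/-- The truncated maximal function has variation at most `C Var f`, uniformly in the truncation. -/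
theorem truncated (hd : 1 ≤ d) {K : Set (Fin d → ℝ)} {ρ R : ℝ} (hK : Body K ρ R) :
    ∃ (C : ℝ≥0∞) (h0 : ℝ), C ≠ ⊤ ∧ 1 ≤ h0 ∧ ∀ (f M : Pt d → ℝ) (K₀ : ℕ), 2 ≤ K₀ →
      (∀ n, 0 ≤ f n) → Summable f → IsTrunc K (4 * (h0 * 4 ^ K₀)) f M →
      ∑' n, ∑ l, ENNReal.ofReal |M (n + eV l) - M n| ≤
        C * ∑' z, ENNReal.ofReal (nG f 0 z) := by
  classical
  obtain ⟨C, h0, hC, hh0, hlarge⟩ := large_cost hd hK
  obtain ⟨R₁, hR₁⟩ := exists_nat_ge (h0 * 4 ^ 2 * (2 * R))
  obtain ⟨C', hC', hsmall⟩ := small_cost d R₁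
  refine ⟨1 + 2 * d * (C + C'), h0, ?_, hh0, ?_⟩
  · exact ENNReal.add_ne_top.mpr ⟨ENNReal.one_ne_top, ENNReal.mul_ne_top
      (ENNReal.mul_ne_top (by norm_num) (ENNReal.natCast_ne_top _))
      (ENNReal.add_ne_top.mpr ⟨hC, hC'⟩)⟩
  intro f M K₀ hK₀ hf hsum htr
  set Var := ∑' z, ENNReal.ofReal (nG f 0 z) with hVar
  by_cases hfin : Var = ⊤
  · rw [hfin, ENNReal.mul_top]
    · exact le_top
    · simp
  choose x r S hS using htr.2
  have hfM : ∀ n, f n ≤ M n := by
    intro n
    have h1 : (({n} : Finset (Pt d)) : Set (Pt d)) = LS K (toR n) 0 := by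
      ext z
      simp only [Finset.coe_singleton, Set.mem_singleton_iff, LS, Set.mem_ofPred_eq, zero_smul,
        add_zero]
      constructor
      · rintro rfl
        exact ⟨0, hK.zero_mem, rfl⟩
      · rintro ⟨-, -, h⟩
        funext l
        have := congrFun h l
        unfold toR at this
        exact_mod_cast this
    have h2 := htr.1 n (toR n) 0 {n} le_rfl (by positivity) h1 (Finset.mem_singleton_self n)
    simpa [avg] using h2
  have hone : ∀ a : Pt d, (∀ l, |a l| ≤ 1) →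
      ∑' n, ENNReal.ofReal (M n - M (n + a)) ≤ (C + C') * Var := by
    intro a ha
    set T : Set (Pt d) := {n | h0 * 4 ^ 2 ≤ r n} with hT
    have h1 := hlarge f M K₀ htr x r S hS hfin a ha
    have h2 := hsmall f M S Tᶜ a hfM (fun n hn => ?_) ha
    · calc ∑' n, ENNReal.ofReal (M n - M (n + a)) =
          ∑' n, (T.indicator (fun n => ENNReal.ofReal (M n - M (n + a))) n +
            Tᶜ.indicator (fun n => ENNReal.ofReal (M n - M (n + a))) n) := by
            refine tsum_congr fun n => ?_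
            have := congrFun (Set.indicator_self_add_compl T
              (fun n => ENNReal.ofReal (M n - M (n + a)))) n
            rw [← this, Pi.add_apply]
        _ ≤ C * Var + C' * Var := by
            rw [ENNReal.tsum_add]
            exact add_le_add h1 h2
        _ = _ := by ring
    · refine ⟨(hS n).2.2.2.1, fun y hy l => ?_, (hS n).2.2.2.2⟩
      have hr : r n < h0 * 4 ^ 2 := by
        have : n ∉ T := hn
        simp only [hT, Set.mem_ofPred_eq, not_le] at this
        exact this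
      have hy' : y ∈ LS K (x n) (r n) := by rw [← (hS n).2.2.1]; exact hy
      have hn' : n ∈ LS K (x n) (r n) := by rw [← (hS n).2.2.1]; exact (hS n).2.2.2.1
      obtain ⟨z, hz, hz'⟩ := hy'
      obtain ⟨z2, hz2, hz2'⟩ := hn'
      have e1 := congrFun hz' l
      have e2 := congrFun hz2' l
      simp only [toR, Pi.add_apply, Pi.smul_apply, smul_eq_mul] at e1 e2
      have b1 := abs_le.mp (hK.outer z hz l)
      have b2 := abs_le.mp (hK.outer z2 hz2 l)
      have hr0 := (hS n).1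
      have hR0 : 0 ≤ R := hK.R_nonneg hd
      have h5 : |(y l : ℝ) - n l| ≤ R₁ := by
        have e3 : (y l : ℝ) - n l = r n * (z l - z2 l) := by rw [e1, e2]; ring
        rw [e3, abs_mul, abs_of_nonneg hr0]
        have h6 : |z l - z2 l| ≤ 2 * R := by rw [abs_le]; constructor <;> linarith
        calc r n * |z l - z2 l| ≤ h0 * 4 ^ 2 * (2 * R) := by gcongr
          _ ≤ R₁ := hR₁
      exact_mod_cast h5
  have hshift : ∀ a : Pt d, ∑' n, ENNReal.ofReal (M (n + a) - M n) =
      ∑' n, ENNReal.ofReal (M n - M (n + -a)) := by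
    intro a
    rw [← (Equiv.addRight a).tsum_eq (fun n => ENNReal.ofReal (M n - M (n + -a)))]
    refine tsum_congr fun n => ?_
    simp
  have heV : ∀ l k : Fin d, |eV l k| ≤ 1 := by
    intro l k
    unfold eV
    rcases eq_or_ne k l with rfl | h
    · simp
    · rw [Pi.single_eq_of_ne h]; simp
  calc ∑' n, ∑ l, ENNReal.ofReal |M (n + eV l) - M n| =
        ∑ l, ∑' n, ENNReal.ofReal |M (n + eV l) - M n| :=
        Summable.tsum_finsetSum fun l _ => ENNReal.summable
    _ ≤ ∑ l : Fin d, 2 * ((C + C') * Var) := by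
        refine Finset.sum_le_sum fun l _ => ?_
        calc ∑' n, ENNReal.ofReal |M (n + eV l) - M n| ≤
              ∑' n, (ENNReal.ofReal (M n - M (n + eV l)) +
                ENNReal.ofReal (M (n + eV l) - M n)) := by
              refine ENNReal.tsum_le_tsum fun n => ?_
              rcases le_total (M (n + eV l)) (M n) with h | h
              · rw [abs_of_nonpos (by linarith)]
                refine le_trans (le_of_eq ?_) le_self_add
                congr 1; ring
              · rw [abs_of_nonneg (by linarith)]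
                exact le_add_self
          _ = ∑' n, ENNReal.ofReal (M n - M (n + eV l)) +
                ∑' n, ENNReal.ofReal (M n - M (n + -eV l)) := by
              rw [ENNReal.tsum_add, hshift]
          _ ≤ (C + C') * Var + (C + C') * Var := by
              refine add_le_add (hone _ (heV l)) (hone _ fun k => ?_)
              rw [Pi.neg_apply, abs_neg]; exact heV l k
          _ = _ := by ring
    _ = 2 * d * (C + C') * Var := by
        rw [Finset.sum_const, Finset.card_univ, Fintype.card_fin, nsmul_eq_mul]; ring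
    _ ≤ _ := by
        gcongr
        exact le_add_self

end Pool.Agent.W11
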