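import Mathlib
import Pool.Agent.W11.TruncDef
import Pool.Agent.Lib.H58FracMaxFinal

/-!
W11: existence of the truncated maximal functions and the limit `K → ∞`.
-/

set_option autoImplicit false

open Finset Filter Topology
open scoped ENNReal

namespace Pool.Agent.W11

variable {d : ℕ}

open Pool.Agent.Lib.H58FracMax (Body LS toR unc gradE norm_gradE_le)

variable {K : Set (Fin d → ℝ)} {ρ R : ℝ}

/-- the maximal function over the bodies of radius less than `R₀` exists -/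
theorem exists_trunc (hK : Body K ρ R) {R₀ : ℝ} (hR₀ : 0 < R₀) (f : Pt d → ℝ) :
    ∃ M : Pt d → ℝ, IsTrunc K R₀ f M := by
  have key : ∀ n : Pt d, ∃ v : ℝ,
      (∀ (x : Fin d → ℝ) (r : ℝ) (S : Finset (Pt d)), 0 ≤ r → r < R₀ →
        (S : Set (Pt d)) = LS K x r → n ∈ S → avg f S ≤ v) ∧
      ∃ (x : Fin d → ℝ) (r : ℝ) (S : Finset (Pt d)), 0 ≤ r ∧ r < R₀ ∧
        (S : Set (Pt d)) = LS K x r ∧ n ∈ S ∧ v = avg f S := by
    intro n
    set 𝒮 : Set (Finset (Pt d)) := {S | ∃ (x : Fin d → ℝ) (r : ℝ), 0 ≤ r ∧ r < R₀ ∧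
      (S : Set (Pt d)) = LS K x r ∧ n ∈ S} with h𝒮
    have hfin : 𝒮.Finite := by
      set T : ℤ := ⌈2 * (|R| * R₀)⌉ with hT
      set box : Finset (Pt d) := Finset.Icc (fun l => n l - T) (fun l => n l + T) with hbox
      refine (box.powerset.finite_toSet).subset ?_
      rintro S ⟨x, r, hr0, hr1, hS, hn⟩
      rw [Finset.mem_coe, Finset.mem_powerset]
      intro m hm
      have hRr : R * r ≤ |R| * R₀ :=
        (mul_le_mul_of_nonneg_right (le_abs_self R) hr0).trans
          (mul_le_mul_of_nonneg_left hr1.le (abs_nonneg _))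
      have hm' : m ∈ LS K x r := by rw [← hS]; exact_mod_cast hm
      have hn' : n ∈ LS K x r := by rw [← hS]; exact_mod_cast hn
      have h1 : ∀ i, |m i - n i| ≤ T := by
        intro i
        have e1 := hK.abs_le hr0 hm' i
        have e2 := hK.abs_le hr0 hn' i
        have e3 : |((m i - n i : ℤ) : ℝ)| ≤ 2 * (|R| * R₀) := by
          push_cast
          have : (m i : ℝ) - n i = (m i - x i) - (n i - x i) := by ring
          rw [this]
          refine (abs_sub _ _).trans ?_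
          linarith
        have e4 : ((|m i - n i| : ℤ) : ℝ) ≤ (T : ℝ) := by
          push_cast
          push_cast at e3
          exact e3.trans (Int.le_ceil _)
        exact_mod_cast e4
      rw [hbox, Finset.mem_Icc, Pi.le_def, Pi.le_def]
      constructor
      · intro i
        have := (abs_le.1 (h1 i)).1
        show n i - T ≤ m i
        linarith
      · intro i
        have := (abs_le.1 (h1 i)).2
        show m i ≤ n i + T
        linarith
    have hne : 𝒮.Nonempty := by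
      refine ⟨{n}, toR n, 0, le_rfl, hR₀, ?_, Finset.mem_singleton_self n⟩
      ext m
      rw [Finset.coe_singleton, Set.mem_singleton_iff]
      constructor
      · rintro rfl
        exact ⟨0, hK.zero_mem, by simp⟩
      · rintro ⟨z, _, hz⟩
        rw [zero_smul, add_zero] at hz
        funext i
        have := congrFun hz i
        unfold toR at this
        exact_mod_cast this
    obtain ⟨S, hS, hmax⟩ := hfin.exists_maximalFor (fun S => avg f S) _ hne
    refine ⟨avg f S, ?_, ?_⟩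
    · intro x r S' hr0 hr1 hS' hn
      by_contra hcon
      push Not at hcon
      have := hmax (j := S') ⟨x, r, hr0, hr1, hS', hn⟩ hcon.le
      exact absurd this (not_le.2 hcon)
    · obtain ⟨x, r, hr0, hr1, hS', hn⟩ := hS
      exact ⟨x, r, S, hr0, hr1, hS', hn, rfl⟩
  choose M hM using key
  exact ⟨M, fun n x r S h0 h1 h2 h3 => (hM n).1 x r S h0 h1 h2 h3, fun n => (hM n).2⟩

lemma avg_eq (f : Pt d → ℝ) (B : Finset (Pt d)) :
    Pool.Agent.Lib.H58FracMax.avg 1 f B = avg f B := by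
  unfold Pool.Agent.Lib.H58FracMax.avg avg
  rw [Real.rpow_neg_one]

/-- the truncated maximal functions converge to the maximal function -/
theorem tendsto_trunc {f g : Pt d → ℝ}
    (hg : ∀ n, IsLUB {a | ∃ B ∈ unc K n,
      a = Pool.Agent.Lib.H58FracMax.avg 1 f B} (g n))
    {h0 : ℝ} (hh : 1 ≤ h0) {M : ℕ → Pt d → ℝ}
    (hM : ∀ k, IsTrunc K (4 * (h0 * 4 ^ k)) f (M k)) (n : Pt d) :
    Tendsto (fun k => M k n) atTop (𝓝 (g n)) := by
  have hmono : Monotone (fun k => M k n) := by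
    intro k k' hkk
    obtain ⟨x, r, S, hr0, hr1, hS, hn, hv⟩ := (hM k).2 n
    show M k n ≤ M k' n
    rw [hv]
    refine (hM k').1 n x r S hr0 (hr1.trans_le ?_) hS hn
    have : (4 : ℝ) ^ k ≤ 4 ^ k' := pow_le_pow_right₀ (by norm_num) hkk
    have h1 : h0 * 4 ^ k ≤ h0 * 4 ^ k' := mul_le_mul_of_nonneg_left this (by linarith)
    linarith
  refine tendsto_atTop_isLUB hmono ?_
  constructor
  · rintro _ ⟨k, rfl⟩
    obtain ⟨x, r, S, hr0, hr1, hS, hn, hv⟩ := (hM k).2 n
    show M k n ≤ g n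
    rw [hv, ← avg_eq]
    refine (hg n).1 ⟨S, ⟨x, r, hr0, ?_, hS⟩, rfl⟩
    rw [← hS]; exact_mod_cast hn
  · intro b hb
    refine (hg n).2 ?_
    rintro _ ⟨S, ⟨x, r, hr0, hn, hS⟩, rfl⟩
    rw [avg_eq]
    obtain ⟨k, hk⟩ := pow_unbounded_of_one_lt r (by norm_num : (1 : ℝ) < 4)
    have hn' : n ∈ S := by
      have : n ∈ (S : Set (Pt d)) := by rw [hS]; exact hn
      exact_mod_cast this
    have h1 : avg f S ≤ M k n := by
      refine (hM k).1 n x r S hr0 ?_ hS hn'
      have h4 : (0 : ℝ) < 4 ^ k := by positivity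
      nlinarith
    exact h1.trans (hb ⟨k, rfl⟩)

/-- the statement of the theorem on truncated maximal functions -/
def Truncated (K : Set (Fin d → ℝ)) : Prop :=
  ∃ (C : ℝ≥0∞) (h0 : ℝ), C ≠ ⊤ ∧ 1 ≤ h0 ∧
    ∀ (f M : Pt d → ℝ) (K₀ : ℕ), 2 ≤ K₀ → (∀ n, 0 ≤ f n) → Summable f →
      IsTrunc K (4 * (h0 * 4 ^ K₀)) f M →
      ∑' n, ∑ l, ENNReal.ofReal |M (n + eV l) - M n| ≤ C * ∑' z, ENNReal.ofReal (nG f 0 z)

lemma nG_zero (f : Pt d → ℝ) (z : Pt d) : nG f 0 z = ‖gradE f z‖ := rfl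

lemma summable_gradE {f : Pt d → ℝ} (hf : Summable f) : Summable (fun n => ‖gradE f n‖) := by
  refine Summable.of_nonneg_of_le (fun _ => norm_nonneg _) (norm_gradE_le f) ?_
  refine summable_sum fun i _ => ?_
  have h2 : Summable (fun n => f (n + Pool.Agent.Lib.H58FracMax.e i)) :=
    hf.comp_injective (add_left_injective _)
  exact (h2.sub hf).abs

lemma norm_gradE_abs (f : Pt d → ℝ) (z : Pt d) :
    ‖gradE (fun m => |f m|) z‖ ≤ ‖gradE f z‖ := by
  have h1 : ‖gradE (fun m => |f m|) z‖ ^ 2 ≤ ‖gradE f z‖ ^ 2 := by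
    rw [EuclideanSpace.norm_sq_eq, EuclideanSpace.norm_sq_eq]
    refine Finset.sum_le_sum fun i _ => ?_
    have h2 : ∀ g : Pt d → ℝ, ‖(gradE g z) i‖ = |g (z + Pi.single i 1) - g z| := fun g => rfl
    rw [h2, h2]
    exact pow_le_pow_left₀ (abs_nonneg _) (abs_abs_sub_abs_le _ _) 2
  exact le_of_sq_le_sq h1 (norm_nonneg _)

/-- the bound for the full maximal function -/
theorem of_truncated {K : Set (Fin d → ℝ)} {ρ R : ℝ} (hK : Body K ρ R) (hT : Truncated K) :
    ∃ C : ℝ, ∀ f : Pt d → ℝ, Summable f → ∀ g : Pt d → ℝ,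
      (∀ n, IsLUB {a | ∃ B ∈ unc K n,
        a = Pool.Agent.Lib.H58FracMax.avg 1 (fun m => |f m|) B} (g n)) →
      Summable (fun n => ‖gradE g n‖) ∧ ∑' n, ‖gradE g n‖ ≤ C * ∑' n, ‖gradE f n‖ := by
  obtain ⟨C, h0, hC, hh, hT⟩ := hT
  refine ⟨C.toReal, fun f hf g hg => ?_⟩
  have hex : ∀ k : ℕ, ∃ M : Pt d → ℝ, IsTrunc K (4 * (h0 * 4 ^ k)) (fun m => |f m|) M :=
    fun k => exists_trunc hK (by positivity) _
  choose M hM using hex
  have hlim := fun n => tendsto_trunc hg hh hM n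
  set A : ℝ := ∑' n, ‖gradE f n‖ with hA
  have hA0 : 0 ≤ A := tsum_nonneg fun _ => norm_nonneg _
  have hgf := summable_gradE hf
  have hV : ∑' z, ENNReal.ofReal (nG (fun m => |f m|) 0 z) ≤ ENNReal.ofReal A := by
    rw [hA, ENNReal.ofReal_tsum_of_nonneg (fun _ => norm_nonneg _) hgf]
    refine ENNReal.tsum_le_tsum fun z => ENNReal.ofReal_le_ofReal ?_
    rw [nG_zero]
    exact norm_gradE_abs f z
  have hk : ∀ k, 2 ≤ k → ∑' n, ∑ l, ENNReal.ofReal |M k (n + eV l) - M k n|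
      ≤ C * ENNReal.ofReal A := by
    intro k hk
    refine (hT _ _ k hk (fun _ => abs_nonneg _) hf.abs (hM k)).trans ?_
    gcongr
  have hfin : ∀ F : Finset (Pt d), ∑ n ∈ F, ∑ l, ENNReal.ofReal |g (n + eV l) - g n|
      ≤ C * ENNReal.ofReal A := by
    intro F
    have ht : Tendsto (fun k => ∑ n ∈ F, ∑ l, ENNReal.ofReal |M k (n + eV l) - M k n|) atTop
        (𝓝 (∑ n ∈ F, ∑ l, ENNReal.ofReal |g (n + eV l) - g n|)) := by
      refine tendsto_finsetSum _ fun n _ => tendsto_finsetSum _ fun l _ => ?_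
      exact (ENNReal.continuous_ofReal.tendsto _).comp ((hlim _).sub (hlim _)).abs
    refine le_of_tendsto ht ?_
    filter_upwards [eventually_ge_atTop 2] with k hk2
    exact (ENNReal.sum_le_tsum F).trans (hk k hk2)
  have htot : ∑' n, ∑ l, ENNReal.ofReal |g (n + eV l) - g n| ≤ C * ENNReal.ofReal A := by
    rw [ENNReal.tsum_eq_iSup_sum]
    exact iSup_le hfin
  have hE : ∑' n, ENNReal.ofReal ‖gradE g n‖ ≤ C * ENNReal.ofReal A := by
    refine le_trans (ENNReal.tsum_le_tsum fun n => ?_) htot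
    have h1 := norm_gradE_le g n
    refine (ENNReal.ofReal_le_ofReal h1).trans ?_
    rw [ENNReal.ofReal_sum_of_nonneg fun _ _ => abs_nonneg _]
    exact le_rfl
  have hne : C * ENNReal.ofReal A ≠ ⊤ := ENNReal.mul_ne_top hC ENNReal.ofReal_ne_top
  have hsum : Summable (fun n => ‖gradE g n‖) := by
    have h1 : ∑' n, ENNReal.ofReal ‖gradE g n‖ ≠ ⊤ := ne_top_of_le_ne_top hne hE
    have h2 := ENNReal.summable_toReal h1
    refine h2.congr fun n => ?_
    rw [ENNReal.toReal_ofReal (norm_nonneg _)]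
  refine ⟨hsum, ?_⟩
  have h1 := ENNReal.toReal_mono hne hE
  rw [ENNReal.toReal_mul, ENNReal.toReal_ofReal hA0,
    ← ENNReal.ofReal_tsum_of_nonneg (fun _ => norm_nonneg _) hsum,
    ENNReal.toReal_ofReal (tsum_nonneg fun _ => norm_nonneg _)] at h1
  exact h1

end Pool.Agent.W11
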