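import Pool.Agent.W11.Defs

/-!
W11, section 6: classification of the boundary points at a fixed level `lam`.
-/

set_option autoImplicit false

open Finset
open scoped RealInnerProductSpace ENNReal

namespace Pool.Agent.W11

variable {d : ℕ}

/-- good directions -/
def Good (γ δ : ℝ) (e : EE d) (w : Pt d) : Prop :=
  ∀ e' : EE d, ‖e'‖ = 1 → ‖e - e'‖ ≤ 2 * δ → Cone γ e' w

/-- bad pairs -/
def Bad (γ : ℝ) (N H : ℕ) (S : Finset (Pt d)) (i : ℕ) (e : EE d) (n a : Pt d) : Prop :=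
  ∃ (w' a' : Pt d) (M : ℕ), (∀ l, |w' l| ≤ N) ∧ Cone γ e w' ∧ M ≤ H * 4 ^ i ∧
    (∀ l, |a' l| + 3 * 4 ^ i ≤ M) ∧ n + a - ((M : ℤ) • w' + a') ∈ S

/-- All hypotheses used in the classification. -/
structure Hyp (f M : Pt d → ℝ) (S : Pt d → Finset (Pt d)) (lev : Pt d → ℕ) (large : Set (Pt d))
    (typ : Pt d → Pt d) (e ref : ℕ → Pt d → EE d) (Rst : ℕ → Set (Pt d))
    (eps osc : ℕ → Pt d → ℝ) (K₀ N H H₁ N₂ N₃ : ℕ) (γ δ : ℝ) (a w : Pt d) : Prop where
  hM : ∀ n, M n = avg f (S n)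
  htr : ∀ n y b, y ∈ (S n).map (addRightEmbedding b) →
    avg f ((S n).map (addRightEmbedding b)) ≤ M y
  hlev : ∀ n ∈ large, 2 ≤ lev n ∧ lev n ≤ K₀
  hS : ∀ n ∈ large, n ∈ S n
  ha : ∀ l, |a l| ≤ 1
  hw : ∀ l, |w l| ≤ N
  hN₃ : 3 ≤ N₃
  hH₁ : H ≤ H₁
  hH₁' : N₃ ≤ H₁
  hδ : 0 < δ
  heps : ∀ i v, 0 ≤ eps i v
  he : ∀ i v, ‖e i v‖ = 1
  hex : ∀ (y : Pt d) (i : ℕ), 2 ≤ i → i ≤ K₀ → ∃ B : Finset (Pt d),
    (∀ y' ∈ B, ∀ l, |y' l - y l| ≤ H * 4 ^ i) ∧ (4 ^ i) ^ d ≤ B.card ∧ avg f B ≤ M y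
  hG1 : ∀ n ∈ large, n + a ∉ S n → ∀ t : ℕ, 1 ≤ t → t ≤ 3 * 4 ^ lev n →
    n + ((t : ℤ) • typ n + a) ∈ S n
  hG2 : ∀ n ∈ large, n + a ∉ S n → ∀ u : EE d, ‖u‖ = 1 →
    Good γ δ u (typ n) ∨ Bad γ N H (S n) (lev n) u n a
  hA1 : ∀ n ∈ large, ∀ (w' a' : Pt d) (m : ℕ), (∀ l, |w' l| ≤ N) →
    Cone γ (e (lev n) (ind (lev n) n)) w' → 3 * 4 ^ lev n ≤ m → m ≤ H₁ * 4 ^ lev n →
    (∀ l, |a' l| + 4 ^ lev n ≤ m) →
    avg f (S n) ≤ avg f ((S n).map (addRightEmbedding ((m : ℤ) • w' + a'))) +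
      eps (lev n) (ind (lev n) n)
  hA2 : ∀ n ∈ large, Cone γ (e (lev n) (ind (lev n) n)) w →
    avg f (S n) ≤ bref f N₂ (lev n) w (ind (lev n) n) + eps (lev n) (ind (lev n) n)
  hA3 : ∀ (i : ℕ) (v : Pt d), 2 ≤ i → Cone γ (e i v) w →
    bref f N₂ i w v ≤ bref f N₂ (i + 1) w (par v) + eps i v
  hA4 : ∀ (i : ℕ) (v n : Pt d) (t : ℕ) (B : Finset (Pt d)), 2 ≤ i → Cone γ (e i v) w →
    n ∈ W 0 i v → N₃ * 4 ^ i ≤ t → t ≤ 4 * (N₃ * 4 ^ i) →
    (∀ y ∈ B, ∀ l, |y l - (n + ((t : ℤ) • w + a)) l| ≤ H * 4 ^ i) → (4 ^ i) ^ d ≤ B.card →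
    bref f N₂ i w v ≤ avg f B + eps i v
  hA5 : ∀ (i : ℕ) (v n : Pt d) (B : Finset (Pt d)), 2 ≤ i → n ∈ W 0 i v →
    (∀ y ∈ B, ∀ l, |y l - (n + a) l| ≤ H * 4 ^ i) → (4 ^ i) ^ d ≤ B.card →
    bref f N₂ i w v ≤ avg f B + osc i v
  hR1 : ∀ v, v ∈ Rst K₀
  hR2 : ∀ i ≤ K₀, ∀ v ∈ Rst i, ref i v = e i v
  hR3 : ∀ i < K₀, ∀ v ∉ Rst i, ref i v = ref (i + 1) (par v) ∧ ‖e i v - ref i v‖ < δ

/-- the boundary points of type `w` at level `lam` -/
def PS (M : Pt d → ℝ) (large : Set (Pt d)) (typ : Pt d → Pt d) (a w : Pt d) (lam : ℝ) :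
    Set (Pt d) :=
  {n | n ∈ large ∧ M (n + a) ≤ lam ∧ lam < M n ∧ typ n = w}

/-- reference value for bad pairs -/
noncomputable def s1 (M : Pt d → ℝ) (S : Pt d → Finset (Pt d)) (lev : Pt d → ℕ)
    (large : Set (Pt d)) (e : ℕ → Pt d → EE d) (N H : ℕ) (γ : ℝ) (a : Pt d) (i : ℕ) (v : Pt d) :
    ℝ :=
  sSup (M '' {n | n ∈ W 0 i v ∧ n ∈ large ∧ lev n = i ∧ Bad γ N H (S n) i (e i v) n a})

/-- reference value for near pairs -/
noncomputable def s2 (M : Pt d → ℝ) (lev : Pt d → ℕ) (large : Set (Pt d)) (i : ℕ) (v : Pt d) : ℝ :=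
  sSup (M '' {n | n ∈ W 0 i v ∧ n ∈ large ∧ lev n = i})

lemma mem_W0 {i : ℕ} {v z : Pt d} : z ∈ W 0 i v ↔ ind i z = v := by
  unfold W ind
  rw [Fintype.mem_piFinset, funext_iff]
  have h4 : (0 : ℤ) < 4 ^ i := by positivity
  refine forall_congr' fun l => ?_
  rw [Finset.mem_Ico]
  constructor
  · rintro ⟨h1, h2⟩
    rw [Int.ediv_eq_iff_of_pos h4]
    constructor <;> simp at h1 h2 ⊢ <;> linarith
  · intro h
    rw [← h]
    constructor
    · simp; exact Int.mul_ediv_self_le h4.ne'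
    · have := Int.lt_mul_ediv_self_add (x := z l) h4
      simp only [Nat.cast_zero, add_zero]
      rw [mul_add, mul_one]; exact this


/-- two points of the same cube -/
lemma abs_sub_of_ind {i : ℕ} {n n' : Pt d} (h : ind i n = ind i n') (l : Fin d) :
    |n l - n' l| + 1 ≤ 4 ^ i := by
  have h4 : (0 : ℤ) < 4 ^ i := by positivity
  have h1 := congrFun h l
  unfold ind at h1
  have a1 := Int.mul_ediv_self_le (x := n l) h4.ne'
  have a2 := Int.lt_mul_ediv_self_add (x := n l) h4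
  have b1 := Int.mul_ediv_self_le (x := n' l) h4.ne'
  have b2 := Int.lt_mul_ediv_self_add (x := n' l) h4
  rw [h1] at a1 a2
  have : |n l - n' l| < 4 ^ i := by
    rw [abs_lt]; constructor <;> linarith
  linarith

/-- the chain lemma -/
lemma chain (b ε : ℕ → ℝ) (lam : ℝ) {i k : ℕ} (hik : i ≤ k) (h0 : lam < b i + ε i)
    (hstep : ∀ j, i ≤ j → j < k → b j ≤ b (j + 1) + ε j) (hε : ∀ j, 0 ≤ ε j) :
    (∃ j, i ≤ j ∧ j < k ∧ lam ∈ Set.Icc (b j - ε j) (b j + ε j)) ∨ lam < b k + ε k := by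
  induction k, hik using Nat.le_induction with
  | base => exact Or.inr h0
  | succ k hik ih =>
    rcases ih (fun j h1 h2 => hstep j h1 (by omega)) with ⟨j, h1, h2, h3⟩ | h
    · exact Or.inl ⟨j, h1, by omega, h3⟩
    · by_cases hc : b k - ε k ≤ lam
      · exact Or.inl ⟨k, hik, by omega, hc, h.le⟩
      · right
        push Not at hc
        have := hstep k hik (by omega)
        have := hε (k + 1)
        linarith

section

variable {f M : Pt d → ℝ} {S : Pt d → Finset (Pt d)} {lev : Pt d → ℕ} {large : Set (Pt d)}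
  {typ : Pt d → Pt d} {e ref : ℕ → Pt d → EE d} {Rst : ℕ → Set (Pt d)}
  {eps osc : ℕ → Pt d → ℝ} {K₀ N H H₁ N₂ N₃ : ℕ} {γ δ : ℝ} {a w : Pt d} {lam : ℝ}

lemma Hyp.avg_le (h : Hyp f M S lev large typ e ref Rst eps osc K₀ N H H₁ N₂ N₃ γ δ a w)
    {n y : Pt d} (hy : y ∈ S n) : M n ≤ M y := by
  have h1 := h.htr n y 0 (by
    rw [Finset.mem_map]
    exact ⟨y, hy, by simp⟩)
  have h2 : (S n).map (addRightEmbedding (0 : Pt d)) = S n := by
    ext z
    simp
  rw [h2, ← h.hM] at h1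
  exact h1

/-- reference directions do not change between two restarts -/
lemma Hyp.ref_eq (h : Hyp f M S lev large typ e ref Rst eps osc K₀ N H H₁ N₂ N₃ γ δ a w)
    (n : Pt d) {i k : ℕ} (hik : i ≤ k) (hk : k ≤ K₀)
    (hno : ∀ j, i ≤ j → j < k → ind j n ∉ Rst j) : ref i (ind i n) = ref k (ind k n) := by
  induction k, hik using Nat.le_induction with
  | base => rfl
  | succ k hik ih =>
    rw [ih (by omega) (fun j h1 h2 => hno j h1 (by omega)),
      (h.hR3 k (by omega) _ (hno k hik (by omega))).1]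
    have : par (ind k n) = ind (k + 1) n := by
      funext l
      unfold par ind
      rw [Int.ediv_ediv_of_nonneg (by positivity), pow_succ]
    rw [this]

lemma par_ind (i : ℕ) (n : Pt d) : par (ind i n) = ind (i + 1) n := by
  funext l
  unfold par ind
  rw [Int.ediv_ediv_of_nonneg (by positivity), pow_succ]

lemma Hyp.cone_chain (h : Hyp f M S lev large typ e ref Rst eps osc K₀ N H H₁ N₂ N₃ γ δ a w)
    (n : Pt d) {i k : ℕ} (hik : i ≤ k) (hk : k ≤ K₀)
    (hno : ∀ j, i ≤ j → j < k → ind j n ∉ Rst j) (hgood : Good γ δ (e i (ind i n)) w)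
    {j : ℕ} (h1 : i ≤ j) (h2 : j < k) : Cone γ (e j (ind j n)) w := by
  have hR : ∀ j, i ≤ j → j < k → ‖e j (ind j n) - ref i (ind i n)‖ ≤ δ := by
    intro j h1 h2
    have e1 : ref i (ind i n) = ref j (ind j n) :=
      h.ref_eq n h1 (by omega) (fun j' h3 h4 => hno j' h3 (by omega))
    rw [e1]
    exact (h.hR3 j (by omega) _ (hno j h1 h2)).2.le
  refine hgood _ (h.he _ _) ?_
  have a1 := hR i le_rfl (by omega)
  have a2 := hR j h1 h2
  have : e i (ind i n) - e j (ind j n) =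
    (e i (ind i n) - ref i (ind i n)) - (e j (ind j n) - ref i (ind i n)) := by abel
  rw [this]
  refine (norm_sub_le _ _).trans ?_
  linarith

lemma Hyp.cone_last (h : Hyp f M S lev large typ e ref Rst eps osc K₀ N H H₁ N₂ N₃ γ δ a w)
    (n : Pt d) {i k : ℕ} (hik : i ≤ k) (hk : k ≤ K₀)
    (hno : ∀ j, i ≤ j → j < k → ind j n ∉ Rst j) (hkR : ind k n ∈ Rst k)
    (hgood : Good γ δ (e i (ind i n)) w) : Cone γ (e k (ind k n)) w := by
  refine hgood _ (h.he _ _) ?_
  rcases Nat.eq_or_lt_of_le hik with rfl | hlt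
  · rw [sub_self, norm_zero]; have := h.hδ; positivity
  · have e1 : ref i (ind i n) = ref k (ind k n) := h.ref_eq n hik hk hno
    rw [h.hR2 k hk _ hkR] at e1
    rw [← e1]
    have := (h.hR3 i (by omega) _ (hno i le_rfl hlt)).2
    have := h.hδ
    linarith

/-- level of the final cube -/
lemma Hyp.exists_restart (h : Hyp f M S lev large typ e ref Rst eps osc K₀ N H H₁ N₂ N₃ γ δ a w)
    (n : Pt d) {i : ℕ} (hi : i ≤ K₀) :
    ∃ k, i ≤ k ∧ k ≤ K₀ ∧ ind k n ∈ Rst k ∧ ∀ j, i ≤ j → j < k → ind j n ∉ Rst j := by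
  classical
  have hex : ∃ k, i ≤ k ∧ ind k n ∈ Rst k := ⟨K₀, hi, h.hR1 _⟩
  refine ⟨Nat.find hex, (Nat.find_spec hex).1, Nat.find_min' hex ⟨hi, h.hR1 _⟩,
    (Nat.find_spec hex).2, fun j h1 h2 h3 => ?_⟩
  exact Nat.find_min hex h2 ⟨h1, h3⟩

/-- the classification -/
theorem Hyp.classify (h : Hyp f M S lev large typ e ref Rst eps osc K₀ N H H₁ N₂ N₃ γ δ a w)
    {n : Pt d} (hn : n ∈ PS M large typ a w lam) :
    ∃ i, 2 ≤ i ∧ i ≤ K₀ ∧
      (∀ t : ℕ, 1 ≤ t → t < 4 ^ i → n + (t : ℤ) • w ∉ PS M large typ a w lam) ∧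
      (lam ∈ Set.Icc (s1 M S lev large e N H γ a i (ind i n) - eps i (ind i n))
          (s1 M S lev large e N H γ a i (ind i n)) ∨
       lam ∈ Set.Icc (s2 M lev large i (ind i n) - eps i (ind i n))
          (s2 M lev large i (ind i n)) ∨
       lam ∈ Set.Icc (bref f N₂ i w (ind i n) - eps i (ind i n))
          (bref f N₂ i w (ind i n) + eps i (ind i n)) ∨
       (ind i n ∈ Rst i ∧ lam ∈ Set.Icc (bref f N₂ i w (ind i n) - osc i (ind i n))
          (bref f N₂ i w (ind i n) + eps i (ind i n)))) := by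
  classical
  obtain ⟨hl, hle, hlt, htyp⟩ := hn
  set i := lev n with hi
  obtain ⟨hi2, hiK⟩ := h.hlev n hl
  rw [← hi] at hi2 hiK
  have h4 : (0 : ℤ) < 4 ^ i := by positivity
  have h4n : 0 < 4 ^ i := by positivity
  have hnS : n ∈ S n := h.hS n hl
  have haS : n + a ∉ S n := fun hc => absurd (h.avg_le hc) (by linarith)
  -- the gap at the own scale
  have hgap : ∀ t : ℕ, 1 ≤ t → t ≤ 3 * 4 ^ i → n + (t : ℤ) • w ∉ PS M large typ a w lam := by
    intro t h1 h2 hc
    have h3 := h.hG1 n hl haS t h1 h2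
    rw [htyp] at h3
    have h5 := h.avg_le h3
    have h6 := hc.2.1
    have e1 : n + ((t : ℤ) • w + a) = n + (t : ℤ) • w + a := by abel
    rw [e1] at h5
    linarith
  rcases h.hG2 n hl haS (e i (ind i n)) (h.he _ _) with hgood | hbad
  swap
  · -- bad pairs
    refine ⟨i, hi2, hiK, fun t h1 h2 => hgap t h1 (by omega), Or.inl ?_⟩
    set F := {n' : Pt d | n' ∈ W 0 i (ind i n) ∧ n' ∈ large ∧ lev n' = i ∧
      Bad γ N H (S n') i (e i (ind i n)) n' a} with hF
    have hFfin : F.Finite := (W 0 i (ind i n)).finite_toSet.subset fun x hx => hx.1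
    have hnF : n ∈ F := ⟨mem_W0.mpr rfl, hl, rfl, hbad⟩
    have hle' : ∀ n' ∈ F, M n' ≤ lam + eps i (ind i n) := by
      rintro n' ⟨hn'W, hn'l, hn'i, w', a', m, hw', hcone, hm, ha', hmem⟩
      have hind : ind i n' = ind i n := mem_W0.mp hn'W
      have hkey := h.hA1 n' hn'l w' (a' + (n - n')) m hw' (by rw [hn'i, hind]; exact hcone)
      rw [hn'i, hind] at hkey
      have hm3 : ∀ l, |(a' + (n - n')) l| + 4 ^ i ≤ (m : ℤ) := by
        intro l
        have h1 := ha' l
        have h2 := abs_sub_of_ind hind.symm l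
        have h3 : |(a' + (n - n')) l| ≤ |a' l| + |n l - n' l| := by
          simp only [Pi.add_apply, Pi.sub_apply]
          exact abs_add_le _ _
        linarith
      have hm1 : 3 * 4 ^ i ≤ m := by
        rcases Nat.eq_zero_or_pos d with hd | hd
        · exfalso
          subst hd
          apply haS
          have : n + a = n := Subsingleton.elim _ _
          rw [this]; exact hnS
        · have h1 := ha' ⟨0, hd⟩
          have h2 := abs_nonneg (a' ⟨0, hd⟩)
          have : (3 * 4 ^ i : ℤ) ≤ m := by linarith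
          exact_mod_cast this
      have hkey2 := hkey hm1 (hm.trans (Nat.mul_le_mul_right _ h.hH₁)) hm3
      have hy : n + a ∈ (S n').map (addRightEmbedding ((m : ℤ) • w' + (a' + (n - n')))) := by
        rw [Finset.mem_map]
        refine ⟨_, hmem, ?_⟩
        rw [addRightEmbedding_apply]
        abel
      have := h.htr n' (n + a) _ hy
      rw [h.hM n']
      linarith
    have hbdd : BddAbove (M '' F) := (hFfin.image M).bddAbove
    constructor
    · have : sSup (M '' F) ≤ lam + eps i (ind i n) := by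
        refine csSup_le ⟨M n, n, hnF, rfl⟩ ?_
        rintro _ ⟨n', hn', rfl⟩
        exact hle' n' hn'
      change sSup (M '' F) - eps i (ind i n) ≤ lam
      linarith
    · exact hlt.le.trans (le_csSup hbdd ⟨n, hnF, rfl⟩)
  · -- good pairs
    rw [htyp] at hgood
    have hcone0 : Cone γ (e i (ind i n)) w := by
      refine hgood _ (h.he _ _) ?_
      rw [sub_self, norm_zero]; have := h.hδ; positivity
    -- the next point
    by_cases hnear : ∃ g : ℕ, 1 ≤ g ∧ g < N₃ * 4 ^ i ∧ n + (g : ℤ) • w ∈ PS M large typ a w lam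
    · obtain ⟨g, hg1, hg2, hgP⟩ := hnear
      have hg3 : 3 * 4 ^ i < g := by
        by_contra hc
        exact hgap g hg1 (by omega) hgP
      refine ⟨i, hi2, hiK, fun t h1 h2 => hgap t h1 (by omega), Or.inr (Or.inl ?_)⟩
      set F := {n' : Pt d | n' ∈ W 0 i (ind i n) ∧ n' ∈ large ∧ lev n' = i} with hF
      have hFfin : F.Finite := (W 0 i (ind i n)).finite_toSet.subset fun x hx => hx.1
      have hnF : n ∈ F := ⟨mem_W0.mpr rfl, hl, rfl⟩
      have hle' : ∀ n' ∈ F, M n' ≤ lam + eps i (ind i n) := by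
        rintro n' ⟨hn'W, hn'l, hn'i⟩
        have hind : ind i n' = ind i n := mem_W0.mp hn'W
        have hkey := h.hA1 n' hn'l w (a + (n - n')) g h.hw (by rw [hn'i, hind]; exact hcone0)
        rw [hn'i, hind] at hkey
        have hm3 : ∀ l, |(a + (n - n')) l| + 4 ^ i ≤ (g : ℤ) := by
          intro l
          have h1 := h.ha l
          have h2 := abs_sub_of_ind hind.symm l
          have h3 : |(a + (n - n')) l| ≤ |a l| + |n l - n' l| := by
            simp only [Pi.add_apply, Pi.sub_apply]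
            exact abs_add_le _ _
          have h5 : (3 * 4 ^ i : ℤ) < g := by exact_mod_cast hg3
          linarith
        have hkey2 := hkey hg3.le (hg2.le.trans (Nat.mul_le_mul_right _ h.hH₁')) hm3
        have hy : n + (g : ℤ) • w + a ∈
            (S n').map (addRightEmbedding ((g : ℤ) • w + (a + (n - n')))) := by
          rw [Finset.mem_map]
          refine ⟨n', h.hS n' hn'l, ?_⟩
          rw [addRightEmbedding_apply]
          abel
        have h5 := h.htr n' _ _ hy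
        have h6 := hgP.2.1
        rw [h.hM n']
        linarith
      have hbdd : BddAbove (M '' F) := (hFfin.image M).bddAbove
      constructor
      · have : sSup (M '' F) ≤ lam + eps i (ind i n) := by
          refine csSup_le ⟨M n, n, hnF, rfl⟩ ?_
          rintro _ ⟨n', hn', rfl⟩
          exact hle' n' hn'
        change sSup (M '' F) - eps i (ind i n) ≤ lam
        linarith
      · exact hlt.le.trans (le_csSup hbdd ⟨n, hnF, rfl⟩)
    · push Not at hnear
      obtain ⟨κ, hκ1, hκ2, hκR, hκno⟩ := h.exists_restart n hiK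
      -- the final level
      have hfin : ∃ k, i ≤ k ∧ k ≤ κ ∧
          (∀ t : ℕ, 1 ≤ t → t < N₃ * 4 ^ k → n + (t : ℤ) • w ∉ PS M large typ a w lam) ∧
          (bref f N₂ k w (ind k n) - eps k (ind k n) ≤ lam ∨
            (k = κ ∧ bref f N₂ k w (ind k n) - osc k (ind k n) ≤ lam)) := by
        by_cases hcase : ∀ t : ℕ, 1 ≤ t → t < N₃ * 4 ^ κ →
            n + (t : ℤ) • w ∉ PS M large typ a w lam
        · refine ⟨κ, hκ1, le_rfl, hcase, Or.inr ⟨rfl, ?_⟩⟩
          obtain ⟨B, hB1, hB2, hB3⟩ := h.hex (n + a) κ (by omega) hκ2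
          have := h.hA5 κ (ind κ n) n B (by omega) (mem_W0.mpr rfl) hB1 hB2
          linarith
        · push Not at hcase
          obtain ⟨t₀, ht1, ht2, ht3⟩ := hcase
          have hex : ∃ t : ℕ, 1 ≤ t ∧ n + (t : ℤ) • w ∈ PS M large typ a w lam := ⟨t₀, ht1, ht3⟩
          set g := Nat.find hex with hg
          have hg1 : 1 ≤ g := (Nat.find_spec hex).1
          have hgP : n + (g : ℤ) • w ∈ PS M large typ a w lam := (Nat.find_spec hex).2
          have hgmin : ∀ t : ℕ, 1 ≤ t → t < g → n + (t : ℤ) • w ∉ PS M large typ a w lam :=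
            fun t h1 h2 h3 => Nat.find_min hex h2 ⟨h1, h3⟩
          have hgt : g < N₃ * 4 ^ κ := (Nat.find_min' hex ⟨ht1, ht3⟩).trans_lt ht2
          have hgi : N₃ * 4 ^ i ≤ g := by
            by_contra hc
            exact hnear g hg1 (by omega) hgP
          -- the largest k with N₃ 4^k ≤ g
          have hex2 : ∃ k, i ≤ k ∧ g < N₃ * 4 ^ (k + 1) := by
            refine ⟨κ, hκ1, hgt.trans_le ?_⟩
            exact Nat.mul_le_mul_left _ (Nat.pow_le_pow_right (by norm_num) (by omega))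
          set k := Nat.find hex2 with hk
          have hk1 : i ≤ k := (Nat.find_spec hex2).1
          have hk2 : g < N₃ * 4 ^ (k + 1) := (Nat.find_spec hex2).2
          have hk3 : N₃ * 4 ^ k ≤ g := by
            rcases Nat.eq_or_lt_of_le hk1 with he | hlt'
            · rw [← he]; exact hgi
            · by_contra hc
              push Not at hc
              have := Nat.find_min hex2 (m := k - 1) (by omega)
              apply this
              refine ⟨by omega, ?_⟩
              have e1 : k - 1 + 1 = k := by omega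
              rw [e1]; exact hc
          have hkκ : k < κ := by
            by_contra hc
            push Not at hc
            have : N₃ * 4 ^ κ ≤ N₃ * 4 ^ k :=
              Nat.mul_le_mul_left _ (Nat.pow_le_pow_right (by norm_num) hc)
            omega
          refine ⟨k, hk1, hkκ.le, fun t h1 h2 => hgmin t h1 (by omega), Or.inl ?_⟩
          obtain ⟨B, hB1, hB2, hB3⟩ := h.hex (n + ((g : ℤ) • w + a)) k (by omega) (by omega)
          have h4g : g ≤ 4 * (N₃ * 4 ^ k) := by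
            rw [pow_succ] at hk2
            nlinarith
          have h7 := h.hA4 k (ind k n) n g B (by omega)
            (h.cone_chain n hκ1 hκ2 hκno hgood hk1 hkκ) (mem_W0.mpr rfl) hk3 h4g hB1 hB2
          have h8 := hgP.2.1
          have e1 : n + ((g : ℤ) • w + a) = n + (g : ℤ) • w + a := by abel
          rw [e1] at hB3
          linarith
      obtain ⟨k, hk1, hk2, hk3, hk4⟩ := hfin
      have hgapk : ∀ j, j ≤ k → ∀ t : ℕ, 1 ≤ t → t < 4 ^ j →
          n + (t : ℤ) • w ∉ PS M large typ a w lam := by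
        intro j hj t h1 h2
        refine hk3 t h1 (h2.trans_le ?_)
        have h5 : 4 ^ j ≤ 4 ^ k := Nat.pow_le_pow_right (by norm_num) hj
        have := h.hN₃
        nlinarith
      have hstart : lam < bref f N₂ i w (ind i n) + eps i (ind i n) := by
        have := h.hA2 n hl hcone0
        rw [← h.hM n] at this
        linarith
      have hstep : ∀ j, i ≤ j → j < k →
          bref f N₂ j w (ind j n) ≤ bref f N₂ (j + 1) w (ind (j + 1) n) + eps j (ind j n) := by
        intro j h1 h2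
        have := h.hA3 j (ind j n) (by omega)
          (h.cone_chain n hκ1 hκ2 hκno hgood h1 (by omega))
        rw [par_ind] at this
        exact this
      rcases chain (fun j => bref f N₂ j w (ind j n)) (fun j => eps j (ind j n)) lam hk1 hstart
        hstep (fun j => h.heps _ _) with ⟨j, hj1, hj2, hj3⟩ | hlast
      · exact ⟨j, by omega, by omega, hgapk j (by omega), Or.inr (Or.inr (Or.inl hj3))⟩
      · rcases hk4 with hk4 | ⟨hkκ, hk4⟩
        · exact ⟨k, by omega, by omega, hgapk k le_rfl,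
            Or.inr (Or.inr (Or.inl ⟨hk4, hlast.le⟩))⟩
        · refine ⟨k, by omega, by omega, hgapk k le_rfl,
            Or.inr (Or.inr (Or.inr ⟨?_, hk4, hlast.le⟩))⟩
          rw [hkκ]; exact hκR

end

end Pool.Agent.W11
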