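import Pool.Agent.W11.Defs
import Pool.Agent.Lib.H58FracMaxGeo

/-!
W11 (helper files for MP_2332c1_an): bodies, basic facts.
-/

set_option autoImplicit false

open Finset
open scoped RealInnerProductSpace
open Pool.Agent.Lib.H58FracMax (toR LS Body)

namespace Pool.Agent.W11

variable {d : ℕ}

variable {K : Set (Fin d → ℝ)} {ρ R : ℝ}

lemma mem_LS_of_near (hK : Body K ρ R) {x : Fin d → ℝ} {r : ℝ} (hr : 0 ≤ r) {m : Pt d}
    (hm : ∀ l, |(m l : ℝ) - x l| ≤ ρ * r) : m ∈ LS K x r := by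
  have hρ := hK.rho
  obtain ⟨z, hz, hz2⟩ := hK.small (t := ρ * r) (by positivity) (toR m - x) (fun i => hm i)
  refine ⟨z, hz, ?_⟩
  have h1 : ρ * r / ρ = r := by field_simp
  rw [h1] at hz2
  rw [← hz2]; abel

lemma rho_le_R (hK : Body K ρ R) (hd : 1 ≤ d) : ρ ≤ R := by
  have hρ := hK.rho
  have h1 : (fun _ => ρ : Fin d → ℝ) ∈ K := hK.inner _ fun i => by rw [abs_of_pos hρ]
  have h2 := hK.outer _ h1 ⟨0, hd⟩
  rwa [abs_of_pos hρ] at h2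

lemma norm_q_le (hK : Body K ρ R) (hd : 1 ≤ d) {x : Fin d → ℝ} {r : ℝ} (hr : 0 ≤ r) {m : Pt d}
    (hm : m ∈ LS K x r) : ‖x - toR m‖ ≤ R * r := by
  have hR := hK.R_nonneg hd
  rw [pi_norm_le_iff_of_nonneg (by positivity)]
  intro l
  have h1 := hK.abs_le hr hm l
  rw [Real.norm_eq_abs, Pi.sub_apply, abs_sub_comm]
  exact h1

lemma lt_norm_q (hK : Body K ρ R) {x : Fin d → ℝ} {r : ℝ} (hr : 0 ≤ r) {m a : Pt d}
    (ha : ∀ l, |a l| ≤ 1) (hm : m + a ∉ LS K x r) : ρ * r - 1 < ‖x - toR m‖ := by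
  by_contra hcon
  push Not at hcon
  apply hm
  apply mem_LS_of_near hK hr
  intro l
  have h1 : |x l - (m l : ℝ)| ≤ ρ * r - 1 := (norm_le_pi_norm (x - toR m) l).trans hcon
  have h2 : |(a l : ℝ)| ≤ 1 := by exact_mod_cast ha l
  rw [abs_le] at h1 h2
  rw [Pi.add_apply, Int.cast_add, abs_le]
  constructor <;> linarith [h1.1, h1.2, h2.1, h2.2]

/-- Euclidean norm of a lattice vector -/
lemma norm_toE_le {u : Pt d} {t : ℝ} (ht : 0 ≤ t) (hu : ∀ l, |(u l : ℝ)| ≤ t) :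
    ‖toE u‖ ≤ √d * t := by
  rw [EuclideanSpace.norm_eq]
  have h1 : ∑ l, ‖(toE u) l‖ ^ 2 ≤ d * t ^ 2 := by
    calc ∑ l, ‖(toE u) l‖ ^ 2 ≤ ∑ _l : Fin d, t ^ 2 := by
          apply Finset.sum_le_sum
          intro l _
          have h2 : ‖(toE u) l‖ = |(u l : ℝ)| := rfl
          rw [h2]
          exact pow_le_pow_left₀ (abs_nonneg _) (hu l) 2
      _ = d * t ^ 2 := by rw [Finset.sum_const, Finset.card_univ, Fintype.card_fin, nsmul_eq_mul]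
  calc √(∑ l, ‖(toE u) l‖ ^ 2) ≤ √(d * t ^ 2) := Real.sqrt_le_sqrt h1
    _ = √d * t := by rw [Real.sqrt_mul (Nat.cast_nonneg _), Real.sqrt_sq ht]

lemma norm_toLp_le {u : Fin d → ℝ} {t : ℝ} (ht : 0 ≤ t) (hu : ∀ l, |u l| ≤ t) :
    ‖(WithLp.toLp 2 u : EE d)‖ ≤ √d * t := by
  rw [EuclideanSpace.norm_eq]
  have h1 : ∑ l, ‖(WithLp.toLp 2 u : EE d) l‖ ^ 2 ≤ d * t ^ 2 := by
    calc ∑ l, ‖(WithLp.toLp 2 u : EE d) l‖ ^ 2 ≤ ∑ _l : Fin d, t ^ 2 := by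
          apply Finset.sum_le_sum
          intro l _
          have h2 : ‖(WithLp.toLp 2 u : EE d) l‖ = |u l| := rfl
          rw [h2]
          exact pow_le_pow_left₀ (abs_nonneg _) (hu l) 2
      _ = d * t ^ 2 := by rw [Finset.sum_const, Finset.card_univ, Fintype.card_fin, nsmul_eq_mul]
  calc √(∑ l, ‖(WithLp.toLp 2 u : EE d) l‖ ^ 2) ≤ √(d * t ^ 2) := Real.sqrt_le_sqrt h1
    _ = √d * t := by rw [Real.sqrt_mul (Nat.cast_nonneg _), Real.sqrt_sq ht]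

lemma abs_coord_le (e : EE d) (l : Fin d) : |e l| ≤ ‖e‖ := PiLp.norm_apply_le e l

end Pool.Agent.W11
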