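import Pool.Agent.W11.GeomDefs
import Pool.Agent.W11.GeomA0

/-!
W11 M9: size and cardinality of a body of radius `r ∈ [h0 4^i, 4 h0 4^i)`.
-/

set_option autoImplicit false

open Finset
open scoped RealInnerProductSpace
open Pool.Agent.Lib.H58FracMax (toR LS Body)

namespace Pool.Agent.W11

variable {d : ℕ} {K : Set (Fin d → ℝ)} {ρ R h0 : ℝ} {N H : ℕ}

lemma GC.one_le_N (hd : 1 ≤ d) (hK : Body K ρ R) (hC : GC d ρ R N H h0) : (1 : ℝ) ≤ N := by
  have hρ := hK.rho
  have hR : ρ ≤ R := rho_le_R hK hd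
  have hd1 : (1 : ℝ) ≤ d := by exact_mod_cast hd
  have h1 := hC.hN
  by_contra hcon
  push Not at hcon
  have h2 : N < 1 := by exact_mod_cast hcon
  have h3 : N = 0 := by omega
  rw [h3] at h1
  have hR0 : 0 < R := lt_of_lt_of_le hρ hR
  have hd0 : (0 : ℝ) < d := by linarith
  have h4 : 0 < 256 * (d : ℝ) * R := by positivity
  simp at h1
  linarith

lemma GC.rho_h0 (hd : 1 ≤ d) (hK : Body K ρ R) (hC : GC d ρ R N H h0) : 192 ≤ ρ * h0 := by
  have hN1 := hC.one_le_N hd hK
  have hd1 : (1 : ℝ) ≤ d := by exact_mod_cast hd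
  refine le_trans ?_ hC.hh
  have h1 : (1 : ℝ) ≤ d * N := by nlinarith
  have h2 : (24 : ℝ) ≤ 4 * N + 20 := by linarith
  nlinarith

lemma GC.h0_pos (hd : 1 ≤ d) (hK : Body K ρ R) (hC : GC d ρ R N H h0) : 0 < h0 := by
  have h1 := hC.rho_h0 hd hK
  have hρ := hK.rho
  by_contra hcon
  push Not at hcon
  nlinarith

theorem geom_size (hd : 1 ≤ d) (hK : Body K ρ R) (hC : GC d ρ R N H h0) {i : ℕ}
    {x : Fin d → ℝ} {r : ℝ} {m : Pt d} {S : Finset (Pt d)} (h1 : h0 * 4 ^ i ≤ r)
    (h2 : r < 4 * (h0 * 4 ^ i)) (hS : (S : Set (Pt d)) = LS K x r) (hm : m ∈ S) :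
    (∀ y ∈ S, ∀ l, |y l - m l| ≤ H * 4 ^ i) ∧ (4 ^ i) ^ d ≤ S.card := by
  have hρ := hK.rho
  have hR := hK.R_nonneg hd
  have hh0 := hC.h0_pos hd hK
  have hr : 0 ≤ r := le_trans (by positivity) h1
  have hmem : ∀ y, y ∈ S ↔ y ∈ LS K x r := fun y => by rw [← hS]; rfl
  constructor
  · intro y hy l
    have hy1 := hK.abs_le hr ((hmem y).1 hy) l
    have hm1 := hK.abs_le hr ((hmem m).1 hm) l
    have h3 : |(y l : ℝ) - m l| ≤ 2 * (R * r) := by
      have h4 : (y l : ℝ) - m l = ((y l : ℝ) - x l) - ((m l : ℝ) - x l) := by ring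
      rw [h4]
      refine (abs_sub _ _).trans ?_
      linarith
    have h5 : |(y l : ℝ) - m l| ≤ (H : ℝ) * 4 ^ i := by
      refine h3.trans ?_
      have h6 : R * r ≤ R * (4 * (h0 * 4 ^ i)) := mul_le_mul_of_nonneg_left h2.le hR
      have h7 : 8 * R * h0 * 4 ^ i ≤ H * 4 ^ i :=
        mul_le_mul_of_nonneg_right hC.hH (by positivity)
      linarith
    have h8 : ((|y l - m l| : ℤ) : ℝ) ≤ (((H : ℤ) * 4 ^ i : ℤ) : ℝ) := by
      push_cast
      exact h5
    exact_mod_cast h8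
  · -- the box `⌊x⌋ + [0, 4^i)^d` lies in `S`
    let f : Pt d → Pt d := fun t => fun l => ⌊x l⌋ + t l
    have hinj : Function.Injective f := by
      intro s t hst
      funext l
      have := congrFun hst l
      simpa [f] using this
    have hsub : (bx d (4 ^ i)).image f ⊆ S := by
      intro y hy
      obtain ⟨t, ht, rfl⟩ := Finset.mem_image.1 hy
      rw [hmem]
      apply mem_LS_of_near hK hr
      intro l
      have ht1 : 0 ≤ t l ∧ t l < ((4 ^ i : ℕ) : ℤ) := by
        have := (Fintype.mem_piFinset.1 ht) l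
        exact Finset.mem_Ico.1 this
      have ht2 : (0 : ℝ) ≤ t l := by exact_mod_cast ht1.1
      have ht3 : (t l : ℝ) < 4 ^ i := by exact_mod_cast ht1.2
      have h3 := Int.floor_le (x l)
      have h4 := Int.lt_floor_add_one (x l)
      have h5 : (1 : ℝ) ≤ 4 ^ i := one_le_pow₀ (by norm_num)
      have h6 : 192 * (4 : ℝ) ^ i ≤ ρ * r := by
        have h7 : ρ * (h0 * 4 ^ i) ≤ ρ * r := mul_le_mul_of_nonneg_left h1 hρ.le
        have h8 := mul_le_mul_of_nonneg_right (hC.rho_h0 hd hK)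
          (show (0 : ℝ) ≤ 4 ^ i by positivity)
        linarith
      have h9 : ((f t l : ℤ) : ℝ) = (⌊x l⌋ : ℝ) + t l := by
        simp [f]
      rw [h9, abs_le]
      constructor <;> linarith
    have hcard : ((bx d (4 ^ i)).image f).card = (4 ^ i) ^ d := by
      rw [Finset.card_image_of_injective _ hinj, bx, Fintype.card_piFinset]
      simp only [Int.card_Ico, sub_zero, Int.toNat_natCast, Finset.prod_const, Finset.card_univ,
        Fintype.card_fin]
    rw [← hcard]
    exact Finset.card_le_card hsub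

end Pool.Agent.W11
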