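import Pool.Agent.W11.GeomA1

/-!
W11 M9: the short path `m + t w + a` stays in the body.
-/

set_option autoImplicit false

open Finset
open scoped RealInnerProductSpace
open Pool.Agent.Lib.H58FracMax (toR LS Body)

namespace Pool.Agent.W11

variable {d : ℕ} {K : Set (Fin d → ℝ)} {ρ R h0 : ℝ} {N H : ℕ}

theorem geom_G1 (hd : 1 ≤ d) (hK : Body K ρ R) (hC : GC d ρ R N H h0) {i : ℕ}
    {x : Fin d → ℝ} {r : ℝ} {m : Pt d} {S : Finset (Pt d)} (h1 : h0 * 4 ^ i ≤ r)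
    (_h2 : r < 4 * (h0 * 4 ^ i)) (hS : (S : Set (Pt d)) = LS K x r) (hm : m ∈ S)
    (a : Pt d) (ha : ∀ l, |a l| ≤ 1) (hma : m + a ∉ S) :
    tw N (x - toR m) ≠ 0 ∧
      ∀ t : ℕ, 1 ≤ t → t ≤ 3 * 4 ^ i → m + ((t : ℤ) • tw N (x - toR m) + a) ∈ S := by
  have hρ := hK.rho
  have hR := hK.R_nonneg hd
  have hρR := rho_le_R hK hd
  have hR0 : 0 < R := lt_of_lt_of_le hρ hρR
  have hh0 := hC.h0_pos hd hK
  have hN1 := hC.one_le_N hd hK
  have hd1 : (1 : ℝ) ≤ d := by exact_mod_cast hd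
  have hr : 0 ≤ r := le_trans (by positivity) h1
  have hmem : ∀ y, y ∈ S ↔ y ∈ LS K x r := fun y => by rw [← hS]; rfl
  have hq1 : ρ * r - 1 < ‖x - toR m‖ := lt_norm_q hK hr ha (fun h => hma ((hmem _).2 h))
  have hq2 : ‖x - toR m‖ ≤ R * r := norm_q_le hK hd hr ((hmem m).1 hm)
  have h4i : (1 : ℝ) ≤ 4 ^ i := one_le_pow₀ (by norm_num)
  -- `ρ r` is large
  have hρr : 192 * (N : ℝ) * 4 ^ i ≤ ρ * r := by
    have h3 : 192 * (N : ℝ) ≤ ρ * h0 := by
      refine le_trans ?_ hC.hh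
      have h4 : (24 : ℝ) ≤ 4 * N + 20 := by linarith
      have h5 : (N : ℝ) ≤ d * N := by nlinarith
      nlinarith
    have h4 : ρ * (h0 * 4 ^ i) ≤ ρ * r := mul_le_mul_of_nonneg_left h1 hρ.le
    have h5 := mul_le_mul_of_nonneg_right h3 (show (0 : ℝ) ≤ 4 ^ i by positivity)
    linarith
  set q : Fin d → ℝ := x - toR m with hqdef
  have hNi : (1 : ℝ) ≤ N * 4 ^ i := by nlinarith
  have hqpos : 0 < ‖q‖ := by
    have : 0 < ρ * r - 1 := by nlinarith
    linarith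
  refine ⟨tw_ne_zero (by exact_mod_cast hN1) (norm_pos_iff.mp hqpos), ?_⟩
  intro t ht1 ht2
  rw [hmem]
  have ht1' : (1 : ℝ) ≤ t := by exact_mod_cast ht1
  have ht2' : (t : ℝ) ≤ 3 * 4 ^ i := by exact_mod_cast ht2
  -- the parameter `s`
  set s : ℝ := t * N / ‖q‖ with hs
  have hs0 : 0 ≤ s := by positivity
  have hs1 : s ≤ 1 := by
    rw [hs, div_le_one hqpos]
    have h3 : (t : ℝ) * N ≤ 3 * 4 ^ i * N := mul_le_mul_of_nonneg_right ht2' (by linarith)
    nlinarith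
  -- decomposition
  obtain ⟨z, hz, hz2⟩ := (hmem m).1 hm
  -- error vector
  let er : Fin d → ℝ := fun l => (t : ℝ) * ((tw N q l : ℝ) - (N : ℝ) * (q l / ‖q‖)) + (a l : ℝ)
  have her : ∀ l, |er l| ≤ (t : ℝ) / 2 + 1 := by
    intro l
    have h3 := tw_sub N q l
    have h4 : |(a l : ℝ)| ≤ 1 := by exact_mod_cast ha l
    have h5 : |(t : ℝ) * ((tw N q l : ℝ) - (N : ℝ) * (q l / ‖q‖))| ≤ (t : ℝ) / 2 := by
      rw [abs_mul, abs_of_nonneg (by linarith : (0 : ℝ) ≤ t), abs_sub_comm]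
      nlinarith
    exact (abs_add_le _ _).trans (by linarith)
  obtain ⟨z', hz', hz'2⟩ := hK.small (t := (t : ℝ) / 2 + 1) (by linarith) er her
  -- the error lies in `s r K`
  have hbig : ((t : ℝ) / 2 + 1) / ρ ≤ s * r := by
    rw [div_le_iff₀ hρ, hs]
    have h3 : (t : ℝ) / 2 + 1 ≤ 256 * t := by linarith
    refine h3.trans ?_
    have h4 : 256 * R ≤ N * ρ := by
      refine le_trans ?_ hC.hN
      nlinarith
    rw [div_mul_eq_mul_div, div_mul_eq_mul_div, le_div_iff₀ hqpos]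
    calc 256 * (t : ℝ) * ‖q‖ ≤ 256 * t * (R * r) :=
          mul_le_mul_of_nonneg_left hq2 (by positivity)
      _ = (256 * R) * (t * r) := by ring
      _ ≤ (N * ρ) * (t * r) := mul_le_mul_of_nonneg_right h4 (by positivity)
      _ = t * N * r * ρ := by ring
  have hsr : 0 ≤ s * r := by positivity
  -- `er = (s r) • z''` with `z'' ∈ K`
  obtain ⟨z'', hz'', hz''2⟩ : ∃ z'' ∈ K, er = (s * r) • z'' := by
    obtain ⟨y, hy, hy2⟩ := hK.add_mem (r := ((t : ℝ) / 2 + 1) / ρ)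
      (t := s * r - ((t : ℝ) / 2 + 1) / ρ) (by positivity) (by linarith) hz' hK.zero_mem
    refine ⟨y, hy, ?_⟩
    rw [hz'2]
    rw [smul_zero, add_zero] at hy2
    rw [hy2]
    congr 1
    ring
  obtain ⟨y, hy, hy2⟩ := hK.add_mem (r := (1 - s) * r) (t := s * r)
    (mul_nonneg (by linarith) hr) hsr hz hz''
  refine ⟨y, hy, ?_⟩
  have hsum : (1 - s) * r + s * r = r := by ring
  rw [hsum] at hy2
  rw [← hy2]
  -- compute
  have hqz : ∀ l, q l = -(r * z l) := by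
    intro l
    have h3 := congrFun hz2 l
    simp only [Pi.add_apply, Pi.smul_apply, smul_eq_mul] at h3
    rw [hqdef, Pi.sub_apply, h3]
    ring
  funext l
  have h6 : er l = (s * r) * z'' l := by rw [hz''2]; rfl
  have h3 := congrFun hz2 l
  simp only [Pi.add_apply, Pi.smul_apply, smul_eq_mul] at h3
  simp only [toR] at h3
  simp only [toR, Pi.add_apply, Pi.smul_apply, smul_eq_mul, Int.cast_add, Int.cast_mul,
    Int.cast_natCast]
  rw [← h6]
  simp only [er]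
  have h7 := hqz l
  have h8 : (N : ℝ) * (q l / ‖q‖) * t = s * q l := by
    rw [hs]; ring
  rw [h3]
  have h9 : (t : ℝ) * ((tw N q l : ℝ) - (N : ℝ) * (q l / ‖q‖)) = t * (tw N q l : ℝ) - s * q l := by
    rw [← h8]; ring
  rw [h9, h7]
  ring

end Pool.Agent.W11
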