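import Pool.Agent.W11.Defs
import Pool.Agent.Lib.H58FracMaxGeo

/-!
W11 M9: common definitions for the geometric part (type vector, constants).
-/

set_option autoImplicit false

open Finset
open scoped RealInnerProductSpace ENNReal

namespace Pool.Agent.W11

variable {d : ℕ}

/-- the type vector: coordinatewise rounding of `N q / ‖q‖` (sup norm) -/
noncomputable def tw (N : ℕ) (q : Fin d → ℝ) : Pt d := fun l => round ((N : ℝ) * (q l / ‖q‖))

/-- the constants of the geometric part -/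
structure GC (d : ℕ) (ρ R : ℝ) (N H : ℕ) (h0 : ℝ) : Prop where
  hN : 256 * d * R ≤ N * ρ
  hh : 8 * d * N * (4 * N + 20) ≤ ρ * h0
  hH : 8 * R * h0 ≤ H

lemma div_norm_abs_le (q : Fin d → ℝ) (l : Fin d) : |q l / ‖q‖| ≤ 1 := by
  rw [abs_div, abs_norm]
  have h1 : |q l| ≤ ‖q‖ := norm_le_pi_norm q l
  exact div_le_one_of_le₀ h1 (norm_nonneg _)

/-- `|w - N q/‖q‖| ≤ 1/2` -/
lemma tw_sub (N : ℕ) (q : Fin d → ℝ) (l : Fin d) :
    |(N : ℝ) * (q l / ‖q‖) - tw N q l| ≤ 1 / 2 := abs_sub_round _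

lemma tw_le (N : ℕ) (q : Fin d → ℝ) (l : Fin d) : |tw N q l| ≤ (N : ℤ) := by
  have h1 := div_norm_abs_le q l
  have h2 : |(N : ℝ) * (q l / ‖q‖)| ≤ N := by
    rw [abs_mul, Nat.abs_cast]
    exact mul_le_of_le_one_right (Nat.cast_nonneg _) h1
  have h3 := tw_sub N q l
  have h4 : |(tw N q l : ℝ)| < N + 1 := by
    have h5 : (tw N q l : ℝ) = (N : ℝ) * (q l / ‖q‖) - ((N : ℝ) * (q l / ‖q‖) - tw N q l) := by
      ring
    rw [h5]
    calc _ ≤ |(N : ℝ) * (q l / ‖q‖)| + |(N : ℝ) * (q l / ‖q‖) - tw N q l| := abs_sub _ _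
      _ < N + 1 := by linarith
  have h5 : |tw N q l| < (N : ℤ) + 1 := by exact_mod_cast h4
  omega

lemma tw_ne_zero {N : ℕ} (hN : 1 ≤ N) {q : Fin d → ℝ} (hq : q ≠ 0) : tw N q ≠ 0 := by
  intro h
  have hq' : 0 < ‖q‖ := norm_pos_iff.mpr hq
  have hne : Nonempty (Fin d) := by
    by_contra hne
    rw [not_nonempty_iff] at hne
    exact hq (Subsingleton.elim _ _)
  obtain ⟨l, hl⟩ : ∃ l, ‖q l‖ = ‖q‖ := by
    obtain ⟨l, _, hl⟩ := Finset.exists_max_image Finset.univ (fun l => ‖q l‖)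
      Finset.univ_nonempty
    refine ⟨l, le_antisymm (norm_le_pi_norm q l) ?_⟩
    exact (pi_norm_le_iff_of_nonneg (norm_nonneg _)).mpr fun k => hl k (Finset.mem_univ _)
  have h1 := tw_sub N q l
  have h2 : tw N q l = 0 := by rw [h]; rfl
  rw [h2, Int.cast_zero, sub_zero, abs_mul, abs_div, abs_norm, Nat.abs_cast] at h1
  have h3 : |q l| = ‖q‖ := hl
  rw [h3, div_self hq'.ne', mul_one] at h1
  have h4 : (1 : ℝ) ≤ N := by exact_mod_cast hN
  linarith

end Pool.Agent.W11
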