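import Pool.Agent.W11.Basic

/-!
W11: iterated averages.
-/

set_option autoImplicit false

open Finset
open scoped RealInnerProductSpace

namespace Pool.Agent.W11

variable {d : ℕ}

lemma kr_card_bx (d n : ℕ) : (bx d n).card = n ^ d := by
  unfold bx
  rw [Fintype.card_piFinset]
  simp

lemma kr_av_real (n : ℕ) (g : Pt d → ℝ) (z : Pt d) :
    av n g z = ((n : ℝ) ^ d)⁻¹ * ∑ y ∈ bx d n, g (z + y) := rfl

lemma itA_nonneg (a n : ℕ) {g : Pt d → ℝ} (hg : ∀ z, 0 ≤ g z) (z : Pt d) :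
    0 ≤ itA a n g z := by
  induction n generalizing z with
  | zero => exact hg z
  | succ n ih => exact av_nonneg ih z

/-- the sum of an average over a finite set -/
lemma kr_sum_av (n : ℕ) (g : Pt d → ℝ) (T : Finset (Pt d)) :
    ∑ z ∈ T, av n g z = ((n : ℝ) ^ d)⁻¹ * ∑ y ∈ bx d n, ∑ z ∈ T, g (z + y) := by
  simp only [kr_av_real]
  rw [← mul_sum, sum_comm]

lemma sum_av_ge {n : ℕ} (hn : 1 ≤ n) {g : Pt d → ℝ} (hg : ∀ z, 0 ≤ g z) {S T : Finset (Pt d)}
    (h : ∀ z ∈ S, ∀ y ∈ bx d n, z - y ∈ T) : ∑ z ∈ S, g z ≤ ∑ z ∈ T, av n g z := by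
  classical
  have h1 : ∀ y ∈ bx d n, ∑ z ∈ S, g z ≤ ∑ z ∈ T, g (z + y) := by
    intro y hy
    have h2 : ∑ z ∈ S, g z = ∑ z ∈ S.image (fun z => z - y), g (z + y) := by
      rw [sum_image (fun a _ b _ hab => sub_left_injective hab)]
      simp
    rw [h2]
    refine sum_le_sum_of_subset_of_nonneg ?_ (fun z _ _ => hg _)
    intro z hz
    rw [mem_image] at hz
    obtain ⟨a, ha, rfl⟩ := hz
    exact h a ha y hy
  rw [kr_sum_av]
  have h3 := card_nsmul_le_sum (bx d n) (fun y => ∑ z ∈ T, g (z + y)) _ h1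
  rw [kr_card_bx, nsmul_eq_mul, Nat.cast_pow] at h3
  have hn' : (0 : ℝ) < (n : ℝ) ^ d := pow_pos (by exact_mod_cast hn) d
  rw [inv_mul_eq_div, le_div_iff₀ hn', mul_comm]
  exact h3

lemma sum_av_le {n : ℕ} (hn : 1 ≤ n) {g : Pt d → ℝ} (hg : ∀ z, 0 ≤ g z) {S T : Finset (Pt d)}
    (h : ∀ z ∈ T, ∀ y ∈ bx d n, z + y ∈ S) : ∑ z ∈ T, av n g z ≤ ∑ z ∈ S, g z := by
  classical
  have h1 : ∀ y ∈ bx d n, ∑ z ∈ T, g (z + y) ≤ ∑ z ∈ S, g z := by
    intro y hy
    have h2 : ∑ z ∈ T, g (z + y) = ∑ z ∈ T.image (fun z => z + y), g z := by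
      rw [sum_image (fun a _ b _ hab => add_left_injective y hab)]
    rw [h2]
    refine sum_le_sum_of_subset_of_nonneg ?_ (fun z _ _ => hg _)
    intro z hz
    rw [mem_image] at hz
    obtain ⟨a, ha, rfl⟩ := hz
    exact h a ha y hy
  rw [kr_sum_av]
  have h3 := sum_le_card_nsmul (bx d n) (fun y => ∑ z ∈ T, g (z + y)) _ h1
  rw [kr_card_bx, nsmul_eq_mul, Nat.cast_pow] at h3
  have hn' : (0 : ℝ) < (n : ℝ) ^ d := pow_pos (by exact_mod_cast hn) d
  rw [inv_mul_eq_div, div_le_iff₀ hn', mul_comm]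
  exact h3

lemma sum_itA_ge (a n : ℕ) {g : Pt d → ℝ} (hg : ∀ z, 0 ≤ g z) {S T : Finset (Pt d)}
    (h : ∀ z ∈ S, ∀ y : Pt d, (∀ l, 0 ≤ y l ∧ 3 * y l ≤ 4 ^ (a + n)) → z - y ∈ T) :
    ∑ z ∈ S, g z ≤ ∑ z ∈ T, itA a n g z := by
  classical
  induction n generalizing T with
  | zero =>
    refine sum_le_sum_of_subset_of_nonneg ?_ (fun z _ _ => hg _)
    intro z hz
    have h1 := h z hz 0 (fun l => ⟨le_refl _, by simp⟩)
    rwa [sub_zero] at h1
  | succ n ih =>
    have hp : (4 : ℤ) ^ (a + (n + 1)) = 4 * 4 ^ (a + n) := by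
      rw [← add_assoc, pow_succ]
      ring
    have hp0 : (0 : ℤ) < 4 ^ (a + n) := by positivity
    have h1 := ih (T := T.filter fun z => ∀ y ∈ bx d (4 ^ (a + n)), z - y ∈ T) (by
      intro z hz y hy
      rw [mem_filter]
      refine ⟨h z hz y fun l => ⟨(hy l).1, ?_⟩, ?_⟩
      · have := (hy l).2
        rw [hp]
        linarith
      · intro y' hy'
        rw [mem_bx] at hy'
        rw [sub_sub]
        refine h z hz (y + y') fun l => ⟨?_, ?_⟩
        · exact add_nonneg (hy l).1 (hy' l).1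
        · have h2 := (hy l).2
          have h3 := (hy' l).2
          push_cast at h3
          rw [hp, Pi.add_apply]
          omega)
    refine h1.trans ?_
    exact sum_av_ge (Nat.one_le_pow _ _ (by norm_num)) (itA_nonneg a n hg) (by
      intro z hz y hy
      rw [mem_filter] at hz
      exact hz.2 y hy)

lemma sum_itA_le (a n : ℕ) {g : Pt d → ℝ} (hg : ∀ z, 0 ≤ g z) {S T : Finset (Pt d)}
    (h : ∀ z ∈ T, ∀ y : Pt d, (∀ l, 0 ≤ y l ∧ 3 * y l ≤ 4 ^ (a + n)) → z + y ∈ S) :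
    ∑ z ∈ T, itA a n g z ≤ ∑ z ∈ S, g z := by
  classical
  induction n generalizing T with
  | zero =>
    refine sum_le_sum_of_subset_of_nonneg ?_ (fun z _ _ => hg _)
    intro z hz
    have h1 := h z hz 0 (fun l => ⟨le_refl _, by simp⟩)
    rwa [add_zero] at h1
  | succ n ih =>
    have hp : (4 : ℤ) ^ (a + (n + 1)) = 4 * 4 ^ (a + n) := by
      rw [← add_assoc, pow_succ]
      ring
    have hp0 : (0 : ℤ) < 4 ^ (a + n) := by positivity
    have h1 := ih (T := S.filter fun z => ∀ y : Pt d,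
        (∀ l, 0 ≤ y l ∧ 3 * y l ≤ 4 ^ (a + n)) → z + y ∈ S) (by
      intro z hz y hy
      rw [mem_filter] at hz
      exact hz.2 y hy)
    refine le_trans ?_ h1
    exact sum_av_le (Nat.one_le_pow _ _ (by norm_num)) (itA_nonneg a n hg) (by
      intro z hz y hy
      rw [mem_bx] at hy
      rw [mem_filter]
      refine ⟨h z hz y fun l => ⟨(hy l).1, ?_⟩, ?_⟩
      · have h3 := (hy l).2
        push_cast at h3
        rw [hp]
        omega
      · intro y' hy'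
        rw [add_assoc]
        refine h z hz (y + y') fun l => ⟨?_, ?_⟩
        · exact add_nonneg (hy l).1 (hy' l).1
        · have h2 := (hy' l).2
          have h3 := (hy l).2
          push_cast at h3
          rw [hp, Pi.add_apply]
          omega)

/-- an average as a sum over the shifted box -/
lemma kr_av_image (n : ℕ) (g : Pt d → ℝ) (z : Pt d) :
    av n g z = ((n : ℝ) ^ d)⁻¹ * ∑ y ∈ (bx d n).map (addLeftEmbedding z), g y := by
  rw [kr_av_real, sum_map]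
  rfl

lemma itA_lower (a n : ℕ) {g : Pt d → ℝ} (hg : ∀ z, 0 ≤ g z) (z₀ : Pt d) {S : Finset (Pt d)}
    (h : ∀ z ∈ S, ∀ l, 4 ^ (a + n) ≤ 3 * (z l - z₀ l) ∧ z l - z₀ l < 4 ^ (a + n)) :
    ∑ z ∈ S, g z ≤ ((4 : ℝ) ^ (a + n)) ^ d * itA a (n + 1) g z₀ := by
  have h1 : itA a (n + 1) g z₀ = av (4 ^ (a + n)) (itA a n g) z₀ := rfl
  have h2 : (((4 ^ (a + n) : ℕ) : ℝ)) = (4 : ℝ) ^ (a + n) := by push_cast; rfl
  have h3 : (0 : ℝ) < ((4 : ℝ) ^ (a + n)) ^ d := by positivity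
  rw [h1, kr_av_image, h2, mul_inv_cancel_left₀ h3.ne']
  refine sum_itA_ge a n hg ?_
  intro z hz y hy
  rw [mem_map]
  refine ⟨z - y - z₀, ?_, ?_⟩
  · rw [mem_bx]
    intro l
    have h4 := h z hz l
    have h5 := hy l
    simp only [Pi.sub_apply]
    push_cast
    constructor <;> linarith
  · rw [addLeftEmbedding_apply]
    abel

lemma itA_upper (a n : ℕ) {g : Pt d → ℝ} (hg : ∀ z, 0 ≤ g z) (z₀ : Pt d) {S : Finset (Pt d)}
    (h : ∀ y : Pt d, (∀ l, 0 ≤ y l ∧ y l < 2 * 4 ^ (a + n)) → z₀ + y ∈ S) :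
    itA a (n + 1) g z₀ ≤ (((4 : ℝ) ^ (a + n)) ^ d)⁻¹ * ∑ z ∈ S, g z := by
  have h1 : itA a (n + 1) g z₀ = av (4 ^ (a + n)) (itA a n g) z₀ := rfl
  have h2 : (((4 ^ (a + n) : ℕ) : ℝ)) = (4 : ℝ) ^ (a + n) := by push_cast; rfl
  have h0 : (0 : ℤ) < 4 ^ (a + n) := by positivity
  rw [h1, kr_av_image, h2]
  refine mul_le_mul_of_nonneg_left ?_ (by positivity)
  refine sum_itA_le a n hg ?_
  intro z hz y hy
  rw [mem_map] at hz
  obtain ⟨x, hx, rfl⟩ := hz
  rw [mem_bx] at hx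
  rw [addLeftEmbedding_apply, add_assoc]
  refine h (x + y) fun l => ?_
  have h4 := hx l
  have h5 := hy l
  push_cast at h4
  rw [Pi.add_apply]
  constructor
  · linarith
  · linarith

lemma sm_add (f : Pt d → ℝ) (a n : ℕ) : sm f (a + n) = itA a n (sm f a) := by
  induction n with
  | zero => rfl
  | succ n ih =>
    have h1 : sm f (a + (n + 1)) = av (4 ^ (a + n)) (sm f (a + n)) := rfl
    rw [h1, ih]
    rfl

lemma kr_av_add (n : ℕ) (g h : Pt d → ℝ) (z : Pt d) :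
    av n (fun z => g z + h z) z = av n g z + av n h z := by
  simp only [kr_av_real, sum_add_distrib, mul_add]

lemma kr_av_sum {ι : Type*} (s : Finset ι) (n : ℕ) (g : ι → Pt d → ℝ) (z : Pt d) :
    av n (fun z => ∑ j ∈ s, g j z) z = ∑ j ∈ s, av n (g j) z := by
  simp only [kr_av_real]
  rw [sum_comm, mul_sum]

/-- telescoping, abstract form -/
lemma itA_tele (u x : ℕ → Pt d → ℝ) (hu : ∀ j z, av (4 ^ j) (u j) z = u (j + 1) z + x j z)
    (a n : ℕ) (z : Pt d) :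
    itA a n (u a) z = u (a + n) z +
      ∑ j ∈ range n, itA (a + j + 1) (n - 1 - j) (x (a + j)) z := by
  induction n generalizing z with
  | zero => simp [itA]
  | succ n ih =>
    have h1 : itA a (n + 1) (u a) z = av (4 ^ (a + n)) (itA a n (u a)) z := rfl
    have h2 : itA a n (u a) = fun z => u (a + n) z +
        ∑ j ∈ range n, itA (a + j + 1) (n - 1 - j) (x (a + j)) z := funext ih
    have h3 : av (4 ^ (a + n)) (fun z => u (a + n) z +
        ∑ j ∈ range n, itA (a + j + 1) (n - 1 - j) (x (a + j)) z) z =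
        av (4 ^ (a + n)) (u (a + n)) z +
          av (4 ^ (a + n)) (fun z => ∑ j ∈ range n,
            itA (a + j + 1) (n - 1 - j) (x (a + j)) z) z := kr_av_add _ _ _ z
    rw [h1, h2, h3, kr_av_sum, hu, sum_range_succ]
    have h4 : ∑ j ∈ range n, av (4 ^ (a + n)) (itA (a + j + 1) (n - 1 - j) (x (a + j))) z =
        ∑ j ∈ range n, itA (a + j + 1) (n + 1 - 1 - j) (x (a + j)) z := by
      refine sum_congr rfl fun j hj => ?_
      rw [mem_range] at hj
      have h5 : n + 1 - 1 - j = (n - 1 - j) + 1 := by omega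
      have h6 : a + n = a + j + 1 + (n - 1 - j) := by omega
      rw [h5, h6]
      rfl
    rw [h4]
    have h7 : itA (a + n + 1) (n + 1 - 1 - n) (x (a + n)) z = x (a + n) z := by
      rw [show n + 1 - 1 - n = 0 by omega]
      rfl
    rw [h7, show a + (n + 1) = a + n + 1 by ring]
    ring

/-- telescoping of the norms -/
lemma itA_nG (f : Pt d → ℝ) (a n : ℕ) (z : Pt d) :
    itA a n (nG f a) z = nG f (a + n) z +
      ∑ j ∈ range n, itA (a + j + 1) (n - 1 - j) (X f (a + j)) z :=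
  itA_tele (nG f) (X f) (fun j z => by unfold X; ring) a n z

/-- the same identity for the defects -/
lemma itA_D (f : Pt d → ℝ) (a n : ℕ) (e : EE d) (z : Pt d) :
    itA a n (D f a e) z = D f (a + n) e z +
      ∑ j ∈ range n, itA (a + j + 1) (n - 1 - j) (X f (a + j)) z :=
  itA_tele (fun j => D f j e) (X f) (fun j z => av_D f j e z) a n z

/-- sums of `‖∇v_j‖` over a window, in terms of level `i` -/
lemma sum_nG_le (f : Pt d → ℝ) (c j k : ℕ) (v : Pt d) :
    ∑ z ∈ W c (j + k) v, nG f j z ≤ ∑ z ∈ W (c + 1) (j + k) v, nG f (j + k) z +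
      ∑ l ∈ range k, ∑ z ∈ W (c + 2) (j + k) v, X f (j + l) z := by
  have hp0 : (0 : ℤ) < 4 ^ (j + k) := by positivity
  have h1 : ∑ z ∈ W c (j + k) v, nG f j z ≤ ∑ z ∈ W (c + 1) (j + k) v, itA j k (nG f j) z := by
    refine sum_itA_ge j k (nG_nonneg f j) ?_
    intro z hz y hy
    rw [mem_W'] at hz ⊢
    intro l
    have h2 := hz l
    have h3 := hy l
    push_cast
    rw [Pi.sub_apply]
    constructor <;> nlinarith
  have h2 : ∑ z ∈ W (c + 1) (j + k) v, itA j k (nG f j) z =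
      ∑ z ∈ W (c + 1) (j + k) v, nG f (j + k) z +
        ∑ l ∈ range k, ∑ z ∈ W (c + 1) (j + k) v, itA (j + l + 1) (k - 1 - l) (X f (j + l)) z := by
    rw [sum_comm (s := range k), ← sum_add_distrib]
    exact sum_congr rfl fun z _ => itA_nG f j k z
  rw [h2] at h1
  refine h1.trans (add_le_add (le_refl _) (sum_le_sum fun l hl => ?_))
  rw [mem_range] at hl
  refine sum_itA_le _ _ (X_nonneg f (j + l)) ?_
  intro z hz y hy
  have h4 : j + l + 1 + (k - 1 - l) = j + k := by omega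
  rw [h4] at hy
  rw [mem_W'] at hz ⊢
  intro m
  have h5 := hz m
  have h6 := hy m
  push_cast at h5 ⊢
  rw [Pi.add_apply]
  constructor <;> nlinarith

lemma kr_geom_le (n : ℕ) : ∑ j ∈ range (n + 1), (1 / 4 : ℝ) ^ (n - j) ≤ 2 := by
  rw [← sum_range_reflect]
  have h1 : ∑ j ∈ range (n + 1), (1 / 4 : ℝ) ^ (n - (n + 1 - 1 - j)) =
      ∑ j ∈ range (n + 1), (1 / 4 : ℝ) ^ j := by
    refine sum_congr rfl fun j hj => ?_
    rw [mem_range] at hj
    congr 1
    omega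
  rw [h1, geom_sum_eq (by norm_num)]
  have h2 : (0 : ℝ) ≤ (1 / 4 : ℝ) ^ (n + 1) := by positivity
  rw [div_le_iff_of_neg (by norm_num)]
  linarith

theorem V_le (f : Pt d → ℝ) {c c' m : ℕ} (hc : c + 2 ≤ c') (i : ℕ) (v : Pt d) :
    V f c i v ≤ 2 * (∑ z ∈ W (c + 1) i v, nG f i z) + 2 * Pay f c' m i v := by
  have hA : 0 ≤ ∑ z ∈ W (c + 1) i v, nG f i z := sum_nonneg fun z _ => nG_nonneg f i z
  have hx : ∀ l, 0 ≤ ∑ z ∈ W c' i v, X f l z := fun l => sum_nonneg fun z _ => X_nonneg f l z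
  have h1 : ∀ j ∈ range (i + 1), (1 / 4 : ℝ) ^ (i - j) * ∑ z ∈ W c i v, nG f j z ≤
      (1 / 4 : ℝ) ^ (i - j) * (∑ z ∈ W (c + 1) i v, nG f i z) +
        (1 / 4 : ℝ) ^ (i - j) * ∑ l ∈ Ico j i, ∑ z ∈ W c' i v, X f l z := by
    intro j hj
    rw [mem_range] at hj
    rw [← mul_add]
    refine mul_le_mul_of_nonneg_left ?_ (by positivity)
    have h2 := sum_nG_le f c j (i - j) v
    have h3 : j + (i - j) = i := by omega
    rw [h3] at h2
    refine h2.trans (add_le_add (le_refl _) ?_)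
    rw [sum_Ico_eq_sum_range]
    exact sum_le_sum fun l _ => sum_le_sum_of_subset_of_nonneg (W_mono hc v)
      (fun z _ _ => X_nonneg f _ z)
  have h2 : V f c i v ≤ (∑ j ∈ range (i + 1), (1 / 4 : ℝ) ^ (i - j)) *
        (∑ z ∈ W (c + 1) i v, nG f i z) +
      ∑ j ∈ range (i + 1), ∑ l ∈ Ico j i, (1 / 4 : ℝ) ^ (i - j) * ∑ z ∈ W c' i v, X f l z := by
    unfold V
    refine (sum_le_sum h1).trans (le_of_eq ?_)
    rw [sum_add_distrib, sum_mul]
    simp only [mul_sum]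
  have h3 : ∑ j ∈ range (i + 1), ∑ l ∈ Ico j i, (1 / 4 : ℝ) ^ (i - j) * ∑ z ∈ W c' i v, X f l z =
      ∑ l ∈ range i, ∑ j ∈ range (l + 1), (1 / 4 : ℝ) ^ (i - j) * ∑ z ∈ W c' i v, X f l z := by
    refine sum_comm' ?_
    intro x y
    simp only [mem_range, mem_Ico]
    omega
  have h4 : ∑ l ∈ range i, ∑ j ∈ range (l + 1), (1 / 4 : ℝ) ^ (i - j) * ∑ z ∈ W c' i v, X f l z ≤
      ∑ l ∈ range i, 2 * ((1 / 4 : ℝ) ^ (i - l) * ∑ z ∈ W c' i v, X f l z) := by
    refine sum_le_sum fun l hl => ?_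
    rw [mem_range] at hl
    rw [← sum_mul, ← mul_assoc]
    refine mul_le_mul_of_nonneg_right ?_ (hx l)
    have h5 : ∑ j ∈ range (l + 1), (1 / 4 : ℝ) ^ (i - j) =
        (1 / 4 : ℝ) ^ (i - l) * ∑ j ∈ range (l + 1), (1 / 4 : ℝ) ^ (l - j) := by
      rw [mul_sum]
      refine sum_congr rfl fun j hj => ?_
      rw [mem_range] at hj
      rw [← pow_add]
      congr 1
      omega
    rw [h5, mul_comm (2 : ℝ)]
    exact mul_le_mul_of_nonneg_left (kr_geom_le l) (by positivity)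
  have h5 : ∑ l ∈ range i, 2 * ((1 / 4 : ℝ) ^ (i - l) * ∑ z ∈ W c' i v, X f l z) ≤
      2 * Pay f c' m i v := by
    rw [← mul_sum]
    refine mul_le_mul_of_nonneg_left ?_ (by norm_num)
    unfold Pay
    have h6 : ∑ l ∈ range i, (1 / 4 : ℝ) ^ (i - l) * ∑ z ∈ W c' i v, X f l z ≤
        ∑ l ∈ range (i + m + 1), (1 / 4 : ℝ) ^ (i - l) * ∑ z ∈ W c' i v, X f l z :=
      sum_le_sum_of_subset_of_nonneg (range_subset_range.2 (by omega))
        (fun l _ _ => mul_nonneg (by positivity) (hx l))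
    have h7 : 0 ≤ (1 / 4 : ℝ) ^ i * ∑ j ∈ range (i + 1), ∑ z ∈ W c' i v, nG f j z :=
      mul_nonneg (by positivity) (sum_nonneg fun j _ => sum_nonneg fun z _ => nG_nonneg f j z)
    linarith
  have h6 : (∑ j ∈ range (i + 1), (1 / 4 : ℝ) ^ (i - j)) * (∑ z ∈ W (c + 1) i v, nG f i z) ≤
      2 * ∑ z ∈ W (c + 1) i v, nG f i z := mul_le_mul_of_nonneg_right (kr_geom_le i) hA
  rw [h3] at h2
  linarith

end Pool.Agent.W11
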