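import Pool.Agent.W11.Defs

/-!
W11, M4: the cone inequality and the path lemma.
-/

set_option autoImplicit false

open Finset
open scoped RealInnerProductSpace

namespace Pool.Agent.W11

variable {d : ℕ}

/-! ### the cone inequality -/

lemma cone_ineq {e u w : EE d} {γ : ℝ} (he : ‖e‖ = 1) (hγ : 0 < γ) (hu : γ * ‖u‖ ≤ ⟪e, u⟫) :
    -((1 + 1 / (2 * γ)) * ‖u‖ * (‖w‖ - ⟪e, w⟫)) ≤ ⟪u, w⟫ := by
  have hun : 0 ≤ ‖u‖ := norm_nonneg u
  have hwn : 0 ≤ ‖w‖ := norm_nonneg w
  have hDnn : 0 ≤ ‖w‖ - ⟪e, w⟫ := by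
    have := real_inner_le_norm e w
    rw [he, one_mul] at this
    linarith
  set a : ℝ := ⟪e, w⟫ with ha
  have hg : 0 < 1 / (2 * γ) := by positivity
  by_cases h0 : a < 0
  · have h1 : -(‖u‖ * ‖w‖) ≤ ⟪u, w⟫ := by
      have := abs_real_inner_le_norm u w
      exact (abs_le.mp this).1
    have h2 : ‖u‖ * ‖w‖ ≤ (1 + 1 / (2 * γ)) * ‖u‖ * (‖w‖ - a) := by
      have h3 : ‖u‖ * ‖w‖ ≤ ‖u‖ * (‖w‖ - a) := by
        apply mul_le_mul_of_nonneg_left _ hun
        linarith
      have h4 : 0 ≤ 1 / (2 * γ) * (‖u‖ * (‖w‖ - a)) := by positivity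
      nlinarith
    linarith
  · push Not at h0
    set w' : EE d := w - a • e with hw'
    have hee : ⟪e, e⟫ = 1 := by
      rw [real_inner_self_eq_norm_sq, he]; norm_num
    have horth : ⟪e, w'⟫ = 0 := by
      rw [hw', inner_sub_right, real_inner_smul_right, hee, ← ha]
      ring
    have hdecomp : w = a • e + w' := by rw [hw']; abel
    have hnorm : ‖w‖ ^ 2 = a ^ 2 + ‖w'‖ ^ 2 := by
      have h1 : ⟪a • e, w'⟫ = 0 := by rw [real_inner_smul_left, horth, mul_zero]
      have h2 := norm_add_sq_real (a • e) w'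
      rw [← hdecomp, h1, norm_smul, he, Real.norm_eq_abs, mul_one, sq_abs] at h2
      linarith
    have hDdef : ∃ D : ℝ, D = ‖w‖ - a := ⟨_, rfl⟩
    obtain ⟨D, hD⟩ := hDdef
    rw [← hD] at hDnn ⊢
    have hw'sq : ‖w'‖ ^ 2 = D * (D + 2 * a) := by
      have : ‖w‖ = D + a := by linarith
      rw [this] at hnorm
      nlinarith
    have hw'le : ‖w'‖ ≤ D + γ * a + D / (2 * γ) := by
      have hs : 0 ≤ γ * a + D / (2 * γ) := by positivity
      have h1 : ‖w'‖ ^ 2 ≤ (D + γ * a + D / (2 * γ)) ^ 2 := by
        rw [hw'sq]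
        have h2 : (γ * a) * (D / (2 * γ)) = a * D / 2 := by
          field_simp
        have h3 : 0 ≤ D * (γ * a + D / (2 * γ)) := mul_nonneg hDnn hs
        nlinarith [sq_nonneg (γ * a - D / (2 * γ))]
      exact (abs_le_of_sq_le_sq' h1 (by positivity)).2
    have hinner : ⟪u, w⟫ = a * ⟪e, u⟫ + ⟪u, w'⟫ := by
      conv_lhs => rw [hdecomp]
      rw [inner_add_right, real_inner_smul_right, real_inner_comm]
    have h5 : -(‖u‖ * ‖w'‖) ≤ ⟪u, w'⟫ := by
      have := abs_real_inner_le_norm u w'
      exact (abs_le.mp this).1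
    have h6 : a * (γ * ‖u‖) ≤ a * ⟪e, u⟫ := mul_le_mul_of_nonneg_left hu h0
    have h7 : ‖u‖ * ‖w'‖ ≤ ‖u‖ * (D + γ * a + D / (2 * γ)) :=
      mul_le_mul_of_nonneg_left hw'le hun
    rw [hinner]
    have h8 : (1 + 1 / (2 * γ)) * ‖u‖ * D = ‖u‖ * (D + D / (2 * γ)) := by
      field_simp
    rw [h8]
    nlinarith

/-! ### discrete Taylor estimate -/

private lemma mem_ball_path {y z : Pt d} {r : ℤ} : z ∈ ball y r ↔ ∀ l, |z l - y l| ≤ r := by
  simp only [ball, Fintype.mem_piFinset, Finset.mem_Icc]
  refine forall_congr' fun l => ?_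
  rw [abs_le]
  constructor
  · rintro ⟨h1, h2⟩; constructor <;> linarith
  · rintro ⟨h1, h2⟩; constructor <;> linarith

private lemma Hs_nonneg' (g : Pt d → ℝ) (z : Pt d) : 0 ≤ Hs g z :=
  Finset.sum_nonneg fun _ _ => Finset.sum_nonneg fun _ _ => abs_nonneg _

private lemma Dg_nonneg' (g : Pt d → ℝ) {e : EE d} (he : ‖e‖ = 1) (z : Pt d) : 0 ≤ Dg g e z := by
  have := real_inner_le_norm e (gr g z)
  rw [he, one_mul] at this
  unfold Dg
  linarith

/-- one coordinate segment inside the ball -/
private lemma line_le (h : Pt d → ℝ) (y q : Pt d) (r : ℤ) (k : Fin d)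
    (hq : ∀ l, |q l - y l| ≤ r) (a : ℤ) (n : ℕ) (ha : |a - y k| ≤ r) (hb : |a + n - y k| ≤ r) :
    |h (Function.update q k (a + n)) - h (Function.update q k a)| ≤
      ∑ p ∈ ball y r, |h (p + eV k) - h p| := by
  have htel : h (Function.update q k (a + n)) - h (Function.update q k a) =
      ∑ s ∈ range n, (h (Function.update q k (a + (s : ℤ) + 1)) -
        h (Function.update q k (a + (s : ℤ)))) := by
    have := Finset.sum_range_sub (fun s : ℕ => h (Function.update q k (a + (s : ℤ)))) n
    simp only [Nat.cast_zero, add_zero, Nat.cast_add, Nat.cast_one, ← add_assoc] at this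
    rw [this]
  rw [htel]
  refine (Finset.abs_sum_le_sum_abs _ _).trans ?_
  have hstep : ∀ s : ℤ, Function.update q k (s + 1) = Function.update q k s + eV k := by
    intro s
    ext l
    by_cases hl : l = k
    · subst hl; simp [eV]
    · simp [eV, hl]
  have hinj : Set.InjOn (fun s : ℕ => Function.update q k (a + (s : ℤ))) (range n : Set ℕ) := by
    intro s _ t _ hst
    have := congrFun hst k
    simp at this
    exact this
  calc ∑ s ∈ range n, |h (Function.update q k (a + (s : ℤ) + 1)) -
        h (Function.update q k (a + (s : ℤ)))|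
      = ∑ p ∈ (range n).image (fun s : ℕ => Function.update q k (a + (s : ℤ))),
          |h (p + eV k) - h p| := by
        rw [Finset.sum_image (by intro s hs t ht hst; exact hinj hs ht hst)]
        refine Finset.sum_congr rfl fun s _ => ?_
        rw [hstep]
    _ ≤ ∑ p ∈ ball y r, |h (p + eV k) - h p| := by
        apply Finset.sum_le_sum_of_subset_of_nonneg
        · intro p hp
          rw [Finset.mem_image] at hp
          obtain ⟨s, hs, rfl⟩ := hp
          rw [Finset.mem_range] at hs
          rw [mem_ball_path]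
          intro l
          by_cases hl : l = k
          · subst hl
            simp only [Function.update_self]
            rw [abs_le] at ha hb ⊢
            have : (s : ℤ) < n := by exact_mod_cast hs
            constructor <;> linarith [ha.1, ha.2, hb.1, hb.2, (Int.natCast_nonneg s)]
          · simp only [Function.update_of_ne hl]
            exact hq l
        · intro _ _ _; exact abs_nonneg _

private lemma line_le' (h : Pt d → ℝ) (y q : Pt d) (r : ℤ) (k : Fin d)
    (hq : ∀ l, |q l - y l| ≤ r) (t : ℤ) (ht : |t - y k| ≤ r) :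
    |h (Function.update q k t) - h q| ≤ ∑ p ∈ ball y r, |h (p + eV k) - h p| := by
  rcases le_total (q k) t with hle | hle
  · obtain ⟨n, hn⟩ := Int.eq_ofNat_of_zero_le (sub_nonneg.mpr hle)
    have hn' : q k + n = t := by rw [← hn]; ring
    have := line_le h y q r k hq (q k) n (hq k) (by rw [hn']; exact ht)
    rw [hn', Function.update_eq_self] at this
    exact this
  · obtain ⟨n, hn⟩ := Int.eq_ofNat_of_zero_le (sub_nonneg.mpr hle)
    have hn' : t + n = q k := by rw [← hn]; ring
    have := line_le h y q r k hq t n ht (by rw [hn']; exact hq k)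
    rw [hn', Function.update_eq_self] at this
    rw [abs_sub_comm]
    exact this

private lemma box_le (h : Pt d → ℝ) (y z : Pt d) (r : ℤ) (hz : ∀ l, |z l - y l| ≤ r) :
    |h z - h y| ≤ ∑ k, ∑ p ∈ ball y r, |h (p + eV k) - h p| := by
  have key : ∀ S : Finset (Fin d),
      |h (fun l => if l ∈ S then z l else y l) - h y| ≤
        ∑ k ∈ S, ∑ p ∈ ball y r, |h (p + eV k) - h p| := by
    intro S
    induction S using Finset.induction_on with
    | empty => simp
    | insert k S hk ih =>
      rw [Finset.sum_insert hk]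
      set q : Pt d := fun l => if l ∈ S then z l else y l with hqdef
      have hupd : (fun l => if l ∈ insert k S then z l else y l) = Function.update q k (z k) := by
        ext l
        by_cases hl : l = k
        · subst hl; simp
        · simp [hl, hqdef]
      rw [hupd]
      have hr : 0 ≤ r := (abs_nonneg _).trans (hz k)
      have hq : ∀ l, |q l - y l| ≤ r := by
        intro l
        by_cases hl : l ∈ S
        · simp only [hqdef, hl, if_true]; exact hz l
        · simp only [hqdef, hl, if_false, sub_self, abs_zero]; exact hr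
      have h1 := line_le' h y q r k hq (z k) (hz k)
      calc |h (Function.update q k (z k)) - h y|
          = |(h (Function.update q k (z k)) - h q) + (h q - h y)| := by ring_nf
        _ ≤ |h (Function.update q k (z k)) - h q| + |h q - h y| := abs_add_le _ _
        _ ≤ _ := add_le_add h1 ih
  have := key Finset.univ
  simpa using this

private lemma grad_le (g : Pt d → ℝ) (y z : Pt d) (r : ℤ) (hz : ∀ l, |z l - y l| ≤ r)
    (l : Fin d) :
    |(g (z + eV l) - g z) - (g (y + eV l) - g y)| ≤ ∑ p ∈ ball y r, Hs g p := by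
  refine (box_le (fun p => g (p + eV l) - g p) y z r hz).trans ?_
  rw [Finset.sum_comm]
  refine Finset.sum_le_sum fun p _ => ?_
  unfold Hs
  calc ∑ k, |(g (p + eV k + eV l) - g (p + eV k)) - (g (p + eV l) - g p)|
      = ∑ k, |(g (p + eV l + eV k) - g (p + eV l)) - (g (p + eV k) - g p)| := by
        refine Finset.sum_congr rfl fun k _ => ?_
        congr 1
        rw [add_right_comm p (eV k) (eV l)]
        ring
    _ ≤ _ := Finset.single_le_sum
        (f := fun l => ∑ k, |(g (p + eV l + eV k) - g (p + eV l)) - (g (p + eV k) - g p)|)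
        (fun l _ => Finset.sum_nonneg fun k _ => abs_nonneg _) (Finset.mem_univ l)

private lemma one_dim (φ : ℤ → ℝ) (c G : ℝ) (m : ℤ)
    (h : ∀ s, min 0 m ≤ s → s < max 0 m → |φ (s + 1) - φ s - c| ≤ G) :
    |φ m - φ 0 - m * c| ≤ |(m : ℝ)| * G := by
  rcases le_total 0 m with hm | hm
  · obtain ⟨n, rfl⟩ := Int.eq_ofNat_of_zero_le hm
    have hind : ∀ k : ℕ, k ≤ n → |φ (k : ℤ) - φ 0 - (k : ℝ) * c| ≤ (k : ℝ) * G := by
      intro k
      induction k with
      | zero => intro _; simp
      | succ k ih =>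
        intro hk
        have h1 := ih (by omega)
        have h2 := h (k : ℤ) (by omega) (by omega)
        have h3 : φ ((k + 1 : ℕ) : ℤ) - φ 0 - ((k + 1 : ℕ) : ℝ) * c =
            (φ ((k : ℤ) + 1) - φ (k : ℤ) - c) + (φ (k : ℤ) - φ 0 - (k : ℝ) * c) := by
          push_cast; ring
        rw [h3]
        refine (abs_add_le _ _).trans ?_
        push_cast
        linarith
    have := hind n le_rfl
    have habs : |((n : ℤ) : ℝ)| = (n : ℝ) := by
      rw [Int.cast_natCast, abs_of_nonneg (Nat.cast_nonneg n)]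
    simp only [Int.cast_natCast] at this ⊢
    rw [abs_of_nonneg (Nat.cast_nonneg n : (0:ℝ) ≤ (n:ℝ))]
    exact this
  · obtain ⟨n, hn⟩ := Int.eq_ofNat_of_zero_le (neg_nonneg.mpr hm)
    have hmn : m = -(n : ℤ) := by omega
    subst hmn
    have hind : ∀ k : ℕ, k ≤ n → |φ (-(k : ℤ)) - φ 0 + (k : ℝ) * c| ≤ (k : ℝ) * G := by
      intro k
      induction k with
      | zero => intro _; simp
      | succ k ih =>
        intro hk
        have h1 := ih (by omega)
        have h2 := h (-((k : ℤ) + 1)) (by omega) (by omega)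
        have h3 : φ (-((k + 1 : ℕ) : ℤ)) - φ 0 + ((k + 1 : ℕ) : ℝ) * c =
            -(φ (-((k : ℤ) + 1) + 1) - φ (-((k : ℤ) + 1)) - c) +
              (φ (-(k : ℤ)) - φ 0 + (k : ℝ) * c) := by
          have : -((k : ℤ) + 1) + 1 = -(k : ℤ) := by ring
          rw [this]
          push_cast
          ring
        rw [h3]
        refine (abs_add_le _ _).trans ?_
        rw [abs_neg]
        push_cast
        linarith
    have := hind n le_rfl
    push_cast
    rw [abs_neg, abs_of_nonneg (Nat.cast_nonneg n : (0:ℝ) ≤ (n:ℝ))]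
    have h4 : φ (-(n : ℤ)) - φ 0 - -(n : ℝ) * c = φ (-(n : ℤ)) - φ 0 + (n : ℝ) * c := by ring
    rw [h4]
    exact this

lemma inner_toE_gr (g : Pt d → ℝ) (u y : Pt d) :
    ⟪toE u, gr g y⟫ = ∑ l, (u l : ℝ) * (g (y + eV l) - g y) := by
  unfold toE gr
  simp only [PiLp.inner_apply, RCLike.inner_apply, conj_trivial]
  exact Finset.sum_congr rfl fun l _ => mul_comm _ _

lemma step (g : Pt d → ℝ) (y u : Pt d) {r : ℤ} (hr : ∀ l, |u l| ≤ r) :
    |g (y + u) - g y - ⟪toE u, gr g y⟫| ≤ (∑ l, |(u l : ℝ)|) * ∑ z ∈ ball y r, Hs g z := by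
  rw [inner_toE_gr]
  set G : ℝ := ∑ z ∈ ball y r, Hs g z with hG
  have key : ∀ S : Finset (Fin d),
      |g (y + fun l => if l ∈ S then u l else 0) - g y -
          ∑ l ∈ S, (u l : ℝ) * (g (y + eV l) - g y)| ≤ (∑ l ∈ S, |(u l : ℝ)|) * G := by
    intro S
    induction S using Finset.induction_on with
    | empty =>
      have : (fun l => if l ∈ (∅ : Finset (Fin d)) then u l else 0) = (0 : Pt d) := by
        ext l; simp
      rw [this]; simp
    | insert k S hk ih =>
      rw [Finset.sum_insert hk, Finset.sum_insert hk]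
      set q : Pt d := fun l => if l ∈ S then u l else 0 with hqdef
      have hr0 : 0 ≤ r := (abs_nonneg _).trans (hr k)
      have hupd : ∀ s : ℤ, (y + Function.update q k s) + eV k = y + Function.update q k (s + 1) := by
        intro s
        ext l
        by_cases hl : l = k
        · subst hl; simp [eV]; ring
        · simp [eV, hl]
      have h0 : Function.update q k 0 = q := by
        have : q k = 0 := by simp [hqdef, hk]
        conv_rhs => rw [← Function.update_eq_self k q, this]
      have h1 : (fun l => if l ∈ insert k S then u l else 0) = Function.update q k (u k) := by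
        ext l
        by_cases hl : l = k
        · subst hl; simp
        · simp [hl, hqdef]
      have h2 := one_dim (fun s => g (y + Function.update q k s)) (g (y + eV k) - g y) G (u k) (by
        intro s hs1 hs2
        have hz : ∀ l, |(y + Function.update q k s) l - y l| ≤ r := by
          intro l
          have : (y + Function.update q k s) l - y l = Function.update q k s l := by
            simp
          rw [this]
          by_cases hl : l = k
          · subst hl
            rw [Function.update_self]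
            have := hr l
            rw [abs_le] at this ⊢
            constructor
            · have : min 0 (u l) ≥ -r := by
                rw [ge_iff_le, le_min_iff]; constructor <;> linarith [this.1]
              linarith
            · have : max 0 (u l) ≤ r := by
                rw [max_le_iff]; constructor <;> linarith [this.2]
              linarith
          · rw [Function.update_of_ne hl]
            by_cases hlS : l ∈ S
            · simp only [hqdef, hlS, if_true]; exact hr l
            · simp only [hqdef, hlS, if_false, abs_zero]; exact hr0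
        have := grad_le g y (y + Function.update q k s) r hz k
        rw [hupd] at this
        exact this)
      simp only [h0] at h2
      rw [h1]
      have h3 : g (y + Function.update q k (u k)) - g y -
          ((u k : ℝ) * (g (y + eV k) - g y) + ∑ l ∈ S, (u l : ℝ) * (g (y + eV l) - g y)) =
          (g (y + Function.update q k (u k)) - g (y + q) - (u k : ℝ) * (g (y + eV k) - g y)) +
          (g (y + q) - g y - ∑ l ∈ S, (u l : ℝ) * (g (y + eV l) - g y)) := by ring
      rw [h3]
      refine (abs_add_le _ _).trans ?_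
      rw [add_mul]
      exact add_le_add h2 ih
  have := key Finset.univ
  simpa using this

/-! ### one step in the cone -/

private lemma norm_toE_le (u : Pt d) : ‖toE u‖ ≤ ∑ l, |(u l : ℝ)| := by
  have h1 : toE u = ∑ l, (u l : ℝ) • (EuclideanSpace.single l (1 : ℝ) : EE d) := by
    ext k
    simp [toE, Pi.single_apply]
  rw [h1]
  refine (norm_sum_le _ _).trans ?_
  refine Finset.sum_le_sum fun l _ => ?_
  rw [norm_smul, Real.norm_eq_abs]
  simp

private lemma sum_abs_le (N : ℕ) (u : Pt d) (hu : ∀ l, |u l| ≤ (N : ℤ) + 1) :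
    ∑ l, |(u l : ℝ)| ≤ d * ((N : ℝ) + 1) := by
  have : ∀ l ∈ (Finset.univ : Finset (Fin d)), |(u l : ℝ)| ≤ (N : ℝ) + 1 := by
    intro l _
    have := hu l
    have h2 : ((|u l| : ℤ) : ℝ) ≤ (((N : ℤ) + 1 : ℤ) : ℝ) := by exact_mod_cast this
    push_cast at h2
    exact h2
  have h3 := Finset.sum_le_card_nsmul _ _ _ this
  rw [Finset.card_univ, Fintype.card_fin, nsmul_eq_mul] at h3
  exact h3

private lemma one_step (N : ℕ) {γ : ℝ} (hγ : 0 < γ) (g : Pt d → ℝ) {e : EE d} (he : ‖e‖ = 1)
    (w u : Pt d) (hw : ∀ l, |w l| ≤ N) (hc : Cone γ e w) (hu : ∀ l, |u l - w l| ≤ 1) (y : Pt d) :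
    g y - g (y + u) ≤ (1 + 1 / (2 * γ)) * (d * ((N : ℝ) + 1)) *
      (Dg g e y + ∑ z ∈ ball y ((N : ℤ) + 1), Hs g z) := by
  have hu' : ∀ l, |u l| ≤ (N : ℤ) + 1 := by
    intro l
    have h1 := hu l
    have h2 := hw l
    calc |u l| = |(u l - w l) + w l| := by ring_nf
      _ ≤ |u l - w l| + |w l| := abs_add_le _ _
      _ ≤ 1 + N := add_le_add h1 h2
      _ = _ := by ring
  have h1 := step g y u hu'
  have h2 := (abs_le.mp h1).1
  have h3 := cone_ineq (w := gr g y) he hγ (hc u hu)
  have hK := sum_abs_le N u hu'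
  have hn := norm_toE_le u
  have hH : 0 ≤ ∑ z ∈ ball y ((N : ℤ) + 1), Hs g z := Finset.sum_nonneg fun z _ => Hs_nonneg' g z
  have hD := Dg_nonneg' g he y
  have hg : 0 ≤ 1 / (2 * γ) := by positivity
  have h4 : (1 + 1 / (2 * γ)) * ‖toE u‖ * (‖gr g y‖ - ⟪e, gr g y⟫) ≤
      (1 + 1 / (2 * γ)) * (d * ((N : ℝ) + 1)) * Dg g e y := by
    unfold Dg at hD ⊢
    apply mul_le_mul_of_nonneg_right _ hD
    apply mul_le_mul_of_nonneg_left (hn.trans hK)
    positivity
  have h5 : (∑ l, |(u l : ℝ)|) * ∑ z ∈ ball y ((N : ℤ) + 1), Hs g z ≤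
      (1 + 1 / (2 * γ)) * (d * ((N : ℝ) + 1)) * ∑ z ∈ ball y ((N : ℤ) + 1), Hs g z := by
    apply mul_le_mul_of_nonneg_right _ hH
    calc (∑ l, |(u l : ℝ)|) ≤ d * ((N : ℝ) + 1) := hK
      _ ≤ (1 + 1 / (2 * γ)) * (d * ((N : ℝ) + 1)) := by
        have : 0 ≤ (d : ℝ) * ((N : ℝ) + 1) := by positivity
        nlinarith
  rw [mul_add]
  linarith

/-! ### the path -/

private lemma clip_step (a : Pt d) (t : ℕ) (l : Fin d) : |clip a (t + 1) l - clip a t l| ≤ 1 := by
  unfold clip
  rw [abs_le]
  push_cast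
  constructor <;> omega

private lemma clip_zero (a : Pt d) : clip a 0 = 0 := by
  ext l
  unfold clip
  simp only [Nat.cast_zero, neg_zero, Pi.zero_apply]
  omega

private lemma clip_self (a : Pt d) (M : ℕ) (h : ∀ l, |a l| ≤ M) : clip a M = a := by
  ext l
  have := abs_le.mp (h l)
  unfold clip
  omega

private lemma clip_abs (a : Pt d) (t : ℕ) (l : Fin d) : |clip a t l| ≤ t := by
  unfold clip
  rw [abs_le]
  constructor <;> omega

/-- the displacement of the path after `t` steps -/
private noncomputable def pth (w a : Pt d) (t : ℕ) : Pt d := (t : ℤ) • w + clip a t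

private lemma pth_step (w a : Pt d) (t : ℕ) (l : Fin d) :
    |(pth w a (t + 1) - pth w a t) l - w l| ≤ 1 := by
  have : (pth w a (t + 1) - pth w a t) l - w l = clip a (t + 1) l - clip a t l := by
    simp only [pth, Pi.sub_apply, Pi.add_apply, Pi.smul_apply, smul_eq_mul]
    push_cast
    ring
  rw [this]
  exact clip_step a t l

private lemma pth_abs (N : ℕ) (w a : Pt d) (hw : ∀ l, |w l| ≤ N) (t M : ℕ) (htM : t ≤ M)
    (l : Fin d) : |pth w a t l| ≤ ((N : ℤ) + 1) * M := by
  have h1 : pth w a t l = (t : ℤ) * w l + clip a t l := by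
    simp only [pth, Pi.add_apply, Pi.smul_apply, smul_eq_mul]
  rw [h1]
  refine (abs_add_le _ _).trans ?_
  rw [abs_mul, abs_of_nonneg (Int.natCast_nonneg t)]
  have h2 := clip_abs a t l
  have h3 : (t : ℤ) * |w l| ≤ t * N := mul_le_mul_of_nonneg_left (hw l) (Int.natCast_nonneg t)
  have h4 : (t : ℤ) ≤ M := by exact_mod_cast htM
  have h5 : (0 : ℤ) ≤ N := Int.natCast_nonneg N
  nlinarith

private lemma path_tel (N : ℕ) {γ : ℝ} (hγ : 0 < γ) (g : Pt d → ℝ) {e : EE d} (he : ‖e‖ = 1)
    (w a : Pt d) (M : ℕ) (hw : ∀ l, |w l| ≤ N) (ha : ∀ l, |a l| ≤ M) (hc : Cone γ e w)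
    (y : Pt d) :
    g y - g (y + ((M : ℤ) • w + a)) ≤ ∑ t ∈ range M, (1 + 1 / (2 * γ)) * (d * ((N : ℝ) + 1)) *
      (Dg g e (y + pth w a t) + ∑ z ∈ ball (y + pth w a t) ((N : ℤ) + 1), Hs g z) := by
  have h0 : y + pth w a 0 = y := by simp [pth, clip_zero]
  have hM : y + ((M : ℤ) • w + a) = y + pth w a M := by
    simp only [pth, clip_self a M ha]
  have htel : g y - g (y + ((M : ℤ) • w + a)) =
      ∑ t ∈ range M, (g (y + pth w a t) - g (y + pth w a (t + 1))) := by
    rw [hM]
    conv_lhs => rw [← h0]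
    have := Finset.sum_range_sub' (fun t => g (y + pth w a t)) M
    rw [this]
    rw [h0]
  rw [htel]
  refine Finset.sum_le_sum fun t _ => ?_
  have := one_step N hγ g he w (pth w a (t + 1) - pth w a t) hw hc
    (fun l => pth_step w a t l) (y + pth w a t)
  have h2 : y + pth w a t + (pth w a (t + 1) - pth w a t) = y + pth w a (t + 1) := by abel
  rw [h2] at this
  exact this

private lemma sum_shift_le (h : Pt d → ℝ) (hh : ∀ z, 0 ≤ h z) (B S : Finset (Pt d)) (c : Pt d)
    (hBS : ∀ y ∈ B, y + c ∈ S) : ∑ y ∈ B, h (y + c) ≤ ∑ z ∈ S, h z := by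
  have h1 : ∑ y ∈ B, h (y + c) = ∑ z ∈ B.image (fun y => y + c), h z := by
    rw [Finset.sum_image]
    intro x _ y _ hxy
    exact add_right_cancel hxy
  rw [h1]
  apply Finset.sum_le_sum_of_subset_of_nonneg
  · intro z hz
    rw [Finset.mem_image] at hz
    obtain ⟨y, hy, rfl⟩ := hz
    exact hBS y hy
  · intro z _ _; exact hh z

private lemma sum_ball_eq (h : Pt d → ℝ) (p : Pt d) (r : ℤ) :
    ∑ z ∈ ball p r, h z = ∑ o ∈ ball (0 : Pt d) r, h (p + o) := by
  have h1 : ball p r = (ball (0 : Pt d) r).image (fun o => p + o) := by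
    ext z
    rw [Finset.mem_image, mem_ball_path]
    constructor
    · intro hz
      refine ⟨z - p, ?_, by abel⟩
      rw [mem_ball_path]
      intro l
      simpa using hz l
    · rintro ⟨o, ho, rfl⟩ l
      rw [mem_ball_path] at ho
      simpa using ho l
  rw [h1, Finset.sum_image]
  intro x _ y _ hxy
  exact add_left_cancel hxy

theorem path_sum (d N : ℕ) {γ : ℝ} (hγ : 0 < γ) : ∃ C : ℝ, 0 ≤ C ∧
    ∀ (g : Pt d → ℝ) (e : EE d) (w a : Pt d) (M : ℕ), ‖e‖ = 1 → Cone γ e w →
      (∀ l, |w l| ≤ N) → (∀ l, |a l| ≤ M) → ∀ B S : Finset (Pt d),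
      (∀ y ∈ B, ∀ z : Pt d, (∀ l, |z l - y l| ≤ (N + 1) * (M + 1)) → z ∈ S) →
      ∑ y ∈ B, (g y - g (y + ((M : ℤ) • w + a))) ≤
        C * M * (∑ z ∈ S, Dg g e z + ∑ z ∈ S, Hs g z) := by
  set C₁ : ℝ := (1 + 1 / (2 * γ)) * (d * ((N : ℝ) + 1)) with hC₁
  set Kb : ℝ := ((ball (0 : Pt d) ((N : ℤ) + 1)).card : ℝ) with hKb
  have hC₁0 : 0 ≤ C₁ := by positivity
  have hKb0 : 0 ≤ Kb := by positivity
  refine ⟨C₁ * (1 + Kb), by positivity, ?_⟩
  intro g e w a M he hc hw ha B S hS
  have hDS : 0 ≤ ∑ z ∈ S, Dg g e z := Finset.sum_nonneg fun z _ => Dg_nonneg' g he z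
  have hHS : 0 ≤ ∑ z ∈ S, Hs g z := Finset.sum_nonneg fun z _ => Hs_nonneg' g z
  calc ∑ y ∈ B, (g y - g (y + ((M : ℤ) • w + a)))
      ≤ ∑ y ∈ B, ∑ t ∈ range M, C₁ *
          (Dg g e (y + pth w a t) + ∑ z ∈ ball (y + pth w a t) ((N : ℤ) + 1), Hs g z) :=
        Finset.sum_le_sum fun y _ => path_tel N hγ g he w a M hw ha hc y
    _ = ∑ t ∈ range M, C₁ * (∑ y ∈ B, Dg g e (y + pth w a t) +
          ∑ y ∈ B, ∑ z ∈ ball (y + pth w a t) ((N : ℤ) + 1), Hs g z) := by
        rw [Finset.sum_comm]
        refine Finset.sum_congr rfl fun t _ => ?_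
        rw [← Finset.mul_sum, Finset.sum_add_distrib]
    _ ≤ ∑ t ∈ range M, C₁ * (1 + Kb) * (∑ z ∈ S, Dg g e z + ∑ z ∈ S, Hs g z) := by
        refine Finset.sum_le_sum fun t ht => ?_
        rw [Finset.mem_range] at ht
        have hp := pth_abs N w a hw t M ht.le
        have hN0 : (0 : ℤ) ≤ N := Int.natCast_nonneg N
        have h1 : ∑ y ∈ B, Dg g e (y + pth w a t) ≤ ∑ z ∈ S, Dg g e z := by
          apply sum_shift_le _ (fun z => Dg_nonneg' g he z)
          intro y hy
          apply hS y hy
          intro l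
          have : (y + pth w a t) l - y l = pth w a t l := by simp
          rw [this]
          have := hp l
          nlinarith
        have h2 : ∑ y ∈ B, ∑ z ∈ ball (y + pth w a t) ((N : ℤ) + 1), Hs g z ≤
            Kb * ∑ z ∈ S, Hs g z := by
          calc ∑ y ∈ B, ∑ z ∈ ball (y + pth w a t) ((N : ℤ) + 1), Hs g z
              = ∑ y ∈ B, ∑ o ∈ ball (0 : Pt d) ((N : ℤ) + 1), Hs g (y + (pth w a t + o)) := by
                refine Finset.sum_congr rfl fun y _ => ?_
                rw [sum_ball_eq]
                refine Finset.sum_congr rfl fun o _ => ?_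
                rw [add_assoc]
            _ = ∑ o ∈ ball (0 : Pt d) ((N : ℤ) + 1), ∑ y ∈ B, Hs g (y + (pth w a t + o)) :=
                Finset.sum_comm
            _ ≤ ∑ o ∈ ball (0 : Pt d) ((N : ℤ) + 1), ∑ z ∈ S, Hs g z := by
                refine Finset.sum_le_sum fun o ho => ?_
                apply sum_shift_le _ (fun z => Hs_nonneg' g z)
                intro y hy
                apply hS y hy
                intro l
                have : (y + (pth w a t + o)) l - y l = pth w a t l + o l := by simp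
                rw [this]
                have h3 := hp l
                rw [mem_ball_path] at ho
                have h4 := ho l
                simp only [Pi.zero_apply, sub_zero] at h4
                refine (abs_add_le _ _).trans ?_
                nlinarith
            _ = Kb * ∑ z ∈ S, Hs g z := by
                rw [Finset.sum_const, nsmul_eq_mul]
        rw [mul_assoc C₁ (1 + Kb)]
        apply mul_le_mul_of_nonneg_left _ hC₁0
        nlinarith
    _ = C₁ * (1 + Kb) * M * (∑ z ∈ S, Dg g e z + ∑ z ∈ S, Hs g z) := by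
        rw [Finset.sum_const, Finset.card_range, nsmul_eq_mul]
        ring

theorem path_pt (d N : ℕ) {γ : ℝ} (hγ : 0 < γ) : ∃ C : ℝ, 0 ≤ C ∧
    ∀ (g : Pt d → ℝ) (e : EE d) (w a : Pt d) (M : ℕ), ‖e‖ = 1 → Cone γ e w →
      (∀ l, |w l| ≤ N) → (∀ l, |a l| ≤ M) → ∀ (y : Pt d) (α β : ℝ),
      (∀ z : Pt d, (∀ l, |z l - y l| ≤ (N + 1) * (M + 1)) → Dg g e z ≤ α ∧ Hs g z ≤ β) →
      g y - g (y + ((M : ℤ) • w + a)) ≤ C * M * (α + β) := by
  set C₁ : ℝ := (1 + 1 / (2 * γ)) * (d * ((N : ℝ) + 1)) with hC₁
  set Kb : ℝ := ((ball (0 : Pt d) ((N : ℤ) + 1)).card : ℝ) with hKb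
  have hC₁0 : 0 ≤ C₁ := by positivity
  have hKb0 : 0 ≤ Kb := by positivity
  refine ⟨C₁ * (1 + Kb), by positivity, ?_⟩
  intro g e w a M he hc hw ha y α β h
  have hN0 : (0 : ℤ) ≤ N := Int.natCast_nonneg N
  have hM0 : (0 : ℤ) ≤ M := Int.natCast_nonneg M
  have hy := h y (by intro l; simp only [sub_self, abs_zero]; positivity)
  have hα : 0 ≤ α := (Dg_nonneg' g he y).trans hy.1
  have hβ : 0 ≤ β := (Hs_nonneg' g y).trans hy.2
  calc g y - g (y + ((M : ℤ) • w + a))
      ≤ ∑ t ∈ range M, C₁ *
          (Dg g e (y + pth w a t) + ∑ z ∈ ball (y + pth w a t) ((N : ℤ) + 1), Hs g z) :=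
        path_tel N hγ g he w a M hw ha hc y
    _ ≤ ∑ t ∈ range M, C₁ * (1 + Kb) * (α + β) := by
        refine Finset.sum_le_sum fun t ht => ?_
        rw [Finset.mem_range] at ht
        have hp := pth_abs N w a hw t M ht.le
        have h1 : Dg g e (y + pth w a t) ≤ α := by
          refine (h _ ?_).1
          intro l
          have : (y + pth w a t) l - y l = pth w a t l := by simp
          rw [this]
          have := hp l
          nlinarith
        have h2 : ∑ z ∈ ball (y + pth w a t) ((N : ℤ) + 1), Hs g z ≤ Kb * β := by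
          rw [sum_ball_eq]
          have : ∀ o ∈ ball (0 : Pt d) ((N : ℤ) + 1), Hs g (y + pth w a t + o) ≤ β := by
            intro o ho
            refine (h _ ?_).2
            intro l
            have h5 : (y + pth w a t + o) l - y l = pth w a t l + o l := by
              simp only [Pi.add_apply]; ring
            rw [h5]
            have h3 := hp l
            rw [mem_ball_path] at ho
            have h4 := ho l
            simp only [Pi.zero_apply, sub_zero] at h4
            refine (abs_add_le _ _).trans ?_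
            nlinarith
          have := Finset.sum_le_card_nsmul _ _ _ this
          rw [nsmul_eq_mul] at this
          exact this
        rw [mul_assoc C₁ (1 + Kb)]
        apply mul_le_mul_of_nonneg_left _ hC₁0
        nlinarith
    _ = C₁ * (1 + Kb) * M * (α + β) := by
        rw [Finset.sum_const, Finset.card_range, nsmul_eq_mul]
        ring

end Pool.Agent.W11
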