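import Pool.Agent.W11.KeyPt
import Pool.Agent.W11.Path

/-!
W11 M6: pointwise path lemma at a fixed level (helper82).
-/

set_option autoImplicit false

open Finset
open scoped RealInnerProductSpace

namespace Pool.Agent.W11

variable {d : ℕ}

/-- pointwise path at level `i` -/
theorem pt_path (d N k : ℕ) {γ : ℝ} (hγ : 0 < γ) (B : ℝ) : ∃ (c : ℕ) (C : ℝ), 0 ≤ C ∧
    ∀ (f : Pt d → ℝ) (e : EE d) (i : ℕ) (v : Pt d) (P : ℝ), 2 ≤ i → Ctl f c B e i v P →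
    ∀ (w a : Pt d) (M : ℕ), (∀ l, |w l| ≤ N) → Cone γ e w → (∀ l, |a l| ≤ M) → M ≤ k * 4 ^ i →
    ∀ y ∈ W k i v, sm f i y - sm f i (y + ((M : ℤ) • w + a)) ≤ C * ep d i P := by
  obtain ⟨C₁, hC₁, h1⟩ := path_pt d N hγ
  obtain ⟨C₂, hC₂, h2⟩ := pt_bds d B
  refine ⟨k + (N + 1) * (k + 1) + 1, C₁ * k * (C₂ + C₂), by positivity, ?_⟩
  intro f e i v P hi hC w a M hw hcone ha hM y hy
  have hP := Ctl_P_nonneg hC
  have h3 := h1 (sm f i) e w a M hC.1 hcone hw ha y (C₂ * (P / ((4 : ℝ) ^ i) ^ d))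
    (C₂ * (P / ((4 : ℝ) ^ i) ^ d)) (by
      intro z hz
      refine h2 f e (k + (N + 1) * (k + 1)) i v P hi hC z ?_
      have h4 : z = y + (z - y) := by abel
      rw [h4]
      refine Wadd_mem hy fun l => ?_
      have h5 := hz l
      have h6 : (M : ℤ) ≤ k * 4 ^ i := by exact_mod_cast hM
      have h7 : (1 : ℤ) ≤ 4 ^ i := by
        have : (0 : ℤ) < 4 ^ i := by positivity
        omega
      have h8 : ((N : ℤ) + 1) * ((M : ℤ) + 1) ≤ ((N : ℤ) + 1) * ((k + 1) * 4 ^ i) := by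
        refine mul_le_mul_of_nonneg_left ?_ (by positivity)
        linarith
      rw [Pi.sub_apply]
      push_cast
      calc |z l - y l| ≤ ((N : ℤ) + 1) * ((M : ℤ) + 1) := h5
        _ ≤ _ := h8
        _ = _ := by ring)
  refine h3.trans ?_
  have h9 : (M : ℝ) ≤ k * 4 ^ i := by exact_mod_cast hM
  have h10 : 0 ≤ P / ((4 : ℝ) ^ i) ^ d := by positivity
  calc C₁ * M * (C₂ * (P / ((4 : ℝ) ^ i) ^ d) + C₂ * (P / ((4 : ℝ) ^ i) ^ d))
      = (C₁ * ((C₂ + C₂) * (P / ((4 : ℝ) ^ i) ^ d))) * M := by ring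
    _ ≤ (C₁ * ((C₂ + C₂) * (P / ((4 : ℝ) ^ i) ^ d))) * (k * 4 ^ i) :=
        mul_le_mul_of_nonneg_left h9 (by positivity)
    _ = C₁ * k * (C₂ + C₂) * ep d i P := by
        unfold ep
        ring

end Pool.Agent.W11
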