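import Pool.Agent.W11.Basic
import Pool.Agent.W11.Second

/-!
W11 M6: pointwise bounds at a fixed level (helper82).
-/

set_option autoImplicit false

open Finset
open scoped RealInnerProductSpace

namespace Pool.Agent.W11

variable {d : ℕ}

lemma Wadd_mem {c k i : ℕ} {v z u : Pt d} (hz : z ∈ W c i v) (hu : ∀ l, |u l| ≤ k * 4 ^ i) :
    z + u ∈ W (c + k) i v := by
  rw [mem_W'] at hz ⊢
  intro l
  have h1 := hz l
  have h2 := abs_le.1 (hu l)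
  have h4 : (0 : ℤ) < 4 ^ i := by positivity
  push_cast
  rw [Pi.add_apply]
  constructor
  · nlinarith [h1.1, h2.1]
  · nlinarith [h1.2, h2.2]

lemma Ctl_P_nonneg {f : Pt d → ℝ} {c i : ℕ} {B P : ℝ} {e : EE d} {v : Pt d}
    (h : Ctl f c B e i v P) : 0 ≤ P :=
  le_trans (mul_nonneg (by positivity) (Finset.sum_nonneg fun _ _ =>
    Finset.sum_nonneg fun _ _ => nG_nonneg _ _ _)) h.2.2

lemma Ctl_D_le {f : Pt d → ℝ} {c i : ℕ} {B P : ℝ} {e : EE d} {v : Pt d}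
    (h : Ctl f c B e i v P) {j : ℕ} (hj : j ≤ i) :
    ∑ z ∈ W c i v, D f j e z ≤ |B| * (4 ^ (i - j) * P) := by
  have hP := Ctl_P_nonneg h
  have h1 : (1 / 4 : ℝ) ^ (i - j) * ∑ z ∈ W c i v, D f j e z ≤ |B| * P := by
    refine le_trans (le_trans ?_ h.2.1) (mul_le_mul_of_nonneg_right (le_abs_self B) hP)
    refine Finset.single_le_sum (f := fun j => (1 / 4 : ℝ) ^ (i - j) * ∑ z ∈ W c i v, D f j e z)
      (fun j _ => mul_nonneg (by positivity)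
        (Finset.sum_nonneg fun _ _ => D_nonneg _ _ h.1.le _)) ?_
    exact Finset.mem_range.2 (by omega)
  have h4 : (0 : ℝ) < 4 ^ (i - j) := by positivity
  rw [one_div, inv_pow, inv_mul_le_iff₀ h4] at h1
  linarith

lemma Ctl_nG_le {f : Pt d → ℝ} {c i : ℕ} {B P : ℝ} {e : EE d} {v : Pt d}
    (h : Ctl f c B e i v P) {j : ℕ} (hj : j ≤ i) :
    ∑ z ∈ W c i v, nG f j z ≤ 4 ^ i * P := by
  have h1 : (1 / 4 : ℝ) ^ i * ∑ z ∈ W c i v, nG f j z ≤ P := by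
    refine le_trans ?_ h.2.2
    refine mul_le_mul_of_nonneg_left ?_ (by positivity)
    refine Finset.single_le_sum (f := fun j => ∑ z ∈ W c i v, nG f j z)
      (fun j _ => Finset.sum_nonneg fun _ _ => nG_nonneg _ _ _) ?_
    exact Finset.mem_range.2 (by omega)
  have h4 : (0 : ℝ) < 4 ^ i := by positivity
  rw [one_div, inv_pow, inv_mul_le_iff₀ h4] at h1
  exact h1

/-- pointwise bounds of the defect and of the second differences at level `i` -/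
lemma pt_bds (d : ℕ) (B : ℝ) : ∃ C : ℝ, 0 ≤ C ∧ ∀ (f : Pt d → ℝ) (e : EE d) (c i : ℕ) (v : Pt d)
    (P : ℝ), 2 ≤ i → Ctl f (c + 1) B e i v P → ∀ z ∈ W c i v,
      D f i e z ≤ C * (P / ((4 : ℝ) ^ i) ^ d) ∧ Hs (sm f i) z ≤ C * (P / ((4 : ℝ) ^ i) ^ d) := by
  obtain ⟨C₀, hC₀, h0⟩ := Hs_pt d
  refine ⟨4 ^ d * (|B| * 4) + C₀ * (16 * 16 ^ d), by positivity, ?_⟩
  intro f e c i v P hi hC z hz
  obtain ⟨k, rfl⟩ : ∃ k, i = k + 2 := ⟨i - 2, by omega⟩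
  have hP := Ctl_P_nonneg hC
  have hadd : ∀ y : Pt d, (∀ l, 0 ≤ y l ∧ y l ≤ 4 ^ (k + 2)) → z + y ∈ W (c + 1) (k + 2) v := by
    intro y hy
    refine Wadd_mem hz fun l => ?_
    rw [abs_of_nonneg (hy l).1]
    push_cast
    linarith [(hy l).2]
  have e1 : ((4 : ℝ) ^ (k + 2)) ^ d = ((4 : ℝ) ^ (k + 1)) ^ d * 4 ^ d := by
    rw [← mul_pow]; congr 1
  have e2 : ((4 : ℝ) ^ (k + 2)) ^ d = ((4 : ℝ) ^ k) ^ d * 16 ^ d := by
    rw [← mul_pow]; congr 1; rw [pow_add]; norm_num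
  have hk1 : (0 : ℝ) < ((4 : ℝ) ^ (k + 1)) ^ d := by positivity
  have hk : (0 : ℝ) < ((4 : ℝ) ^ k) ^ d := by positivity
  have hq : 0 ≤ P / ((4 : ℝ) ^ (k + 2)) ^ d := by positivity
  constructor
  · have h1 : D f (k + 1 + 1) e z ≤ (((4 : ℝ) ^ (k + 1)) ^ d)⁻¹ *
        ∑ z' ∈ W (c + 1) (k + 2) v, D f (k + 1) e z' := by
      refine D_pt f (k + 1) hC.1.le z _ ?_
      intro y hy
      rw [mem_bx] at hy
      refine hadd y fun l => ⟨(hy l).1, ?_⟩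
      have h3 := (hy l).2
      have h4 : (4 : ℤ) ^ (k + 2) = 4 * 4 ^ (k + 1) := by ring
      have h5 : (0 : ℤ) < 4 ^ (k + 1) := by positivity
      push_cast at h3
      linarith
    have h2 := Ctl_D_le hC (j := k + 1) (by omega)
    have h3 : k + 2 - (k + 1) = 1 := by omega
    rw [h3] at h2
    have h4 : (((4 : ℝ) ^ (k + 1)) ^ d)⁻¹ * (|B| * (4 ^ 1 * P)) =
        4 ^ d * (|B| * 4) * (P / ((4 : ℝ) ^ (k + 2)) ^ d) := by
      rw [e1]
      field_simp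
    have h5 : 0 ≤ C₀ * (16 * 16 ^ d) * (P / ((4 : ℝ) ^ (k + 2)) ^ d) := by positivity
    have h6 := mul_le_mul_of_nonneg_left h2 (inv_nonneg.2 hk1.le)
    calc D f (k + 2) e z ≤ _ := h1
      _ ≤ _ := h6
      _ = _ := h4
      _ ≤ _ := by linarith [h5]
  · have h1 := h0 f k z (W (c + 1) (k + 2) v) (by
      intro y hy
      refine hadd y fun l => ⟨(hy l).1, ?_⟩
      have h3 := (hy l).2
      have h4 : (4 : ℤ) ^ (k + 2) = 4 * 4 ^ (k + 1) := by ring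
      have h5 : (0 : ℤ) < 4 ^ (k + 1) := by positivity
      linarith)
    have h2 := Ctl_nG_le hC (j := k) (by omega)
    have h4 : C₀ / ((4 : ℝ) ^ k * ((4 : ℝ) ^ k) ^ d) * (4 ^ (k + 2) * P) =
        C₀ * (16 * 16 ^ d) * (P / ((4 : ℝ) ^ (k + 2)) ^ d) := by
      rw [e2]
      have : (4 : ℝ) ^ (k + 2) = 4 ^ k * 16 := by ring
      rw [this]
      field_simp
    have h5 : 0 ≤ 4 ^ d * (|B| * 4) * (P / ((4 : ℝ) ^ (k + 2)) ^ d) := by positivity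
    have h6 := mul_le_mul_of_nonneg_left h2
      (show 0 ≤ C₀ / ((4 : ℝ) ^ k * ((4 : ℝ) ^ k) ^ d) by positivity)
    calc Hs (sm f (k + 2)) z ≤ _ := h1
      _ ≤ _ := h6
      _ = _ := h4
      _ ≤ _ := by linarith [h5]

end Pool.Agent.W11
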