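import Mathlib
import Pool.Agent.Lib.H58FracMaxFinal

open Finset MeasureTheory

namespace Pool.Agent.Results.MP_2332c1_an.UncenteredPositiveBeta

variable {d : ℕ}

/-- A lattice point of `ℤ^d`, viewed as a vector of `ℝ^d`. -/
def toReal (m : Fin d → ℤ) : Fin d → ℝ := fun i => (m i : ℝ)

/-- The closed set `Ω̄(x, r)`: it is `{y : r⁻¹ (y - x) ∈ closure Ω}` for `r ≠ 0`, and `{x}` for
`r = 0`. -/
def dilate (Ω : Set (Fin d → ℝ)) (x : Fin d → ℝ) (r : ℝ) : Set (Fin d → ℝ) :=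
  open Classical in if r = 0 then {x} else {y | r⁻¹ • (y - x) ∈ closure Ω}

/-- The lattice points of `Ω̄(x, r)`. -/
def lattice (Ω : Set (Fin d → ℝ)) (x : Fin d → ℝ) (r : ℝ) : Set (Fin d → ℤ) :=
  {m | toReal m ∈ dilate Ω x r}

/-- `N(x, r)`, the number of lattice points of `Ω̄(x, r)`. -/
noncomputable def count (Ω : Set (Fin d → ℝ)) (x : Fin d → ℝ) (r : ℝ) : ℕ :=
  (lattice Ω x r).ncard

/-- The uncentered discrete fractional maximal function `ℳ̃_{Ω,β} f`: the supremum runs over all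
`x ∈ ℝ^d`, `r ≥ 0` with `n ∈ Ω̄(x, r)`. -/
noncomputable def uncentered (Ω : Set (Fin d → ℝ)) (β : ℝ) (f : (Fin d → ℤ) → ℝ)
    (n : Fin d → ℤ) : ℝ :=
  ⨆ p : {p : (Fin d → ℝ) × ℝ // 0 ≤ p.2 ∧ n ∈ lattice Ω p.1 p.2},
    (1 / (count Ω p.1.1 p.1.2 : ℝ) ^ (1 - β / d)) * ∑' m : lattice Ω p.1.1 p.1.2, |f m|

/-- The discrete gradient, as a vector of Euclidean space. -/
noncomputable def grad (g : (Fin d → ℤ) → ℝ) (n : Fin d → ℤ) : EuclideanSpace ℝ (Fin d) :=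
  WithLp.toLp 2 (fun i => g (n + Pi.single i 1) - g n)

open Pool.Agent.Lib.H58FracMax

lemma lattice_eq {Ω : Set (Fin d → ℝ)} {ρ R : ℝ} (h : Body (closure Ω) ρ R) (x : Fin d → ℝ)
    {r : ℝ} (_hr : 0 ≤ r) : lattice Ω x r = LS (closure Ω) x r := by
  ext m
  unfold lattice LS dilate
  simp only [Set.mem_ofPred_eq]
  by_cases h0 : r = 0
  · rw [if_pos h0, Set.mem_singleton_iff]
    constructor
    · intro hm
      exact ⟨0, h.zero_mem, by rw [h0, zero_smul, add_zero]; exact hm⟩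
    · rintro ⟨z, _, hz⟩
      rw [h0, zero_smul, add_zero] at hz
      exact hz
  · rw [if_neg h0, Set.mem_ofPred_eq]
    constructor
    · intro hm
      refine ⟨_, hm, ?_⟩
      rw [smul_smul, mul_inv_cancel₀ h0, one_smul]
      change toReal m = x + (toReal m - x)
      abel
    · rintro ⟨z, hz, hzz⟩
      have : toReal m - x = r • z := by
        change toReal m = x + r • z at hzz
        rw [hzz]; abel
      rw [this, smul_smul, inv_mul_cancel₀ h0, one_smul]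
      exact hz

lemma term_eq {Ω : Set (Fin d → ℝ)} {ρ R : ℝ} (h : Body (closure Ω) ρ R) (β : ℝ)
    (f : (Fin d → ℤ) → ℝ) (x : Fin d → ℝ) {r : ℝ} (hr : 0 ≤ r) :
    (1 / (count Ω x r : ℝ) ^ (1 - β / d)) * ∑' m : lattice Ω x r, |f m|
      = avg (1 - β / d) (fun m => |f m|) (h.L x hr) := by
  have h1 : lattice Ω x r = ((h.L x hr : Finset (Fin d → ℤ)) : Set (Fin d → ℤ)) := by
    rw [lattice_eq h x hr, h.coe_L]
  unfold count avg
  rw [h1, Set.ncard_coe_finset, Finset.tsum_subtype' (h.L x hr) (fun m => |f m|),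
    Real.rpow_neg (Nat.cast_nonneg _), one_div]

lemma isLUB_uncentered {Ω : Set (Fin d → ℝ)} {ρ R : ℝ} (h : Body (closure Ω) ρ R) {β : ℝ}
    (hs : 0 ≤ 1 - β / d) {f : (Fin d → ℤ) → ℝ} (hf : Summable f) (n : Fin d → ℤ) :
    IsLUB {a | ∃ B ∈ unc (closure Ω) n, a = avg (1 - β / d) (fun m => |f m|) B}
      (uncentered Ω β f n) := by
  have h1 : {a | ∃ B ∈ unc (closure Ω) n, a = avg (1 - β / d) (fun m => |f m|) B}
      = Set.range (fun p : {p : (Fin d → ℝ) × ℝ // 0 ≤ p.2 ∧ n ∈ lattice Ω p.1 p.2} =>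
    (1 / (count Ω p.1.1 p.1.2 : ℝ) ^ (1 - β / d)) * ∑' m : lattice Ω p.1.1 p.1.2, |f m|) := by
    ext a
    constructor
    · rintro ⟨B, ⟨x, r, hr, hn, hB⟩, rfl⟩
      obtain rfl := h.eq_L hr hB
      refine ⟨⟨(x, r), hr, ?_⟩, term_eq h β f x hr⟩
      rw [lattice_eq h x hr]; exact hn
    · rintro ⟨⟨⟨x, r⟩, hr, hn⟩, rfl⟩
      simp only at hr hn
      rw [lattice_eq h x hr] at hn
      exact ⟨h.L x hr, ⟨x, r, hr, hn, h.coe_L _ hr⟩, term_eq h β f x hr⟩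
  rw [h1]
  have : Nonempty {p : (Fin d → ℝ) × ℝ // 0 ≤ p.2 ∧ n ∈ lattice Ω p.1 p.2} := by
    refine ⟨⟨(toReal n, 0), le_rfl, ?_⟩⟩
    rw [lattice_eq h _ le_rfl]
    exact ⟨0, h.zero_mem, by rw [zero_smul, add_zero]; rfl⟩
  refine isLUB_ciSup ?_
  refine ⟨∑' m, |f m|, ?_⟩
  rintro _ ⟨⟨⟨x, r⟩, hr, hn⟩, rfl⟩
  simp only at hr
  change (1 / (count Ω x r : ℝ) ^ (1 - β / d)) * ∑' m : lattice Ω x r, |f m| ≤ _
  rw [term_eq h β f x hr]
  exact avg_le_tsum hs (fun _ => abs_nonneg _) hf.abs _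

/-- **Endpoint gradient bound, uncentered case, all `0 < β < 1`.** For every `d ≥ 1`, every bounded
open convex `Ω ∋ 0`, every `0 < β < 1` and `0 ≤ α ≤ β`, with `q = d / (d - β + α)`, there is a
constant `C` such that for every `f ∈ ℓ¹(ℤ^d)` the gradient of `ℳ̃_{Ω,β} f` is in `ℓ^q` and
`‖∇ℳ̃_{Ω,β} f‖_q ≤ C ‖∇f‖₁^{1-α} ‖f‖₁^α`. -/
theorem result (d : ℕ) (hd : 1 ≤ d) (Ω : Set (Fin d → ℝ)) (hΩo : IsOpen Ω)
    (hΩb : Bornology.IsBounded Ω) (hΩc : Convex ℝ Ω) (h0 : (0 : Fin d → ℝ) ∈ Ω)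
    (β α q : ℝ) (hβ0 : 0 < β) (hβ1 : β < 1) (hα0 : 0 ≤ α) (hαβ : α ≤ β)
    (hq : q = d / (d - β + α)) :
    ∃ C : ℝ, ∀ f : (Fin d → ℤ) → ℝ, Summable f →
      Summable (fun n => ‖grad (uncentered Ω β f) n‖ ^ q) ∧
      (∑' n, ‖grad (uncentered Ω β f) n‖ ^ q) ^ (1 / q) ≤
        C * (∑' n, ‖grad f n‖) ^ (1 - α) * (∑' n, |f n|) ^ α := by
  have hd1 : (1 : ℝ) ≤ d := by exact_mod_cast hd
  obtain ⟨ρ, R, h⟩ := exists_body hΩo hΩb hΩc h0
  obtain ⟨C, hG⟩ := h.good_unc hd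
  have hβd : β < d := by linarith
  have hs : 0 ≤ 1 - β / d := by
    rw [sub_nonneg, div_le_one (by linarith)]; linarith
  obtain ⟨C', hC'⟩ := finalBound hd hα0 (by linarith) hαβ hβ0 hβd hq hG
  exact ⟨C', fun f hf => hC' f hf (uncentered Ω β f) fun n => isLUB_uncentered h hs hf n⟩

end Pool.Agent.Results.MP_2332c1_an.UncenteredPositiveBeta
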